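import Pool.Agent.H46.TE.Pth
import Pool.Agent.H12.LPK.Evp

/-!
# Ties of the own paths of two labels, on one event
-/

set_option autoImplicit false

namespace Pool.TE46

open Finset Real MvPolynomial
open Pool.Agent.H49.Ent Pool.Agent.H32.Dense Pool.STK Pool.KA Pool.KSAT Pool.K2S Pool.PB Pool.GEN
open Pool.S6C Pool.LA91 Pool.OWN68 Pool.AJ18 Pool.PAIR76 Pool.PN18 Pool.LPK12 Pool.PR46 Pool.PS46
open Pool.BFL (Pb)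

/-- Change of the condition. -/
theorem cond_conv {Ω S T T' U : Type} [Fintype Ω] {q : Ω → ℝ} (hq : ∀ ω, 0 ≤ q ω) (X : Ω → S)
    (N : Ω → T) (N' : Ω → T') (Z : Ω → U) :
    CH q X (fun ω => (N' ω, Z ω)) ≤ CH q X (fun ω => (N ω, Z ω)) +
      CH q N (fun ω => (N' ω, Z ω)) := by
  have e1 := CH_le_add hq X N (fun ω => (N' ω, Z ω))
  have e2 : CH q X (fun ω => (N ω, (N' ω, Z ω))) ≤ CH q X (fun ω => (N ω, Z ω)) :=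
    CH_mono_cond hq fun ω ω' _ _ e => by
      simp only [Prod.mk.injEq] at e ⊢
      exact ⟨e.1, e.2.2⟩
  linarith

/-- The scales of the path. -/
theorem pj_scale {m J : ℕ} {F : Fam m J} {W : ℕ} (hWJ : W ≤ J) {κ : Fin m} {V : Type}
    {z' : LnT F → V} {G : V → MvPolynomial (Option (Fin m)) ℝ} {s s' x : ℝ} (hs : s = s' + x)
    (j : ℕ) (ω : F.Ω) :
    pj F (jR F W (2 ^ (s * J)) κ z' G) W j ω / 2 ^ (x * J) =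
      pj F (jR F W (2 ^ (s' * J)) κ z' G) W j ω := by
  have h1 : pj F (jR F W (2 ^ (s * J)) κ z' G) W j ω = 2 ^ (s * J) * (1 / 2 ^ (W + 1)) ^ j *
      ojet F κ j (G (z' (slam F W ω))) ω := jR_jet hWJ ω j
  have h2 : pj F (jR F W (2 ^ (s' * J)) κ z' G) W j ω = 2 ^ (s' * J) * (1 / 2 ^ (W + 1)) ^ j *
      ojet F κ j (G (z' (slam F W ω))) ω := jR_jet hWJ ω j
  have h3 : (2 : ℝ) ^ (s * J) = 2 ^ (s' * J) * 2 ^ (x * J) := by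
    rw [← Real.rpow_add (by norm_num), hs]
    congr 1
    ring
  have h4 : (0 : ℝ) < 2 ^ (x * J) := Real.rpow_pos_of_pos (by norm_num) _
  rw [h1, h2, h3]
  field_simp

/-- The value. -/
theorem pj_oj0 {m J : ℕ} {F : Fam m J} {W : ℕ} (hWJ : W ≤ J) {κ : Fin m} {V : Type}
    {z' : LnT F → V} {G : V → MvPolynomial (Option (Fin m)) ℝ} (s : ℝ) (ω : F.Ω) :
    ⌊pj F (jR F W (2 ^ (s * J)) κ z' G) W 0 ω⌋ = oj F κ z' G W s 0 ω := by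
  have h1 : pj F (jR F W (2 ^ (s * J)) κ z' G) W 0 ω = 2 ^ (s * J) * (1 / 2 ^ (W + 1)) ^ 0 *
      ojet F κ 0 (G (z' (slam F W ω))) ω := jR_jet hWJ ω 0
  unfold oj
  rw [h1, pow_zero, mul_one]

/-- **The slope of a tie of the own paths of two labels.** -/
theorem tie_ev (D : ℕ) {i : ℕ} (hi : 1 ≤ i ∧ i ≤ D) {α h ε c₁ : ℝ} (hα : 0 < α) (hh : 0 < h)
    (hhα : h ≤ α) (hε : 0 < ε) (hε1 : ε ≤ 1) (hc₁ : 0 < c₁) (hc₁1 : c₁ ≤ 1) :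
    ∃ ε' : ℝ, 0 < ε' ∧ ∃ δ : ℝ, 0 < δ ∧ ∃ c₀ : ℝ, 0 < c₀ ∧ ∃ N₀ : ℕ, 0 < N₀ ∧
    ∀ al : ℝ, 0 < al → ∃ δ₁ : ℝ, 0 < δ₁ ∧
    ∀ {w q : ℝ} (_ : 0 ≤ w) (_ : 0 < q) (_ : w + α * q ≤ 1),
    ∃ J₀ : ℕ, ∀ J ≥ J₀, ∀ {m : ℕ} (F : Fam m J) (A : F.Ω → Prop) (_ : 0 < Pe F.p A)
      {κ₁ κ₂ : Fin m} {V C Γ 𝒜 ℰ : Type} (z' : LnT F → V)
      (G₁ G₂ : V → MvPolynomial (Option (Fin m)) ℝ) (c : LnT F → C) (Y : F.Ω → Γ)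
      (Ap : F.Ω → 𝒜) (Ep : F.Ω → ℰ) {p₁ p₂ : ℝ} {N₁ N₂ : ℕ → ℝ},
    (∀ v, (X (some κ₁) - G₁ v).totalDegree ≤ D) → (∀ v, (X (some κ₂) - G₂ v).totalDegree ≤ D) →
    (J : ℝ) * Real.log 2 - δ₁ * q * J ≤
      CH (Pool.Agent.H49.Ent.cond F.p A True) F.T (fun ω => (F.l ω, F.Z ω)) →
    (∀ ω ω', A ω → A ω' → Y ω = Y ω' → F.T ω = F.T ω' ∧ F.Z ω = F.Z ω') →
    CH (Pool.Agent.H49.Ent.cond F.p A True)
      (fun ω => (z' (slam F ⌊w * J⌋₊ ω), c (slam F ⌊w * J⌋₊ ω))) Y ≤ δ₁ * q * J →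
    NwE D {i} w p₁ α q N₁ → NwE D {i} w p₂ α q N₂ →
    JwE F A κ₁ z' G₁ ⌊w * J⌋₊ D N₁ Y (δ₁ * q * J) →
    JwE F A κ₂ z' G₂ ⌊w * J⌋₊ D N₂ Y (δ₁ * q * J) →
    CH (Pool.Agent.H49.Ent.cond F.p A True)
        (fun ω => (oj F κ₁ z' G₁ ⌊w * J⌋₊ (p₁ + α * q - i * w) i ω,
          oj F κ₂ z' G₂ ⌊w * J⌋₊ (p₂ + α * q - i * w) i ω))
        (fun ω => ((oj F κ₁ z' G₁ ⌊w * J⌋₊ (p₁ - i * w) i ω,
          oj F κ₂ z' G₂ ⌊w * J⌋₊ (p₂ - i * w) i ω),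
            (z' (slam F ⌊w * J⌋₊ ω), (c (slam F ⌊w * J⌋₊ ω), F.W ω)))) ≤
      CH (Pool.Agent.H49.Ent.cond F.p A True)
        (fun ω => (oj F κ₁ z' G₁ ⌊w * J⌋₊ (p₁ + α * q - i * w) i ω,
          oj F κ₂ z' G₂ ⌊w * J⌋₊ (p₂ + α * q - i * w) i ω))
        (fun ω => ((z' (slam F ⌊w * J⌋₊ ω), c (slam F ⌊w * J⌋₊ ω)), Y ω)) + δ₁ * q * J →
    (∀ j, i < j → j ≤ D →
      CH (Pool.Agent.H49.Ent.cond F.p A True) (oj F κ₁ z' G₁ ⌊w * J⌋₊ (p₁ + α * q - j * w) j)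
        (fun ω => (z' (slam F ⌊w * J⌋₊ ω), (c (slam F ⌊w * J⌋₊ ω), F.W ω))) ≤ δ₁ * q * J ∧
      CH (Pool.Agent.H49.Ent.cond F.p A True) (oj F κ₂ z' G₂ ⌊w * J⌋₊ (p₂ + α * q - j * w) j)
        (fun ω => (z' (slam F ⌊w * J⌋₊ ω), (c (slam F ⌊w * J⌋₊ ω), F.W ω))) ≤ δ₁ * q * J) →
    (∀ E : F.Ω → Prop, Sub E A → c₀ * Pe F.p A ≤ Pe F.p E →
      al * q * J ≤ CH (Pool.Agent.H49.Ent.cond F.p E True)
        (oj F κ₁ z' G₁ ⌊w * J⌋₊ (p₁ + ε' * (α * q) - i * w) i) Y) →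
    RwE F A κ₂ κ₁ z' G₂ G₁ c ⌊w * J⌋₊ (p₂ - α * q) (p₁ - α * q) α α (2 * q) h (δ * q) c₀ N₀ →
    (∀ ω ω', A ω → A ω' → Ap ω = Ap ω' → Ep ω = Ep ω' →
      z' (slam F ⌊w * J⌋₊ ω) = z' (slam F ⌊w * J⌋₊ ω') ∧
        c (slam F ⌊w * J⌋₊ ω) = c (slam F ⌊w * J⌋₊ ω') ∧ F.W ω = F.W ω') →
    (∀ ω ω', A ω → A ω' → z' (slam F ⌊w * J⌋₊ ω) = z' (slam F ⌊w * J⌋₊ ω') →
      c (slam F ⌊w * J⌋₊ ω) = c (slam F ⌊w * J⌋₊ ω') → F.W ω = F.W ω' →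
        Ap ω = Ap ω' ∧ Ep ω = Ep ω') →
    CH (Pool.Agent.H49.Ent.cond F.p A True) Ep Ap ≤
      CH (Pool.Agent.H49.Ent.cond F.p A True) Ep (fun ω => (Ap ω,
        (oj F κ₁ z' G₁ ⌊w * J⌋₊ (p₁ + α * q) 0 ω,
          oj F κ₂ z' G₂ ⌊w * J⌋₊ (p₂ + α * q) 0 ω))) + δ₁ * q * J →
    ∃ (r : ℕ) (kc : LnT F → ℤ) (kz : 𝒜 × (ℤ × ℤ) → ℤ), 1 ≤ r ∧
      (r : ℝ) ≤ (2 : ℝ) ^ (ε * (⌈α * q * J⌉₊ : ℕ)) ∧
      (∀ ω, 0 < Pool.Agent.H49.Ent.cond F.p A True ω →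
        |(kc (slam F ⌊w * J⌋₊ ω) : ℝ)| * r ≤
          (2 : ℝ) ^ (ε * (⌈α * q * J⌉₊ : ℕ)) * 2 ^ ⌈α * q * J⌉₊) ∧
      Pb (Pool.Agent.H49.Ent.cond F.p A True) (fun ω => kc (slam F ⌊w * J⌋₊ ω) ≠
        kz (Ap ω, (oj F κ₁ z' G₁ ⌊w * J⌋₊ (p₁ + α * q) 0 ω,
          oj F κ₂ z' G₂ ⌊w * J⌋₊ (p₂ + α * q) 0 ω))) ≤ ε ∧
      ∀ S : F.Ω → Prop, c₁ ≤ Pb (Pool.Agent.H49.Ent.cond F.p A True) S →
        (∀ ω, S ω → kc (slam F ⌊w * J⌋₊ ω) =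
          kz (Ap ω, (oj F κ₁ z' G₁ ⌊w * J⌋₊ (p₁ + α * q) 0 ω,
            oj F κ₂ z' G₂ ⌊w * J⌋₊ (p₂ + α * q) 0 ω))) →
        CH (Pool.Agent.H49.Ent.cond (Pool.Agent.H49.Ent.cond F.p A True) S True)
          (fun ω => lc (2 ^ ⌈α * q * J⌉₊) r (kc (slam F ⌊w * J⌋₊ ω))
            (oj F κ₁ z' G₁ ⌊w * J⌋₊ (p₁ + α * q) 0 ω)
            (oj F κ₂ z' G₂ ⌊w * J⌋₊ (p₂ + α * q) 0 ω))
          (fun ω => ((oj F κ₁ z' G₁ ⌊w * J⌋₊ (p₁ + α * q) 0 ω / ((2 ^ ⌈α * q * J⌉₊ : ℕ) : ℤ),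
            oj F κ₂ z' G₂ ⌊w * J⌋₊ (p₂ + α * q) 0 ω / ((2 ^ ⌈α * q * J⌉₊ : ℕ) : ℤ)),
              (kc (slam F ⌊w * J⌋₊ ω), Ap ω))) ≤
          (1 - h / α) * (⌈α * q * J⌉₊ : ℕ) * Real.log 2 + ε * (⌈α * q * J⌉₊ : ℕ) := by
  obtain ⟨ε', hε', δp, hδp, c₀, hc₀, H⟩ := tie_path D hi hα hh hhα hε hε1 hc₁ hc₁1
  obtain ⟨N₀, hN₀⟩ := exists_nat_ge (24 * α / δp + 1)
  have hN0 : (0 : ℝ) < N₀ := lt_of_lt_of_le (by positivity) hN₀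
  have hNδ : 6 * α / N₀ ≤ δp / 4 := by
    rw [div_le_iff₀ hN0]
    have h1 : 24 * α / δp ≤ N₀ := by linarith
    rw [div_le_iff₀ hδp] at h1
    linarith
  refine ⟨ε', hε', δp / 2, by positivity, c₀, hc₀, N₀, by exact_mod_cast hN0, ?_⟩
  intro al hal
  obtain ⟨δq, hδq, H⟩ := H (al / 2) (half_pos hal)
  refine ⟨δq / 2, by positivity, ?_⟩
  intro w q hw hq hwq
  obtain ⟨J₁, H⟩ := H (w := w) (μ := q) hw hq hwq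
  obtain ⟨J₂, hJ₂⟩ := exists_nat_ge ((2 * Real.log 5 + 12 * LK (2 ^ D)) / (δq * q) +
    2 * LK (2 ^ D) / (al * q) + 12 * Real.log 7 / (δp * q))
  refine ⟨max J₁ J₂, ?_⟩
  intro J hJ m F A hA κ₁ κ₂ V C' Γ 𝒜 ℰ z' G₁ G₂ c Y Ap Ep p₁ p₂ N₁ N₂ hg1 hg2 htim hkey hctx hN1
    hN2 hj1 hj2 hI hHi hAl hRw hac hca hfr
  have hαq : 0 < α * q := by positivity
  have hw1 : w ≤ 1 := by linarith
  have hJ0 : (0 : ℝ) ≤ J := Nat.cast_nonneg J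
  have hWJ : ⌊w * J⌋₊ ≤ J := by
    refine Nat.floor_le_of_le ?_
    exact mul_le_of_le_one_left hJ0 hw1
  have hJ2 : (J₂ : ℝ) ≤ J := by exact_mod_cast (le_max_right _ _).trans hJ
  have t0 : 0 ≤ Real.log 5 := Real.log_nonneg (by norm_num)
  have t7 : 0 ≤ Real.log 7 := Real.log_nonneg (by norm_num)
  have tK := LK_nonneg (2 ^ D)
  have t1 : 0 ≤ (2 * Real.log 5 + 12 * LK (2 ^ D)) / (δq * q) := by positivity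
  have t2 : 0 ≤ 2 * LK (2 ^ D) / (al * q) := by positivity
  have t3 : 0 ≤ 12 * Real.log 7 / (δp * q) := by positivity
  have k5 : 2 * Real.log 5 + 12 * LK (2 ^ D) ≤ δq * q * J := by
    have h1 : (2 * Real.log 5 + 12 * LK (2 ^ D)) / (δq * q) ≤ J := by linarith
    rw [div_le_iff₀ (by positivity)] at h1
    linarith
  have ka : 2 * LK (2 ^ D) ≤ al * q * J := by
    have h1 : 2 * LK (2 ^ D) / (al * q) ≤ J := by linarith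
    rw [div_le_iff₀ (by positivity)] at h1
    linarith
  have k7 : 12 * Real.log 7 ≤ δp * q * J := by
    have h1 : 12 * Real.log 7 / (δp * q) ≤ J := by linarith
    rw [div_le_iff₀ (by positivity)] at h1
    linarith
  obtain ⟨g, hg⟩ : ∃ g : ℝ, g = δq * q * J := ⟨_, rfl⟩
  have hg2' : δq / 2 * q * J = g / 2 := by
    rw [hg]
    ring
  rw [hg2'] at htim hctx hj1 hj2 hI hHi hfr
  rw [← hg] at k5
  have hg0 : 0 ≤ g := by rw [hg]; positivity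
  obtain ⟨q', hq'⟩ : ∃ q' : F.Ω → ℝ, q' = Pool.Agent.H49.Ent.cond F.p A True := ⟨_, rfl⟩
  have hq'l : IsLaw q' := by
    rw [hq']
    exact isLaw_cond F.isLaw hA
  have h0 := hq'l.nonneg
  unfold JwE at hj1 hj2
  obtain ⟨W, hW⟩ : ∃ W : ℕ, W = ⌊w * J⌋₊ := ⟨_, rfl⟩
  obtain ⟨R₁, hR₁⟩ : ∃ R₁ : LnT F → Polynomial ℝ,
      R₁ = jR F ⌊w * J⌋₊ (2 ^ ((p₁ + α * q) * J)) κ₁ z' G₁ := ⟨_, rfl⟩
  obtain ⟨R₂, hR₂⟩ : ∃ R₂ : LnT F → Polynomial ℝ,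
      R₂ = jR F ⌊w * J⌋₊ (2 ^ ((p₂ + α * q) * J)) κ₂ z' G₂ := ⟨_, rfl⟩
  rw [← hq'] at htim hctx hj1 hj2 hI hHi
  have hx : (α * q) * J = α * q * J := rfl
  -- the jets of the paths
  have ful : ∀ {κ : Fin m} {G : V → MvPolynomial (Option (Fin m)) ℝ} {p α : ℝ} {N : ℕ → ℝ}
      {I : Finset ℕ}, NwE D I w p α q N →
      (∀ j ≤ D, CH q' (fun ω => ⌊(2 : ℝ) ^ (N j * J) *
        ojet F κ j (G (z' (slam F ⌊w * J⌋₊ ω))) ω⌋) Y ≤ g / 2) → ∀ j ≤ D, j ∉ I →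
      CH q' (fun ω => ⌊pj F (jR F ⌊w * J⌋₊ (2 ^ ((p + α * q) * J)) κ z' G) ⌊w * J⌋₊ j ω⌋) Y ≤
        g := by
    intro κ G p α N I hN hj j hjD hjI
    have h1 := pj_few (F := F) (w := w) (s := p + α * q) (N := N j) (x := 0) hw hWJ (κ := κ)
      (z' := z') (G := G) hq'l Y j (by linarith [hN.ful j hjD hjI])
    simp only [zero_mul, Real.rpow_zero, div_one] at h1
    linarith [hj j hjD]
  have nat : ∀ {κ : Fin m} {G : V → MvPolynomial (Option (Fin m)) ℝ} {p α : ℝ} {N : ℕ → ℝ},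
      NwE D {i} w p α q N →
      (∀ j ≤ D, CH q' (fun ω => ⌊(2 : ℝ) ^ (N j * J) *
        ojet F κ j (G (z' (slam F ⌊w * J⌋₊ ω))) ω⌋) Y ≤ g / 2) →
      CH q' (fun ω => ⌊pj F (jR F ⌊w * J⌋₊ (2 ^ ((p + α * q) * J)) κ z' G) ⌊w * J⌋₊ i ω /
        2 ^ (α * q * J)⌋) Y ≤ g := by
    intro κ G p α N hN hj
    have h1 := pj_few (F := F) (w := w) (s := p + α * q) (N := N i) (x := α * q) hw hWJ (κ := κ)
      (z' := z') (G := G) hq'l Y i (by linarith [hN.nat i (Finset.mem_singleton_self i)])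
    linarith [hj i hi.2]
  -- the conversions
  obtain ⟨Z₁, hZ₁⟩ : ∃ Z₁ : F.Ω → (V × C') × _, Z₁ = fun ω =>
    ((z' (slam F ⌊w * J⌋₊ ω), c (slam F ⌊w * J⌋₊ ω)), F.W ω) := ⟨_, rfl⟩
  have c1 : ∀ {Δ : Type} (Z : F.Ω → Δ) (κ : Fin m) (G : V → MvPolynomial (Option (Fin m)) ℝ)
      (s : ℝ) (j : ℕ), j ≤ D →
      CH q' (fun ω => ⌊pj F (jR F ⌊w * J⌋₊ (2 ^ (s * J)) κ z' G) ⌊w * J⌋₊ j ω⌋)
        (fun ω => (oj F κ z' G ⌊w * J⌋₊ (s - j * w) j ω, Z ω)) ≤ LK (2 ^ D) ∧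
      CH q' (oj F κ z' G ⌊w * J⌋₊ (s - j * w) j)
        (fun ω => (⌊pj F (jR F ⌊w * J⌋₊ (2 ^ (s * J)) κ z' G) ⌊w * J⌋₊ j ω⌋, Z ω)) ≤
          LK (2 ^ D) := fun Z κ G s j hj => oj_conv hw hWJ hq'l Z hj
  have hTe : TeR F q' R₁ R₂ (fun x => (z' x, c x)) Y D i ⌊w * J⌋₊ (α * q * J) g := by
    refine ⟨fun x => by rw [hR₁]; exact natDegree_jR hg1 x,
      fun x => by rw [hR₂]; exact natDegree_jR hg2 x, by linarith, fun ω ω' a b e => ?_,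
      by linarith, fun j hj hji => ?_, fun j hj hji => ?_, ?_, ?_, fun j h1 h2 => ?_,
      fun j h1 h2 => ?_, ?_⟩
    · rw [hq'] at a b
      exact hkey ω ω' (Pool.LA91.of_cond_pos a) (Pool.LA91.of_cond_pos b) e
    · rw [hR₁]
      exact ful hN1 hj1 j hj (by rw [Finset.mem_singleton]; exact hji)
    · rw [hR₂]
      exact ful hN2 hj2 j hj (by rw [Finset.mem_singleton]; exact hji)
    · rw [hR₁]
      exact nat hN1 hj1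
    · rw [hR₂]
      exact nat hN2 hj2
    · have a1 := CH_le_add h0 (fun ω => ⌊pj F R₁ ⌊w * J⌋₊ j ω⌋)
        (oj F κ₁ z' G₁ ⌊w * J⌋₊ (p₁ + α * q - j * w) j)
        (fun ω => ((z' (slam F ⌊w * J⌋₊ ω), c (slam F ⌊w * J⌋₊ ω)), F.W ω))
      have a2 := (c1 (fun ω => ((z' (slam F ⌊w * J⌋₊ ω), c (slam F ⌊w * J⌋₊ ω)), F.W ω)) κ₁ G₁
        (p₁ + α * q) j h2).1
      have a3 : CH q' (oj F κ₁ z' G₁ ⌊w * J⌋₊ (p₁ + α * q - j * w) j)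
          (fun ω => ((z' (slam F ⌊w * J⌋₊ ω), c (slam F ⌊w * J⌋₊ ω)), F.W ω)) ≤
          CH q' (oj F κ₁ z' G₁ ⌊w * J⌋₊ (p₁ + α * q - j * w) j)
            (fun ω => (z' (slam F ⌊w * J⌋₊ ω), (c (slam F ⌊w * J⌋₊ ω), F.W ω))) :=
        CH_mono_cond h0 fun ω ω' _ _ e => by
          simp only [Prod.mk.injEq] at e ⊢
          exact ⟨e.1.1, e.1.2, e.2⟩
      have a4 := (hHi j h1 h2).1
      rw [hR₁] at a1 ⊢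
      linarith
    · have a1 := CH_le_add h0 (fun ω => ⌊pj F R₂ ⌊w * J⌋₊ j ω⌋)
        (oj F κ₂ z' G₂ ⌊w * J⌋₊ (p₂ + α * q - j * w) j)
        (fun ω => ((z' (slam F ⌊w * J⌋₊ ω), c (slam F ⌊w * J⌋₊ ω)), F.W ω))
      have a2 := (c1 (fun ω => ((z' (slam F ⌊w * J⌋₊ ω), c (slam F ⌊w * J⌋₊ ω)), F.W ω)) κ₂ G₂
        (p₂ + α * q) j h2).1
      have a3 : CH q' (oj F κ₂ z' G₂ ⌊w * J⌋₊ (p₂ + α * q - j * w) j)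
          (fun ω => ((z' (slam F ⌊w * J⌋₊ ω), c (slam F ⌊w * J⌋₊ ω)), F.W ω)) ≤
          CH q' (oj F κ₂ z' G₂ ⌊w * J⌋₊ (p₂ + α * q - j * w) j)
            (fun ω => (z' (slam F ⌊w * J⌋₊ ω), (c (slam F ⌊w * J⌋₊ ω), F.W ω))) :=
        CH_mono_cond h0 fun ω ω' _ _ e => by
          simp only [Prod.mk.injEq] at e ⊢
          exact ⟨e.1.1, e.1.2, e.2⟩
      have a4 := (hHi j h1 h2).2
      rw [hR₂] at a1 ⊢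
      linarith
    · -- (I')
      obtain ⟨PP, hPP⟩ : ∃ PP : F.Ω → ℤ × ℤ, PP = fun ω =>
        (⌊pj F R₁ ⌊w * J⌋₊ i ω⌋, ⌊pj F R₂ ⌊w * J⌋₊ i ω⌋) := ⟨_, rfl⟩
      obtain ⟨PN, hPN⟩ : ∃ PN : F.Ω → ℤ × ℤ, PN = fun ω =>
        (⌊pj F R₁ ⌊w * J⌋₊ i ω / 2 ^ (α * q * J)⌋, ⌊pj F R₂ ⌊w * J⌋₊ i ω / 2 ^ (α * q * J)⌋) :=
        ⟨_, rfl⟩
      obtain ⟨OO, hOO⟩ : ∃ OO : F.Ω → ℤ × ℤ, OO = fun ω =>
        (oj F κ₁ z' G₁ ⌊w * J⌋₊ (p₁ + α * q - i * w) i ω,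
          oj F κ₂ z' G₂ ⌊w * J⌋₊ (p₂ + α * q - i * w) i ω) := ⟨_, rfl⟩
      obtain ⟨ON, hON⟩ : ∃ ON : F.Ω → ℤ × ℤ, ON = fun ω =>
        (oj F κ₁ z' G₁ ⌊w * J⌋₊ (p₁ - i * w) i ω,
          oj F κ₂ z' G₂ ⌊w * J⌋₊ (p₂ - i * w) i ω) := ⟨_, rfl⟩
      have hI2 : CH q' OO (fun ω => (ON ω, (z' (slam F ⌊w * J⌋₊ ω),
          (c (slam F ⌊w * J⌋₊ ω), F.W ω)))) ≤
          CH q' OO (fun ω => ((z' (slam F ⌊w * J⌋₊ ω), c (slam F ⌊w * J⌋₊ ω)), Y ω)) + g / 2 := by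
        rw [hOO, hON]
        exact hI
      obtain ⟨ZZ, hZZ⟩ : ∃ ZZ : F.Ω → (V × C') × (F.ζ × ℕ), ZZ = fun ω =>
        ((z' (slam F ⌊w * J⌋₊ ω), c (slam F ⌊w * J⌋₊ ω)), (F.Z ω, F.T1 ⌊w * J⌋₊ ω)) := ⟨_, rfl⟩
      have b1 : CH q' PP (fun ω => (PN ω, ((z' (slam F ⌊w * J⌋₊ ω), c (slam F ⌊w * J⌋₊ ω)),
          F.W ω))) ≤ CH q' PP (fun ω => (ON ω, ((z' (slam F ⌊w * J⌋₊ ω),
            c (slam F ⌊w * J⌋₊ ω)), F.W ω))) + 2 * LK (2 ^ D) := by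
        have d1 := cond_conv h0 PP ON PN (fun ω => ((z' (slam F ⌊w * J⌋₊ ω),
          c (slam F ⌊w * J⌋₊ ω)), F.W ω))
        have d2 := CH_subadd h0 (oj F κ₁ z' G₁ ⌊w * J⌋₊ (p₁ - i * w) i)
          (oj F κ₂ z' G₂ ⌊w * J⌋₊ (p₂ - i * w) i) (fun ω => (PN ω, ((z' (slam F ⌊w * J⌋₊ ω),
          c (slam F ⌊w * J⌋₊ ω)), F.W ω)))
        have d3 := (c1 (fun ω => ((z' (slam F ⌊w * J⌋₊ ω),
          c (slam F ⌊w * J⌋₊ ω)), F.W ω)) κ₁ G₁ p₁ i hi.2).2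
        have d4 := (c1 (fun ω => ((z' (slam F ⌊w * J⌋₊ ω),
          c (slam F ⌊w * J⌋₊ ω)), F.W ω)) κ₂ G₂ p₂ i hi.2).2
        have d5 : CH q' (oj F κ₁ z' G₁ ⌊w * J⌋₊ (p₁ - i * w) i)
            (fun ω => (PN ω, ((z' (slam F ⌊w * J⌋₊ ω), c (slam F ⌊w * J⌋₊ ω)), F.W ω))) ≤
            CH q' (oj F κ₁ z' G₁ ⌊w * J⌋₊ (p₁ - i * w) i)
            (fun ω => (⌊pj F (jR F ⌊w * J⌋₊ (2 ^ (p₁ * J)) κ₁ z' G₁) ⌊w * J⌋₊ i ω⌋,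
              ((z' (slam F ⌊w * J⌋₊ ω), c (slam F ⌊w * J⌋₊ ω)), F.W ω))) :=
          CH_mono_cond h0 fun ω ω' _ _ e => by
            rw [hPN] at e
            simp only [Prod.mk.injEq] at e ⊢
            refine ⟨?_, e.2⟩
            have e1 := e.1.1
            rw [hR₁, ← hx, pj_scale hWJ (s' := p₁) rfl, pj_scale hWJ (s' := p₁) rfl] at e1
            exact e1
        have d6 : CH q' (oj F κ₂ z' G₂ ⌊w * J⌋₊ (p₂ - i * w) i)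
            (fun ω => (PN ω, ((z' (slam F ⌊w * J⌋₊ ω), c (slam F ⌊w * J⌋₊ ω)), F.W ω))) ≤
            CH q' (oj F κ₂ z' G₂ ⌊w * J⌋₊ (p₂ - i * w) i)
            (fun ω => (⌊pj F (jR F ⌊w * J⌋₊ (2 ^ (p₂ * J)) κ₂ z' G₂) ⌊w * J⌋₊ i ω⌋,
              ((z' (slam F ⌊w * J⌋₊ ω), c (slam F ⌊w * J⌋₊ ω)), F.W ω))) :=
          CH_mono_cond h0 fun ω ω' _ _ e => by
            rw [hPN] at e
            simp only [Prod.mk.injEq] at e ⊢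
            refine ⟨?_, e.2⟩
            have e1 := e.1.2
            rw [hR₂, ← hx, pj_scale hWJ (s' := p₂) rfl, pj_scale hWJ (s' := p₂) rfl] at e1
            exact e1
        have e1 : ON = fun ω => (oj F κ₁ z' G₁ ⌊w * J⌋₊ (p₁ - i * w) i ω,
          oj F κ₂ z' G₂ ⌊w * J⌋₊ (p₂ - i * w) i ω) := hON
        rw [← e1] at d2
        linarith
      have b2 := pair_conv (Z := fun ω => (ON ω, ((z' (slam F ⌊w * J⌋₊ ω),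
          c (slam F ⌊w * J⌋₊ ω)), F.W ω))) h0
        (c1 (fun ω => (ON ω, ((z' (slam F ⌊w * J⌋₊ ω),
          c (slam F ⌊w * J⌋₊ ω)), F.W ω))) κ₁ G₁ (p₁ + α * q) i hi.2).1
        (c1 (fun ω => (ON ω, ((z' (slam F ⌊w * J⌋₊ ω),
          c (slam F ⌊w * J⌋₊ ω)), F.W ω))) κ₂ G₂ (p₂ + α * q) i hi.2).1
      have b3 := pair_conv (Z := fun ω => ((z' (slam F ⌊w * J⌋₊ ω), c (slam F ⌊w * J⌋₊ ω)), Y ω))
        h0 (c1 (fun ω => ((z' (slam F ⌊w * J⌋₊ ω), c (slam F ⌊w * J⌋₊ ω)), Y ω)) κ₁ G₁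
          (p₁ + α * q) i hi.2).2
        (c1 (fun ω => ((z' (slam F ⌊w * J⌋₊ ω), c (slam F ⌊w * J⌋₊ ω)), Y ω)) κ₂ G₂
          (p₂ + α * q) i hi.2).2
      have b4 : CH q' OO (fun ω => (ON ω, ((z' (slam F ⌊w * J⌋₊ ω), c (slam F ⌊w * J⌋₊ ω)),
          F.W ω))) ≤ CH q' OO (fun ω => (ON ω, (z' (slam F ⌊w * J⌋₊ ω),
          (c (slam F ⌊w * J⌋₊ ω), F.W ω)))) := CH_mono_cond h0 fun ω ω' _ _ e => by
        simp only [Prod.mk.injEq] at e ⊢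
        exact ⟨e.1, e.2.1.1, e.2.1.2, e.2.2⟩
      rw [← hR₁, ← hR₂, ← hPP, ← hOO] at b2 b3
      have fin : CH q' PP (fun ω => (PN ω, ((z' (slam F ⌊w * J⌋₊ ω), c (slam F ⌊w * J⌋₊ ω)),
          F.W ω))) ≤ CH q' PP (fun ω => ((z' (slam F ⌊w * J⌋₊ ω), c (slam F ⌊w * J⌋₊ ω)), Y ω)) +
          g := by
        linarith
      rw [hPN, hPP] at fin
      exact fin
  have e1 : ∀ ω, ⌊pj F R₁ ⌊w * J⌋₊ 0 ω⌋ = oj F κ₁ z' G₁ ⌊w * J⌋₊ (p₁ + α * q) 0 ω := fun ω => by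
    rw [hR₁]
    exact pj_oj0 hWJ _ ω
  have e2 : ∀ ω, ⌊pj F R₂ ⌊w * J⌋₊ 0 ω⌋ = oj F κ₂ z' G₂ ⌊w * J⌋₊ (p₂ + α * q) 0 ω := fun ω => by
    rw [hR₂]
    exact pj_oj0 hWJ _ ω
  have key := H J ((le_max_left _ _).trans hJ) F A hA R₁ R₂ (fun x => (z' x, c x)) Y Ap Ep
    (by
      rw [← hq', ← hg]
      exact hTe)
    (by
      intro E hE hm
      have h1 := hAl E hE hm
      have hPE : 0 < Pe F.p E := lt_of_lt_of_le (by positivity) hm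
      have hEl : IsLaw (Pool.Agent.H49.Ent.cond F.p E True) := isLaw_cond F.isLaw hPE
      have a1 := (oj_conv (F := F) (s := p₁ + ε' * (α * q)) (κ := κ₁) (z' := z') (G := G₁) hw hWJ
        hEl Y hi.2).2
      have a2 := CH_le_add hEl.nonneg (oj F κ₁ z' G₁ ⌊w * J⌋₊ (p₁ + ε' * (α * q) - i * w) i)
        (fun ω => ⌊pj F (jR F ⌊w * J⌋₊ (2 ^ ((p₁ + ε' * (α * q)) * J)) κ₁ z' G₁) ⌊w * J⌋₊ i ω⌋) Y
      have a3 : ∀ ω, ⌊pj F (jR F ⌊w * J⌋₊ (2 ^ ((p₁ + ε' * (α * q)) * J)) κ₁ z' G₁)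
          ⌊w * J⌋₊ i ω⌋ = ⌊pj F R₁ ⌊w * J⌋₊ i ω / 2 ^ ((1 - ε') * (α * q * J))⌋ := by
        intro ω
        have e1 : (1 - ε') * (α * q * J) = ((1 - ε') * (α * q)) * J := by ring
        rw [hR₁, e1, pj_scale hWJ (s' := p₁ + ε' * (α * q)) (by ring)]
      simp only [a3] at a1 a2
      linarith)
    (by
      rw [hR₁, hR₂]
      have h1 := hRw.nfog hA hWJ hc₀
      have h2 : p₂ - α * q + α * (2 * q) = p₂ + α * q := by ring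
      have h3 : p₁ - α * q + α * (2 * q) = p₁ + α * q := by ring
      rw [h2, h3] at h1
      refine h1.real hA (by exact_mod_cast hN0) (by positivity) hα hα hh.le hhα hc₀ ?_
      have h4 : (2 * α + α) * (2 * q / N₀) = (6 * α / N₀) * q := by ring
      rw [h4]
      have h5 := mul_le_mul_of_nonneg_right hNδ hq.le
      have h6 : (6 * α / N₀ * q + δp / 2 * q) * J ≤ (δp / 4 * q + δp / 2 * q) * J :=
        mul_le_mul_of_nonneg_right (by linarith) hJ0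
      linarith)
    (fun ω ω' a b e1 e2 => by
      obtain ⟨b1, b2, b3⟩ := hac ω ω' a b e1 e2
      exact ⟨Prod.ext b1 b2, b3⟩)
    (fun ω ω' a b e1 e2 => hca ω ω' a b (Prod.ext_iff.mp e1).1 (Prod.ext_iff.mp e1).2 e2)
    (by
      rw [← hg]
      simp only [e1, e2]
      linarith)
  simp only [e1, e2] at key
  exact key

end Pool.TE46
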