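import Pool.Agent.H46.TE.Hrc
import Pool.Agent.H46.TE.Evt

/-!
# One hop of the own paths of two labels, on one event
-/

set_option autoImplicit false

namespace Pool.TE46

open Finset Real MvPolynomial
open Pool.Agent.H49.Ent Pool.Agent.H32.Dense Pool.STK Pool.KA Pool.KSAT Pool.K2S Pool.PB Pool.GEN
open Pool.S6C Pool.LA91 Pool.OWN68 Pool.AJ18 Pool.PAIR76 Pool.PN18 Pool.LPK12 Pool.PR46 Pool.PS46
open Pool.BFL (Pb)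

/-- Digits at a real and at the next integer. -/
theorem quot_near {Ω T : Type} [Fintype Ω] {q : Ω → ℝ} (hq : IsLaw q) (f : Ω → ℝ) (Z : Ω → T)
    {Q : ℕ} {x : ℝ} (hx : 0 ≤ x) (hQx : (Q : ℝ) ≤ x + 1) :
    CH q (fun ω => ⌊f ω / 2 ^ x⌋) (fun ω => (⌊f ω⌋ / ((2 ^ Q : ℕ) : ℤ), Z ω)) ≤
      Real.log (2 * ((4 : ℕ) : ℝ) + 1) := by
  refine CH_pair hq _ _ fun ω ω' _ _ e => ?_
  have e1 := (Prod.ext_iff.mp e).1
  dsimp only at e1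
  have h1 := div_eq_lt (by positivity) e1
  have hp : (1 : ℝ) ≤ 2 ^ x := Real.one_le_rpow (by norm_num) hx
  have hQ2 : ((2 ^ Q : ℕ) : ℝ) ≤ 2 * 2 ^ x := by
    push_cast
    rw [← Real.rpow_natCast 2 Q]
    calc (2 : ℝ) ^ (Q : ℝ) ≤ 2 ^ (x + 1) := Real.rpow_le_rpow_of_exponent_le (by norm_num) hQx
      _ = 2 * 2 ^ x := by
        rw [Real.rpow_add (by norm_num), Real.rpow_one]
        ring
  rw [abs_le] at h1
  have a1 := Int.floor_le (f ω)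
  have a2 := Int.lt_floor_add_one (f ω)
  have a3 := Int.floor_le (f ω')
  have a4 := Int.lt_floor_add_one (f ω')
  have h2 : |f ω / 2 ^ x - f ω' / 2 ^ x| ≤ 3 := by
    rw [← sub_div, abs_div, abs_of_pos (by linarith : (0 : ℝ) < 2 ^ x),
      div_le_iff₀ (by linarith : (0 : ℝ) < 2 ^ x), abs_le]
    constructor <;> linarith [h1.1, h1.2]
  have h3 := floor_diff h2
  have h4 : |((⌊f ω / 2 ^ x⌋ - ⌊f ω' / 2 ^ x⌋ : ℤ) : ℝ)| ≤ ((4 : ℤ) : ℝ) := by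
    refine h3.trans ?_
    norm_num
  exact_mod_cast h4

/-- **One hop of own paths.** -/
theorem hop_path (D : ℕ) {i : ℕ} (hi : 1 ≤ i ∧ i ≤ D) {a h : ℝ} (ha : 0 < a) (hh : 0 < h)
    (hha : h ≤ a) :
    ∃ ε' : ℝ, 0 < ε' ∧ ∃ δ : ℝ, 0 < δ ∧ ∃ c₀ : ℝ, 0 < c₀ ∧ ∀ al : ℝ, 0 < al →
    ∃ δ₁ : ℝ, 0 < δ₁ ∧
    ∀ {w μ : ℝ} (_ : 0 ≤ w) (_ : 0 < μ) (_ : w + a * μ ≤ 1),
    ∃ J₀ : ℕ, ∀ J ≥ J₀, ∀ {m : ℕ} (F : Fam m J) (A : F.Ω → Prop) (_ : 0 < Pe F.p A)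
      (R₁ R₂ : LnT F → Polynomial ℝ) {𝒞 Γ : Type} (c : LnT F → 𝒞) (Y : F.Ω → Γ),
    TeH F (Pool.Agent.H49.Ent.cond F.p A True) R₁ R₂ c Y D i ⌊w * J⌋₊ (a * μ * J)
      (δ₁ * μ * J) →
    (∀ E : F.Ω → Prop, Sub E A → c₀ * Pe F.p A ≤ Pe F.p E →
      al * μ * J ≤ CH (Pool.Agent.H49.Ent.cond F.p E True)
        (fun ω => ⌊pj F R₂ ⌊w * J⌋₊ i ω / 2 ^ ((1 - ε') * (a * μ * J))⌋) Y) →
    CH (Pool.Agent.H49.Ent.cond F.p A True) (fun ω => ⌊pj F R₂ ⌊w * J⌋₊ 0 ω⌋)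
      (fun ω => (⌊pj F R₂ ⌊w * J⌋₊ 0 ω / 2 ^ (a * μ * J)⌋, (⌊pj F R₁ ⌊w * J⌋₊ 0 ω⌋,
        (c (slam F ⌊w * J⌋₊ ω), F.W ω)))) ≤ ((a - h) * μ * Real.log 2 + δ * μ) * J → False := by
  obtain ⟨K, dsp⟩ := dsp_h D
  obtain ⟨C₁, hC₁, rec⟩ := rec_h D
  obtain ⟨C₂, hC₂, alv⟩ := alv_h D
  obtain ⟨εt, hεt, hεt1, δt, hδt, c₀, hc₀, hc₀1, H⟩ := hop_one K (h := h / a) (div_pos hh ha)
  obtain ⟨ε', hε'⟩ : ∃ ε' : ℝ, ε' = εt / 2 := ⟨_, rfl⟩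
  have hε'0 : 0 < ε' := by rw [hε']; positivity
  obtain ⟨δ, hδ⟩ : ∃ δ : ℝ, δ = δt * a / 2 := ⟨_, rfl⟩
  have hδ0 : 0 < δ := by rw [hδ]; positivity
  refine ⟨ε', hε'0, δ, hδ0, c₀, hc₀, ?_⟩
  intro al hal
  obtain ⟨αt, hαt⟩ : ∃ αt : ℝ, αt = al / (4 * a) := ⟨_, rfl⟩
  have hαt0 : 0 < αt := by rw [hαt]; positivity
  have hαt1 : αt * (2 * a) = al / 2 := by
    rw [hαt]
    field_simp
    norm_num
  obtain ⟨Q₀, H⟩ := H αt hαt0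
  have hiR : (1 : ℝ) ≤ i := by exact_mod_cast hi.1
  obtain ⟨δ₁, hδ₁⟩ : ∃ δ₁ : ℝ, δ₁ = min (al * c₀ / (2 * C₂)) (δt * a / (2 * (2 * i + 1) * C₁ + 6)) :=
    ⟨_, rfl⟩
  have hδ₁0 : 0 < δ₁ := by
    rw [hδ₁]
    exact lt_min (by positivity) (by positivity)
  have hd1 : C₂ * δ₁ ≤ al * c₀ / 2 := by
    have h1 : δ₁ ≤ al * c₀ / (2 * C₂) := by rw [hδ₁]; exact min_le_left _ _
    rw [le_div_iff₀ (by positivity)] at h1
    linarith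
  have hd2 : δ₁ * (2 * (2 * i + 1) * C₁ + 6) ≤ δt * a := by
    rw [← le_div_iff₀ (by positivity), hδ₁]
    exact min_le_right _ _
  refine ⟨δ₁, hδ₁0, ?_⟩
  intro w μ hw hμ hwμ
  have haμ : 0 < a * μ := by positivity
  have hcS : 0 ≤ cS (i - 1) := by
    unfold cS
    have := Real.log_nonneg (show (1 : ℝ) ≤ 300 by norm_num)
    have := Real.log_nonneg (show (1 : ℝ) ≤ 2 by norm_num)
    have := Real.log_nonneg (show (1 : ℝ) ≤ 40 by norm_num)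
    positivity
  obtain ⟨L9, hL9⟩ : ∃ L9 : ℝ, L9 = Real.log (2 * ((4 : ℕ) : ℝ) + 1) := ⟨_, rfl⟩
  have l9 : 0 ≤ L9 := by
    rw [hL9]
    exact Real.log_nonneg (by norm_num)
  obtain ⟨J₁, hJ₁⟩ := exists_nat_ge (((Q₀ : ℝ) + 1 + 1 / ε') / (a * μ) +
    (2 * cS (i - 1) + 2 * L9) / (δt * (a * μ)) + 1 / (δ₁ * μ))
  refine ⟨max J₁ 1, ?_⟩
  intro J hJ m F A hA R₁ R₂ 𝒞 Γ c Y HT hal2 hrow
  have hJ1 : (J₁ : ℝ) ≤ J := by exact_mod_cast (le_max_left _ _).trans hJ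
  have hJp : 0 < J := lt_of_lt_of_le one_pos ((le_max_right _ _).trans hJ)
  have hJ0 : (0 : ℝ) < J := by exact_mod_cast hJp
  have t1 : 0 ≤ ((Q₀ : ℝ) + 1 + 1 / ε') / (a * μ) := by positivity
  have t2 : 0 ≤ (2 * cS (i - 1) + 2 * L9) / (δt * (a * μ)) := by positivity
  have t3 : 0 ≤ 1 / (δ₁ * μ) := by positivity
  have k1 : (Q₀ : ℝ) + 1 + 1 / ε' ≤ a * μ * J := by
    have h1 : ((Q₀ : ℝ) + 1 + 1 / ε') / (a * μ) ≤ J := by linarith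
    rw [div_le_iff₀ haμ] at h1
    linarith
  have k2 : 2 * cS (i - 1) + 2 * L9 ≤ δt * (a * μ * J) := by
    have h1 : (2 * cS (i - 1) + 2 * L9) / (δt * (a * μ)) ≤ J := by linarith
    rw [div_le_iff₀ (by positivity)] at h1
    linarith
  have k3 : 1 ≤ δ₁ * μ * J := by
    have h1 : 1 / (δ₁ * μ) ≤ J := by linarith
    rw [div_le_iff₀ (by positivity)] at h1
    linarith
  obtain ⟨g, hg⟩ : ∃ g : ℝ, g = δ₁ * μ * J := ⟨_, rfl⟩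
  obtain ⟨x, hx⟩ : ∃ x : ℝ, x = a * μ * J := ⟨_, rfl⟩
  obtain ⟨W, hW⟩ : ∃ W : ℕ, W = ⌊w * J⌋₊ := ⟨_, rfl⟩
  obtain ⟨Q, hQ⟩ : ∃ Q : ℕ, Q = ⌈a * μ * J⌉₊ := ⟨_, rfl⟩
  have hx0 : 0 ≤ x := by rw [hx]; positivity
  have hxQ : x ≤ Q := by rw [hx, hQ]; exact Nat.le_ceil _
  have hQx : (Q : ℝ) ≤ x + 1 := by
    rw [hQ, hx]
    exact (Nat.ceil_lt_add_one (by rw [← hx]; exact hx0)).le
  have hinv : 0 < 1 / ε' := by positivity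
  have hQ00 : (0 : ℝ) ≤ Q₀ := Nat.cast_nonneg Q₀
  have hQQ : Q₀ ≤ Q := by
    have h1 : (Q₀ : ℝ) ≤ Q := by linarith
    exact_mod_cast h1
  have hw1 : w ≤ 1 := by linarith
  have hWr : (W : ℝ) ≤ w * J := by
    rw [hW]
    exact Nat.floor_le (by positivity)
  have hWJ : W ≤ J := by
    have h1 : (W : ℝ) ≤ J := hWr.trans (by nlinarith)
    exact_mod_cast h1
  have hQJ : Q ≤ J - W := by
    have h1 : (Q : ℝ) < ((J - W : ℕ) : ℝ) + 1 := by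
      rw [Nat.cast_sub hWJ, hQ]
      refine (Nat.ceil_lt_add_one (by rw [← hx]; exact hx0)).trans_le ?_
      have : a * μ * J + w * J ≤ J := by nlinarith
      linarith
    have h2 : Q < J - W + 1 := by exact_mod_cast h1
    omega
  rw [← hW] at HT hal2 hrow
  rw [← hx] at HT hal2 k1 k2 hrow
  rw [← hg] at HT k3
  obtain ⟨q, hq⟩ : ∃ q : F.Ω → ℝ, q = Pool.Agent.H49.Ent.cond F.p A True := ⟨_, rfl⟩
  have hql : IsLaw q := by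
    rw [hq]
    exact isLaw_cond F.isLaw hA
  have h0 := hql.nonneg
  obtain ⟨r1, r2, r3⟩ := rec F (Q := Q) (by rw [← hq]; exact hql) HT hi.2 hx0 hxQ hQx hWJ k3
  have hal3 := alv F (Q := Q) (y := (1 - ε') * x) (B := 2 ^ ((1 - ε') * x)) (c₀ := c₀)
    (β := al * μ * J) hA HT hi.2 hx0 hxQ hQx hWJ k3
    (mul_nonneg (by rw [hε']; linarith) hx0) (Real.rpow_pos_of_pos (by norm_num) _) le_rfl hc₀ hc₀1
    hal2
  rw [← hq] at HT r1 r2 r3 hal3 hrow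
  have hdis := dsp F R₁ R₂ (Q := Q) (x := x) (p := q) (G := gH F R₁ R₂ c Y D i W Q x) hi.1 hi.2 hx0
    HT.deg1 HT.deg2 HT.gtm gH_j1 gH_j2 gH_N1 gH_N2
  have hδtx : δt * x ≤ δt * Q := mul_le_mul_of_nonneg_left hxQ hδt.le
  have hgx : δt * a * μ * J = δt * x := by rw [hx]; ring
  have hgg : (2 * (2 * (i : ℝ) + 1) * C₁ + 6) * g ≤ δt * x := by
    rw [hg, ← hgx]
    have := mul_le_mul_of_nonneg_right hd2 (show 0 ≤ μ * J by positivity)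
    linarith
  have hg0 : 0 ≤ g := by linarith
  refine H Q hQQ (MT J W) (sgm (2 ^ Q) (MT J W) (i - 1)) (2 ^ ((1 - ε') * x))
    (Real.rpow_pos_of_pos (by norm_num) _) ?_ hql (L := slam F W) (t := tw F W)
    (G := gH F R₁ R₂ c Y D i W Q x) (C := cC c) (D := fun y => cd F R₂ i y) (N := cH F R₂ i Q)
    (v := uR F R₂ W) (u := uR F R₁ W) (dv := fun d => (d : ℝ)) ?_ hdis ?_ ?_
  · rw [← Real.rpow_natCast, ← Real.rpow_add (by norm_num)]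
    refine Real.rpow_le_rpow_of_exponent_le (by norm_num) ?_
    have hQ0 : (0 : ℝ) ≤ Q := Nat.cast_nonneg Q
    have h2 : (1 - 2 * ε') * Q ≤ (1 - 2 * ε') * (x + 1) :=
      mul_le_mul_of_nonneg_left hQx (by rw [hε']; linarith)
    have h3 : 1 ≤ ε' * x := by
      have h4 : 1 / ε' ≤ x := by linarith
      rw [div_le_iff₀ hε'0] at h4
      linarith
    have h5 : εt = 2 * ε' := by rw [hε']; ring
    rw [h5]
    nlinarith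
  · refine ⟨C₁ * g, 2 * ((i - 1 : ℕ) : ℝ) + 3, cS (i - 1), by positivity,
      sgm_sig Nat.one_le_two_pow (Nat.pow_le_pow_right (by norm_num) hQJ) (i - 1), ?_,
      fun ω _ => tw_abs F W ω, ?_, ?_, ?_, r2, r3, r3⟩
    · have h1 : 2 * ((i - 1 : ℕ) : ℝ) + 3 = 2 * i + 1 := by
        rw [Nat.cast_sub hi.1]
        push_cast
        ring
      rw [h1]
      have h2 : (2 * (i : ℝ) + 1) * (C₁ * g) ≤ δt * x / 2 := by linarith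
      linarith
    · exact fun ω ω' a b e => ⟨HT.gC ω ω' a b e, gH_N2 ω ω' a b e⟩
    · exact fun ω ω' a b e => ⟨HT.gC ω ω' a b e, gH_N2 ω ω' a b e⟩
    · intro ω ω' _ _ e
      unfold cH
      rw [e]
  · intro S hS
    refine le_trans ?_ (hal3 S hS)
    have h1 : αt * Q ≤ al * μ * J / 2 := by
      have h2 : (Q : ℝ) ≤ 2 * x := by linarith
      have h3 : αt * Q ≤ αt * (2 * x) := mul_le_mul_of_nonneg_left h2 hαt0.le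
      have h4 : αt * (2 * x) = αt * (2 * a) * (μ * J) := by
        rw [hx]
        ring
      rw [h4, hαt1] at h3
      linarith
    have h2 : C₂ * g / c₀ ≤ al * μ * J / 2 := by
      rw [div_le_iff₀ hc₀, hg]
      have := mul_le_mul_of_nonneg_right hd1 (show 0 ≤ μ * J by positivity)
      linarith
    linarith
  · simp only [uR_tw]
    have h1 := cond_conv h0 (fun ω => ⌊pj F R₂ W 0 ω⌋) (fun ω => ⌊pj F R₂ W 0 ω / 2 ^ x⌋)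
      (fun ω => ⌊pj F R₂ W 0 ω⌋ / ((2 ^ Q : ℕ) : ℤ))
      (fun ω => (⌊pj F R₁ W 0 ω⌋, (tw F W ω, cC c (slam F W ω))))
    have h2 := quot_near hql (fun ω => pj F R₂ W 0 ω)
      (fun ω => (⌊pj F R₁ W 0 ω⌋, (tw F W ω, cC c (slam F W ω)))) (Q := Q) hx0 hQx
    rw [← hL9] at h2
    have h3 : CH q (fun ω => ⌊pj F R₂ W 0 ω⌋) (fun ω => (⌊pj F R₂ W 0 ω / 2 ^ x⌋,
        (⌊pj F R₁ W 0 ω⌋, (tw F W ω, cC c (slam F W ω))))) ≤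
        CH q (fun ω => ⌊pj F R₂ W 0 ω⌋) (fun ω => (⌊pj F R₂ W 0 ω / 2 ^ x⌋,
        (⌊pj F R₁ W 0 ω⌋, (c (slam F W ω), F.W ω)))) := CH_mono_cond h0 fun ω ω' _ _ e => by
      simp only [Prod.mk.injEq] at e ⊢
      obtain ⟨a1, a2, a3, a4⟩ := e
      have htm : Pool.LPK12.tm F W ω = Pool.LPK12.tm F W ω' := by
        unfold tw at a3
        unfold Pool.LPK12.tm
        linarith
      obtain ⟨b1, b2⟩ := cC_W htm a4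
      exact ⟨a1, a2, b1, b2⟩
    have h4 : CH q (fun ω => ⌊pj F R₂ W 0 ω⌋) (fun ω => ((⌊pj F R₂ W 0 ω⌋ / ((2 ^ Q : ℕ) : ℤ),
        ⌊pj F R₁ W 0 ω⌋), (tw F W ω, cC c (slam F W ω)))) ≤
        CH q (fun ω => ⌊pj F R₂ W 0 ω⌋) (fun ω => (⌊pj F R₂ W 0 ω⌋ / ((2 ^ Q : ℕ) : ℤ),
        (⌊pj F R₁ W 0 ω⌋, (tw F W ω, cC c (slam F W ω))))) := CH_mono_cond h0 fun ω ω' _ _ e => by
      simp only [Prod.mk.injEq] at e ⊢
      exact ⟨e.1.1, e.1.2, e.2⟩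
    have hl2 : 0 < Real.log 2 := Real.log_pos one_lt_two
    have h5 : ((a - h) * μ * Real.log 2 + δ * μ) * J = (1 - h / a) * x * Real.log 2 +
        δt * x / 2 := by
      rw [hx, hδ]
      field_simp
    have h6 : (1 - h / a) * x * Real.log 2 ≤ (1 - h / a) * Q * Real.log 2 := by
      refine mul_le_mul_of_nonneg_right (mul_le_mul_of_nonneg_left hxQ ?_) hl2.le
      rw [sub_nonneg, div_le_one ha]
      exact hha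
    rw [h5] at hrow
    linarith

/-- **One hop of the own paths of two labels.** -/
theorem hop_ev (D : ℕ) {i : ℕ} (hi : 1 ≤ i ∧ i ≤ D) {α h : ℝ} (hα : 0 < α) (hh : 0 < h)
    (hhα : h ≤ α) :
    ∃ ε' : ℝ, 0 < ε' ∧ ∃ δ : ℝ, 0 < δ ∧ ∃ c₀ : ℝ, 0 < c₀ ∧ ∀ al : ℝ, 0 < al →
    ∃ δ₁ : ℝ, 0 < δ₁ ∧
    ∀ {w q : ℝ} (_ : 0 ≤ w) (_ : 0 < q) (_ : w + α * q ≤ 1),
    ∃ J₀ : ℕ, ∀ J ≥ J₀, ∀ {m : ℕ} (F : Fam m J) (A : F.Ω → Prop) (_ : 0 < Pe F.p A)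
      {κ₁ κ₂ : Fin m} {V C Γ : Type} (z' : LnT F → V)
      (G₁ G₂ : V → MvPolynomial (Option (Fin m)) ℝ) (c : LnT F → C) (Y : F.Ω → Γ) {P₁ p₂ : ℝ}
      {N₁ N₂ : ℕ → ℝ},
    (∀ v, (X (some κ₁) - G₁ v).totalDegree ≤ D) → (∀ v, (X (some κ₂) - G₂ v).totalDegree ≤ D) →
    (J : ℝ) * Real.log 2 - δ₁ * q * J ≤
      CH (Pool.Agent.H49.Ent.cond F.p A True) F.T (fun ω => (F.l ω, F.Z ω)) →
    (∀ ω ω', A ω → A ω' → Y ω = Y ω' → F.T ω = F.T ω' ∧ F.Z ω = F.Z ω') →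
    CH (Pool.Agent.H49.Ent.cond F.p A True)
      (fun ω => (z' (slam F ⌊w * J⌋₊ ω), c (slam F ⌊w * J⌋₊ ω))) Y ≤ δ₁ * q * J →
    (∀ j ≤ D, P₁ - j * w ≤ N₁ j) → NwE D {i} w p₂ α q N₂ →
    JwE F A κ₁ z' G₁ ⌊w * J⌋₊ D N₁ Y (δ₁ * q * J) →
    JwE F A κ₂ z' G₂ ⌊w * J⌋₊ D N₂ Y (δ₁ * q * J) →
    CH (Pool.Agent.H49.Ent.cond F.p A True)
        (oj F κ₂ z' G₂ ⌊w * J⌋₊ (p₂ + α * q - i * w) i)
        (fun ω => (oj F κ₂ z' G₂ ⌊w * J⌋₊ (p₂ - i * w) i ω,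
            (z' (slam F ⌊w * J⌋₊ ω), (c (slam F ⌊w * J⌋₊ ω), F.W ω)))) ≤
      CH (Pool.Agent.H49.Ent.cond F.p A True)
        (oj F κ₂ z' G₂ ⌊w * J⌋₊ (p₂ + α * q - i * w) i)
        (fun ω => ((z' (slam F ⌊w * J⌋₊ ω), c (slam F ⌊w * J⌋₊ ω)), Y ω)) + δ₁ * q * J →
    (∀ j, i < j → j ≤ D →
      CH (Pool.Agent.H49.Ent.cond F.p A True) (oj F κ₂ z' G₂ ⌊w * J⌋₊ (p₂ + α * q - j * w) j)
        (fun ω => (z' (slam F ⌊w * J⌋₊ ω), (c (slam F ⌊w * J⌋₊ ω), F.W ω))) ≤ δ₁ * q * J) →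
    (∀ E : F.Ω → Prop, Sub E A → c₀ * Pe F.p A ≤ Pe F.p E →
      al * q * J ≤ CH (Pool.Agent.H49.Ent.cond F.p E True)
        (oj F κ₂ z' G₂ ⌊w * J⌋₊ (p₂ + ε' * (α * q) - i * w) i) Y) →
    CH (Pool.Agent.H49.Ent.cond F.p A True) (oj F κ₂ z' G₂ ⌊w * J⌋₊ (p₂ + α * q) 0)
      (fun ω => (oj F κ₂ z' G₂ ⌊w * J⌋₊ p₂ 0 ω, (oj F κ₁ z' G₁ ⌊w * J⌋₊ P₁ 0 ω,
        (z' (slam F ⌊w * J⌋₊ ω), (c (slam F ⌊w * J⌋₊ ω), F.W ω))))) ≤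
      ((α - h) * q * Real.log 2 + δ * q) * J → False := by
  obtain ⟨ε', hε', δp, hδp, c₀, hc₀, H⟩ := hop_path D hi hα hh hhα
  refine ⟨ε', hε', δp, hδp, c₀, hc₀, ?_⟩
  intro al hal
  obtain ⟨δq, hδq, H⟩ := H (al / 2) (half_pos hal)
  refine ⟨δq / 2, by positivity, ?_⟩
  intro w q hw hq hwq
  obtain ⟨J₁, H⟩ := H (w := w) (μ := q) hw hq hwq
  obtain ⟨J₂, hJ₂⟩ := exists_nat_ge ((2 * Real.log 5 + 12 * LK (2 ^ D)) / (δq * q) +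
    2 * LK (2 ^ D) / (al * q))
  refine ⟨max J₁ J₂, ?_⟩
  intro J hJ m F A hA κ₁ κ₂ V C' Γ z' G₁ G₂ c Y P₁ p₂ N₁ N₂ hg1 hg2 htim hkey hctx hN1
    hN2 hj1 hj2 hI hHi hAl hRw
  have hαq : 0 < α * q := by positivity
  have hw1 : w ≤ 1 := by linarith
  have hJ0 : (0 : ℝ) ≤ J := Nat.cast_nonneg J
  have hWJ : ⌊w * J⌋₊ ≤ J := by
    refine Nat.floor_le_of_le ?_
    exact mul_le_of_le_one_left hJ0 hw1
  have hJ2 : (J₂ : ℝ) ≤ J := by exact_mod_cast (le_max_right _ _).trans hJ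
  have t0 : 0 ≤ Real.log 5 := Real.log_nonneg (by norm_num)
  have tK := LK_nonneg (2 ^ D)
  have t1 : 0 ≤ (2 * Real.log 5 + 12 * LK (2 ^ D)) / (δq * q) := by positivity
  have t2 : 0 ≤ 2 * LK (2 ^ D) / (al * q) := by positivity
  have k5 : 2 * Real.log 5 + 12 * LK (2 ^ D) ≤ δq * q * J := by
    have h1 : (2 * Real.log 5 + 12 * LK (2 ^ D)) / (δq * q) ≤ J := by linarith
    rw [div_le_iff₀ (by positivity)] at h1
    linarith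
  have ka : 2 * LK (2 ^ D) ≤ al * q * J := by
    have h1 : 2 * LK (2 ^ D) / (al * q) ≤ J := by linarith
    rw [div_le_iff₀ (by positivity)] at h1
    linarith
  obtain ⟨g, hg⟩ : ∃ g : ℝ, g = δq * q * J := ⟨_, rfl⟩
  have hg2' : δq / 2 * q * J = g / 2 := by
    rw [hg]
    ring
  rw [hg2'] at htim hctx hj1 hj2 hI hHi
  rw [← hg] at k5
  have hg0 : 0 ≤ g := by rw [hg]; positivity
  obtain ⟨q', hq'⟩ : ∃ q' : F.Ω → ℝ, q' = Pool.Agent.H49.Ent.cond F.p A True := ⟨_, rfl⟩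
  have hq'l : IsLaw q' := by
    rw [hq']
    exact isLaw_cond F.isLaw hA
  have h0 := hq'l.nonneg
  unfold JwE at hj1 hj2
  obtain ⟨R₁, hR₁⟩ : ∃ R₁ : LnT F → Polynomial ℝ,
      R₁ = jR F ⌊w * J⌋₊ (2 ^ (P₁ * J)) κ₁ z' G₁ := ⟨_, rfl⟩
  obtain ⟨R₂, hR₂⟩ : ∃ R₂ : LnT F → Polynomial ℝ,
      R₂ = jR F ⌊w * J⌋₊ (2 ^ ((p₂ + α * q) * J)) κ₂ z' G₂ := ⟨_, rfl⟩
  rw [← hq'] at htim hctx hj1 hj2 hI hHi
  have hx : (α * q) * J = α * q * J := rfl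
  have c1 : ∀ {Δ : Type} (Z : F.Ω → Δ) (κ : Fin m) (G : V → MvPolynomial (Option (Fin m)) ℝ)
      (s : ℝ) (j : ℕ), j ≤ D →
      CH q' (fun ω => ⌊pj F (jR F ⌊w * J⌋₊ (2 ^ (s * J)) κ z' G) ⌊w * J⌋₊ j ω⌋)
        (fun ω => (oj F κ z' G ⌊w * J⌋₊ (s - j * w) j ω, Z ω)) ≤ LK (2 ^ D) ∧
      CH q' (oj F κ z' G ⌊w * J⌋₊ (s - j * w) j)
        (fun ω => (⌊pj F (jR F ⌊w * J⌋₊ (2 ^ (s * J)) κ z' G) ⌊w * J⌋₊ j ω⌋, Z ω)) ≤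
          LK (2 ^ D) := fun Z κ G s j hj => oj_conv hw hWJ hq'l Z hj
  have hTe : TeH F q' R₁ R₂ (fun x => (z' x, c x)) Y D i ⌊w * J⌋₊ (α * q * J) g := by
    refine ⟨fun x => by rw [hR₁]; exact natDegree_jR hg1 x,
      fun x => by rw [hR₂]; exact natDegree_jR hg2 x, by linarith, fun ω ω' a b e => ?_,
      by linarith, fun j hj => ?_, fun j hj hji => ?_, ?_, fun j h1 h2 => ?_, ?_⟩
    · rw [hq'] at a b
      exact hkey ω ω' (Pool.LA91.of_cond_pos a) (Pool.LA91.of_cond_pos b) e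
    · have h1 := pj_few (F := F) (w := w) (s := P₁) (N := N₁ j) (x := 0) hw hWJ (κ := κ₁)
        (z' := z') (G := G₁) hq'l Y j (by linarith [hN1 j hj])
      simp only [zero_mul, Real.rpow_zero, div_one] at h1
      rw [hR₁]
      linarith [hj1 j hj]
    · have h1 := pj_few (F := F) (w := w) (s := p₂ + α * q) (N := N₂ j) (x := 0) hw hWJ (κ := κ₂)
        (z' := z') (G := G₂) hq'l Y j (by
          linarith [hN2.ful j hj (by rw [Finset.mem_singleton]; exact hji)])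
      simp only [zero_mul, Real.rpow_zero, div_one] at h1
      rw [hR₂]
      linarith [hj2 j hj]
    · have h1 := pj_few (F := F) (w := w) (s := p₂ + α * q) (N := N₂ i) (x := α * q) hw hWJ
        (κ := κ₂) (z' := z') (G := G₂) hq'l Y i (by
          linarith [hN2.nat i (Finset.mem_singleton_self i)])
      rw [hR₂]
      linarith [hj2 i hi.2]
    · have a1 := CH_le_add h0 (fun ω => ⌊pj F R₂ ⌊w * J⌋₊ j ω⌋)
        (oj F κ₂ z' G₂ ⌊w * J⌋₊ (p₂ + α * q - j * w) j)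
        (fun ω => ((z' (slam F ⌊w * J⌋₊ ω), c (slam F ⌊w * J⌋₊ ω)), F.W ω))
      have a2 := (c1 (fun ω => ((z' (slam F ⌊w * J⌋₊ ω), c (slam F ⌊w * J⌋₊ ω)), F.W ω)) κ₂ G₂
        (p₂ + α * q) j h2).1
      have a3 : CH q' (oj F κ₂ z' G₂ ⌊w * J⌋₊ (p₂ + α * q - j * w) j)
          (fun ω => ((z' (slam F ⌊w * J⌋₊ ω), c (slam F ⌊w * J⌋₊ ω)), F.W ω)) ≤
          CH q' (oj F κ₂ z' G₂ ⌊w * J⌋₊ (p₂ + α * q - j * w) j)
            (fun ω => (z' (slam F ⌊w * J⌋₊ ω), (c (slam F ⌊w * J⌋₊ ω), F.W ω))) :=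
        CH_mono_cond h0 fun ω ω' _ _ e => by
          simp only [Prod.mk.injEq] at e ⊢
          exact ⟨e.1.1, e.1.2, e.2⟩
      have a4 := hHi j h1 h2
      rw [hR₂] at a1 ⊢
      linarith
    · -- (I')
      obtain ⟨PP, hPP⟩ : ∃ PP : F.Ω → ℤ, PP = fun ω => ⌊pj F R₂ ⌊w * J⌋₊ i ω⌋ := ⟨_, rfl⟩
      obtain ⟨PN, hPN⟩ : ∃ PN : F.Ω → ℤ, PN = fun ω =>
        ⌊pj F R₂ ⌊w * J⌋₊ i ω / 2 ^ (α * q * J)⌋ := ⟨_, rfl⟩
      obtain ⟨OO, hOO⟩ : ∃ OO : F.Ω → ℤ, OO = oj F κ₂ z' G₂ ⌊w * J⌋₊ (p₂ + α * q - i * w) i :=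
        ⟨_, rfl⟩
      obtain ⟨ON, hON⟩ : ∃ ON : F.Ω → ℤ, ON = oj F κ₂ z' G₂ ⌊w * J⌋₊ (p₂ - i * w) i :=
        ⟨_, rfl⟩
      have hI2 : CH q' OO (fun ω => (ON ω, (z' (slam F ⌊w * J⌋₊ ω),
          (c (slam F ⌊w * J⌋₊ ω), F.W ω)))) ≤
          CH q' OO (fun ω => ((z' (slam F ⌊w * J⌋₊ ω), c (slam F ⌊w * J⌋₊ ω)), Y ω)) + g / 2 := by
        rw [hOO, hON]
        exact hI
      have b1 := cond_conv h0 PP ON PN (fun ω => ((z' (slam F ⌊w * J⌋₊ ω),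
        c (slam F ⌊w * J⌋₊ ω)), F.W ω))
      have b1' : CH q' ON (fun ω => (PN ω, ((z' (slam F ⌊w * J⌋₊ ω), c (slam F ⌊w * J⌋₊ ω)),
          F.W ω))) ≤ LK (2 ^ D) := by
        have d4 := (c1 (fun ω => ((z' (slam F ⌊w * J⌋₊ ω),
          c (slam F ⌊w * J⌋₊ ω)), F.W ω)) κ₂ G₂ p₂ i hi.2).2
        rw [← hON] at d4
        refine (CH_mono_cond h0 fun ω ω' _ _ e => ?_).trans d4
        rw [hPN] at e
        simp only [Prod.mk.injEq] at e ⊢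
        refine ⟨?_, e.2⟩
        have e1 := e.1
        rw [hR₂, ← hx, pj_scale hWJ (s' := p₂) rfl, pj_scale hWJ (s' := p₂) rfl] at e1
        exact e1
      have b2 := CH_le_add h0 PP OO (fun ω => (ON ω, ((z' (slam F ⌊w * J⌋₊ ω),
          c (slam F ⌊w * J⌋₊ ω)), F.W ω)))
      have b2' := (c1 (fun ω => (ON ω, ((z' (slam F ⌊w * J⌋₊ ω),
          c (slam F ⌊w * J⌋₊ ω)), F.W ω))) κ₂ G₂ (p₂ + α * q) i hi.2).1
      have b3 := CH_le_add h0 OO PP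
        (fun ω => ((z' (slam F ⌊w * J⌋₊ ω), c (slam F ⌊w * J⌋₊ ω)), Y ω))
      have b3' := (c1 (fun ω => ((z' (slam F ⌊w * J⌋₊ ω), c (slam F ⌊w * J⌋₊ ω)), Y ω)) κ₂ G₂
          (p₂ + α * q) i hi.2).2
      have b4 : CH q' OO (fun ω => (ON ω, ((z' (slam F ⌊w * J⌋₊ ω), c (slam F ⌊w * J⌋₊ ω)),
          F.W ω))) ≤ CH q' OO (fun ω => (ON ω, (z' (slam F ⌊w * J⌋₊ ω),
          (c (slam F ⌊w * J⌋₊ ω), F.W ω)))) := CH_mono_cond h0 fun ω ω' _ _ e => by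
        simp only [Prod.mk.injEq] at e ⊢
        exact ⟨e.1, e.2.1.1, e.2.1.2, e.2.2⟩
      rw [← hR₂, ← hOO] at b2' b3'
      rw [hPP] at b2 b3
      rw [← hPP] at b2 b3
      have b2'' : CH q' PP (fun ω => (OO ω, (ON ω, ((z' (slam F ⌊w * J⌋₊ ω),
          c (slam F ⌊w * J⌋₊ ω)), F.W ω)))) ≤ LK (2 ^ D) := by
        rw [hPP]
        exact b2'
      have b3'' : CH q' OO (fun ω => (PP ω, ((z' (slam F ⌊w * J⌋₊ ω), c (slam F ⌊w * J⌋₊ ω)),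
          Y ω))) ≤ LK (2 ^ D) := by
        rw [hPP]
        exact b3'
      have fin : CH q' PP (fun ω => (PN ω, ((z' (slam F ⌊w * J⌋₊ ω), c (slam F ⌊w * J⌋₊ ω)),
          F.W ω))) ≤ CH q' PP (fun ω => ((z' (slam F ⌊w * J⌋₊ ω), c (slam F ⌊w * J⌋₊ ω)), Y ω)) +
          g := by
        linarith
      rw [hPN, hPP] at fin
      exact fin
  have e1 : ∀ ω, ⌊pj F R₁ ⌊w * J⌋₊ 0 ω⌋ = oj F κ₁ z' G₁ ⌊w * J⌋₊ P₁ 0 ω := fun ω => by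
    rw [hR₁]
    exact pj_oj0 hWJ _ ω
  have e2 : ∀ ω, ⌊pj F R₂ ⌊w * J⌋₊ 0 ω⌋ = oj F κ₂ z' G₂ ⌊w * J⌋₊ (p₂ + α * q) 0 ω := fun ω => by
    rw [hR₂]
    exact pj_oj0 hWJ _ ω
  have e3 : ∀ ω, ⌊pj F R₂ ⌊w * J⌋₊ 0 ω / 2 ^ (α * q * J)⌋ = oj F κ₂ z' G₂ ⌊w * J⌋₊ p₂ 0 ω :=
    fun ω => by
    rw [hR₂, ← hx, pj_scale hWJ (s' := p₂) rfl]
    exact pj_oj0 hWJ _ ω
  refine H J ((le_max_left _ _).trans hJ) F A hA R₁ R₂ (fun x => (z' x, c x)) Y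
    (by
      rw [← hq', ← hg]
      exact hTe)
    (by
      intro E hE hm
      have h1 := hAl E hE hm
      have hPE : 0 < Pe F.p E := lt_of_lt_of_le (by positivity) hm
      have hEl : IsLaw (Pool.Agent.H49.Ent.cond F.p E True) := isLaw_cond F.isLaw hPE
      have a1 := (oj_conv (F := F) (s := p₂ + ε' * (α * q)) (κ := κ₂) (z' := z') (G := G₂) hw hWJ
        hEl Y hi.2).2
      have a2 := CH_le_add hEl.nonneg (oj F κ₂ z' G₂ ⌊w * J⌋₊ (p₂ + ε' * (α * q) - i * w) i)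
        (fun ω => ⌊pj F (jR F ⌊w * J⌋₊ (2 ^ ((p₂ + ε' * (α * q)) * J)) κ₂ z' G₂) ⌊w * J⌋₊ i ω⌋) Y
      have a3 : ∀ ω, ⌊pj F (jR F ⌊w * J⌋₊ (2 ^ ((p₂ + ε' * (α * q)) * J)) κ₂ z' G₂)
          ⌊w * J⌋₊ i ω⌋ = ⌊pj F R₂ ⌊w * J⌋₊ i ω / 2 ^ ((1 - ε') * (α * q * J))⌋ := by
        intro ω
        have e1 : (1 - ε') * (α * q * J) = ((1 - ε') * (α * q)) * J := by ring
        rw [hR₂, e1, pj_scale hWJ (s' := p₂ + ε' * (α * q)) (by ring)]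
      simp only [a3] at a1 a2
      linarith)
    (by
      simp only [e1, e2, e3]
      refine (CH_mono_cond (isLaw_cond F.isLaw hA).nonneg fun ω ω' _ _ e => ?_).trans hRw
      simp only [Prod.mk.injEq] at e ⊢
      exact ⟨e.1, e.2.1, e.2.2.1.1, e.2.2.1.2, e.2.2.2⟩)

end Pool.TE46
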