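import Pool.Agent.H46.TE.Cls
import Pool.Agent.H46.TE.Hpt

/-!
# One hop of the own paths of two labels, in a class

`hop_rb`: a pair of labels, the jets of the first one known, the jet of order `i` of the second one
natural, seen by no closed record better than by the context, and alive, the row of the second label
given the first one not full, is impossible.
-/

set_option autoImplicit false

namespace Pool.TE46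

open Finset Real MvPolynomial
open Pool.Agent.H49.Ent Pool.Agent.H32.Dense Pool.STK Pool.KA Pool.KSAT Pool.K2S Pool.PB Pool.GEN
open Pool.S6C Pool.RCD Pool.LA91 Pool.OWN68 Pool.AJW Pool.PN18 Pool.LPK12 Pool.PR46
open Pool.GRD (LbP)
open Pool.UNJ (ceI)
open Pool.BFL (Pb)

/-- **(I')** for the second labels of a family: a closed record does not see more of the jet of
order `i` than the labels, the context, the time and the natural digits. -/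
def Ip1 {m : ℕ} (S : PCl m) {α γ : ∀ J : ℕ, Fam m J → Type}
    (f : ∀ (J : ℕ) (F : Fam m J), F.Ω → α J F) (a : ℝ)
    (y : ∀ (J : ℕ) (F : Fam m J), F.Ω → γ J F) {U₀ : Type} (Qu : Qt m U₀) (Ψ : Fm2 m)
    (κ₂ : Fin m) (w p₂ αq : ℝ) (i : ℕ) (e δ : ℝ) : Prop :=
  ∀ K₀ : ℕ, Bas S (fun J F A => ∀ (V C : Type) (z : PtT F → V) (z' : LnT F → V)
    (G₁ G₂ : V → MvPolynomial (Option (Fin m)) ℝ) (c : LnT F → C), Ψ J F A V C z z' G₁ G₂ c →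
    ∀ u₀ : F.Ω → U₀, Qu.P K₀ e J F A u₀ →
    ∀ (V₁ : Type) (z₁ : F.Ω → V₁), Cl2 (f J F) (vg a J F) A z₁ →
      CH (Pool.Agent.H49.Ent.cond F.p A True)
        (oj F κ₂ z' G₂ ⌊w * J⌋₊ (p₂ + αq - i * w) i)
        (fun ω => (oj F κ₂ z' G₂ ⌊w * J⌋₊ (p₂ - i * w) i ω,
            (z' (slam F ⌊w * J⌋₊ ω), (c (slam F ⌊w * J⌋₊ ω), F.W ω)))) ≤
      CH (Pool.Agent.H49.Ent.cond F.p A True)
        (oj F κ₂ z' G₂ ⌊w * J⌋₊ (p₂ + αq - i * w) i)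
        (fun ω => ((z' (slam F ⌊w * J⌋₊ ω), c (slam F ⌊w * J⌋₊ ω)),
          (u₀ ω, (z₁ ω, y J F ω)))) + δ * J)

/-- The jets of the second label of the orders above `i` are few bits given the labels, the
context, the time. -/
def Hi1 {m : ℕ} (S : PCl m) (Ψ : Fm2 m) (κ₂ : Fin m) (w p₂ αq : ℝ) (i D : ℕ) (δ : ℝ) : Prop :=
  Bas S (fun J F A => ∀ (V C : Type) (z : PtT F → V) (z' : LnT F → V)
    (G₁ G₂ : V → MvPolynomial (Option (Fin m)) ℝ) (c : LnT F → C), Ψ J F A V C z z' G₁ G₂ c →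
    ∀ j, i < j → j ≤ D →
      CH (Pool.Agent.H49.Ent.cond F.p A True) (oj F κ₂ z' G₂ ⌊w * J⌋₊ (p₂ + αq - j * w) j)
        (fun ω => (z' (slam F ⌊w * J⌋₊ ω), (c (slam F ⌊w * J⌋₊ ω), F.W ω))) ≤ δ * J)

/-- The row of the second label given the first one. -/
def Row1 {m : ℕ} (S : PCl m) (Ψ : Fm2 m) (κ₁ κ₂ : Fin m) (w P₁ p₂ αq β : ℝ) : Prop :=
  Bas S (fun J F A => ∀ (V C : Type) (z : PtT F → V) (z' : LnT F → V)
    (G₁ G₂ : V → MvPolynomial (Option (Fin m)) ℝ) (c : LnT F → C), Ψ J F A V C z z' G₁ G₂ c →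
    CH (Pool.Agent.H49.Ent.cond F.p A True) (oj F κ₂ z' G₂ ⌊w * J⌋₊ (p₂ + αq) 0)
      (fun ω => (oj F κ₂ z' G₂ ⌊w * J⌋₊ p₂ 0 ω, (oj F κ₁ z' G₁ ⌊w * J⌋₊ P₁ 0 ω,
        (z' (slam F ⌊w * J⌋₊ ω), (c (slam F ⌊w * J⌋₊ ω), F.W ω))))) ≤ β * J)

/-- **The hop of order `i`**: a pair of labels, the jets of the first one known, the jet of order `i`
of the second one natural and alive, is impossible if the row of the second label given the first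
one is not full. -/
theorem hop_rb (K : ℕ) {i : ℕ} (hi : 1 ≤ i ∧ i ≤ K + 2) {α : ℝ} (hα : 0 < α) {h : ℝ}
    (hh : 0 < h) (hhα : h ≤ α) :
    ∃ ε' : ℝ, 0 < ε' ∧ ∃ δ : ℝ, 0 < δ ∧ ∀ al : ℝ, 0 < al →
    ∃ δ₁ : ℝ, 0 < δ₁ ∧
    ∀ {m : ℕ} {S : PCl m} {C₀ : ℝ} (_ : TmC S C₀) (_ : S.Ne) {κ₁ κ₂ : Fin m} {w a P₁ p₂ q : ℝ}
    (_ : 0 ≤ w) (_ : w ≤ a) (_ : a ≤ 1) (_ : 0 < q) (_ : w + α * q ≤ 1)
    {U₀ : Type} {Qu : Qt m U₀} {σ γ : ∀ J : ℕ, Fam m J → Type}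
    {f : ∀ (J : ℕ) (F : Fam m J), F.Ω → σ J F} {y : ∀ (J : ℕ) (F : Fam m J), F.Ω → γ J F}
    (_ : ∀ (J : ℕ) (F : Fam m J), ∃ φ : σ J F → PtT F, ∀ ω, ptr F J ω = φ (f J F ω))
    (_ : ∀ (J : ℕ) (F : Fam m J), ∃ φ : γ J F → ℕ, ∀ ω, F.T ω = φ (y J F ω))
    {e : ℝ} (Ψ : Fm2 m)
    (_ : ∀ (J : ℕ) (F : Fam m J) (A : F.Ω → Prop) (V C : Type) (z : PtT F → V) (z' : LnT F → V)
      (G₁ G₂ : V → MvPolynomial (Option (Fin m)) ℝ) (c : LnT F → C), Ψ J F A V C z z' G₁ G₂ c →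
      (∀ v, (G₁ v).totalDegree ≤ K + 1) ∧ (∀ v, (G₂ v).totalDegree ≤ K + 1) ∧
      ∀ ω, A ω → z (ptr F J ω) = z' (slam F ⌊w * J⌋₊ ω))
    (_ : ∀ (J : ℕ) (F : Fam m J) (A B : F.Ω → Prop) (V C : Type) (z : PtT F → V)
      (z' : LnT F → V) (G₁ G₂ : V → MvPolynomial (Option (Fin m)) ℝ) (c : LnT F → C), Sub B A →
      Ψ J F A V C z z' G₁ G₂ c → Ψ J F B V C z z' G₁ G₂ c) {Ψ' : Fm2 m}
    (_ : ∀ (J : ℕ) (F : Fam m J) (A : F.Ω → Prop) (V C : Type) (z : PtT F → V)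
      (z' : LnT F → V) (G₁ G₂ : V → MvPolynomial (Option (Fin m)) ℝ) (c : LnT F → C),
      Ψ' J F A V C z z' G₁ G₂ c → Ψ J F A V C z z' G₁ G₂ c)
    {K₀ : ℕ} (_ : Bas S (fun J F A => (∃ (V C : Type) (z : PtT F → V) (z' : LnT F → V)
      (G₁ G₂ : V → MvPolynomial (Option (Fin m)) ℝ) (c : LnT F → C),
      Ψ' J F A V C z z' G₁ G₂ c) ∧ ∃ u₀ : F.Ω → U₀, Qu.P K₀ e J F A u₀))
    {N₁ N₂ : ℕ → ℝ},
    (∀ j ≤ K + 2, P₁ - j * w ≤ N₁ j) → NwE (K + 2) {i} w p₂ α q N₂ →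
    Ip1 S f a y Qu Ψ' κ₂ w p₂ (α * q) i e (δ₁ * q) →
    Fw2 S f a y Qu Ψ (τ := fun _ _ _ C => C) (fun J F _ _ _ _ _ c ω => c (vg w J F ω)) e
      (δ₁ * q) →
    Row1 S Ψ κ₁ κ₂ w P₁ p₂ (α * q) ((α - h) * q * Real.log 2 + δ * q) →
    (∀ j ≤ K + 2, Fw2 S f a y Qu Ψ (τ := fun _ _ _ _ => ℤ)
      (fun J F _ _ z' G₁ _ _ ω => ⌊(2 : ℝ) ^ (N₁ j * J) * ojet F κ₁ j
        (G₁ (z' (slam F ⌊w * J⌋₊ ω))) ω⌋) e (δ₁ * q)) →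
    (∀ j ≤ K + 2, Fw2 S f a y Qu Ψ (τ := fun _ _ _ _ => ℤ)
      (fun J F _ _ z' _ G₂ _ ω => ⌊(2 : ℝ) ^ (N₂ j * J) * ojet F κ₂ j
        (G₂ (z' (slam F ⌊w * J⌋₊ ω))) ω⌋) e (δ₁ * q)) →
    Hi1 S Ψ' κ₂ w p₂ (α * q) i (K + 2) (δ₁ * q) →
    Al2 S f a y Qu Ψ.swap κ₂ w (p₂ + ε' * (α * q) - i * w) i e (al * q) → False := by
  classical
  obtain ⟨ε', hε', δ, hδ, c₀, hc₀, H⟩ := hop_ev (K + 2) hi hα hh hhα
  refine ⟨ε', hε', δ, hδ, ?_⟩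
  intro al hal
  obtain ⟨δ₁, hδ₁0, H⟩ := H al hal
  refine ⟨δ₁, hδ₁0, ?_⟩
  intro m S C₀ htm hSne κ₁ κ₂ w a P₁ p₂ q hw0 hwa ha hq hwq U₀ Qu σ γ f y hf hy e Ψ hΨl hΨ Ψ' hle K₀
    hex N₁ N₂ hN1 hN2 hIp hc hr hj1 hj2 hHi hAl
  obtain ⟨J₁, H⟩ := H (w := w) (q := q) hw0 hq hwq
  have HA := Pool.GRW.bas_part (hAl K₀) (c := 1 / c₀) (by positivity)
  obtain ⟨τ, hτ, J₃, hAll⟩ := ((HA.and hr).and ((Bas.all (K + 3) fun j hj =>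
    hj1 j (by omega) K₀).and (Bas.all (K + 3) fun j hj => hj2 j (by omega) K₀))).and
    ((((hc K₀).and (hIp K₀)).and (hHi.and hex)).and
      (Pool.GRW.tmc_bas htm (ψ := δ₁ * q) (by positivity)))
  obtain ⟨J, hJ, F, A, hSt⟩ := hSne τ hτ (max J₁ J₃)
  obtain ⟨⟨⟨hAA, hRA⟩, hJ1, hJ2⟩, ⟨⟨hcA, hIA⟩, hHA, hexA⟩, hA, hT⟩ :=
    hAll J ((le_max_right _ _).trans hJ) F A hSt
  obtain ⟨⟨V, Cc, z, z', G₁, G₂, c, hcΨ'⟩, u₀, hu₀⟩ := hexA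
  have hcΨ := hle J F A V Cc z z' G₁ G₂ c hcΨ'
  obtain ⟨hdg1, hdg2, hcls⟩ := hΨl J F A V Cc z z' G₁ G₂ c hcΨ
  obtain ⟨Vc, zc, hzc, hcc⟩ := hcA V Cc z z' G₁ G₂ c hcΨ u₀ hu₀
  have hJJ1 : J₁ ≤ J := (le_max_left _ _).trans hJ
  have hJ0 : (0 : ℝ) ≤ J := Nat.cast_nonneg J
  have hw1 : w ≤ 1 := hwa.trans ha
  obtain ⟨W, hW⟩ : ∃ W : ℕ, W = ⌊w * J⌋₊ := ⟨_, rfl⟩
  have hWJ : W ≤ J := by
    rw [hW]
    refine Nat.floor_le_of_le ?_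
    nlinarith
  obtain ⟨q', hq'⟩ : ∃ q' : F.Ω → ℝ, q' = Pool.Agent.H49.Ent.cond F.p A True := ⟨_, rfl⟩
  have hq'l : IsLaw q' := by
    rw [hq']
    exact isLaw_cond F.isLaw hA
  have h0 := hq'l.nonneg
  have hvg : ∀ ω, vg w J F ω = slam F W ω := fun ω => by rw [hW]; rfl
  have hz1 : ∀ j : Fin (K + 3), ∃ (V₂ : Type) (z₂ : F.Ω → V₂), Cl2 (f J F) (vg a J F) A z₂ ∧
      CH q' (fun ω => ⌊(2 : ℝ) ^ (N₁ j * J) * ojet F κ₁ j (G₁ (z' (slam F ⌊w * J⌋₊ ω))) ω⌋)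
        (fun ω => (u₀ ω, (z₂ ω, y J F ω))) ≤ δ₁ * q * J := by
    intro j
    rw [hq']
    exact hJ1 j j.2 V Cc z z' G₁ G₂ c hcΨ u₀ hu₀
  have hz2 : ∀ j : Fin (K + 3), ∃ (V₂ : Type) (z₂ : F.Ω → V₂), Cl2 (f J F) (vg a J F) A z₂ ∧
      CH q' (fun ω => ⌊(2 : ℝ) ^ (N₂ j * J) * ojet F κ₂ j (G₂ (z' (slam F ⌊w * J⌋₊ ω))) ω⌋)
        (fun ω => (u₀ ω, (z₂ ω, y J F ω))) ≤ δ₁ * q * J := by
    intro j
    rw [hq']
    exact hJ2 j j.2 V Cc z z' G₁ G₂ c hcΨ u₀ hu₀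
  choose V1 z1 hz1 hC1 using hz1
  choose V2 z2 hz2 hC2 using hz2
  -- the record of the ball
  obtain ⟨zz, hzz⟩ : ∃ zz : F.Ω → (V × (F.ζ × ℕ)) × (Vc × ((∀ j, V1 j) × (∀ j, V2 j))), zz =
    fun ω => ((z' (slam F W ω), (slam F W ω).2), (zc ω, (fun j => z1 j ω, fun j => z2 j ω))) :=
    ⟨_, rfl⟩
  obtain ⟨Y, hY⟩ : ∃ Y : F.Ω → U₀ × (((V × (F.ζ × ℕ)) × (Vc × ((∀ j, V1 j) × (∀ j, V2 j)))) ×
      γ J F), Y = fun ω => (u₀ ω, (zz ω, y J F ω)) := ⟨_, rfl⟩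
  have hYc : CH q' (fun ω => c (slam F W ω)) Y ≤ δ₁ * q * J := by
    rw [← hq'] at hcc
    simp only [hvg] at hcc
    refine le_trans (CH_mono_cond h0 fun ω ω' _ _ hh => ?_) hcc
    rw [hY, hzz] at hh
    simp only [Prod.mk.injEq] at hh ⊢
    exact ⟨hh.1, hh.2.1.2.1, hh.2.2⟩
  obtain ⟨φf, hφf⟩ := hf J F
  obtain ⟨φg, hφg⟩ := vg_mono hwa ha J F
  have hclo : Cl2 (f J F) (vg a J F) A zz := by
    rw [hzz]
    refine Cl2.join ⟨?_, ?_⟩ (Cl2.join hzc (Cl2.join (Cl2.pi hz1) (Cl2.pi hz2)))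
    · refine ⟨fun x => (z (φf x), ((φf x).2.2, (φf x).2.1 / 2 ^ (J - W))), fun ω hω => ?_⟩
      dsimp only
      have h1 := hcls ω hω
      rw [← hW] at h1
      rw [← hφf ω, h1]
      rfl
    · refine ⟨fun x => (z' (φg x), (φg x).2), fun ω _ => ?_⟩
      dsimp only
      rw [← hφg ω, hvg ω]
  have hIY := hIA V Cc z z' G₁ G₂ c hcΨ' u₀ hu₀ _ _ hclo
  obtain ⟨φT, hφT⟩ := hy J F
  refine H J hJJ1 F A hA (κ₁ := κ₁) (κ₂ := κ₂) z' G₁ G₂ c Y (P₁ := P₁) (p₂ := p₂) (N₁ := N₁)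
    (N₂ := N₂)
    (fun v => (MvPolynomial.totalDegree_sub _ _).trans (max_le
      ((totalDegree_X _).le.trans (by omega)) ((hdg1 v).trans (by omega))))
    (fun v => (MvPolynomial.totalDegree_sub _ _).trans (max_le
      ((totalDegree_X _).le.trans (by omega)) ((hdg2 v).trans (by omega))))
    (by linarith)
    (fun ω ω' _ _ e => by
      rw [hY] at e
      simp only [Prod.mk.injEq] at e
      have e1 := e.2.1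
      rw [hzz] at e1
      refine ⟨?_, (Prod.ext_iff.mp (Prod.ext_iff.mp (Prod.ext_iff.mp e1).1).2).1⟩
      rw [hφT, hφT, e.2.2])
    (by
      rw [← hq', ← hW]
      refine le_trans (le_of_eq ?_) hYc
      refine CH_congr h0 ?_ ?_ (fun _ _ _ _ e => e) (fun _ _ _ _ e => e)
      · intro ω ω' _ _ e
        simp only [Prod.mk.injEq] at e ⊢
        exact e.1.2
      · intro ω ω' _ _ e
        have e1 := (Prod.ext_iff.mp e).2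
        rw [hY, hzz] at e1
        simp only [Prod.mk.injEq] at e e1 ⊢
        exact ⟨e1.2.1.1.1, e.1⟩)
    hN1 hN2
    (fun j hj => by
      rw [← hq']
      refine le_trans (CH_mono_cond h0 fun ω ω' _ _ hh => ?_) (hC1 ⟨j, by omega⟩)
      rw [hY, hzz] at hh
      simp only [Prod.mk.injEq] at hh ⊢
      exact ⟨hh.1, congrFun hh.2.1.2.2.1 _, hh.2.2⟩)
    (fun j hj => by
      rw [← hq']
      refine le_trans (CH_mono_cond h0 fun ω ω' _ _ hh => ?_) (hC2 ⟨j, by omega⟩)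
      rw [hY, hzz] at hh
      simp only [Prod.mk.injEq] at hh ⊢
      exact ⟨hh.1, congrFun hh.2.1.2.2.2 _, hh.2.2⟩)
    (by
      rw [hY]
      exact hIY)
    (fun j h1 h2 => hHA V Cc z z' G₁ G₂ c hcΨ' j h1 h2)
    (fun E hE hm => by
      rw [hY]
      refine hAA E hE ?_ V Cc z z' G₂ G₁ c (hΨ _ _ _ _ _ _ _ _ _ _ _ hE hcΨ) u₀ (Qu.sub hE hu₀)
        _ zz (hclo.sub hE)
      rw [one_div, ← div_eq_inv_mul, le_div_iff₀ hc₀]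
      linarith)
    (hRA V Cc z z' G₁ G₂ c hcΨ)

end Pool.TE46
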