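import Pool.Agent.H46.TE.Flr
import Pool.Agent.H18.AB.Grp

/-!
# The leaf is full, at a record

`recG_low`: the levels are at least the window. `GrA.fl2`: `Fl2` for the family `FmB` at a record with
labels and full rates.
-/

set_option autoImplicit false

namespace Pool.PN18

open Finset Real MvPolynomial
open Pool.Agent.H49.Ent Pool.Agent.H32.Dense Pool.STK Pool.KA Pool.KSAT Pool.K2S Pool.PB Pool.GEN
open Pool.S6C Pool.RCD Pool.LA91 Pool.OWN68 Pool.AJW Pool.AJX Pool.CHT Pool.PKG Pool.ALT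
open Pool.AB63 Pool.TE46
open Pool.ISO (lvN)

section

variable {m : ℕ} {S : PCl m} {al : ℝ} {g₀ : ℝ → ℝ} {P : List (Fin m) × Fin m → ℝ → ℝ → ℝ}
    {θ : ℝ} {P₂ : ℕ → List (Fin m) × Fin m → ℝ → ℝ → ℝ} {θ₂ Eb e₂ : ℕ → ℝ}
    {c : ℕ → Fin m} {Pt : ℝ → ℝ → ℝ} {rt : ℝ → ℝ} {h K₀ g : ℝ} {L T : ℕ → ℝ → ℝ → ℝ}
    {Sl : ℕ → ℝ} {κ : ℕ → Kg} {G : Set ℝ} {S₀ N : ℕ} {A V : ℕ → ℝ} {S₂ N' : ℕ} {V' : ℕ → ℝ}
    {K' ε q t : ℝ}

/-- The levels are at least the window. -/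
theorem recG_low
    (Rc : RecG S al g₀ P θ P₂ θ₂ Eb e₂ c Pt rt h K₀ g L T Sl κ G S₀ N A V S₂ N' V' K' ε q t)
    {l : ℕ} (hl1 : 1 ≤ l) (hl : l < m) {x : ℝ} (hx : ∃ j < N', V' j = x) :
    t + x * q ≤ L l (t + x * q) (t + x * q) := by
  obtain ⟨k, hk, rfl⟩ := hx
  obtain ⟨ρ, vs, e, e₀, E, sg, Q, h1, -, -⟩ := (Rc.tg l hl1 hl).ptc k hk
  have h2 := h1.low Rc.thr l
  unfold lvN at h2
  rwa [if_neg (lt_irrefl l)] at h2

end

section

variable {r D : ℕ} {S S₁ : PCl (r + 2)} {al : ℝ} {g₀ : ℝ → ℝ}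
    {P : List (Fin (r + 2)) × Fin (r + 2) → ℝ → ℝ → ℝ} {θ : ℝ}
    {P₂ : ℕ → List (Fin (r + 2)) × Fin (r + 2) → ℝ → ℝ → ℝ} {θ₂ Eb e₂ : ℕ → ℝ}
    {c : ℕ → Fin (r + 2)} {Pt : ℝ → ℝ → ℝ} {rt : ℝ → ℝ} {h K₀ g : ℝ} {L T : ℕ → ℝ → ℝ → ℝ}
    {Sl : ℕ → ℝ} {κ : ℕ → Kg} {G : Set ℝ} {S₀ N : ℕ} {A V : ℕ → ℝ} {S₂ N' : ℕ} {V' : ℕ → ℝ}
    {K' ε q t a e₀ ρ₀ π₀ μ el dl : ℝ} {k₀ : ℕ}

/-- **The leaf is full, at a record.** `b = t - Tn q`: the early window; `w = t - τ q`: the window of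
the family; `i`: the order; `d q`: the digits of the leaf; `yv`: a window of the list near
`-(i τ / a)`, up to `ν / a`; `s ≤ s₁ q`, `γ`: the errors of the levels; `εl`: the exponent of the
slopes. -/
theorem GrA.fl2
    (H : GrA r D S S₁ al g₀ P θ P₂ θ₂ Eb e₂ c Pt rt h K₀ g L T Sl κ G S₀ N A V S₂ N' V'
      K' ε q t a e₀ ρ₀ π₀ μ el dl k₀) (hD : 1 ≤ D) {i : ℕ} {τ Tn yv d s s₁ ν εl β γ e : ℝ}
    {K : ℕ} {E rd p : ℕ → ℝ} {X : ℕ → ℕ → ℝ} {Ψ₀ : Fm2 (r + 2)} (hi : (i : ℝ) ≤ a)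
    (hK : K ≤ max D D * max 1 D)
    (hbL : ∃ j < N', V' j = -Tn) (hvL : ∃ j < N', V' j = yv)
    (hxL : ∃ j < N', V' j = -(K₀ + 1))
    (hyv1 : -τ ≤ yv) (hyv2 : |a * yv + i * τ| ≤ ν) (hν : 0 ≤ ν)
    (hτ0 : 0 ≤ τ) (hTn : τ ≤ Tn) (hTK : Tn + K₀ + 1 ≤ K') (hdK : τ + d + 1 ≤ K')
    (hd : 2 * ε + ν < d) (hd2 : ν ≤ 1)
    (hk₀ : (K₀ + τ + d + 1) * q ≤ (1 / 2) ^ k₀) (hbμ : μ / 2 ≤ t + -Tn * q)
    (hs0 : 0 ≤ s) (hs : s ≤ s₁ * q) (hγ0 : 0 ≤ γ) (he0 : 0 ≤ e) (hεl : 0 ≤ εl)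
    (hqμ : (2 * a * (Tn + 1) + s₁ + εl * d + 4 * ε) * q + γ + 2 * e ≤ μ / 8)
    (hE1 : E r = 0) (hE2 : E (r + 1) = e₀ - μ / 2)
    (hr1 : rd r = L r (t + -Tn * q) (t + -Tn * q)) (hr2 : rd (r + 1) = ρ₀ - μ / 2)
    (hp1 : p r = L r (t + -Tn * q) (t + -Tn * q))
    (hp2 : p (r + 1) = L (r + 1) (t + -Tn * q) (t + -Tn * q) - γ)
    (hnum : β + (2 * εl * d + 2 * (s₁ + 2 * ε + ν + ε)) * q * Real.log 2 +
      2 * el * ((K₀ + τ + d + 1) * q) <
      (a * Real.log 2 - dl) * ((d - 2 * ε - ν) / a * q)) :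
    Fl2 S₁ (FmB Ψ₀ c r K e E (t + -Tn * q) (t + -τ * q) rd p X) ((range r).image c) (c r)
      (c (r + 1)) (t + -τ * q)
      (L r (t + -Tn * q) (t + -Tn * q) + s + a * ((t + -τ * q) - (t + -Tn * q)) +
        (a - i) * (t - (t + -τ * q)))
      (L (r + 1) (t + -Tn * q) (t + -Tn * q) + a * ((t + -τ * q) - (t + -Tn * q)) +
        (a - i) * (t - (t + -τ * q))) (d * q) εl β := by
  have hq := H.rc.q0
  have ha := H.ha
  have ha0 : 0 < a := by linarith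
  have hε := H.hε
  have hK₀ := H.hK₀
  have hμ := H.hμ
  have hKq : 0 ≤ K' := by linarith
  have hd0 : 0 < d := by linarith
  have hlog : 0 < Real.log 2 := Real.log_pos (by norm_num)
  have hgK : ∀ x : ℝ, |x| ≤ K' → |t + x * q - t| ≤ K' * q := fun x hx => by
    rw [add_sub_cancel_left, abs_mul, abs_of_pos hq]
    exact mul_le_mul_of_nonneg_right hx hq.le
  have hwin : ∀ x, (∃ j < N', V' j = x) → t + x * q ∈ G := fun x hx => by
    obtain ⟨j, hj, e⟩ := hx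
    rw [← e]
    exact H.rc.memG.2 j hj
  -- the levels
  have hlv : ∀ l < r + 2, ∀ x : ℝ, |x| ≤ K' → |L l (t + x * q) (t + x * q) - L l t t -
      Sl l * (x * q)| ≤ ε * q := fun l hl x hx => by
    have h1 := H.rc.dL l hl (t + x * q) (hgK x hx)
    rwa [add_sub_cancel_left] at h1
  have hTnK : |(-Tn : ℝ)| ≤ K' := by
    rw [abs_neg, abs_of_nonneg (hτ0.trans hTn)]
    linarith
  have hiτ : (i : ℝ) * τ ≤ a * τ := mul_le_mul_of_nonneg_right hi hτ0
  have hiτ0 : 0 ≤ (i : ℝ) * τ := by positivity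
  have hyv := abs_le.1 hyv2
  have hyv3 : yv ≤ 1 := by
    by_contra hcon
    have h1 : a * 1 < a * yv := mul_lt_mul_of_pos_left (not_le.mp hcon) ha0
    linarith
  have hyvK : |yv| ≤ K' := by
    rw [abs_le]
    exact ⟨by linarith, by linarith⟩
  -- the second window
  obtain ⟨yo, hyo⟩ : ∃ yo : ℝ, yo = (d - 2 * ε - i * τ) / a := ⟨_, rfl⟩
  have hayo : a * yo = d - 2 * ε - i * τ := by
    rw [hyo]
    field_simp
  have hyo1 : yo ≤ d := by
    by_contra hcon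
    have h1 : a * d < a * yo := mul_lt_mul_of_pos_left (not_le.mp hcon) ha0
    have h2 : 1 * d ≤ a * d := mul_le_mul_of_nonneg_right ha.le hd0.le
    linarith
  have hyvo : yv < yo := by
    by_contra hcon
    have h1 : a * yo ≤ a * yv := mul_le_mul_of_nonneg_left (not_lt.mp hcon) ha0.le
    linarith
  have hyoK : |yo| ≤ K' := by
    rw [abs_le]
    exact ⟨by linarith, by linarith⟩
  obtain ⟨b, hb⟩ : ∃ b : ℝ, b = t + -Tn * q := ⟨_, rfl⟩
  have hbG : b ∈ G := by rw [hb]; exact hwin _ hbL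
  obtain ⟨rk, E', b1, b2, b3, b4, b5, b6, b7, b8, b9, b10⟩ := H.halt b hbG (by
    rw [hb]
    exact H.hnear _ hTnK)
  obtain ⟨rkv, Ev, v1, v2, v3, v4, v5, v6, v7, v8, v9, v10⟩ := H.halt (t + yv * q) (hwin _ hvL)
    (H.hnear _ hyvK)
  have hlow := recG_low H.rc (l := r + 1) (by omega) (by omega) hbL
  -- the rate
  have hxK : |-(K₀ + 1)| ≤ K' := by
    rw [abs_neg, abs_of_pos (by linarith)]
    linarith
  have hDK : D ≤ max D D * max 1 D := by
    calc D = D * 1 := (mul_one D).symm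
      _ ≤ D * max 1 D := Nat.mul_le_mul_left D (le_max_left 1 D)
      _ = max D D * max 1 D := by rw [max_self]
  have hK₀q : K₀ * q ≤ K' * q := mul_le_mul_of_nonneg_right (by linarith) hq.le
  have ht0 := H.rc.t0
  have ht1 := H.rc.t1
  have htn := abs_le.1 H.rc.near
  obtain ⟨ph, hph, hAt⟩ := H.hful S₁ H.ne H.hs (t + -(K₀ + 1) * q)
    (by
      have h1 : (K₀ + 1) * q ≤ K' * q := mul_le_mul_of_nonneg_right (by linarith) hq.le
      linarith) (by linarith [htn.2, hq]) (by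
      obtain ⟨rk', E'', x1, x2, x3, x4, x5, x6, x7, x8, x9, x10⟩ := H.halt _ (hwin _ hxL)
        (H.hnear _ hxK)
      obtain ⟨j, hj, ej⟩ := hxL
      have hal : AlC S₁ c r D L e₀ μ (t + -(K₀ + 1) * q) := by
        rw [← ej]
        exact (H.hlab j hj).1
      exact hal.lb x6 hDK hμ le_rfl (by linarith only [x7]))
  -- the labels at the window `v`
  have HL : ∀ e : ℝ, 0 < e → Bas S₁ (fun J F A => ∃ (V₁ : Type) (z : PtT F → V₁)
      (z' : LnT F → V₁) (g : V₁ → ℕ → MvPolynomial (Option (Fin (r + 2))) ℝ),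
      LbX F c 0 (r + 1) D e (fun i => max 0 (L r (t + yv * q) (t + yv * q) -
        L i (t + yv * q) (t + yv * q))) (t + yv * q)
        (fun _ => L r (t + yv * q) (t + yv * q))
        (fun l => L l (t + yv * q) (t + yv * q)) A z z' g) := fun e he => by
    obtain ⟨j, hj, ej⟩ := hvL
    have h1 := (H.hlab j hj).2 e he
    rwa [ej] at h1
  -- numbers
  have hTq : τ * q ≤ Tn * q := mul_le_mul_of_nonneg_right hTn hq.le
  have hl1 := abs_le.1 (hlv r (by omega) (-Tn) hTnK)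
  have hl2 := abs_le.1 (hlv (r + 1) (by omega) (-Tn) hTnK)
  have hl3 := abs_le.1 (hlv r (by omega) yv hyvK)
  have hl4 := abs_le.1 (hlv (r + 1) (by omega) yv hyvK)
  have hl5 := abs_le.1 (hlv (r + 1) (by omega) yo hyoK)
  rw [H.hSa] at hl1 hl3
  rw [H.hSn] at hl2 hl4 hl5
  rw [← hb] at hl1 hl2 hlow hbμ hr1 hp1 hp2
  have m1 : |a * (yv * q) + i * τ * q| ≤ ν * q := by
    have e1 : a * (yv * q) + i * τ * q = (a * yv + i * τ) * q := by ring
    rw [e1, abs_mul, abs_of_pos hq]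
    exact mul_le_mul_of_nonneg_right hyv2 hq.le
  have m1' := abs_le.1 m1
  have m2 : a * (yo * q) = d * q - 2 * ε * q - i * τ * q := by
    have e1 : a * (yo * q) = (a * yo) * q := by ring
    rw [e1, hayo]
    ring
  have m3 : (i : ℝ) * τ * q ≤ a * τ * q := mul_le_mul_of_nonneg_right hiτ hq.le
  have m4 : 0 ≤ (i : ℝ) * τ * q := by positivity
  have haTn : a * τ * q ≤ a * Tn * q := by
    have := mul_le_mul_of_nonneg_left hTq ha0.le
    linarith
  have haTn0 : 0 ≤ a * Tn * q := by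
    have h1 : 0 ≤ Tn := hτ0.trans hTn
    positivity
  have hεq : 0 < ε * q := mul_pos hε hq
  have hνq : 0 ≤ ν * q := mul_nonneg hν hq.le
  have hεdq : 0 ≤ εl * (d * q) := by positivity
  have haq : 0 < a * q := mul_pos ha0 hq
  have hνa : ν * q ≤ a * q := mul_le_mul_of_nonneg_right (by linarith) hq.le
  have hM : 2 * (a * Tn * q) + 2 * (a * q) + s₁ * q + εl * (d * q) + 4 * (ε * q) + γ + 2 * e ≤
      μ / 8 := by
    refine le_trans (le_of_eq ?_) hqμ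
    ring
  have hs1 : 0 ≤ s₁ * q := hs0.trans hs
  have e1 : a * ((t + -τ * q) - b) = a * Tn * q - a * τ * q := by rw [hb]; ring
  have e2 : (a - i) * (t - (t + -τ * q)) = a * τ * q - i * τ * q := by ring
  rw [← hb, e1, e2]
  have hc14 : β + (2 * εl * (d * q) + 2 * (s₁ * q + 2 * ε * q + ν * q + ε * q)) * Real.log 2 +
      2 * el * ((K₀ + τ + d + 1) * q) < ph * (t + yo * q - (t + yv * q)) := by
    have h1 : (d - 2 * ε - ν) / a * q ≤ t + yo * q - (t + yv * q) := by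
      have h2 : (d - 2 * ε - ν) / a ≤ yo - yv := by
        rw [div_le_iff₀ ha0]
        have : (yo - yv) * a = a * yo - a * yv := by ring
        rw [this, hayo]
        linarith
      have h3 := mul_le_mul_of_nonneg_right h2 hq.le
      linarith
    have h0 : 0 ≤ (d - 2 * ε - ν) / a * q := by
      have : 0 < (d - 2 * ε - ν) / a := div_pos (by linarith) ha0
      positivity
    have h4 : (a * Real.log 2 - dl) * ((d - 2 * ε - ν) / a * q) ≤
        ph * (t + yo * q - (t + yv * q)) :=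
      mul_le_mul hph h1 h0 ((sub_nonneg.2 H.hdlb).trans hph)
    refine lt_of_lt_of_le (lt_of_le_of_lt (le_of_eq ?_) hnum) h4
    ring
  refine fl2_alt (D := D) (v := t + yv * q) (o := t + yo * q) (Y := (K₀ + τ + d + 1) * q)
    (L := fun l => L l (t + yv * q) (t + yv * q)) (s := fun w => L (r + 1) w w) (μ := μ / 4)
    (μ₁ := s₁ * q + 2 * ε * q + ν * q + ε * q) (e₀ := e₀) (ρ₀ := ρ₀) (π₀ := π₀) (φ := ph)
    (el := el) (k₀ := k₀) (K' := max D D * max 1 D) (g := g)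
    H.rc.pos (fun k hk => (hAt k hk).sub H.hs) H.hel ?_ ?_ ?_ ?_ ?_ hk₀ ?_ HL ?_ hK ?_
    (by linarith) (by linarith) hεl (by positivity) he0 (by rw [hE1]) ?_ ?_ ?_ ?_ ?_ ?_ ?_ ?_ ?_
    ?_ ?_ ?_ ?_ ?_
  · have := mul_le_mul_of_nonneg_right hyv1 hq.le
    linarith
  · have := mul_lt_mul_of_pos_right hyvo hq
    linarith
  · have h1 := mul_le_mul_of_nonneg_right (abs_le.1 hyoK).2 hq.le
    linarith
  · rw [abs_le]
    have h1 := mul_le_mul_of_nonneg_right hyv1 hq.le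
    have h2 := mul_le_mul_of_nonneg_right hyv3 hq.le
    have h3 : 0 ≤ τ * q := by positivity
    have h4 : 0 ≤ d * q := by positivity
    exact ⟨by linarith [htn.1], by linarith [htn.2]⟩
  · rw [abs_le]
    have h1 := mul_le_mul_of_nonneg_right hyo1 hq.le
    have h2 := mul_le_mul_of_nonneg_right (hyv1.trans hyvo.le) hq.le
    have h3 : 0 ≤ τ * q := by positivity
    have h4 : 0 ≤ d * q := by positivity
    exact ⟨by linarith [htn.1], by linarith [htn.2]⟩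
  · intro x y hx hxy hy
    have h1 := mul_le_mul_of_nonneg_right (abs_le.1 hyoK).2 hq.le
    have h2 := mul_le_mul_of_nonneg_right (abs_le.1 hyvK).1 hq.le
    have h5 := H.rc.lawL (r + 1) (by omega)
    exact (h5.mono_a x y x (by linarith) le_rfl hxy (by linarith)).trans
      (h5.mono_w y x y (by linarith) hxy le_rfl (by linarith))
  · rw [hb]
    linarith
  · exact le_trans (by omega : 1 ≤ D) hDK
  · rw [hE2]
    linarith [b4, b3]
  · rw [hE2]
    linarith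
  · rw [hE1]
    linarith
  · rw [hr1]
    linarith
  · rw [hr2]
    linarith
  · rw [hr1]
    have := H.hρ₀
    linarith
  · have := H.hρ₀
    show L r (t + yv * q) (t + yv * q) < 1
    linarith
  · rw [hp2]
    refine (add_le_add_left (max_le (show 0 ≤ L (r + 1) b b - γ - e - μ / 4 by linarith)
      (show π₀ ≤ L (r + 1) b b - γ - e - μ / 4 by linarith)) _).trans ?_
    linarith
  · rw [hp1]
    have h1 : max 0 π₀ ≤ L (r + 1) b b - γ - e - μ / 4 - μ / 8 :=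
      max_le (by linarith) (by linarith)
    linarith
  · show _ < L r (t + yv * q) (t + yv * q) + _
    linarith
  · rw [hE1]
    have := H.hρ₀
    linarith
  · show _ ≤ L (r + 1) (t + yv * q) (t + yv * q) + _
    linarith
  · show L (r + 1) (t + yo * q) (t + yo * q) ≤ _
    linarith
  · exact hc14

end

end Pool.PN18
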