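import Pool.Agent.H46.TE.Ipp
import Pool.Agent.H46.PR.Mid

/-!
# Ties of own paths: the alive code
-/

set_option autoImplicit false

namespace Pool.TE46

open Finset Real
open Pool.Agent.H49.Ent Pool.Agent.H32.Dense Pool.STK Pool.KA Pool.KSAT Pool.K2S Pool.PB Pool.GEN
open Pool.S6C Pool.LA91 Pool.OWN68 Pool.AJ18 Pool.PAIR76 Pool.PN18 Pool.LPK12 Pool.PR46 Pool.PS46
open Pool.BFL (Pb)

variable {m J : ℕ}

/-- Few bits under a law of bounded density. -/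
theorem CH_dens {Ω T V : Type} [Fintype Ω] {p q : Ω → ℝ} (hp : IsLaw p) (hq : IsLaw q) {R : ℝ}
    (hR : 0 < R) (hd : ∀ w, q w ≤ R * p w) (X : Ω → T) (Z : Ω → V) :
    CH q X Z ≤ R * (CH p X Z + Real.log 2) := by
  have h1 := mi_dens hp hq hR hd X (fun w => (X w, Z w)) Z
    (fun w w' _ _ e => (Prod.ext_iff.mp e).2)
  have h2 : CH q X (fun w => (X w, Z w)) = 0 :=
    CH_eq_zero hq.nonneg fun _ _ _ _ e => (Prod.ext_iff.mp e).1
  have h3 : CH p X (fun w => (X w, Z w)) = 0 :=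
    CH_eq_zero hp.nonneg fun _ _ _ _ e => (Prod.ext_iff.mp e).1
  rw [h2, h3] at h1
  linarith

/-- The density of a conditioned law. -/
theorem cond_dens {Ω : Type} [Fintype Ω] {p : Ω → ℝ} (hp : IsLaw p) {S : Ω → Prop} {c : ℝ}
    (hc : 0 < c) (hS : c ≤ Pe p S) : ∀ w, Pool.Agent.H49.Ent.cond p S True w ≤ 1 / c * p w := by
  intro w
  have hl : law p S True = Pe p S := rfl
  unfold Pool.Agent.H49.Ent.cond
  have h0 := hp.nonneg w
  split_ifs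
  · rw [hl, div_le_iff₀ (by linarith)]
    have h1 : 1 ≤ 1 / c * Pe p S := by
      rw [one_div, ← div_eq_inv_mul, le_div_iff₀ hc]
      linarith
    calc p w = p w * 1 := (mul_one _).symm
      _ ≤ p w * (1 / c * Pe p S) := mul_le_mul_of_nonneg_left h1 h0
      _ = 1 / c * p w * Pe p S := by ring
  · positivity

/-- The jet from the code of the coefficient, coarse digits. -/
theorem jet_crs (D : ℕ) : ∃ C : ℝ, 0 ≤ C ∧ ∀ {m J : ℕ} (F : Fam m J) (R : LnT F → Polynomial ℝ)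
    {i W : ℕ} {x y B : ℝ} {q : F.Ω → ℝ} {Γ : Type} {G : F.Ω → Γ} (_ : IsLaw q),
    (∀ z, (R z).natDegree ≤ D) → 0 ≤ x → 0 ≤ y → 0 < B → B ≤ 2 ^ y →
    Det q G (Pool.LPK12.tm F W) → Det q G (jv F R W D i x) →
    CH q (fun ω => ⌊pj F R W i ω / 2 ^ y⌋) (fun ω => (⌊(cd F R i (slam F W ω) : ℝ) / B⌋, G ω)) ≤
      C := by
  obtain ⟨C₁, hC₁, hd⟩ := der_small D
  obtain ⟨K, hK1, hK2⟩ := cvt D
  have hK : Cvt D K := ⟨hK1, hK2⟩
  refine ⟨LK (C₁ * (K + 2)), LK_nonneg _, ?_⟩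
  intro m J F R i W x y B q Γ G hq hdeg hx hy hB hBy ht hj
  refine CH_near hq _ _ fun ω ω' a b e => ?_
  obtain ⟨e2, e3⟩ := Prod.ext_iff.mp e
  dsimp only at e2 e3
  have e1 := ht ω ω' a b e3
  have e4 := hj ω ω' a b e3
  have hp1 : (1 : ℝ) ≤ 2 ^ y := Real.one_le_rpow (by norm_num) hy
  have h1 := of_floor_div hB e2
  obtain ⟨E, hE⟩ : ∃ E : Polynomial ℝ, E = Pq (R (slam F W ω)) - Pq (R (slam F W ω')) := ⟨_, rfl⟩
  have hEd : E.natDegree ≤ D := by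
    rw [hE, Pq_sub]
    exact Pq_deg ((Polynomial.natDegree_sub_le _ _).trans (max_le (hdeg _) (hdeg _)))
  have hco : ∀ j, i ≤ j → |E.coeff j| ≤ (K + 2) * 2 ^ y := by
    intro j hj0
    rw [hE, Polynomial.coeff_sub]
    rcases hj0.eq_or_lt with h2 | h2
    · subst h2
      unfold cd at h1
      have a1 := Int.floor_le ((Pq (R (slam F W ω))).coeff i)
      have a2 := Int.lt_floor_add_one ((Pq (R (slam F W ω))).coeff i)
      have a3 := Int.floor_le ((Pq (R (slam F W ω'))).coeff i)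
      have a4 := Int.lt_floor_add_one ((Pq (R (slam F W ω'))).coeff i)
      rw [abs_le] at h1
      have a5 : |(Pq (R (slam F W ω))).coeff i - (Pq (R (slam F W ω'))).coeff i| ≤ 2 * 2 ^ y := by
        rw [abs_le]
        constructor <;> linarith [h1.1, h1.2]
      refine a5.trans (mul_le_mul_of_nonneg_right ?_ (by positivity))
      linarith
    · have h3 := (hK.2 (R (slam F W ω)) (R (slam F W ω'))
        ((Pool.LPK12.tm F W ω : ℝ) / 2 ^ (J - W)) j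
        (hdeg _) (hdeg _) (tm_unit F W ω).1 (tm_unit F W ω).2).2 1 (fun l hl _ => by
          have h4 := (jv_jet hx hdeg e4 l).2 (by omega)
          rw [pj_eq, pj_eq, ← e1] at h4
          exact h4) zero_le_one
      rw [mul_one] at h3
      refine h3.trans ?_
      nlinarith
  obtain ⟨s0, s1⟩ := tm_unit F W ω
  have h2 := hd E i ((Pool.LPK12.tm F W ω : ℝ) / 2 ^ (J - W)) ((K + 2) * 2 ^ y) hEd (by
    rw [abs_of_nonneg s0]
    exact s1) hco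
  have h3 : (Polynomial.derivative^[i] E).eval ((Pool.LPK12.tm F W ω : ℝ) / 2 ^ (J - W)) =
      2 ^ i * (pj F R W i ω - pj F R W i ω') := by
    rw [hE, Polynomial.iterate_derivative_sub, Polynomial.eval_sub, mul_sub, ← Pq_pj, ← Pq_pj,
      ← e1]
  have h4 : |pj F R W i ω - pj F R W i ω'| ≤ C₁ * ((K + 2) * 2 ^ y) := by
    rw [h3, abs_mul, abs_of_nonneg (by positivity : (0 : ℝ) ≤ 2 ^ i)] at h2
    exact (le_mul_of_one_le_left (abs_nonneg _) (one_le_pow₀ (by norm_num))).trans h2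
  rw [← sub_div, abs_div, abs_of_pos (by linarith : (0 : ℝ) < 2 ^ y), div_le_iff₀ (by linarith)]
  linarith

/-- **The alive code** on the large events. -/
theorem alv_of (D : ℕ) : ∃ C : ℝ, 1 ≤ C ∧ ∀ {m J : ℕ} (F : Fam m J) {A : F.Ω → Prop}
    {R₁ R₂ : LnT F → Polynomial ℝ} {𝒞 Γ : Type} {c : LnT F → 𝒞} {Y : F.Ω → Γ} {i W Q : ℕ}
    {x g y B c₀ β : ℝ} (_ : 0 < Pe F.p A),
    TeR F (Pool.Agent.H49.Ent.cond F.p A True) R₁ R₂ c Y D i W x g → i ≤ D → 0 ≤ x → x ≤ Q →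
    (Q : ℝ) ≤ x + 1 → W ≤ J → 1 ≤ g → 0 ≤ y → 0 < B → B ≤ 2 ^ y → 0 < c₀ → c₀ ≤ 1 →
    (∀ E : F.Ω → Prop, Sub E A → c₀ * Pe F.p A ≤ Pe F.p E →
      β ≤ CH (Pool.Agent.H49.Ent.cond F.p E True) (fun ω => ⌊pj F R₁ W i ω / 2 ^ y⌋) Y) →
    ∀ S : F.Ω → Prop, c₀ ≤ Pb (Pool.Agent.H49.Ent.cond F.p A True) S →
      β - C * g / c₀ ≤ CH (Pool.Agent.H49.Ent.cond (Pool.Agent.H49.Ent.cond F.p A True) S True)
        (fun ω => ⌊((cD F R₁ R₂ i (slam F W ω)).1 : ℝ) / B⌋) (gG F R₁ R₂ c Y D i W Q x) := by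
  obtain ⟨C₁, hC₁, rec⟩ := rec_of D
  obtain ⟨C₂, hC₂, crs⟩ := jet_crs D
  refine ⟨C₁ + Real.log 2 + C₂, by
    have := Real.log_nonneg (show (1 : ℝ) ≤ 2 by norm_num)
    linarith, ?_⟩
  intro m J F A R₁ R₂ 𝒞 Γ c Y i W Q x g y B c₀ β hA H hiD hx hxQ hQx hW hg hy hB hBy hc₀ hc1 hal
    S hS
  have hq := isLaw_cond F.isLaw hA
  obtain ⟨r1, -, -⟩ := rec F hq H hiD hx hxQ hQx hW hg
  rw [Pb_Pe] at hS
  obtain ⟨p, hp⟩ : ∃ p, p = Pool.Agent.H49.Ent.cond F.p A True := ⟨_, rfl⟩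
  rw [← hp] at hq H r1 hS ⊢
  have hpS : 0 < Pe p S := by linarith
  have hqS : IsLaw (Pool.Agent.H49.Ent.cond p S True) := isLaw_cond hq hpS
  have h0 := hqS.nonneg
  obtain ⟨q, hqd⟩ : ∃ q, q = Pool.Agent.H49.Ent.cond p S True := ⟨_, rfl⟩
  have hcd := cond_dens hq hc₀ hS
  have hE := hal (fun ω => A ω ∧ S ω) (fun ω h => h.1) (by
    rw [hp] at hS
    exact part_pos hA hS)
  rw [← cond_and S hA.ne', ← hp] at hE
  have h1 := CH_dens hq hqS (R := 1 / c₀) (by positivity) hcd (gG F R₁ R₂ c Y D i W Q x) Y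
  rw [← hqd] at hqS h0 hcd hE h1 ⊢
  have h2 := CH_le_add h0 (fun ω => ⌊pj F R₁ W i ω / 2 ^ y⌋) (gG F R₁ R₂ c Y D i W Q x) Y
  have h3 : CH q (fun ω => ⌊pj F R₁ W i ω / 2 ^ y⌋)
      (fun ω => (gG F R₁ R₂ c Y D i W Q x ω, Y ω)) ≤
      CH q (fun ω => ⌊pj F R₁ W i ω / 2 ^ y⌋) (gG F R₁ R₂ c Y D i W Q x) :=
    CH_mono_cond h0 fun ω ω' _ _ e => (Prod.ext_iff.mp e).1
  have h4 := CH_le_add h0 (fun ω => ⌊pj F R₁ W i ω / 2 ^ y⌋)
    (fun ω => ⌊(cd F R₁ i (slam F W ω) : ℝ) / B⌋) (gG F R₁ R₂ c Y D i W Q x)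
  have hpos : ∀ ω, 0 < q ω → 0 < p ω := fun ω hω => by
    have := hcd ω
    by_contra hn
    push Not at hn
    have h5 : 1 / c₀ * p ω ≤ 0 := mul_nonpos_of_nonneg_of_nonpos (by positivity) hn
    linarith
  have h5 := crs F R₁ (i := i) (W := W) (G := gG F R₁ R₂ c Y D i W Q x) hqS H.deg1 hx hy hB hBy
    (fun ω ω' a b e => H.gtm ω ω' (hpos ω a) (hpos ω' b) e)
    (fun ω ω' a b e => gG_j1 (q := p) ω ω' (hpos ω a) (hpos ω' b) e)
  have h6 : (fun ω => ⌊((cD F R₁ R₂ i (slam F W ω)).1 : ℝ) / B⌋) =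
    fun ω => ⌊(cd F R₁ i (slam F W ω) : ℝ) / B⌋ := rfl
  rw [h6]
  have h7 : 1 / c₀ * (CH p (gG F R₁ R₂ c Y D i W Q x) Y + Real.log 2) ≤
      (C₁ + Real.log 2) * g / c₀ := by
    rw [one_div, ← div_eq_inv_mul]
    refine div_le_div_of_nonneg_right ?_ hc₀.le
    have := Real.log_nonneg (show (1 : ℝ) ≤ 2 by norm_num)
    nlinarith
  have h8 : C₂ ≤ C₂ * g / c₀ := by
    rw [le_div_iff₀ hc₀]
    nlinarith
  have h9 : (C₁ + Real.log 2 + C₂) * g / c₀ = (C₁ + Real.log 2) * g / c₀ + C₂ * g / c₀ := by ring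
  rw [h9]
  linarith

end Pool.TE46
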