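import Pool.Agent.H12.LPK.Rbp
import Pool.Agent.H46.PS.Ton

/-!
# Ties of the own paths of two labels, in a class: the predicates
-/

set_option autoImplicit false

namespace Pool.TE46

open Finset Real MvPolynomial
open Pool.Agent.H49.Ent Pool.Agent.H32.Dense Pool.STK Pool.KA Pool.KSAT Pool.K2S Pool.PB Pool.GEN
open Pool.S6C Pool.RCD Pool.LA91 Pool.OWN68 Pool.AJW Pool.PN18 Pool.LPK12 Pool.PR46
open Pool.GRD (LbP)
open Pool.UNJ (ceI)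

/-- **(I')** for the pairs of labels of a family: a closed record does not see more of the two jets of
order `i` than the labels, the context, the time and the natural digits. -/
def Ip3 {m : ℕ} (S : PCl m) {α γ : ∀ J : ℕ, Fam m J → Type}
    (f : ∀ (J : ℕ) (F : Fam m J), F.Ω → α J F) (a : ℝ)
    (y : ∀ (J : ℕ) (F : Fam m J), F.Ω → γ J F) {U₀ : Type} (Qu : Qt m U₀) (Ψ : Fm2 m)
    (κ₁ κ₂ : Fin m) (w p₁ p₂ αq : ℝ) (i : ℕ) (e δ : ℝ) : Prop :=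
  ∀ K₀ : ℕ, Bas S (fun J F A => ∀ (V C : Type) (z : PtT F → V) (z' : LnT F → V)
    (G₁ G₂ : V → MvPolynomial (Option (Fin m)) ℝ) (c : LnT F → C), Ψ J F A V C z z' G₁ G₂ c →
    ∀ u₀ : F.Ω → U₀, Qu.P K₀ e J F A u₀ →
    ∀ (V₁ : Type) (z₁ : F.Ω → V₁), Cl2 (f J F) (vg a J F) A z₁ →
      CH (Pool.Agent.H49.Ent.cond F.p A True)
        (fun ω => (oj F κ₁ z' G₁ ⌊w * J⌋₊ (p₁ + αq - i * w) i ω,
          oj F κ₂ z' G₂ ⌊w * J⌋₊ (p₂ + αq - i * w) i ω))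
        (fun ω => ((oj F κ₁ z' G₁ ⌊w * J⌋₊ (p₁ - i * w) i ω,
          oj F κ₂ z' G₂ ⌊w * J⌋₊ (p₂ - i * w) i ω),
            (z' (slam F ⌊w * J⌋₊ ω), (c (slam F ⌊w * J⌋₊ ω), F.W ω)))) ≤
      CH (Pool.Agent.H49.Ent.cond F.p A True)
        (fun ω => (oj F κ₁ z' G₁ ⌊w * J⌋₊ (p₁ + αq - i * w) i ω,
          oj F κ₂ z' G₂ ⌊w * J⌋₊ (p₂ + αq - i * w) i ω))
        (fun ω => ((z' (slam F ⌊w * J⌋₊ ω), c (slam F ⌊w * J⌋₊ ω)),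
          (u₀ ω, (z₁ ω, y J F ω)))) + δ * J)

/-- The jets of the orders above `i` (`dead`) are few bits given the labels, the context, the time. -/
def Hi2 {m : ℕ} (S : PCl m) (Ψ : Fm2 m) (κ₁ κ₂ : Fin m) (w p₁ p₂ αq : ℝ) (i D : ℕ) (δ : ℝ) :
    Prop :=
  Bas S (fun J F A => ∀ (V C : Type) (z : PtT F → V) (z' : LnT F → V)
    (G₁ G₂ : V → MvPolynomial (Option (Fin m)) ℝ) (c : LnT F → C), Ψ J F A V C z z' G₁ G₂ c →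
    ∀ j, i < j → j ≤ D →
      CH (Pool.Agent.H49.Ent.cond F.p A True) (oj F κ₁ z' G₁ ⌊w * J⌋₊ (p₁ + αq - j * w) j)
        (fun ω => (z' (slam F ⌊w * J⌋₊ ω), (c (slam F ⌊w * J⌋₊ ω), F.W ω))) ≤ δ * J ∧
      CH (Pool.Agent.H49.Ent.cond F.p A True) (oj F κ₂ z' G₂ ⌊w * J⌋₊ (p₂ + αq - j * w) j)
        (fun ω => (z' (slam F ⌊w * J⌋₊ ω), (c (slam F ⌊w * J⌋₊ ω), F.W ω))) ≤ δ * J)

/-- The jet of order `i` of the first label (`alive`) has `β J` bits in the digits up to `N`, given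
every closed record. -/
def Al2 {m : ℕ} (S : PCl m) {α γ : ∀ J : ℕ, Fam m J → Type}
    (f : ∀ (J : ℕ) (F : Fam m J), F.Ω → α J F) (a : ℝ)
    (y : ∀ (J : ℕ) (F : Fam m J), F.Ω → γ J F) {U₀ : Type} (Qu : Qt m U₀) (Ψ : Fm2 m)
    (κ₁ : Fin m) (w N : ℝ) (i : ℕ) (e β : ℝ) : Prop :=
  ∀ K₀ : ℕ, Bas S (fun J F A => ∀ (V C : Type) (z : PtT F → V) (z' : LnT F → V)
    (G₁ G₂ : V → MvPolynomial (Option (Fin m)) ℝ) (c : LnT F → C), Ψ J F A V C z z' G₁ G₂ c →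
    ∀ u₀ : F.Ω → U₀, Qu.P K₀ e J F A u₀ →
    ∀ (V₁ : Type) (z₁ : F.Ω → V₁), Cl2 (f J F) (vg a J F) A z₁ →
      β * J ≤ CH (Pool.Agent.H49.Ent.cond F.p A True) (oj F κ₁ z' G₁ ⌊w * J⌋₊ N i)
        (fun ω => (u₀ ω, (z₁ ω, y J F ω))))

/-- At most `B` values at a point. -/
def Ptl {m J : ℕ} (F : Fam m J) (A : F.Ω → Prop) {τ : Type} (X : F.Ω → τ) (B : ℕ) : Prop :=
  ∃ χ : PtT F → Fin B → τ, ∀ ω, A ω → ∃ l, X ω = χ (ptr F J ω) l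

/-- **Position and direction**: labels, context and time are position `Ap` and direction `Ep`; the
position has at most `B` values at a point, together with the values of both labels, is few bits
given the label, the exact coordinates `I₀` and the time, and the direction is as free given the
position and the values of both labels as given the position (`FREE`). -/
def Fr2 {m : ℕ} (S : PCl m) (Ψ : Fm2 m) (I₀ : Finset (Fin m)) (κ₁ κ₂ : Fin m) (w P₁ P₂ : ℝ)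
    (B : ℕ) (δ : ℝ) : Prop :=
  Bas S (fun J F A => ∀ (V C : Type) (z : PtT F → V) (z' : LnT F → V)
    (G₁ G₂ : V → MvPolynomial (Option (Fin m)) ℝ) (c : LnT F → C), Ψ J F A V C z z' G₁ G₂ c →
    ∃ (𝒜 ℰ : Type) (Ap : F.Ω → 𝒜) (Ep : F.Ω → ℰ),
      (∀ ω ω', A ω → A ω' → Ap ω = Ap ω' → Ep ω = Ep ω' →
        z' (slam F ⌊w * J⌋₊ ω) = z' (slam F ⌊w * J⌋₊ ω') ∧
          c (slam F ⌊w * J⌋₊ ω) = c (slam F ⌊w * J⌋₊ ω') ∧ F.W ω = F.W ω') ∧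
      (∀ ω ω', A ω → A ω' → z' (slam F ⌊w * J⌋₊ ω) = z' (slam F ⌊w * J⌋₊ ω') →
        c (slam F ⌊w * J⌋₊ ω) = c (slam F ⌊w * J⌋₊ ω') → F.W ω = F.W ω' →
          Ap ω = Ap ω' ∧ Ep ω = Ep ω') ∧
      Ptl F A (fun ω => (Ap ω, (oj F κ₁ z' G₁ ⌊w * J⌋₊ P₁ 0 ω, oj F κ₂ z' G₂ ⌊w * J⌋₊ P₂ 0 ω))) B ∧
      CH (Pool.Agent.H49.Ent.cond F.p A True) Ap
        (fun ω => (z' (slam F ⌊w * J⌋₊ ω), (ceI I₀ (fun _ => J) (F.x ω), F.W ω))) ≤ δ * J ∧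
      CH (Pool.Agent.H49.Ent.cond F.p A True) Ep Ap ≤
        CH (Pool.Agent.H49.Ent.cond F.p A True) Ep
          (fun ω => (Ap ω, (oj F κ₁ z' G₁ ⌊w * J⌋₊ P₁ 0 ω, oj F κ₂ z' G₂ ⌊w * J⌋₊ P₂ 0 ω))) +
          δ * J)

/-- **The leaf is full**: for every slope code `k` closed at the window `w`, the position of the leaf
`n - κ u` has at least `β J` bits given everything that is few bits given the coarse positions, the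
code, the label, the exact coordinates `I₀` and the time. -/
def Fl2 {m : ℕ} (S : PCl m) (Ψ : Fm2 m) (I₀ : Finset (Fin m)) (κ₁ κ₂ : Fin m)
    (w p₁ p₂ αq ε β : ℝ) : Prop :=
  Bas S (fun J F A => ∀ (V C : Type) (z : PtT F → V) (z' : LnT F → V)
    (G₁ G₂ : V → MvPolynomial (Option (Fin m)) ℝ) (c : LnT F → C), Ψ J F A V C z z' G₁ G₂ c →
    ∀ (Q r : ℕ) (k : LnT F → ℤ) (k₀ : PtT F → ℤ),
    (∀ ω, A ω → k₀ (ptr F J ω) = k (slam F ⌊w * J⌋₊ ω)) →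
    αq * J ≤ Q → (Q : ℝ) ≤ αq * J + 1 → 1 ≤ r → (r : ℝ) ≤ (2 : ℝ) ^ (ε * Q) →
    (∀ ω, A ω → |(k (slam F ⌊w * J⌋₊ ω) : ℝ)| * r ≤ (2 : ℝ) ^ (ε * Q) * 2 ^ Q) →
    ∀ (Δ : Type) (X : F.Ω → Δ) (b : ℝ),
    CH (Pool.Agent.H49.Ent.cond F.p A True) X
      (fun ω => ((oj F κ₁ z' G₁ ⌊w * J⌋₊ (p₁ + αq) 0 ω / ((2 ^ Q : ℕ) : ℤ),
          oj F κ₂ z' G₂ ⌊w * J⌋₊ (p₂ + αq) 0 ω / ((2 ^ Q : ℕ) : ℤ)),
        (k (slam F ⌊w * J⌋₊ ω), (z' (slam F ⌊w * J⌋₊ ω),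
          (ceI I₀ (fun _ => J) (F.x ω), F.W ω))))) ≤ b →
    β * J - b ≤ CH (Pool.Agent.H49.Ent.cond F.p A True)
      (fun ω => lc (2 ^ Q) r (k (slam F ⌊w * J⌋₊ ω)) (oj F κ₁ z' G₁ ⌊w * J⌋₊ (p₁ + αq) 0 ω)
        (oj F κ₂ z' G₂ ⌊w * J⌋₊ (p₂ + αq) 0 ω)) X)

end Pool.TE46
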