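import Pool.Agent.H12.LPK.Pth
import Pool.Agent.H46.PS.Ton
import Pool.Agent.H46.PS.Sgj

/-!
# Ties of own paths: the displacement

Two families of polynomial paths on the lines. Over one record (time, all jets but the jet of order
`i` to units, the codes of the coefficient of order `i` to `2 ^ Q` units) the displacement of a path is
the difference of the codes times a time of order `i`.
-/

set_option autoImplicit false

namespace Pool.TE46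

open Finset Real
open Pool.Agent.H49.Ent Pool.Agent.H32.Dense Pool.STK Pool.KA Pool.KSAT Pool.K2S Pool.PB Pool.GEN
open Pool.S6C Pool.LA91 Pool.OWN68 Pool.AJ18 Pool.PAIR76 Pool.PN18 Pool.LPK12 Pool.PR46 Pool.PS46

variable {m J : ℕ}

/-- The number of the times in the window. -/
def MT (J W : ℕ) : ℕ := 2 ^ (J - W)

/-- The path on the times. -/
noncomputable def uR (F : Fam m J) (R : LnT F → Polynomial ℝ) (W : ℕ) (x : LnT F) (τ : ℤ) : ℤ :=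
  ⌊(R x).eval ((τ : ℝ) / ((MT J W : ℕ) : ℝ))⌋

theorem uR_tw (F : Fam m J) (R : LnT F → Polynomial ℝ) (W : ℕ) (ω : F.Ω) :
    uR F R W (slam F W ω) (tw F W ω) = ⌊pj F R W 0 ω⌋ := by
  unfold uR pj uw MT
  rfl

/-- The codes of the coefficients of order `i`. -/
noncomputable def cD (F : Fam m J) (R₁ R₂ : LnT F → Polynomial ℝ) (i : ℕ) (x : LnT F) : ℤ × ℤ :=
  (cd F R₁ i x, cd F R₂ i x)

/-- The codes to `2 ^ Q` units. -/
noncomputable def cN (F : Fam m J) (R₁ R₂ : LnT F → Polynomial ℝ) (i Q : ℕ) (x : LnT F) : ℤ × ℤ :=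
  (cd F R₁ i x / ((2 ^ Q : ℕ) : ℤ), cd F R₂ i x / ((2 ^ Q : ℕ) : ℤ))

theorem div_eq_lt {a b : ℤ} {N : ℕ} (hN : 0 < N) (h : a / (N : ℤ) = b / (N : ℤ)) :
    |(b : ℝ) - a| ≤ N := by
  have hN' : (0 : ℤ) < N := by exact_mod_cast hN
  have h1 := Int.emod_add_mul_ediv a N
  have h2 := Int.emod_add_mul_ediv b N
  have h3 := Int.emod_nonneg a hN'.ne'
  have h4 := Int.emod_nonneg b hN'.ne'
  have h5 := Int.emod_lt_of_pos a hN'
  have h6 := Int.emod_lt_of_pos b hN'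
  rw [h] at h1
  have e1 : b - a = b % N - a % N := by linarith
  have h7 : |b - a| ≤ (N : ℤ) := by
    rw [e1, abs_le]
    constructor <;> linarith
  exact_mod_cast h7

theorem time_eq {W : ℕ} (F : Fam m J) {ω ω' : F.Ω} (h : tm F W ω = tm F W ω') :
    tw F W ω = tw F W ω' := by
  unfold Pool.LPK12.tm at h
  unfold tw
  rw [h]

/-- **The displacement of one path.** -/
theorem dsp_path (D : ℕ) : ∃ K : ℕ, ∀ {m J : ℕ} (F : Fam m J) (R : LnT F → Polynomial ℝ)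
    (i W Q : ℕ) (x : ℝ),
    1 ≤ i → i ≤ D → 0 ≤ x → (∀ y, (R y).natDegree ≤ D) → ∀ ω ω' : F.Ω,
    tm F W ω = tm F W ω' → jv F R W D i x ω = jv F R W D i x ω' →
    cd F R i (slam F W ω) / ((2 ^ Q : ℕ) : ℤ) = cd F R i (slam F W ω') / ((2 ^ Q : ℕ) : ℤ) →
    ∀ τ : ℤ, |τ| ≤ (MT J W : ℤ) →
    |((uR F R W (slam F W ω') τ : ℝ) - uR F R W (slam F W ω) τ) -
      ((cd F R i (slam F W ω') : ℝ) - cd F R i (slam F W ω)) *
        ((sgm (2 ^ Q) (MT J W) (i - 1) τ (tw F W ω) : ℝ) / ((2 ^ Q : ℕ) : ℝ))| ≤ K := by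
  obtain ⟨K₁, hK₁, one⟩ := one_jet D
  refine ⟨⌈K₁ * 2 ^ D + 3⌉₊, ?_⟩
  intro m J F R i W Q x hi hiD hx hdeg ω ω' htm hjv hN τ hτ
  refine le_trans ?_ (Nat.le_ceil _)
  obtain ⟨L, hL⟩ : ∃ L, L = slam F W ω := ⟨_, rfl⟩
  obtain ⟨L', hL'⟩ : ∃ L', L' = slam F W ω' := ⟨_, rfl⟩
  have hMT : (0 : ℝ) < ((MT J W : ℕ) : ℝ) := by
    unfold MT
    positivity
  have hMTe : ((MT J W : ℕ) : ℝ) = 2 ^ (J - W) := by
    unfold MT
    push_cast
    rfl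
  obtain ⟨y, hy⟩ : ∃ y : ℝ, y = ((τ : ℝ) / ((MT J W : ℕ) : ℝ) + 1) / 2 := ⟨_, rfl⟩
  obtain ⟨s, hs⟩ : ∃ s : ℝ, s = (tm F W ω : ℝ) / 2 ^ (J - W) := ⟨_, rfl⟩
  have hτr : |(τ : ℝ)| ≤ ((MT J W : ℕ) : ℝ) := by exact_mod_cast hτ
  have hτ1 : |(τ : ℝ) / ((MT J W : ℕ) : ℝ)| ≤ 1 := by
    rw [abs_div, abs_of_pos hMT]
    exact div_le_one_of_le₀ hτr hMT.le
  rw [abs_le] at hτ1
  have y0 : 0 ≤ y := by rw [hy]; linarith
  have y1 : y ≤ 1 := by rw [hy]; linarith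
  obtain ⟨s0, s1⟩ := tm_unit F W ω
  rw [← hs] at s0 s1
  have hyx : 2 * y - 1 = (τ : ℝ) / ((MT J W : ℕ) : ℝ) := by rw [hy]; ring
  have hys : y - s = ((τ : ℝ) - tw F W ω) / (2 * ((MT J W : ℕ) : ℝ)) := by
    have h1 := tm_uw F W ω
    have h2 : uw F W ω = (tw F W ω : ℝ) / ((MT J W : ℕ) : ℝ) := rfl
    rw [← hs, h2] at h1
    have h3 : s = ((tw F W ω : ℝ) / ((MT J W : ℕ) : ℝ) + 1) / 2 := by linarith
    rw [hy, h3]
    field_simp
    ring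
  obtain ⟨E, hE⟩ : ∃ E : Polynomial ℝ, E = Pq (R L') - Pq (R L) := ⟨_, rfl⟩
  have hEd : E.natDegree ≤ D := by
    rw [hE, Pq_sub]
    exact Pq_deg ((Polynomial.natDegree_sub_le _ _).trans (max_le (hdeg _) (hdeg _)))
  have hval : ∀ L₀ : LnT F, (Pq (R L₀)).eval y = (R L₀).eval ((τ : ℝ) / ((MT J W : ℕ) : ℝ)) := by
    intro L₀
    have h1 := Pq_jet (R L₀) 0 y
    simp only [Function.iterate_zero, id_eq, pow_zero, one_mul] at h1
    rw [h1, hyx]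
  have hjet : ∀ k, k ≠ i → |(Polynomial.derivative^[k] E).eval s| ≤ 2 ^ D := by
    intro k hk
    have e1 : (Polynomial.derivative^[k] E).eval s = 2 ^ k * (pj F R W k ω' - pj F R W k ω) := by
      rw [hE, Polynomial.iterate_derivative_sub, Polynomial.eval_sub, mul_sub, ← Pq_pj, ← Pq_pj,
        ← htm, ← hs, ← hL, ← hL']
    rw [e1]
    by_cases hkD : k ≤ D
    · have h1 := (jv_jet hx hdeg hjv k).2 hk
      rw [abs_mul, abs_of_nonneg (by positivity : (0 : ℝ) ≤ 2 ^ k), abs_sub_comm]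
      calc (2 : ℝ) ^ k * |pj F R W k ω - pj F R W k ω'| ≤ 2 ^ D * 1 :=
            mul_le_mul (pow_le_pow_right₀ (by norm_num) hkD) h1 (abs_nonneg _) (by positivity)
        _ = 2 ^ D := mul_one _
    · rw [pj_zero hdeg (by omega), pj_zero hdeg (by omega), sub_zero, mul_zero, abs_zero]
      positivity
  have h1 := one E i s (2 ^ D) hEd hiD s0 s1 (by positivity) hjet y y0 y1
  -- the codes
  obtain ⟨d, hd⟩ : ∃ d : ℝ, d = (cd F R i L' : ℝ) - cd F R i L := ⟨_, rfl⟩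
  rw [← hL, ← hL'] at hN ⊢
  rw [← hd]
  have hM0 : (0 : ℝ) < ((2 ^ Q : ℕ) : ℝ) := by positivity
  have hdM : |d| ≤ ((2 ^ Q : ℕ) : ℝ) := by
    rw [hd]
    exact div_eq_lt (by positivity) hN
  have hco : |E.coeff i - d| ≤ 1 := by
    rw [hE, Polynomial.coeff_sub, hd]
    unfold cd
    have a1 := Int.floor_le ((Pq (R L')).coeff i)
    have a2 := Int.lt_floor_add_one ((Pq (R L')).coeff i)
    have a3 := Int.floor_le ((Pq (R L)).coeff i)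
    have a4 := Int.lt_floor_add_one ((Pq (R L)).coeff i)
    rw [abs_le]
    constructor <;> linarith
  have hsp : |(y - s) ^ i| ≤ 1 := by
    rw [abs_pow]
    refine pow_le_one₀ (abs_nonneg _) ?_
    rw [abs_le]
    constructor <;> linarith
  -- the time of order `i`
  have hsig : |(y - s) ^ i - (sgm (2 ^ Q) (MT J W) (i - 1) τ (tw F W ω) : ℝ) / ((2 ^ Q : ℕ) : ℝ)| ≤
      1 / ((2 ^ Q : ℕ) : ℝ) := by
    obtain ⟨z, hz⟩ : ∃ z : ℝ, z = (y - s) ^ i := ⟨_, rfl⟩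
    have e1 : (sgm (2 ^ Q) (MT J W) (i - 1) τ (tw F W ω) : ℝ) = ⌊((2 ^ Q : ℕ) : ℝ) * z⌋ := by
      unfold sgm
      rw [hz, hys]
      have e2 : i - 1 + 1 = i := by omega
      rw [e2]
      push_cast
      rfl
    rw [e1, ← hz]
    have a1 := Int.floor_le (((2 ^ Q : ℕ) : ℝ) * z)
    have a2 := Int.lt_floor_add_one (((2 ^ Q : ℕ) : ℝ) * z)
    have e3 : z - (⌊((2 ^ Q : ℕ) : ℝ) * z⌋ : ℝ) / ((2 ^ Q : ℕ) : ℝ) =
        (((2 ^ Q : ℕ) : ℝ) * z - ⌊((2 ^ Q : ℕ) : ℝ) * z⌋) / ((2 ^ Q : ℕ) : ℝ) := by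
      field_simp
    rw [e3, abs_div, abs_of_pos hM0]
    refine div_le_div_of_nonneg_right ?_ hM0.le
    rw [abs_le]
    constructor <;> linarith
  have e4 : |d * ((y - s) ^ i - (sgm (2 ^ Q) (MT J W) (i - 1) τ (tw F W ω) : ℝ) /
      ((2 ^ Q : ℕ) : ℝ))| ≤ 1 := by
    rw [abs_mul]
    refine (mul_le_mul hdM hsig (abs_nonneg _) hM0.le).trans (le_of_eq ?_)
    field_simp
  have e5 : |(E.coeff i - d) * (y - s) ^ i| ≤ 1 := by
    rw [abs_mul]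
    exact (mul_le_mul hco hsp (abs_nonneg _) zero_le_one).trans (le_of_eq (mul_one 1))
  have e6 : E.eval y = (R L').eval ((τ : ℝ) / ((MT J W : ℕ) : ℝ)) -
      (R L).eval ((τ : ℝ) / ((MT J W : ℕ) : ℝ)) := by
    rw [hE, Polynomial.eval_sub, hval, hval]
  unfold uR
  have a1 := Int.floor_le ((R L').eval ((τ : ℝ) / ((MT J W : ℕ) : ℝ)))
  have a2 := Int.lt_floor_add_one ((R L').eval ((τ : ℝ) / ((MT J W : ℕ) : ℝ)))
  have a3 := Int.floor_le ((R L).eval ((τ : ℝ) / ((MT J W : ℕ) : ℝ)))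
  have a4 := Int.lt_floor_add_one ((R L).eval ((τ : ℝ) / ((MT J W : ℕ) : ℝ)))
  rw [e6] at h1
  rw [abs_le] at h1 e4 e5 ⊢
  have e7 : (E.coeff i - d) * (y - s) ^ i = E.coeff i * (y - s) ^ i - d * (y - s) ^ i := by ring
  rw [e7] at e5
  rw [mul_sub] at e4
  constructor <;> linarith [h1.1, h1.2, e4.1, e4.2, e5.1, e5.2]

/-- **The displacement of a pair of paths.** -/
theorem dsp_of (D : ℕ) : ∃ K : ℕ, ∀ {m J : ℕ} (F : Fam m J) (R₁ R₂ : LnT F → Polynomial ℝ)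
    {i W Q : ℕ} {x : ℝ} {p : F.Ω → ℝ} {Γ : Type} {G : F.Ω → Γ}, 1 ≤ i → i ≤ D → 0 ≤ x →
    (∀ y, (R₁ y).natDegree ≤ D) → (∀ y, (R₂ y).natDegree ≤ D) →
    Det p G (tm F W) → Det p G (jv F R₁ W D i x) → Det p G (jv F R₂ W D i x) →
    Det p G (fun ω => cN F R₁ R₂ i Q (slam F W ω)) →
    Disp p (2 ^ Q) (MT J W) K (sgm (2 ^ Q) (MT J W) (i - 1)) (slam F W) (tw F W) G
      (cD F R₁ R₂ i) (uR F R₁ W) (uR F R₂ W) (fun d => (d.1 : ℝ)) (fun d => (d.2 : ℝ)) := by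
  obtain ⟨K, H⟩ := dsp_path D
  refine ⟨K, ?_⟩
  intro m J F R₁ R₂ i W Q x p Γ G hi hiD hx hd1 hd2 ht hj1 hj2 hN
  refine ⟨fun ω ω' hω hω' e => ?_⟩
  have e1 := ht ω ω' hω hω' e
  have e2 := hj1 ω ω' hω hω' e
  have e3 := hj2 ω ω' hω hω' e
  have e4 := hN ω ω' hω hω' e
  dsimp only at e4
  unfold cN at e4
  rw [Prod.mk.injEq] at e4
  refine ⟨?_, ?_, fun τ hτ => ⟨?_, ?_⟩⟩
  · show |((cd F R₁ i (slam F W ω') : ℤ) : ℝ) - cd F R₁ i (slam F W ω)| ≤ ((2 ^ Q : ℕ) : ℝ)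
    exact div_eq_lt (by positivity) e4.1
  · show |((cd F R₂ i (slam F W ω') : ℤ) : ℝ) - cd F R₂ i (slam F W ω)| ≤ ((2 ^ Q : ℕ) : ℝ)
    exact div_eq_lt (by positivity) e4.2
  · exact H F R₁ i W Q x hi hiD hx hd1 ω ω' e1 e2 e4.1 τ hτ
  · exact H F R₂ i W Q x hi hiD hx hd2 ω ω' e1 e3 e4.2 τ hτ

end Pool.TE46
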