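import Pool.Agent.H46.TE.Fmf
import Pool.Agent.H63.RW2.FulN

/-!
# The leaf is full, from the rate of the last coordinate alone

`fuf_alt`: the digits between two windows near the window `g` are full, from linear numbers near `g`.
`fl2_alt`: `Fl2` for the family `FmB`.
-/

set_option autoImplicit false

namespace Pool.TE46

open Finset Real MvPolynomial
open Pool.Agent.H49.Ent Pool.Agent.H32.Dense Pool.STK Pool.KA Pool.KSAT Pool.K2S Pool.PB Pool.GEN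
open Pool.S6C Pool.RCD Pool.LA91 Pool.OWN68 Pool.AJW Pool.AJX Pool.CHT Pool.PN18 Pool.LPK12
open Pool.PR46 Pool.AB63
open Pool.GRD (LbP)
open Pool.UNJ (ceI)
open Pool.ALT (xa AltE AltAt ful_few)

variable {m : ℕ}

/-- A power of one half of the size of a number. -/
theorem half_ex {X : ℝ} (hX : 0 < X) {k₀ : ℕ} (h : X ≤ (1 / 2) ^ k₀) :
    ∃ k : ℕ, k₀ ≤ k ∧ X ≤ (1 / 2) ^ k ∧ ((1 : ℝ) / 2) ^ k ≤ 2 * X := by
  classical
  have hex : ∃ n : ℕ, ((1 : ℝ) / 2) ^ n < X :=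
    exists_pow_lt_of_lt_one hX (by norm_num : (1 / 2 : ℝ) < 1)
  obtain ⟨n, hn, hmin⟩ : ∃ n : ℕ, ((1 : ℝ) / 2) ^ n < X ∧ ∀ j < n, ¬ ((1 : ℝ) / 2) ^ j < X :=
    ⟨Nat.find hex, Nat.find_spec hex, fun j hj => Nat.find_min hex hj⟩
  have hk : k₀ < n := by
    by_contra hcon
    have h1 : ((1 : ℝ) / 2) ^ k₀ ≤ (1 / 2) ^ n :=
      pow_le_pow_of_le_one (by norm_num) (by norm_num) (not_lt.mp hcon)
    linarith
  obtain ⟨k, rfl⟩ : ∃ k, n = k + 1 := ⟨n - 1, by omega⟩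
  refine ⟨k, by omega, not_lt.mp (hmin k (Nat.lt_succ_self k)), ?_⟩
  have h2 : ((1 : ℝ) / 2) ^ (k + 1) = (1 / 2) ^ k / 2 := by
    rw [pow_succ]
    ring
  rw [h2] at hn
  linarith

/-- **The digits between two windows are full.** -/
theorem fuf_alt {S : PCl m} (hpos : ∀ (τ : ℝ) (J : ℕ) (F : Fam m J) (A : F.Ω → Prop),
      S.St τ J F A → 0 < Pe F.p A) {I I₀ : Finset (Fin m)} {κ : Fin m} {K : ℕ} {e₀ ρ₀ π₀ : ℝ}
    {s : ℝ → ℝ} {g φ el : ℝ} {k₀ : ℕ}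
    (hAt : ∀ k ≥ k₀, AltAt S I I₀ κ K e₀ ρ₀ π₀ s g φ el k) (hel : 0 ≤ el) {w v o Y : ℝ}
    (hwv : w ≤ v) (hvo : v < o) (ho : o ≤ 1) (hv : |v - g| ≤ Y) (hog : |o - g| ≤ Y)
    (hY : Y ≤ (1 / 2) ^ k₀) (hs : ∀ x y, v ≤ x → x ≤ y → y ≤ o → s x ≤ s y) {d : ℝ}
    (hd : d + 2 * el * Y < φ * (o - v)) :
    ∃ s₀ s₁ : ℝ, s v ≤ s₀ ∧ s₁ ≤ s o ∧ Fuf S I I₀ κ K e₀ ρ₀ π₀ w v s₀ s₁ d := by
  have hY0 : 0 < Y := by
    have h1 := abs_le.1 hv
    have h2 := abs_le.1 hog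
    linarith
  obtain ⟨k, hk, k1, k2⟩ := half_ex hY0 hY
  -- the rational windows
  obtain ⟨θ, hθ, t1, t2⟩ : ∃ θ : ℝ, 0 < θ ∧ θ ≤ (o - v) / 4 ∧
      d + 2 * el * Y < φ * (o - v) - 2 * |φ| * θ := by
    refine ⟨min ((o - v) / 4) ((φ * (o - v) - (d + 2 * el * Y)) / (4 * (|φ| + 1))), ?_,
      min_le_left _ _, ?_⟩
    · refine lt_min (by linarith) (div_pos (by linarith) (by positivity))
    · have h1 := min_le_right ((o - v) / 4)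
        ((φ * (o - v) - (d + 2 * el * Y)) / (4 * (|φ| + 1)))
      have h0 : 0 < min ((o - v) / 4)
          ((φ * (o - v) - (d + 2 * el * Y)) / (4 * (|φ| + 1))) :=
        lt_min (by linarith) (div_pos (by linarith) (by positivity))
      obtain ⟨x, hx⟩ : ∃ x, x = min ((o - v) / 4)
        ((φ * (o - v) - (d + 2 * el * Y)) / (4 * (|φ| + 1))) := ⟨_, rfl⟩
      rw [← hx] at h1 h0 ⊢
      rw [le_div_iff₀ (by positivity)] at h1
      nlinarith [abs_nonneg φ]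
  obtain ⟨a, ha1, ha2⟩ := exists_rat_btwn (show v < v + θ by linarith)
  obtain ⟨o', ho1, ho2⟩ := exists_rat_btwn (show o - θ < o by linarith)
  have hao : (a : ℝ) ≤ o' := by linarith
  have hv1 := abs_le.1 hv
  have ho3 := abs_le.1 hog
  refine ⟨s a, s o', hs v a le_rfl ha1.le (by linarith), hs o' o (by linarith) ho2.le le_rfl, ?_⟩
  refine ful_few hpos (hAt k hk) (by linarith) (by exact_mod_cast hao) (by linarith)
    (by linarith) ha1.le (by linarith) ?_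
  have h3 : el * (1 / 2) ^ k ≤ el * (2 * Y) := mul_le_mul_of_nonneg_left k2 hel
  have h4 : φ * (o - v) - 2 * |φ| * θ ≤ φ * (o' - a) := by
    have h5 : |φ * ((o - o') + (a - v))| ≤ |φ| * (2 * θ) := by
      rw [abs_mul]
      refine mul_le_mul_of_nonneg_left ?_ (abs_nonneg _)
      rw [abs_le]
      constructor <;> linarith
    have h6 := (abs_le.1 h5).2
    linarith
  linarith

/-- **The leaf is full**, for the labels of the early window, from the rate of the last coordinate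
alone. `v`: the window with `s v` = the level `p₂`; `o`: the window with `s o` = the level `p₂ + αq`;
`μ`: the margin of the exponents; `μ₁`: the error of the levels. -/
theorem fl2_alt {S : PCl m} (hpos : ∀ (τ : ℝ) (J : ℕ) (F : Fam m J) (A : F.Ω → Prop),
      S.St τ J F A → 0 < Pe F.p A) {Ψ₀ : Fm2 m} {c : ℕ → Fin m} {r K K' D : ℕ} {E : ℕ → ℝ}
    {b w e : ℝ} {rd p : ℕ → ℝ} {X : ℕ → ℕ → ℝ} {e₀ ρ₀ π₀ v o Y : ℝ} {L : ℕ → ℝ}
    {p₁ p₂ αq ε β μ μ₁ : ℝ} {s : ℝ → ℝ} {g φ el : ℝ} {k₀ : ℕ}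
    (hAt : ∀ k ≥ k₀, AltAt S ((range (r + 1)).image c) ((range r).image c) (c (r + 1)) K' e₀ ρ₀
      π₀ s g φ el k) (hel : 0 ≤ el) (hwv : w ≤ v) (hvo : v < o) (ho : o ≤ 1)
    (hv : |v - g| ≤ Y) (hog : |o - g| ≤ Y) (hY : Y ≤ (1 / 2) ^ k₀)
    (hs : ∀ x y, v ≤ x → x ≤ y → y ≤ o → s x ≤ s y)
    (HL : ∀ e : ℝ, 0 < e → Bas S (fun J F A => ∃ (V₁ : Type) (z : PtT F → V₁) (z' : LnT F → V₁)
          (g : V₁ → ℕ → MvPolynomial (Option (Fin m)) ℝ),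
          LbX F c 0 (r + 1) D e (fun i => max 0 (L r - L i)) v
            (fun _ => L r) (fun l => L l) A z z' g))
    (hbw : b ≤ w) (hK : K ≤ K') (hK1 : 1 ≤ K') (hμ : 0 < μ) (hμ₁ : 0 ≤ μ₁) (hε : 0 ≤ ε)
    (hα : 0 ≤ αq) (he : 0 ≤ e) (hE₁ : 0 ≤ E r) (hE₂ : 0 ≤ E (r + 1))
    (c1 : E (r + 1) + e + μ ≤ e₀) (c2 : p₁ - p₂ + ε * αq + (E r + e) + μ ≤ e₀)
    (c3 : rd r + e ≤ ρ₀) (c4 : rd (r + 1) + e ≤ ρ₀) (c5 : rd r + e ≤ 1)
    (c6 : L r < 1) (c7 : max 0 π₀ + μ ≤ p (r + 1) - e)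
    (c8 : max 0 π₀ + (p₁ - p₂ + ε * αq) + μ ≤ p r - e)
    (c9 : p₁ < L r + μ₁) (c10 : p₁ + (E r + e) + μ ≤ 1) (c12 : p₂ ≤ s v + μ₁)
    (c13 : s o ≤ p₂ + αq)
    (c14 : β + (2 * ε * αq + 2 * μ₁) * Real.log 2 + 2 * el * Y < φ * (o - v)) :
    Fl2 S (FmB Ψ₀ c r K e E b w rd p X) ((range r).image c) (c r) (c (r + 1)) w p₁ p₂ αq ε β := by
  obtain ⟨d, hd1, hd2⟩ := exists_between (show β + (2 * ε * αq + 2 * μ₁) * Real.log 2 <
    φ * (o - v) - 2 * el * Y by linarith)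
  obtain ⟨s₀, s₁, h1, h2, h3⟩ := fuf_alt hpos hAt hel hwv hvo ho hv hog hY hs (d := d) (by linarith)
  exact fl2_fmb hpos h3 HL hbw hK hK1 hμ hμ₁ hε hα he hE₁ hE₂ c1 c2 c3 c4 c5 c6 c7 c8 c9 c10
    (by linarith) (by linarith) hd1

end Pool.TE46
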