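import Pool.Agent.H46.TE.Lfl

/-!
# The leaf is full

`Fuf`: the digits of a coordinate alone are full, over every closed label and every closed code
(`Pool.ALT.ful_few`). `fl2_of`: then the leaf of a tie is full.
-/

set_option autoImplicit false

namespace Pool.TE46

open Finset Real MvPolynomial
open Pool.Agent.H49.Ent Pool.Agent.H32.Dense Pool.STK Pool.KA Pool.KSAT Pool.K2S Pool.PB Pool.GEN
open Pool.S6C Pool.RCD Pool.LA91 Pool.OWN68 Pool.AJW Pool.PN18 Pool.LPK12 Pool.PR46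
open Pool.GRD (LbP)
open Pool.UNJ (ceI)
open Pool.ALT (xa AltE)

variable {m : ℕ}

/-- **The digits from `s₀` to `s₁` of the coordinate `κ` are full**, for every label of the window
`w`, over every closed code of the window `u`; the condition is a function of the label, of the
code, of the first digits, of the coordinates in `I₀`, of time and side information up to `b`. -/
def Fuf (S : PCl m) (I I₀ : Finset (Fin m)) (κ : Fin m) (K : ℕ) (e₀ ρ₀ π₀ w u s₀ s₁ d : ℝ) :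
    Prop :=
  Bas S (fun J F A => ∀ (V : Type) (z : PtT F → V) (z' : LnT F → V)
      (G : V → MvPolynomial (Option (Fin m)) ℝ), LbOK F I κ K ⌊e₀ * J⌋₊ J ⌊w * J⌋₊ ⌊ρ₀ * J⌋₊
        ⌊π₀ * J⌋₊ A z z' G →
      ∀ (C : Type) (zc : PtT F → C) (zc' : LnT F → C),
      (∀ ω, A ω → zc (ptr F J ω) = zc' (slam F ⌊u * J⌋₊ ω)) →
      ∀ (D : Type) (Y : F.Ω → D) (b : ℝ), CH (Pool.Agent.H49.Ent.cond F.p A True) Y
        (fun ω => (xa F κ z' ⌊w * J⌋₊ G s₀ ω, ((z' (slam F ⌊w * J⌋₊ ω),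
          zc' (slam F ⌊u * J⌋₊ ω)), (ceI I₀ (fun _ => J) (F.x ω), F.W ω)))) ≤ b →
      d * J - b ≤ CH (Pool.Agent.H49.Ent.cond F.p A True) (xa F κ z' ⌊w * J⌋₊ G s₁) Y)

theorem rp_pos (x : ℝ) : (0 : ℝ) < 2 ^ x := Real.rpow_pos_of_pos (by norm_num) x

theorem rp_add (x y : ℝ) : (2 : ℝ) ^ (x + y) = 2 ^ x * 2 ^ y := Real.rpow_add (by norm_num) x y

theorem rp_mono {x y : ℝ} (h : x ≤ y) : (2 : ℝ) ^ x ≤ 2 ^ y :=
  Real.rpow_le_rpow_of_exponent_le (by norm_num) h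

theorem one_rp {x : ℝ} (h : 0 ≤ x) : (1 : ℝ) ≤ 2 ^ x := Real.one_le_rpow (by norm_num) h

/-- Quotients of near integers. -/
theorem quo_near {M : ℕ} (hM : 1 ≤ M) {a b : ℤ} {B : ℝ} (h : |(a : ℝ) - b| ≤ M * B) :
    |((a / (M : ℤ) - b / (M : ℤ) : ℤ) : ℝ)| ≤ B + 1 := by
  have hM0 : (0 : ℝ) < M := by exact_mod_cast hM
  have hMz : (0 : ℤ) < M := by exact_mod_cast hM
  have a1 := mod_eq M a
  have a2 := mod_eq M b
  have b1 : (0 : ℝ) ≤ ((a % (M : ℤ) : ℤ) : ℝ) := by exact_mod_cast Int.emod_nonneg a hMz.ne'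
  have b2 : (0 : ℝ) ≤ ((b % (M : ℤ) : ℤ) : ℝ) := by exact_mod_cast Int.emod_nonneg b hMz.ne'
  have b3 : ((a % (M : ℤ) : ℤ) : ℝ) < M := by exact_mod_cast Int.emod_lt_of_pos a hMz
  have b4 : ((b % (M : ℤ) : ℤ) : ℝ) < M := by exact_mod_cast Int.emod_lt_of_pos b hMz
  obtain ⟨x, hx⟩ : ∃ x : ℝ, x = ((a / (M : ℤ) : ℤ) : ℝ) := ⟨_, rfl⟩
  obtain ⟨y, hy⟩ : ∃ y : ℝ, y = ((b / (M : ℤ) : ℤ) : ℝ) := ⟨_, rfl⟩
  rw [← hx] at a1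
  rw [← hy] at a2
  push_cast
  rw [← hx, ← hy]
  have h1 := abs_le.1 h
  have e1 : (M : ℝ) * |x - y| ≤ M * (B + 1) := by
    rw [← abs_of_pos hM0, ← abs_mul, abs_of_pos hM0, abs_le]
    constructor <;> nlinarith [h1.1, h1.2]
  exact le_of_mul_le_mul_left e1 hM0

/-- The heights of two points over one closed label of the window and over one label of another
window. -/
theorem hgt_two {J : ℕ} {F : Fam m J} {I₀ : Finset (Fin m)} {κ : Fin m} {K W K₂ W₂ ρ ρ₂ P : ℕ}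
    {A : F.Ω → Prop} {V V₂ : Type} {z : PtT F → V} {z' : LnT F → V} {z₂ : PtT F → V₂}
    {z₂' : LnT F → V₂} {G : V → MvPolynomial (Option (Fin m)) ℝ}
    {G₂ : V₂ → MvPolynomial (Option (Fin m)) ℝ} {E E₂ p Pu μ₁ : ℝ}
    (h : LbOK F I₀ κ K ⌊E * J⌋₊ J W ρ P A z z' G)
    (h₂ : LbOK F I₀ κ K₂ ⌊E₂ * J⌋₊ J W₂ ρ₂ ⌊Pu * J⌋₊ A z₂ z₂' G₂)
    (hρ : ρ ≤ J) (hρ₂ : ρ₂ ≤ J) (hE : 0 ≤ E) (hE₂ : 0 ≤ E₂) (hμ₁ : 0 ≤ μ₁) (hp : p ≤ Pu + μ₁)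
    (hs : Real.log (m + 1) ≤ (1 - p - E) * Real.log 2 * J)
    (hs₂ : Real.log (m + 1) ≤ (1 - p - E₂) * Real.log 2 * J) {ω ω' : F.Ω} (hω : A ω)
    (hω' : A ω') (e1 : ceI I₀ (fun _ => J) (F.x ω) = ceI I₀ (fun _ => J) (F.x ω'))
    (e2 : z' (slam F W ω) = z' (slam F W ω')) (e3 : z₂' (slam F W₂ ω) = z₂' (slam F W₂ ω'))
    (hT : F.T ω = F.T ω') :
    |(2 : ℝ) ^ (p * J) * (hgt F κ z' W G ω - hgt F κ z' W G ω')| ≤ 8 * 2 ^ (μ₁ * J) := by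
  have hJ0 : (0 : ℝ) ≤ J := Nat.cast_nonneg J
  have a1 := hgt_near h hρ hE hs hω hω' e1 e2 hT le_rfl
  have a2 := hgt_near h₂ hρ₂ hE₂ hs₂ hω hω' e1 e3 hT le_rfl
  have a3 : ∀ ω, A ω → |(2 : ℝ) ^ (p * J) * hgt F κ z₂' W₂ G₂ ω| ≤ 2 * 2 ^ (μ₁ * J) := by
    intro ω hω
    have b1 := h₂.pos ω hω
    rw [hgt_eq, abs_mul, abs_of_pos (rp_pos _)]
    have b2 : (1 : ℝ) / 2 ^ ⌊Pu * J⌋₊ ≤ 2 * 2 ^ (-(Pu * J)) := ip2_le (Pu * J)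
    calc (2 : ℝ) ^ (p * J) * |F.x ω κ - eval (bt F ω) (G₂ (z₂' (slam F W₂ ω)))|
        ≤ 2 ^ (p * J) * (2 * 2 ^ (-(Pu * J))) :=
          mul_le_mul_of_nonneg_left (b1.trans b2) (rp_pos _).le
      _ = 2 * 2 ^ (p * J + -(Pu * J)) := by rw [rp_add]; ring
      _ ≤ 2 * 2 ^ (μ₁ * J) := by
          refine mul_le_mul_of_nonneg_left (rp_mono ?_) (by norm_num)
          have : (p - Pu) * J ≤ μ₁ * J := mul_le_mul_of_nonneg_right (by linarith) hJ0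
          linarith
  have b1 := abs_le.1 a1
  have b2 := abs_le.1 a2
  have b3 := abs_le.1 (a3 ω hω)
  have b4 := abs_le.1 (a3 ω' hω')
  have b5 : (1 : ℝ) ≤ 2 ^ (μ₁ * J) := one_rp (by positivity)
  rw [abs_le]
  constructor <;> nlinarith [b1.1, b1.2, b2.1, b2.2, b3.1, b3.2, b4.1, b4.2]

theorem fl_one {a b : ℝ} (e : ⌊a⌋ = ⌊b⌋) : |a - b| ≤ 1 := by
  have := fl_one_mul (t := 1) one_pos (a := a) (b := b) (by rw [one_mul, one_mul]; exact e)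
  rwa [one_mul] at this

/-- The logarithm of the number of values. -/
theorem log_cnt {c τ : ℝ} {J : ℕ} (hτ : 0 ≤ τ) (hc : 1 ≤ c) :
    Real.log (2 * (c * 2 ^ (τ * J)) + 1) ≤ τ * J * Real.log 2 + Real.log (3 * c) := by
  have hJ0 : (0 : ℝ) ≤ J := Nat.cast_nonneg J
  have h1 : (1 : ℝ) ≤ 2 ^ (τ * J) := one_rp (by positivity)
  have h2 : (1 : ℝ) ≤ c * 2 ^ (τ * J) := by nlinarith
  have h3 : 2 * (c * 2 ^ (τ * J)) + 1 ≤ (3 * c) * 2 ^ (τ * J) := by linarith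
  refine (Real.log_le_log (by positivity) h3).trans (le_of_eq ?_)
  rw [Real.log_mul (by positivity) (by positivity), Real.log_rpow (by norm_num)]
  ring

/-- **The leaf is full**, in one measure. -/
theorem leaf_full {J : ℕ} {F : Fam m J} {I₀ : Finset (Fin m)} {κ₁ κ₂ : Fin m}
    {K W K₃ W₃ ρ ρ₃ : ℕ} {A : F.Ω → Prop} {V V₃ : Type} {z : PtT F → V} {z' : LnT F → V}
    {z₃ : PtT F → V₃} {z₃' : LnT F → V₃} {G₁ G₂ : V → MvPolynomial (Option (Fin m)) ℝ}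
    {G₃ : V₃ → MvPolynomial (Option (Fin m)) ℝ} {E E₃ p₁ p₂ Pu μ₁ s₀ s₁ αq ε : ℝ} {P : ℕ}
    (h : LbOK F I₀ κ₁ K ⌊E * J⌋₊ J W ρ P A z z' G₁)
    (h₃ : LbOK F I₀ κ₁ K₃ ⌊E₃ * J⌋₊ J W₃ ρ₃ ⌊Pu * J⌋₊ A z₃ z₃' G₃)
    (hρ : ρ ≤ J) (hρ₃ : ρ₃ ≤ J) (hE : 0 ≤ E) (hE₃ : 0 ≤ E₃) (hμ₁ : 0 ≤ μ₁) (hp : p₁ ≤ Pu + μ₁)
    (hs : Real.log (m + 1) ≤ (1 - p₁ - E) * Real.log 2 * J)
    (hs₃ : Real.log (m + 1) ≤ (1 - p₁ - E₃) * Real.log 2 * J)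
    (hs0 : p₂ ≤ s₀ + μ₁) (hs1 : s₁ ≤ p₂ + αq) (hε : 0 ≤ ε) (hα : 0 ≤ αq) (hA : 0 < Pe F.p A)
    {Q r : ℕ} {k : LnT F → ℤ} (hQ : αq * J ≤ Q) (hQ2 : (Q : ℝ) ≤ αq * J + 1) (hr1 : 1 ≤ r)
    (hr : (r : ℝ) ≤ (2 : ℝ) ^ (ε * Q))
    (hkb : ∀ ω, A ω → |(k (slam F W ω) : ℝ)| * r ≤ (2 : ℝ) ^ (ε * Q) * 2 ^ Q)
    {d b : ℝ} {Δ : Type} (X : F.Ω → Δ)
    (hX : CH (Pool.Agent.H49.Ent.cond F.p A True) X
      (fun ω => ((oj F κ₁ z' G₁ W (p₁ + αq) 0 ω / ((2 ^ Q : ℕ) : ℤ),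
          oj F κ₂ z' G₂ W (p₂ + αq) 0 ω / ((2 ^ Q : ℕ) : ℤ)),
        (k (slam F W ω), (z' (slam F W ω), (ceI I₀ (fun _ => J) (F.x ω), F.W ω))))) ≤ b)
    (HF : ∀ (D : Type) (Y : F.Ω → D) (b : ℝ), CH (Pool.Agent.H49.Ent.cond F.p A True) Y
        (fun ω => (xa F κ₂ (fun s => (z' s, k s)) W
            (lfG κ₁ (fun j => kr (2 ^ Q) r j * 2 ^ ((p₁ - p₂) * J)) G₁ G₂) s₀ ω,
          (((z' (slam F W ω), k (slam F W ω)), z₃' (slam F W₃ ω)),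
          (ceI I₀ (fun _ => J) (F.x ω), F.W ω)))) ≤ b →
      d * J - b ≤ CH (Pool.Agent.H49.Ent.cond F.p A True) (xa F κ₂ (fun s => (z' s, k s)) W
        (lfG κ₁ (fun j => kr (2 ^ Q) r j * 2 ^ ((p₁ - p₂) * J)) G₁ G₂) s₁) Y) :
    d * J - b - ((2 * ε * αq + 2 * μ₁) * J * Real.log 2 +
        (Real.log (3 * 10) + Real.log (3 * (11 * 2 ^ ε)) + Real.log (3 * (4 * 2 ^ ε)))) ≤
      CH (Pool.Agent.H49.Ent.cond F.p A True)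
      (fun ω => lc (2 ^ Q) r (k (slam F W ω)) (oj F κ₁ z' G₁ W (p₁ + αq) 0 ω)
        (oj F κ₂ z' G₂ W (p₂ + αq) 0 ω)) X := by
  have hcl := isLaw_cond F.isLaw hA
  have h0 := hcl.nonneg
  have hJ0 : (0 : ℝ) ≤ J := Nat.cast_nonneg J
  have hM1 : 1 ≤ 2 ^ Q := Nat.one_le_two_pow
  have hM0 : (0 : ℝ) < ((2 ^ Q : ℕ) : ℝ) := by exact_mod_cast hM1
  have hr0 : (0 : ℝ) < r := by exact_mod_cast hr1
  have hMQ : (2 : ℝ) ^ (αq * J) ≤ ((2 ^ Q : ℕ) : ℝ) := by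
    push_cast
    rw [← Real.rpow_natCast]
    exact rp_mono hQ
  obtain ⟨R, hR⟩ : ∃ R : ℝ, R = 2 ^ (ε * Q) := ⟨_, rfl⟩
  have hR1 : 1 ≤ R := by
    rw [hR]
    exact one_rp (by positivity)
  have hR2 : R ≤ 2 ^ ε * 2 ^ (ε * αq * J) := by
    rw [hR, ← rp_add]
    refine rp_mono ?_
    have := mul_le_mul_of_nonneg_left hQ2 hε
    linarith
  have hμ : (1 : ℝ) ≤ 2 ^ (μ₁ * J) := one_rp (by positivity)
  -- the quantities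
  obtain ⟨hu, hhu⟩ : ∃ hu : F.Ω → ℝ, hu = hgt F κ₁ z' W G₁ := ⟨_, rfl⟩
  obtain ⟨hn, hhn⟩ : ∃ hn : F.Ω → ℝ, hn = hgt F κ₂ z' W G₂ := ⟨_, rfl⟩
  obtain ⟨kk, hkk⟩ : ∃ kk : F.Ω → ℤ, kk = fun ω => k (slam F W ω) := ⟨_, rfl⟩
  obtain ⟨u, huE⟩ : ∃ u : F.Ω → ℤ, u = oj F κ₁ z' G₁ W (p₁ + αq) 0 := ⟨_, rfl⟩
  obtain ⟨n, hnE⟩ : ∃ n : F.Ω → ℤ, n = oj F κ₂ z' G₂ W (p₂ + αq) 0 := ⟨_, rfl⟩
  have hue : ∀ ω, u ω = ⌊(2 : ℝ) ^ ((p₁ + αq) * J) * hu ω⌋ := fun ω => by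
    rw [huE, hhu]
    rfl
  have hne : ∀ ω, n ω = ⌊(2 : ℝ) ^ ((p₂ + αq) * J) * hn ω⌋ := fun ω => by
    rw [hnE, hhn]
    rfl
  obtain ⟨hl, hhl⟩ : ∃ hl : F.Ω → ℝ, hl = fun ω =>
    hn ω - kr (2 ^ Q) r (kk ω) * 2 ^ ((p₁ - p₂) * J) * hu ω := ⟨_, rfl⟩
  have hxa : ∀ s : ℝ, xa F κ₂ (fun s => (z' s, k s)) W
      (lfG κ₁ (fun j => kr (2 ^ Q) r j * 2 ^ ((p₁ - p₂) * J)) G₁ G₂) s =
      fun ω => ⌊(2 : ℝ) ^ (s * J) * hl ω⌋ := by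
    intro s
    funext ω
    unfold xa
    rw [leaf_hgt, hhl, hhu, hhn, hkk]
  have hkr : ∀ ω, A ω → |kr (2 ^ Q) r (kk ω)| ≤ R := by
    intro ω hω
    have h1 := hkb ω hω
    rw [hkk]
    unfold kr
    rw [abs_div, abs_mul, abs_of_pos hr0, abs_of_pos hM0, div_le_iff₀ hM0, hR]
    refine h1.trans (le_of_eq ?_)
    push_cast
    ring
  obtain ⟨T, hTE⟩ : ∃ T : F.Ω → (Fin m → ℤ) × (ℕ × F.ζ), T = fun ω =>
    (ceI I₀ (fun _ => J) (F.x ω), F.W ω) := ⟨_, rfl⟩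
  obtain ⟨Z, hZE⟩ : ∃ Z : F.Ω → V, Z = fun ω => z' (slam F W ω) := ⟨_, rfl⟩
  obtain ⟨Z₃, hZ₃E⟩ : ∃ Z₃ : F.Ω → V₃, Z₃ = fun ω => z₃' (slam F W₃ ω) := ⟨_, rfl⟩
  obtain ⟨xo, hxo⟩ : ∃ xo : F.Ω → ℤ, xo = fun ω => ⌊(2 : ℝ) ^ (s₁ * J) * hl ω⌋ := ⟨_, rfl⟩
  obtain ⟨x0, hx0⟩ : ∃ x0 : F.Ω → ℤ, x0 = fun ω => ⌊(2 : ℝ) ^ (s₀ * J) * hl ω⌋ := ⟨_, rfl⟩
  obtain ⟨um, hum⟩ : ∃ um : F.Ω → ℤ, um = fun ω => u ω / ((2 ^ Q : ℕ) : ℤ) := ⟨_, rfl⟩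
  obtain ⟨nm, hnm⟩ : ∃ nm : F.Ω → ℤ, nm = fun ω => n ω / ((2 ^ Q : ℕ) : ℤ) := ⟨_, rfl⟩
  obtain ⟨Lc, hLc⟩ : ∃ Lc : F.Ω → ℤ, Lc = fun ω => lc (2 ^ Q) r (kk ω) (u ω) (n ω) := ⟨_, rfl⟩
  -- the condition
  obtain ⟨Cn, hCn⟩ : ∃ Cn : F.Ω → ℤ × (((V × ℤ) × V₃) × ((Fin m → ℤ) × (ℕ × F.ζ))), Cn =
    fun ω => (x0 ω, (((Z ω, kk ω), Z₃ ω), T ω)) := ⟨_, rfl⟩
  obtain ⟨Cp, hCp⟩ : ∃ Cp : F.Ω → (ℤ × ℤ) × (ℤ × (V × ((Fin m → ℤ) × (ℕ × F.ζ)))), Cp =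
    fun ω => ((um ω, nm ω), (kk ω, (Z ω, T ω))) := ⟨_, rfl⟩
  have hX' : CH (Pool.Agent.H49.Ent.cond F.p A True) X Cp ≤ b := by
    rw [hCp, hum, hnm, hkk, hZE, hTE, huE, hnE]
    exact hX
  have HF' : ∀ (D : Type) (Y : F.Ω → D) (b : ℝ), CH (Pool.Agent.H49.Ent.cond F.p A True) Y Cn ≤
      b → d * J - b ≤ CH (Pool.Agent.H49.Ent.cond F.p A True) xo Y := by
    intro D Y b hb
    have h1 := HF D Y b
    rw [hxa, hxa] at h1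
    rw [hxo]
    refine h1 ?_
    rw [hCn, hx0, hkk, hZE, hZ₃E, hTE] at hb
    exact hb
  -- near points
  have key : ∀ ω ω', A ω → A ω' → T ω = T ω' → Z ω = Z ω' → Z₃ ω = Z₃ ω' →
      |(2 : ℝ) ^ (p₁ * J) * (hu ω - hu ω')| ≤ 8 * 2 ^ (μ₁ * J) := by
    intro ω ω' hω hω' e1 e2 e3
    rw [hTE] at e1
    rw [hZE] at e2
    rw [hZ₃E] at e3
    have e4 := (Prod.ext_iff.mp e1).1
    have e5 := (Prod.ext_iff.mp e1).2
    have hT : F.T ω = F.T ω' := (Prod.ext_iff.mp e5).1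
    rw [hhu]
    exact hgt_two h h₃ hρ hρ₃ hE hE₃ hμ₁ hp hs hs₃ hω hω' e4 e2 e3 hT
  have flr : ∀ x y : ℝ, |((⌊x⌋ : ℤ) : ℝ) - ((⌊y⌋ : ℤ) : ℝ)| ≤ |x - y| + 1 := by
    intro x y
    have g1 := Int.floor_le x
    have g2 := Int.lt_floor_add_one x
    have g3 := Int.floor_le y
    have g4 := Int.lt_floor_add_one y
    have g5 := abs_le.1 (le_refl |x - y|)
    rw [abs_le]
    constructor <;> linarith
  -- the coarse position of the first label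
  have s1 : CH (Pool.Agent.H49.Ent.cond F.p A True) um Cn ≤
      μ₁ * J * Real.log 2 + Real.log (3 * 10) := by
    refine le_trans (CH_int_const hcl um Cn (B := 10 * 2 ^ (μ₁ * J)) ?_ le_rfl (by positivity))
      (log_cnt hμ₁ (by norm_num))
    intro ω ω' hω hω' e
    rw [hCn] at e
    simp only [Prod.mk.injEq] at e
    obtain ⟨e0, ⟨⟨e1, e2⟩, e3⟩, e4⟩ := e
    have b1 := key ω ω' (cond_pos hω) (cond_pos hω') e4 e1 e3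
    rw [hum]
    refine (quo_near hM1 (B := 10 * 2 ^ (μ₁ * J) - 1) ?_).trans (by linarith)
    rw [hue, hue]
    refine (flr _ _).trans ?_
    have e5 : (2 : ℝ) ^ ((p₁ + αq) * J) = 2 ^ (αq * J) * 2 ^ (p₁ * J) := by
      rw [← rp_add]
      congr 1
      ring
    rw [← mul_sub, e5, mul_assoc, abs_mul, abs_of_pos (rp_pos _)]
    have b2 : (2 : ℝ) ^ (αq * J) * |2 ^ (p₁ * J) * (hu ω - hu ω')| ≤
        ((2 ^ Q : ℕ) : ℝ) * (8 * 2 ^ (μ₁ * J)) :=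
      mul_le_mul hMQ b1 (abs_nonneg _) hM0.le
    have b3 : (1 : ℝ) ≤ ((2 ^ Q : ℕ) : ℝ) := by exact_mod_cast hM1
    nlinarith
  -- the coarse position of the second label
  have s2 : CH (Pool.Agent.H49.Ent.cond F.p A True) nm Cn ≤
      (ε * αq + μ₁) * J * Real.log 2 + Real.log (3 * (11 * 2 ^ ε)) := by
    have hε1 : (1 : ℝ) ≤ 2 ^ ε := one_rp hε
    have hRm : R * 2 ^ (μ₁ * J) ≤ 2 ^ ε * 2 ^ ((ε * αq + μ₁) * J) := by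
      have e6 : (2 : ℝ) ^ ((ε * αq + μ₁) * J) = 2 ^ (ε * αq * J) * 2 ^ (μ₁ * J) := by
        rw [← rp_add]
        congr 1
        ring
      rw [e6, ← mul_assoc]
      exact mul_le_mul_of_nonneg_right hR2 (rp_pos _).le
    refine le_trans (CH_int_const hcl nm Cn (B := (11 * 2 ^ ε) * 2 ^ ((ε * αq + μ₁) * J)) ?_ le_rfl
      (by positivity)) (log_cnt (by positivity) (by linarith))
    intro ω ω' hω hω' e
    rw [hCn] at e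
    simp only [Prod.mk.injEq] at e
    obtain ⟨e0, ⟨⟨e1, e2⟩, e3⟩, e4⟩ := e
    have a1 := cond_pos hω
    have a2 := cond_pos hω'
    have b1 := key ω ω' a1 a2 e4 e1 e3
    rw [hx0] at e0
    have b2 := fl_one_mul (rp_pos (s₀ * J)) e0
    have b3 := hkr ω a1
    have b4 : |(2 : ℝ) ^ (p₂ * J) * (hl ω - hl ω')| ≤ 2 ^ (μ₁ * J) := by
      have e7 : (2 : ℝ) ^ (p₂ * J) ≤ 2 ^ (μ₁ * J) * 2 ^ (s₀ * J) := by
        rw [← rp_add]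
        refine rp_mono ?_
        have := mul_le_mul_of_nonneg_right hs0 hJ0
        linarith
      rw [abs_mul, abs_of_pos (rp_pos _)]
      rw [abs_mul, abs_of_pos (rp_pos _)] at b2
      calc (2 : ℝ) ^ (p₂ * J) * |hl ω - hl ω'| ≤ 2 ^ (μ₁ * J) * 2 ^ (s₀ * J) * |hl ω - hl ω'| :=
            mul_le_mul_of_nonneg_right e7 (abs_nonneg _)
        _ = 2 ^ (μ₁ * J) * (2 ^ (s₀ * J) * |hl ω - hl ω'|) := by ring
        _ ≤ 2 ^ (μ₁ * J) * 1 := mul_le_mul_of_nonneg_left b2 (rp_pos _).le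
        _ = _ := mul_one _
    have b5 : |(2 : ℝ) ^ (p₂ * J) * (hn ω - hn ω')| ≤ 9 * (R * 2 ^ (μ₁ * J)) := by
      have e8 : (2 : ℝ) ^ (p₂ * J) * (hn ω - hn ω') = 2 ^ (p₂ * J) * (hl ω - hl ω') +
          kr (2 ^ Q) r (kk ω) * (2 ^ (p₁ * J) * (hu ω - hu ω')) := by
        have e9 : (2 : ℝ) ^ (p₁ * J) = 2 ^ (p₂ * J) * 2 ^ ((p₁ - p₂) * J) := by
          rw [← rp_add]
          congr 1
          ring
        rw [hhl, e9]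
        simp only [e2]
        ring
      rw [e8]
      refine (abs_add_le _ _).trans ?_
      have b6 : |kr (2 ^ Q) r (kk ω) * (2 ^ (p₁ * J) * (hu ω - hu ω'))| ≤
          R * (8 * 2 ^ (μ₁ * J)) := by
        rw [abs_mul]
        exact mul_le_mul b3 b1 (abs_nonneg _) (by linarith)
      have b7 : (2 : ℝ) ^ (μ₁ * J) ≤ R * 2 ^ (μ₁ * J) := by nlinarith
      linarith
    rw [hnm]
    have b9 : (1 : ℝ) ≤ R * 2 ^ (μ₁ * J) := by nlinarith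
    refine (quo_near hM1 (B := 10 * (R * 2 ^ (μ₁ * J))) ?_).trans (by nlinarith)
    rw [hne, hne]
    refine (flr _ _).trans ?_
    have e5 : (2 : ℝ) ^ ((p₂ + αq) * J) = 2 ^ (αq * J) * 2 ^ (p₂ * J) := by
      rw [← rp_add]
      congr 1
      ring
    rw [← mul_sub, e5, mul_assoc, abs_mul, abs_of_pos (rp_pos _)]
    have b8 : (2 : ℝ) ^ (αq * J) * |2 ^ (p₂ * J) * (hn ω - hn ω')| ≤
        ((2 ^ Q : ℕ) : ℝ) * (9 * (R * 2 ^ (μ₁ * J))) :=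
      mul_le_mul hMQ b5 (abs_nonneg _) hM0.le
    have b3' : (1 : ℝ) ≤ ((2 ^ Q : ℕ) : ℝ) := by exact_mod_cast hM1
    nlinarith
  -- the digits of the leaf
  have s3 : CH (Pool.Agent.H49.Ent.cond F.p A True) xo (fun ω => (Lc ω, (X ω, Cp ω))) ≤
      ε * αq * J * Real.log 2 + Real.log (3 * (4 * 2 ^ ε)) := by
    have hε1 : (1 : ℝ) ≤ 2 ^ ε := one_rp hε
    refine le_trans (CH_int_const hcl xo _ (B := (4 * 2 ^ ε) * 2 ^ (ε * αq * J)) ?_ le_rfl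
      (by positivity)) (log_cnt (by positivity) (by linarith))
    intro ω ω' hω hω' e
    rw [hCp] at e
    simp only [Prod.mk.injEq] at e
    obtain ⟨e0, -, ⟨e1, e2⟩, e3, e4, e5⟩ := e
    have a1 := cond_pos hω
    have a2 := cond_pos hω'
    rw [hLc] at e0
    simp only [Pool.PR46.lc] at e0
    have c1 := mod_eq (2 ^ Q) (u ω)
    have c2 := mod_eq (2 ^ Q) (u ω')
    have b3 := hkr ω a1
    rw [hum] at e1
    simp only at e1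
    -- the floors
    have g0 := fl_one e0
    have g1 : |((n ω : ℝ) - kr (2 ^ Q) r (kk ω) * u ω) -
        ((n ω' : ℝ) - kr (2 ^ Q) r (kk ω) * u ω')| ≤ r := by
      rw [← e3] at g0
      rw [c1, c2, ← e1, ← sub_div, abs_div, abs_of_pos hr0, div_le_iff₀ hr0, one_mul] at g0
      refine le_trans (le_of_eq ?_) g0
      congr 1
      ring
    have g2 : ∀ x : ℝ, (x - 1 < (⌊x⌋ : ℤ)) ∧ (((⌊x⌋ : ℤ) : ℝ) ≤ x) := fun x =>
      ⟨Int.sub_one_lt_floor x, Int.floor_le x⟩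
    obtain ⟨U, hU⟩ : ∃ U : F.Ω → ℝ, U = fun ω => (2 : ℝ) ^ ((p₁ + αq) * J) * hu ω := ⟨_, rfl⟩
    obtain ⟨N, hN⟩ : ∃ N : F.Ω → ℝ, N = fun ω => (2 : ℝ) ^ ((p₂ + αq) * J) * hn ω := ⟨_, rfl⟩
    have u1 := g2 (U ω)
    have u2 := g2 (U ω')
    have n1 := g2 (N ω)
    have n2 := g2 (N ω')
    have hu1 : u ω = ⌊U ω⌋ := by rw [hue, hU]
    have hu2 : u ω' = ⌊U ω'⌋ := by rw [hue, hU]
    have hn1 : n ω = ⌊N ω⌋ := by rw [hne, hN]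
    have hn2 : n ω' = ⌊N ω'⌋ := by rw [hne, hN]
    rw [← hu1] at u1
    rw [← hu2] at u2
    rw [← hn1] at n1
    rw [← hn2] at n2
    have g3 : |(N ω - kr (2 ^ Q) r (kk ω) * U ω) - (N ω' - kr (2 ^ Q) r (kk ω) * U ω')| ≤
        r + 1 + R := by
      have e6 : (N ω - kr (2 ^ Q) r (kk ω) * U ω) - (N ω' - kr (2 ^ Q) r (kk ω) * U ω') =
          (((n ω : ℝ) - kr (2 ^ Q) r (kk ω) * u ω) -
            ((n ω' : ℝ) - kr (2 ^ Q) r (kk ω) * u ω')) +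
          (((N ω - n ω) - (N ω' - n ω')) -
            kr (2 ^ Q) r (kk ω) * ((U ω - u ω) - (U ω' - u ω'))) := by ring
      rw [e6]
      refine (abs_add_le _ _).trans ?_
      have g4 : |(N ω - n ω) - (N ω' - n ω')| ≤ 1 := by
        rw [abs_le]
        constructor <;> linarith [n1.1, n1.2, n2.1, n2.2]
      have g5 : |(U ω - u ω) - (U ω' - u ω')| ≤ 1 := by
        rw [abs_le]
        constructor <;> linarith [u1.1, u1.2, u2.1, u2.2]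
      have g6 : |kr (2 ^ Q) r (kk ω) * ((U ω - u ω) - (U ω' - u ω'))| ≤ R * 1 := by
        rw [abs_mul]
        exact mul_le_mul b3 g5 (abs_nonneg _) (by linarith)
      have g7 := abs_sub ((N ω - n ω) - (N ω' - n ω'))
        (kr (2 ^ Q) r (kk ω) * ((U ω - u ω) - (U ω' - u ω')))
      linarith
    have g8 : (2 : ℝ) ^ ((p₂ + αq) * J) * (hl ω - hl ω') =
        (N ω - kr (2 ^ Q) r (kk ω) * U ω) - (N ω' - kr (2 ^ Q) r (kk ω) * U ω') := by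
      have e9 : (2 : ℝ) ^ ((p₁ + αq) * J) = 2 ^ ((p₂ + αq) * J) * 2 ^ ((p₁ - p₂) * J) := by
        rw [← rp_add]
        congr 1
        ring
      rw [hhl, hN, hU]
      simp only [e9, ← e3]
      ring
    have g9 : |(2 : ℝ) ^ (s₁ * J) * hl ω - 2 ^ (s₁ * J) * hl ω'| ≤ 3 * R := by
      rw [← mul_sub, abs_mul, abs_of_pos (rp_pos _)]
      have h1 : (2 : ℝ) ^ (s₁ * J) ≤ 2 ^ ((p₂ + αq) * J) :=
        rp_mono (mul_le_mul_of_nonneg_right hs1 hJ0)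
      have h2 : (2 : ℝ) ^ (s₁ * J) * |hl ω - hl ω'| ≤ 2 ^ ((p₂ + αq) * J) * |hl ω - hl ω'| :=
        mul_le_mul_of_nonneg_right h1 (abs_nonneg _)
      have h3 : (2 : ℝ) ^ ((p₂ + αq) * J) * |hl ω - hl ω'| ≤ r + 1 + R := by
        rw [← g8, abs_mul, abs_of_pos (rp_pos _)] at g3
        exact g3
      have h4 : (r : ℝ) ≤ R := by
        rw [hR]
        exact hr
      linarith
    rw [hxo]
    push_cast
    refine (flr _ _).trans ?_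
    have h5 : 3 * R + 1 ≤ 4 * R := by linarith
    have h6 : 4 * R ≤ 4 * (2 ^ ε * 2 ^ (ε * αq * J)) := by linarith
    linarith
  -- the conclusion
  have t1 : CH (Pool.Agent.H49.Ent.cond F.p A True) Cp Cn ≤
      CH (Pool.Agent.H49.Ent.cond F.p A True) um Cn +
        CH (Pool.Agent.H49.Ent.cond F.p A True) nm Cn := by
    have h1 := CH_subadd h0 um nm Cn
    have h2 := CH_le_add h0 Cp (fun ω => (um ω, nm ω)) Cn
    have h3 : CH (Pool.Agent.H49.Ent.cond F.p A True) Cp (fun ω => ((um ω, nm ω), Cn ω)) ≤ 0 := by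
      refine le_of_eq (CH_eq_zero h0 fun ω ω' _ _ e => ?_)
      rw [hCn] at e
      simp only [Prod.mk.injEq] at e
      obtain ⟨⟨e1, e2⟩, e3, ⟨⟨e4, e5⟩, e6⟩, e7⟩ := e
      rw [hCp]
      simp only [Prod.mk.injEq]
      exact ⟨⟨e1, e2⟩, e5, e4, e7⟩
    linarith
  have t2 : CH (Pool.Agent.H49.Ent.cond F.p A True) (fun ω => (X ω, Cp ω)) Cn ≤
      CH (Pool.Agent.H49.Ent.cond F.p A True) Cp Cn + b := by
    have h1 := CH_chain h0 X Cp Cn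
    have h2 : CH (Pool.Agent.H49.Ent.cond F.p A True) X (fun ω => (Cp ω, Cn ω)) ≤
        CH (Pool.Agent.H49.Ent.cond F.p A True) X Cp :=
      CH_mono_cond h0 fun ω ω' _ _ e => (Prod.ext_iff.mp e).1
    linarith
  have t3 := HF' _ (fun ω => (X ω, Cp ω)) _ t2
  have t4 := CH_le_add h0 xo Lc (fun ω => (X ω, Cp ω))
  have t5 : CH (Pool.Agent.H49.Ent.cond F.p A True) Lc (fun ω => (X ω, Cp ω)) ≤
      CH (Pool.Agent.H49.Ent.cond F.p A True) Lc X :=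
    CH_mono_cond h0 fun ω ω' _ _ e => (Prod.ext_iff.mp e).1
  have t6 : CH (Pool.Agent.H49.Ent.cond F.p A True) Lc X =
      CH (Pool.Agent.H49.Ent.cond F.p A True)
      (fun ω => lc (2 ^ Q) r (k (slam F W ω)) (oj F κ₁ z' G₁ W (p₁ + αq) 0 ω)
        (oj F κ₂ z' G₂ W (p₂ + αq) 0 ω)) X := by
    rw [hLc, hkk, huE, hnE]
  rw [← t6]
  have t7 : (2 * ε * αq + 2 * μ₁) * J * Real.log 2 = μ₁ * J * Real.log 2 +
    (ε * αq + μ₁) * J * Real.log 2 + ε * αq * J * Real.log 2 := by ring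
  linarith

/-- **The leaf is full** (`Fl2`): the labels of the family are labels of the window `w`, the first
coordinate has labels at the window `v` whose precision is the level `p₁`, and the digits from
`s₀` to `s₁` of the second coordinate alone are full. -/
theorem fl2_of {S : PCl m} (hpos : ∀ (τ : ℝ) (J : ℕ) (F : Fam m J) (A : F.Ω → Prop),
      S.St τ J F A → 0 < Pe F.p A) {Ψ : Fm2 m} {I₀ I₂ : Finset (Fin m)} {κ₁ κ₂ : Fin m}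
    (hI : I₀ ⊆ I₂) (hκ : κ₁ ∈ I₂) {K₁ K₂ K' Ku : ℕ} {e₀ ρ₀ π₀ w v s₀ s₁ d E₁ R₁ P₁ E₂ R₂ P₂ Eu
      Ru Pu p₁ p₂ αq ε β μ μ₁ : ℝ} (HF : Fuf S I₂ I₀ κ₂ K' e₀ ρ₀ π₀ w v s₀ s₁ d)
    (HL : AltE S I₀ κ₁ Ku Eu Ru Pu v)
    (hΨ : ∀ (J : ℕ) (F : Fam m J) (A : F.Ω → Prop) (V C : Type) (z : PtT F → V) (z' : LnT F → V)
      (G₁ G₂ : V → MvPolynomial (Option (Fin m)) ℝ) (cc : LnT F → C),
      Ψ J F A V C z z' G₁ G₂ cc →
        LbOK F I₀ κ₁ K₁ ⌊E₁ * J⌋₊ J ⌊w * J⌋₊ ⌊R₁ * J⌋₊ ⌊P₁ * J⌋₊ A z z' G₁ ∧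
        LbOK F I₂ κ₂ K₂ ⌊E₂ * J⌋₊ J ⌊w * J⌋₊ ⌊R₂ * J⌋₊ ⌊P₂ * J⌋₊ A z z' G₂)
    (hK₁ : K₁ ≤ K') (hK₂ : K₂ ≤ K') (hK : 1 ≤ K') (hμ : 0 < μ) (hμ₁ : 0 ≤ μ₁) (hε : 0 ≤ ε)
    (hα : 0 ≤ αq) (hE₁ : 0 ≤ E₁) (hE₂ : 0 ≤ E₂) (hEu : 0 ≤ Eu) (c1 : E₂ + μ ≤ e₀)
    (c2 : p₁ - p₂ + ε * αq + E₁ + μ ≤ e₀) (c3 : R₁ ≤ ρ₀) (c4 : R₂ ≤ ρ₀) (c5 : R₁ ≤ 1)
    (c6 : Ru ≤ 1) (c7 : max 0 π₀ + μ ≤ P₂) (c8 : max 0 π₀ + (p₁ - p₂ + ε * αq) + μ ≤ P₁)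
    (c9 : p₁ ≤ Pu + μ₁) (c10 : p₁ + E₁ + μ ≤ 1) (c11 : p₁ + Eu + μ ≤ 1) (c12 : p₂ ≤ s₀ + μ₁)
    (c13 : s₁ ≤ p₂ + αq) (c14 : β + (2 * ε * αq + 2 * μ₁) * Real.log 2 < d) :
    Fl2 S Ψ I₀ κ₁ κ₂ w p₁ p₂ αq ε β := by
  have hlog : 0 < Real.log 2 := Real.log_pos (by norm_num)
  obtain ⟨B₀, hB₀⟩ : ∃ B₀ : ℝ, B₀ = 4 * 2 ^ ε + 4 := ⟨_, rfl⟩
  have hε1 : (1 : ℝ) ≤ 2 ^ ε := one_rp hε
  obtain ⟨δ, hδ⟩ : ∃ δ : ℝ, δ = d - β - (2 * ε * αq + 2 * μ₁) * Real.log 2 := ⟨_, rfl⟩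
  have hδ0 : 0 < δ := by rw [hδ]; linarith
  obtain ⟨c, hc⟩ : ∃ c : ℝ, c = Real.log (3 * 10) + Real.log (3 * (11 * 2 ^ ε)) +
    Real.log (3 * (4 * 2 ^ ε)) := ⟨_, rfl⟩
  obtain ⟨N₁, hN₁⟩ := exists_nat_ge (Real.log B₀ / (μ * Real.log 2))
  obtain ⟨N₂, hN₂⟩ := exists_nat_ge (Real.log (m + 1) / (μ * Real.log 2))
  obtain ⟨N₃, hN₃⟩ := exists_nat_ge (c / δ)
  refine Bas.mono (max N₁ (max N₂ N₃)) ((HF.and HL).and (pos_bas hpos)) ?_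
  rintro J hJ F A ⟨⟨H1, V₃, z₃, z₃', G₃, h3⟩, hA⟩ V C z z' G₁ G₂ cc hps Q r k k₀ hk hQ hQ2 hr1 hr
    hkb Δ X b hX
  have hJ0 : (0 : ℝ) ≤ J := Nat.cast_nonneg J
  have j1 : (N₁ : ℝ) ≤ J := by exact_mod_cast (le_max_left _ _).trans hJ
  have j2 : (N₂ : ℝ) ≤ J := by
    exact_mod_cast ((le_max_left _ _).trans (le_max_right _ _)).trans hJ
  have j3 : (N₃ : ℝ) ≤ J := by
    exact_mod_cast ((le_max_right _ _).trans (le_max_right _ _)).trans hJ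
  have hB : B₀ ≤ 2 ^ (μ * J) := by
    have h1 := hN₁.trans j1
    rw [div_le_iff₀ (by positivity)] at h1
    have hB0 : 0 < B₀ := by rw [hB₀]; positivity
    rw [← Real.log_le_log_iff hB0 (rp_pos _), Real.log_rpow (by norm_num)]
    linarith
  have hm : Real.log (m + 1) ≤ μ * Real.log 2 * J := by
    have h1 := hN₂.trans j2
    rw [div_le_iff₀ (by positivity)] at h1
    linarith
  have hcJ : c ≤ δ * J := by
    have h1 := hN₃.trans j3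
    rw [div_le_iff₀ hδ0] at h1
    linarith
  obtain ⟨h1, h2⟩ := hΨ J F A V C z z' G₁ G₂ cc hps
  obtain ⟨kap, hkap⟩ : ∃ kap : ℝ, kap = p₁ - p₂ + ε * αq := ⟨_, rfl⟩
  rw [← hkap] at c2 c8
  have hfl : ∀ x : ℝ, 0 ≤ x → (2 : ℝ) ^ ⌊x * J⌋₊ ≤ 2 ^ (x * J) := fun x hx =>
    p2_le (by positivity)
  have hf2 : ∀ x : ℝ, (1 : ℝ) / 2 ^ ⌊x * J⌋₊ ≤ 2 * 2 ^ (-(x * J)) := fun x => ip2_le (x * J)
  have hr0 : (0 : ℝ) < r := by exact_mod_cast hr1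
  have hlab := leaf_lab h1 h2 hI hκ (k₀ := k₀) (k := k) hk
    (f := fun j => kr (2 ^ Q) r j * 2 ^ ((p₁ - p₂) * J)) (Bf := 2 ^ ε * 2 ^ (kap * J))
    (fun ω hω => by
      have a1 := hkb ω hω
      have hM0 : (0 : ℝ) < ((2 ^ Q : ℕ) : ℝ) := by
        have : 1 ≤ 2 ^ Q := Nat.one_le_two_pow
        exact_mod_cast this
      have a2 : |kr (2 ^ Q) r (k (slam F ⌊w * J⌋₊ ω))| ≤ 2 ^ (ε * Q) := by
        unfold kr
        rw [abs_div, abs_mul, abs_of_pos hr0, abs_of_pos hM0, div_le_iff₀ hM0]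
        refine a1.trans (le_of_eq ?_)
        push_cast
        ring
      have a3 : (2 : ℝ) ^ (ε * Q) ≤ 2 ^ ε * 2 ^ (ε * αq * J) := by
        rw [← rp_add]
        refine rp_mono ?_
        have := mul_le_mul_of_nonneg_left hQ2 hε
        linarith
      show |kr (2 ^ Q) r (k (slam F ⌊w * J⌋₊ ω)) * 2 ^ ((p₁ - p₂) * J)| ≤ _
      rw [abs_mul, abs_of_pos (rp_pos _)]
      have a4 : (2 : ℝ) ^ (kap * J) = 2 ^ (ε * αq * J) * 2 ^ ((p₁ - p₂) * J) := by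
        rw [← rp_add, hkap]
        congr 1
        ring
      rw [a4, ← mul_assoc]
      exact mul_le_mul_of_nonneg_right (a2.trans a3) (rp_pos _).le)
    hK₁ hK₂ hK (Nat.floor_le_floor (mul_le_mul_of_nonneg_right c3 hJ0))
    (Nat.floor_le_floor (mul_le_mul_of_nonneg_right c4 hJ0)) (P := ⌊π₀ * J⌋₊) (e := ⌊e₀ * J⌋₊)
    (by
      obtain ⟨π₁, hπ₁⟩ : ∃ π₁ : ℝ, π₁ = max 0 π₀ := ⟨_, rfl⟩
      have hπ0 : 0 ≤ π₁ := by rw [hπ₁]; exact le_max_left _ _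
      have hπ2 : π₀ ≤ π₁ := by rw [hπ₁]; exact le_max_right _ _
      rw [← hπ₁] at c7 c8
      have a1 : (2 : ℝ) ^ (-(P₂ * J)) ≤ 2 ^ (-(π₁ * J)) * 2 ^ (-(μ * J)) := by
        rw [← rp_add]
        refine rp_mono ?_
        have := mul_le_mul_of_nonneg_right c7 hJ0
        linarith
      have a2 : (2 : ℝ) ^ (kap * J) * 2 ^ (-(P₁ * J)) ≤ 2 ^ (-(π₁ * J)) * 2 ^ (-(μ * J)) := by
        rw [← rp_add, ← rp_add]
        refine rp_mono ?_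
        have := mul_le_mul_of_nonneg_right c8 hJ0
        linarith
      have a3 : B₀ * 2 ^ (-(μ * J)) ≤ 1 := by
        rw [Real.rpow_neg (by norm_num), ← div_eq_mul_inv, div_le_one (rp_pos _)]
        exact hB
      have a4 : (2 : ℝ) ^ (-(π₁ * J)) ≤ 1 / 2 ^ ⌊π₀ * J⌋₊ := by
        have b1 : (2 : ℝ) ^ ⌊π₀ * J⌋₊ ≤ 2 ^ (π₁ * J) :=
          (pow_le_pow_right₀ (by norm_num) (Nat.floor_le_floor
            (mul_le_mul_of_nonneg_right hπ2 hJ0))).trans (hfl π₁ hπ0)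
        rw [Real.rpow_neg (by norm_num), ← one_div]
        exact one_div_le_one_div_of_le (by positivity) b1
      have a5 : 0 < (2 : ℝ) ^ (-(π₁ * J)) := rp_pos _
      have a6 : 0 < (2 : ℝ) ^ (-(μ * J)) := rp_pos _
      obtain ⟨x, hx⟩ : ∃ x : ℝ, x = 2 ^ (-(π₁ * J)) * 2 ^ (-(μ * J)) := ⟨_, rfl⟩
      rw [← hx] at a1 a2
      have hx0 : 0 < x := by rw [hx]; positivity
      calc (1 : ℝ) / 2 ^ ⌊P₂ * J⌋₊ + 2 ^ ε * 2 ^ (kap * J) * (1 / 2 ^ ⌊P₁ * J⌋₊)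
          ≤ 2 * 2 ^ (-(P₂ * J)) + 2 ^ ε * 2 ^ (kap * J) * (2 * 2 ^ (-(P₁ * J))) :=
            add_le_add (hf2 P₂) (mul_le_mul_of_nonneg_left (hf2 P₁) (by positivity))
        _ = 2 * 2 ^ (-(P₂ * J)) + 2 * 2 ^ ε * (2 ^ (kap * J) * 2 ^ (-(P₁ * J))) := by ring
        _ ≤ 2 * x + 2 * 2 ^ ε * x :=
            add_le_add (mul_le_mul_of_nonneg_left a1 (by norm_num))
              (mul_le_mul_of_nonneg_left a2 (by positivity))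
        _ ≤ B₀ * x := by
            rw [hB₀]
            nlinarith
        _ = 2 ^ (-(π₁ * J)) * (B₀ * 2 ^ (-(μ * J))) := by rw [hx]; ring
        _ ≤ 2 ^ (-(π₁ * J)) * 1 := mul_le_mul_of_nonneg_left a3 a5.le
        _ ≤ 1 / 2 ^ ⌊π₀ * J⌋₊ := by rw [mul_one]; exact a4)
    (by
      have a1 := hfl E₂ hE₂
      have a2 := hfl E₁ hE₁
      have b1 : (2 : ℝ) ^ (E₂ * J) ≤ 2 ^ (e₀ * J) * 2 ^ (-(μ * J)) := by
        rw [← rp_add]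
        refine rp_mono ?_
        have := mul_le_mul_of_nonneg_right c1 hJ0
        linarith
      have b2 : (2 : ℝ) ^ (kap * J) * 2 ^ (E₁ * J) ≤ 2 ^ (e₀ * J) * 2 ^ (-(μ * J)) := by
        rw [← rp_add, ← rp_add]
        refine rp_mono ?_
        have := mul_le_mul_of_nonneg_right c2 hJ0
        linarith
      have b3 : (2 : ℝ) ^ (kap * J) ≤ 2 ^ (kap * J) * 2 ^ (E₁ * J) :=
        le_mul_of_one_le_right (rp_pos _).le (one_rp (by positivity))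
      have b4 : (2 : ℝ) ^ (e₀ * J) ≤ 2 * 2 ^ ⌊e₀ * J⌋₊ := by
        have g1 := hf2 e₀
        rw [Real.rpow_neg (by norm_num), div_le_iff₀ (by positivity)] at g1
        have g2 : (0 : ℝ) < 2 ^ (e₀ * J) := rp_pos _
        have g3 : 2 * ((2 : ℝ) ^ (e₀ * J))⁻¹ * 2 ^ ⌊e₀ * J⌋₊ * 2 ^ (e₀ * J) =
            2 * 2 ^ ⌊e₀ * J⌋₊ := by
          field_simp
        nlinarith
      have a3 : B₀ * 2 ^ (-(μ * J)) ≤ 1 := by
        rw [Real.rpow_neg (by norm_num), ← div_eq_mul_inv, div_le_one (rp_pos _)]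
        exact hB
      obtain ⟨x, hx⟩ : ∃ x : ℝ, x = 2 ^ (e₀ * J) * 2 ^ (-(μ * J)) := ⟨_, rfl⟩
      rw [← hx] at b1 b2
      have hx0 : 0 < x := by
        rw [hx]
        have := rp_pos (e₀ * J)
        have := rp_pos (-(μ * J))
        positivity
      have b5 : (2 : ℝ) ^ ε * 2 ^ (kap * J) * (1 + 2 ^ ⌊E₁ * J⌋₊) ≤ 2 * 2 ^ ε * x := by
        calc (2 : ℝ) ^ ε * 2 ^ (kap * J) * (1 + 2 ^ ⌊E₁ * J⌋₊)
            ≤ 2 ^ ε * 2 ^ (kap * J) * (1 + 2 ^ (E₁ * J)) :=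
              mul_le_mul_of_nonneg_left (by linarith) (by positivity)
          _ = 2 ^ ε * (2 ^ (kap * J) + 2 ^ (kap * J) * 2 ^ (E₁ * J)) := by ring
          _ ≤ 2 ^ ε * (x + x) :=
              mul_le_mul_of_nonneg_left (by linarith) (by positivity)
          _ = 2 * 2 ^ ε * x := by ring
      have b6 : B₀ * x ≤ 2 ^ (e₀ * J) := by
        have e6 : B₀ * x = 2 ^ (e₀ * J) * (B₀ * 2 ^ (-(μ * J))) := by rw [hx]; ring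
        rw [e6]
        exact (mul_le_mul_of_nonneg_left a3 (rp_pos _).le).trans (le_of_eq (mul_one _))
      have b7 : B₀ * x = 4 * 2 ^ ε * x + 4 * x := by rw [hB₀]; ring
      linarith)
  have hfull := leaf_full (W := ⌊w * J⌋₊) (W₃ := ⌊v * J⌋₊) (G₃ := G₃) (G₁ := G₁) (G₂ := G₂)
    (κ₂ := κ₂) (μ₁ := μ₁) (s₀ := s₀) (s₁ := s₁) (d := d) (k := k) h1 h3
    (by
      refine Nat.floor_le_of_le ?_
      have := mul_le_mul_of_nonneg_right c5 hJ0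
      linarith)
    (by
      refine Nat.floor_le_of_le ?_
      have := mul_le_mul_of_nonneg_right c6 hJ0
      linarith) hE₁ hEu hμ₁ c9 (by
      refine hm.trans ?_
      have : μ * (Real.log 2 * J) ≤ (1 - p₁ - E₁) * (Real.log 2 * J) :=
        mul_le_mul_of_nonneg_right (by linarith) (by positivity)
      linarith) (by
      refine hm.trans ?_
      have : μ * (Real.log 2 * J) ≤ (1 - p₁ - Eu) * (Real.log 2 * J) :=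
        mul_le_mul_of_nonneg_right (by linarith) (by positivity)
      linarith) c12 c13 hε hα hA hQ hQ2 hr1 hr hkb X hX
    (fun D Y b hb => H1 (V × ℤ) _ _ _ hlab V₃ z₃ z₃' h3.cls D Y b hb)
  rw [← hc] at hfull
  have e1 : δ * J = d * J - β * J - (2 * ε * αq + 2 * μ₁) * J * Real.log 2 := by
    rw [hδ]
    ring
  linarith

end Pool.TE46
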