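import Pool.Agent.H63.AB.Fam
import Pool.Agent.H46.TE.Ful

/-!
# The leaf is full, for the labels of one early window

`FmB.lbok`: the two labels of the family `FmB` are labels of the window `w`. `altE_of_lbx`: labels of the
chain at a window. `fl2_fmb`: `fl2_of` for the family `FmB`.
-/

set_option autoImplicit false

namespace Pool.TE46

open Finset Real MvPolynomial
open Pool.Agent.H49.Ent Pool.Agent.H32.Dense Pool.STK Pool.KA Pool.KSAT Pool.K2S Pool.PB Pool.GEN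
open Pool.S6C Pool.RCD Pool.LA91 Pool.OWN68 Pool.AJW Pool.AJX Pool.CHT Pool.PN18 Pool.LPK12
open Pool.PR46 Pool.AB63
open Pool.GRD (LbP)
open Pool.UNJ (ceI)
open Pool.ALT (xa AltE)

variable {m : ℕ}

/-- A label of the early window is a label of the window `w`. -/
theorem lbok_early {J : ℕ} {F : Fam m J} {I : Finset (Fin m)} {κ : Fin m} {K e W₀ W ρ P : ℕ}
    {A : F.Ω → Prop} {V V₁ : Type} {z : PtT F → V} {z' : LnT F → V} {z₁ : PtT F → V₁}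
    {z₁' : LnT F → V₁} {G : V₁ → MvPolynomial (Option (Fin m)) ℝ} {φ : V → V₁}
    (h : LbOK F I κ K e J W₀ ρ P A z₁ z₁' G) (hW : W₀ ≤ W)
    (hz : ∀ ω, A ω → z (ptr F J ω) = z' (slam F W ω))
    (hφ : ∀ ω, A ω → φ (z' (slam F W ω)) = z₁' (slam F W₀ ω)) :
    LbOK F I κ K e J W ρ P A z z' (fun v => G (φ v)) := by
  refine ⟨fun v => h.deg _, fun v => h.dep _, hz, fun ω hω => ?_, fun ω hω => ?_,
    fun ω hω => ?_⟩
  · show |F.x ω κ - eval (bt F ω) (G (φ (z' (slam F W ω))))| ≤ _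
    rw [hφ ω hω]
    exact h.pos ω hω
  · show |F.d ω κ - ∑ o, bd F ω o * eval (bt F ω) (pderiv o (G (φ (z' (slam F W ω)))))| ≤ _
    rw [hφ ω hω]
    refine (h.vel ω hω).trans (div_le_div_of_nonneg_right ?_ (by positivity))
    exact pow_le_pow_right₀ (by norm_num) hW
  · show ∀ b : Option (Fin m) → ℝ, (∀ o, |b o - bt F ω o| ≤ 1 / 2 ^ ρ) → ∀ o,
      |eval b (pderiv o (G (φ (z' (slam F W ω)))))| ≤ 2 ^ e
    rw [hφ ω hω]
    exact h.lip ω hω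

/-- **The labels of the family** `FmB` as labels of the window `w`. -/
theorem fmb_lbok {Ψ₀ : Fm2 m} {c : ℕ → Fin m} {r K : ℕ} {e : ℝ} {E : ℕ → ℝ} {b w : ℝ}
    {rd p : ℕ → ℝ} {X : ℕ → ℕ → ℝ} (hbw : b ≤ w)
    (J : ℕ) (F : Fam m J) (A : F.Ω → Prop) (V C : Type) (z : PtT F → V) (z' : LnT F → V)
    (G₁ G₂ : V → MvPolynomial (Option (Fin m)) ℝ) (cc : LnT F → C)
    (H : FmB Ψ₀ c r K e E b w rd p X J F A V C z z' G₁ G₂ cc) :
    LbOK F ((range r).image c) (c r) K ⌊(E r + e) * J⌋₊ J ⌊w * J⌋₊ ⌊(rd r + e) * J⌋₊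
        ⌊(p r - e) * J⌋₊ A z z' G₁ ∧
      LbOK F ((range (r + 1)).image c) (c (r + 1)) K ⌊(E (r + 1) + e) * J⌋₊ J ⌊w * J⌋₊
        ⌊(rd (r + 1) + e) * J⌋₊ ⌊(p (r + 1) - e) * J⌋₊ A z z' G₂ := by
  obtain ⟨V₀, C₀, V₁, z₀, z₀', P₁, P₂, c₀, z₁, z₁', g₁, H, φ₀, φ₁, h1, h2, h3, h4, h5, rfl, rfl,
    h8, h9, h10, h11, h12⟩ := H
  have hW : ⌊b * J⌋₊ ≤ ⌊w * J⌋₊ :=
    Nat.floor_le_floor (mul_le_mul_of_nonneg_right hbw (Nat.cast_nonneg J))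
  exact ⟨lbok_early (h2 r (Nat.zero_le _) (by omega)) hW h3 fun ω _ => h5 ω,
    lbok_early (h2 (r + 1) (Nat.zero_le _) (by omega)) hW h3 fun ω _ => h5 ω⟩

/-- The labels of the last place before the leaf, at a window. -/
theorem altE_of_lbx {S : PCl m} {c : ℕ → Fin m} {r D : ℕ} {L : ℕ → ℝ} {v e : ℝ}
    (h : Bas S (fun J F A => ∃ (V₁ : Type) (z : PtT F → V₁) (z' : LnT F → V₁)
          (g : V₁ → ℕ → MvPolynomial (Option (Fin m)) ℝ),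
          LbX F c 0 (r + 1) D e (fun i => max 0 (L r - L i)) v
            (fun _ => L r) (fun l => L l) A z z' g)) :
    AltE S ((range r).image c) (c r) D e (L r + e) (L r - e) v := by
  refine Bas.mono 0 h ?_
  rintro J - F A ⟨V₁, z, z', g, h1⟩
  have h2 := h1 r (Nat.zero_le _) (Nat.lt_succ_self r)
  simp only [sub_self, max_self, zero_add] at h2
  exact ⟨V₁, z, z', fun v => g v r, h2⟩

/-- **The leaf is full, for the family** `FmB`. `μ` is the margin of the exponents, `μ₁` the error of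
the levels. -/
theorem fl2_fmb {S : PCl m} (hpos : ∀ (τ : ℝ) (J : ℕ) (F : Fam m J) (A : F.Ω → Prop),
      S.St τ J F A → 0 < Pe F.p A) {Ψ₀ : Fm2 m} {c : ℕ → Fin m} {r K K' D : ℕ} {E : ℕ → ℝ}
    {b w e : ℝ} {rd p : ℕ → ℝ} {X : ℕ → ℕ → ℝ} {e₀ ρ₀ π₀ v s₀ s₁ d : ℝ} {L : ℕ → ℝ}
    {p₁ p₂ αq ε β μ μ₁ : ℝ}
    (HF : Fuf S ((range (r + 1)).image c) ((range r).image c) (c (r + 1)) K' e₀ ρ₀ π₀ w v s₀ s₁ d)
    (HL : ∀ e : ℝ, 0 < e → Bas S (fun J F A => ∃ (V₁ : Type) (z : PtT F → V₁) (z' : LnT F → V₁)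
          (g : V₁ → ℕ → MvPolynomial (Option (Fin m)) ℝ),
          LbX F c 0 (r + 1) D e (fun i => max 0 (L r - L i)) v
            (fun _ => L r) (fun l => L l) A z z' g))
    (hbw : b ≤ w) (hK : K ≤ K') (hK1 : 1 ≤ K') (hμ : 0 < μ) (hμ₁ : 0 ≤ μ₁) (hε : 0 ≤ ε)
    (hα : 0 ≤ αq) (he : 0 ≤ e) (hE₁ : 0 ≤ E r) (hE₂ : 0 ≤ E (r + 1))
    (c1 : E (r + 1) + e + μ ≤ e₀) (c2 : p₁ - p₂ + ε * αq + (E r + e) + μ ≤ e₀)
    (c3 : rd r + e ≤ ρ₀) (c4 : rd (r + 1) + e ≤ ρ₀) (c5 : rd r + e ≤ 1)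
    (c6 : L r < 1) (c7 : max 0 π₀ + μ ≤ p (r + 1) - e)
    (c8 : max 0 π₀ + (p₁ - p₂ + ε * αq) + μ ≤ p r - e)
    (c9 : p₁ < L r + μ₁) (c10 : p₁ + (E r + e) + μ ≤ 1) (c12 : p₂ ≤ s₀ + μ₁)
    (c13 : s₁ ≤ p₂ + αq) (c14 : β + (2 * ε * αq + 2 * μ₁) * Real.log 2 < d) :
    Fl2 S (FmB Ψ₀ c r K e E b w rd p X) ((range r).image c) (c r) (c (r + 1)) w p₁ p₂ αq ε β := by
  obtain ⟨ν, hν, n1, n2, n3⟩ : ∃ ν : ℝ, 0 < ν ∧ ν ≤ 1 - L r ∧ ν ≤ L r + μ₁ - p₁ ∧ ν ≤ μ / 2 :=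
    ⟨min (1 - L r) (min (L r + μ₁ - p₁) (μ / 2)), by
      have : 0 < 1 - L r := by linarith
      have : 0 < L r + μ₁ - p₁ := by linarith
      positivity, min_le_left _ _, (min_le_right _ _).trans (min_le_left _ _),
      (min_le_right _ _).trans (min_le_right _ _)⟩
  have hE : 0 ≤ E r + e := by linarith
  exact fl2_of hpos (Ψ := FmB Ψ₀ c r K e E b w rd p X) (I₀ := (range r).image c)
    (I₂ := (range (r + 1)).image c) (κ₁ := c r) (κ₂ := c (r + 1)) (K₁ := K) (K₂ := K)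
    (K' := K') (E₁ := E r + e) (R₁ := rd r + e) (P₁ := p r - e) (E₂ := E (r + 1) + e)
    (R₂ := rd (r + 1) + e) (P₂ := p (r + 1) - e) (μ := μ / 2)
    (Finset.image_subset_image (Finset.range_subset_range.2 (Nat.le_succ r)))
    (Finset.mem_image.2 ⟨r, Finset.mem_range.2 (Nat.lt_succ_self r), rfl⟩) HF
    (altE_of_lbx (HL ν hν)) (fmb_lbok hbw) hK hK hK1 (by linarith) hμ₁ hε hα hE (by linarith)
    hν.le (by linarith) (by linarith) c3 c4 c5 (by linarith) (by linarith) (by linarith)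
    (by linarith) (by linarith) (by linarith) c12 c13 c14

end Pool.TE46
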