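import Pool.Agent.H46.TE.Vms

/-!
# Heights over the labels of early windows, any slopes

`hts_one`: the heights of one coordinate over the labels of the windows of a decreasing sequence are few
bits given the record at the first window, if those of the chain are. `hts_any`: the heights of a chain.
-/

set_option autoImplicit false

namespace Pool.TE46

open Finset Real MvPolynomial
open Pool.Agent.H49.Ent Pool.Agent.H32.Dense Pool.STK Pool.KA Pool.KSAT Pool.K2S Pool.PB Pool.GEN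
open Pool.S6C Pool.RCD Pool.LA91 Pool.OWN68 Pool.AJW Pool.AJX Pool.CHT Pool.PN18 Pool.AB63
open Pool.GRD (LbP)
open Pool.LP30 (paQ htQ htO htO_P)
open Pool.RJ28 (dgj dgj_lt dgj_st dgj_le)

variable {m : ℕ} {S : PCl m} {C₀ : ℝ} {c : ℕ → Fin m} {d : ℕ} {sn : ℕ → ℝ → ℝ} {G : Set ℝ}

/-- **The windows of the heights**: `v 0 ≥ v 1 ≥ …`, steps at most `h`, the levels minus the window
do not increase backwards. -/
structure HMs (d : ℕ) (sn : ℕ → ℝ → ℝ) (G : Set ℝ) (h φ : ℝ) (n : ℕ) (v : ℕ → ℝ) : Prop where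
  mem : ∀ j ≤ n, v j ∈ G
  st : ∀ j < n, v (j + 1) ≤ v j ∧ v j ≤ v (j + 1) + h
  sl : ∀ l < d, ∀ i j, i ≤ j → j ≤ n → sn l (v j) - v j ≤ sn l (v i) - v i + φ

theorem HMs.le {h φ : ℝ} {n : ℕ} {v : ℕ → ℝ} (H : HMs d sn G h φ n v) {j : ℕ} (hj : j ≤ n) :
    v j ≤ v 0 := by
  induction j with
  | zero => exact le_rfl
  | succ j ih => exact (H.st j (by omega)).1.trans (ih (by omega))

/-- **The heights of one coordinate** over the chain. -/
theorem hts_one (htm : TmC S C₀)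
    (hpos : ∀ (τ : ℝ) (J : ℕ) (F : Fam m J) (A : F.Ω → Prop), S.St τ J F A → 0 < Pe F.p A)
    (hW : ChG S c d sn G) {n : ℕ} {v : ℕ → ℝ} {ow h φ σ₀ : ℝ} (hh : 0 ≤ h) (hφ : 0 ≤ φ)
    (hσ : 0 < σ₀) (H : HMs d sn G h φ n v) (how : v 0 ≤ ow) (how1 : ow ≤ 1) {i : ℕ} (hi : i ≤ d)
    {k : Fin m} {sk : ℝ → ℝ}
    (hc : ∀ l < i, ∀ t ≤ n, ∀ N : ℝ,
      (∀ t' ≤ t, N ≤ sn l (v t') + (v 0 - v t') - (l + 1) * (h + φ + 2 * σ₀)) →
      Few0 S (fun J F => ptr F J) (vg ow) (fun _ F => F.T)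
        (qJet m ((range l).image c) (c l) 0 (v t) (sn l (v t)) N))
    (hx : ∀ t ≤ n, ∀ N : ℝ, Exs S (qJet m ((range i).image c) k 0 (v t) (sk (v t)) N)) :
    ∀ t ≤ n, ∀ N : ℝ,
      (∀ t' ≤ t, N ≤ sk (v t') + (v 0 - v t') - (i + 1) * (h + φ + 2 * σ₀)) →
      Few0 S (fun J F => ptr F J) (vg ow) (fun _ F => F.T)
        (qJet m ((range i).image c) k 0 (v t) (sk (v t)) N) := by
  obtain ⟨κ, hκ⟩ : ∃ κ : ℝ, κ = h + φ + 2 * σ₀ := ⟨_, rfl⟩
  have hκ0 : 0 < κ := by rw [hκ]; positivity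
  rw [← hκ] at hc ⊢
  intro t
  induction t with
  | zero =>
    intro _ N hN
    obtain ⟨u₁, rd, hrd, hch⟩ := hW.ch (v 0) (H.mem 0 (Nat.zero_le _))
    refine few0_jet htm hch.w0 hch.u0 ?_ _ _ _
    have h1 := hN 0 le_rfl
    have h2 : (0 : ℝ) ≤ (i + 1) * κ := by positivity
    push_cast
    linarith only [h1, h2]
  | succ t iht =>
    intro ht N hN
    have key0 := iht (by omega) N fun t' ht' => hN t' (by omega)
    have hN1 := hN t (by omega)
    have hN2 := hN (t + 1) le_rfl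
    obtain ⟨hbb1, hbb2⟩ := H.st t (by omega)
    have w2 := H.le (j := t) (by omega)
    have w4 := H.le (j := t + 1) ht
    obtain ⟨u₁, rd, hrd, hch⟩ := hW.ch _ (H.mem t (by omega))
    obtain ⟨u₁', rd', hrd', hch'⟩ := hW.ch _ (H.mem (t + 1) ht)
    obtain ⟨Nv, hNv⟩ : ∃ Nv : ℕ → ℝ, ∀ l, Nv l = sn l (v t) + (v 0 - v t) - φ - (l + 1) * κ :=
      ⟨_, fun _ => rfl⟩
    have ihi' : ∀ l < i, Few0 S (fun J F => ptr F J) (vg ow) (fun _ F => F.T)
        (qJet m ((range l).image c) (c l) 0 (v t) (sn l (v t)) (Nv l)) := fun l hl =>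
      hc l hl t (by omega) _ fun t' ht' => by
        have h1 := H.sl l (by omega) t' t ht' (by omega)
        rw [hNv]
        linarith only [h1]
    have hx1 := hx t (by omega) N
    obtain ⟨o, ho⟩ : ∃ o : ℝ, o = v 0 := ⟨_, rfl⟩
    obtain ⟨b, hb⟩ : ∃ b : ℝ, b = v t := ⟨_, rfl⟩
    obtain ⟨b', hb'⟩ : ∃ b' : ℝ, b' = v (t + 1) := ⟨_, rfl⟩
    rw [← ho] at w2 w4 hN1 hN2 how hNv
    rw [← hb] at hbb1 hbb2 w2 key0 hch ihi' hN1 hNv hx1
    rw [← hb'] at hbb1 hbb2 w4 hch' hN2 ⊢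
    have hb0 := hch.w0
    have hb1 := hch.u0
    by_cases h1 : N ≤ sk b'
    · refine few0_jet htm hch'.w0 hch'.u0 ?_ _ _ _
      push_cast
      linarith only [h1]
    push Not at h1
    obtain ⟨lv, hlv⟩ : ∃ lv : ℕ → ℝ, ∀ l, lv l = (o - b) - φ - (l + 1) * κ - σ₀ :=
      ⟨_, fun _ => rfl⟩
    have hil : ∀ l l' : ℕ, l < l' → ((l : ℝ) + 1) * κ + κ ≤ ((l' : ℝ) + 1) * κ := by
      intro l l' hl
      have h2 : (l : ℝ) + 1 + 1 ≤ l' + 1 := by exact_mod_cast Nat.succ_le_succ hl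
      have h3 := mul_le_mul_of_nonneg_right h2 hκ0.le
      linarith only [h3]
    have hi0 : (0 : ℝ) ≤ i * κ := by positivity
    have hQs : Few0 S (fun J F => ptr F J) (vg ow) (fun _ F => F.T)
        (qJets m c 0 i 0 (fun _ _ => b) (fun l _ => sn l b) (fun l _ => Nv l)) := by
      refine few_tQt hpos (few_qjets hpos fun l _ hl j' hj' => ?_)
      obtain rfl : j' = 0 := by omega
      exact Few0.few hpos (ihi' l hl)
    have hxs : Exs S (qJets m c 0 i 0 (fun _ _ => b) (fun l _ => sn l b)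
        (fun l _ => Nv l)) := exs_qjets fun l _ hl j' _ =>
      exs_jet (hrd l (by omega)) (hch.att l (Nat.zero_le _) (by omega))
    have hup : ∀ (J : ℕ) (F : Fam m J), ∃ φ : LnT F → LnT F, ∀ ω,
        vg b J F ω = φ (vg ow J F ω) :=
      fun J F => vg_mono (by linarith only [w2, how]) how1 J F
    have hmin : min (1 : ℝ) (1 - b) = 1 - b := min_eq_right (by linarith only [hb0])
    have key := few_jetN (f := fun (J : ℕ) (F : Fam m J) => ptr F J)
      (y := fun (_ : ℕ) (F : Fam m _) => F.T) htm (hch.take (Nat.zero_le i) hi) (k := k)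
      (j := 0) (wv := fun _ _ => b) (pv := fun l _ => sn l b) (Nv := fun l _ => Nv l)
      (lv := lv) (w₁ := b) (w₂ := b') (p₁ := sk b) (p₂ := sk b')
      (N₁ := N) (N₂ := N) (p₀ := 1) (lam := 1) (σ₀ := σ₀) (fun _ _ _ _ _ => le_rfl) le_rfl
      hbb1 hb1 le_rfl one_pos hσ (by
        intro l _ hl
        have l1 := hil l i hl
        rw [hlv]
        linarith only [l1, h1, hN2, hbb2, hκ, hσ, hφ]) (by
        intro l _ hl j' hj'
        obtain rfl : j' = 0 := by omega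
        rw [hlv, hNv]
        push_cast
        linarith only []) (by
        intro l _ hl j' hj'
        have l1 : (0 : ℝ) ≤ (l + 1) * κ := by positivity
        rw [hlv, hmin, min_self]
        linarith only [l1, how, how1, hφ]) (by
        intro l _ hl j' hj' l' _ hl'
        rw [hlv, hlv, min_self]
        have l1 := hil l' l hl'
        linarith only [l1, hκ, hh, hφ, hσ]) le_rfl (by
        rw [hmin]
        push_cast
        rcases min_choice (sk b) (sk b') with h | h <;> rw [h] <;>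
          linarith only [hN1, hN2, hi0, hκ, hh, hφ, hσ, hbb2, how, how1]) (by
        intro l _ hl
        rw [hlv]
        push_cast
        have l1 := hil l i hl
        rcases min_choice (sk b) (sk b') with h | h <;> rw [h] <;>
          linarith only [hN1, hN2, l1, hκ, hh, hφ, hσ, hbb2]) ptr_id (kn_T c 1 1)
    have key2 := Few.up (f' := fun J F => ptr F J) (y' := fun _ F => F.T) hpos
      (fun J F => ⟨fun x => x, fun _ => rfl⟩) hup (fun J F => ⟨fun x => x, fun _ => rfl⟩) key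
    refine Few0.trans hpos (Exs.prod hxs hx1) ?_ key2
    exact few_tQt hpos (Few.pair hpos (Few0.few hpos hQs) (Few0.few hpos key0))

/-- **The heights of a chain** over the labels of the windows of the sequence. -/
theorem hts_any (htm : TmC S C₀)
    (hpos : ∀ (τ : ℝ) (J : ℕ) (F : Fam m J) (A : F.Ω → Prop), S.St τ J F A → 0 < Pe F.p A)
    (hW : ChG S c d sn G) {n : ℕ} {v : ℕ → ℝ} {ow h φ σ₀ : ℝ} (hh : 0 ≤ h) (hφ : 0 ≤ φ)
    (hσ : 0 < σ₀) (H : HMs d sn G h φ n v) (how : v 0 ≤ ow) (how1 : ow ≤ 1) (i : ℕ) :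
    i < d → ∀ t ≤ n, ∀ N : ℝ,
      (∀ t' ≤ t, N ≤ sn i (v t') + (v 0 - v t') - (i + 1) * (h + φ + 2 * σ₀)) →
      Few0 S (fun J F => ptr F J) (vg ow) (fun _ F => F.T)
        (qJet m ((range i).image c) (c i) 0 (v t) (sn i (v t)) N) := by
  induction i using Nat.strong_induction_on with
  | _ i ihi =>
  intro hi
  refine hts_one htm hpos hW hh hφ hσ H how how1 hi.le (sk := sn i)
    (fun l hl => ihi l hl (by omega)) fun t ht N => ?_
  obtain ⟨u₁, rd, hrd, hch⟩ := hW.ch (v t) (H.mem t ht)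
  exact exs_jet (hrd i hi) (hch.att i (Nat.zero_le _) hi)

end Pool.TE46
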