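import Pool.Agent.H46.TE.Vmp
import Pool.Agent.H46.TE.Hms
import Pool.Agent.H60.FR2.Frx
import Pool.Agent.H91.FR.SubA

/-!
# The direction of the near path is free of the heights, from `FreeAt`

`fr2_cl`: `Fr2` for the families over the labels of an early window, the velocities of the chain over
the labels of a much earlier window are free of the later records (`FreeAt`).
-/

set_option autoImplicit false

namespace Pool.TE46

open Finset Real MvPolynomial
open Pool.Agent.H49.Ent Pool.Agent.H32.Dense Pool.STK Pool.KA Pool.KSAT Pool.K2S Pool.PB Pool.GEN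
open Pool.S6C Pool.RCD Pool.LA91 Pool.OWN68 Pool.AJW Pool.AJX Pool.CHT Pool.PN18 Pool.AB63
open Pool.LPK12 Pool.FR60 Pool.RWB12
open Pool.GRD (LbP)
open Pool.LP30 (paQ htQ htO htO_P)
open Pool.RJ28 (dgj dgj_lt dgj_st dgj_le)

variable {m : ℕ} {S : PCl m} {C₀ : ℝ} {c : ℕ → Fin m} {r : ℕ} {sn : ℕ → ℝ → ℝ} {G : Set ℝ}

theorem Qt_ext {U : Type} {Q Q' : Qt m U}
    (h : ∀ (K : ℕ) (e : ℝ) (J : ℕ) (F : Fam m J) (A : F.Ω → Prop) (u : F.Ω → U),
      Q.P K e J F A u ↔ Q'.P K e J F A u) : Q = Q' := by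
  cases Q with
  | mk P h1 h2 =>
    cases Q' with
    | mk P' h3 h4 =>
      have e1 : P = P' := by
        funext K e J F A u
        exact propext (h K e J F A u)
      subst e1
      rfl

/-- The heights depend on the levels of the chain only. -/
theorem htQ_eq {b : ℝ} {p p' n n' : ℕ → ℝ} (hp : ∀ l < r, p l = p' l) (hn : ∀ l < r, n l = n' l) :
    htQ m c r b p n = htQ m c r b p' n' := by
  refine Qt_ext fun K e J F A u => ⟨fun h => ⟨fun l l0 hl j hj => ?_, h.2⟩,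
    fun h => ⟨fun l l0 hl j hj => ?_, h.2⟩⟩
  · have h1 := h.1 l l0 hl j hj
    dsimp only at h1 ⊢
    rw [← hp l hl, ← hn l hl]
    exact h1
  · have h1 := h.1 l l0 hl j hj
    dsimp only at h1 ⊢
    rw [hp l hl, hn l hl]
    exact h1

theorem few0_up {U : Type} {Q : Qt m U} {α β γ α' β' γ' : ∀ J : ℕ, Fam m J → Type}
    {f : ∀ (J : ℕ) (F : Fam m J), F.Ω → α J F} {g : ∀ (J : ℕ) (F : Fam m J), F.Ω → β J F}
    {y : ∀ (J : ℕ) (F : Fam m J), F.Ω → γ J F} {f' : ∀ (J : ℕ) (F : Fam m J), F.Ω → α' J F}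
    {g' : ∀ (J : ℕ) (F : Fam m J), F.Ω → β' J F} {y' : ∀ (J : ℕ) (F : Fam m J), F.Ω → γ' J F}
    (hpos : ∀ (τ : ℝ) (J : ℕ) (F : Fam m J) (A : F.Ω → Prop), S.St τ J F A → 0 < Pe F.p A)
    (hf : ∀ (J : ℕ) (F : Fam m J), ∃ φ : α' J F → α J F, ∀ ω, f J F ω = φ (f' J F ω))
    (hg : ∀ (J : ℕ) (F : Fam m J), ∃ φ : β' J F → β J F, ∀ ω, g J F ω = φ (g' J F ω))
    (hy : ∀ (J : ℕ) (F : Fam m J), ∃ φ : γ' J F → γ J F, ∀ ω, y J F ω = φ (y' J F ω))
    (h : Few0 S f g y Q) : Few0 S f' g' y' Q :=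
  few_tQt hpos (Few.up hpos hf hg hy (Few0.few hpos h))

theorem HMs.mono {d d' : ℕ} (hd : d' ≤ d) {h φ : ℝ} {n : ℕ} {v : ℕ → ℝ} (H : HMs d sn G h φ n v) :
    HMs d' sn G h φ n v := ⟨H.mem, H.st, fun l hl => H.sl l (by omega)⟩

theorem chg_take {d d' : ℕ} (hd : d' ≤ d) (hW : ChG S c d sn G) : ChG S c d' sn G := by
  refine ⟨fun w hw => ?_⟩
  obtain ⟨u₁, rd, hrd, hch⟩ := hW.ch w hw
  exact ⟨u₁, rd, fun i hi => hrd i (by omega), hch.take (Nat.zero_le _) hd⟩

/-- The context is few bits at the window of the family. -/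
theorem np_ctx (htm : TmC S C₀) (hW : ChG S c r sn G) {b w A D φ : ℝ} {v₀ : ℕ → ℝ}
    (H : NpW S c r sn G b w A D φ v₀) (hw1 : w ≤ 1) {γ : ℝ} {Ψ₀ : Fm2 m} {K : ℕ} {e : ℝ}
    (he : e ≤ D / 16) {E rd : ℕ → ℝ} {δ : ℝ} (hδ : 0 < δ) :
    NpF S (FmB Ψ₀ c r K e E b w rd (fun i => if i = r + 1 then sn (r + 1) b - γ else sn i b)
      (fun l j => sn l b + dgj A D r l + 2 * D + j * (w - b))) w (npQ m c r sn b A D) e δ ∧
    Fw2 S (fun J F => ptr F J) w (fun _ F => F.T) (npQ m c r sn b A D)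
      (FmB Ψ₀ c r K e E b w rd (fun i => if i = r + 1 then sn (r + 1) b - γ else sn i b)
        (fun l j => sn l b + dgj A D r l + 2 * D + j * (w - b)))
      (τ := fun _ _ _ C => C) (fun J F _ _ _ _ _ cc ω => cc (vg w J F ω)) e δ := by
  obtain ⟨u₁, rd₁, hrd, hcb⟩ := hW.ch b H.bG
  have hb0 : 0 ≤ b := hcb.w0
  have hbw := H.bw
  have hA1 := (paA htm hW H.bG hbw hw1 H.A0 H.D0 H.φD H.v H.b1).mono he
  have hX : ∀ l < r, ∀ i j : ℕ, i ≤ j → sn l b + dgj A D r l + 2 * D + i * (w - b) ≤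
      sn l b + dgj A D r l + 2 * D + j * (w - b) := by
    intro l _ i j hij
    have h1 : (i : ℝ) ≤ j := by exact_mod_cast hij
    have h2 := mul_le_mul_of_nonneg_right h1 (sub_nonneg.2 hbw)
    linarith only [h2]
  have hp : ∀ l < r, (fun i => if i = r + 1 then sn (r + 1) b - γ else sn i b) l = sn l b := by
    intro l hl
    exact if_neg (by omega)
  have eQ : (paQ m c r b (fun i => if i = r + 1 then sn (r + 1) b - γ else sn i b)
      (fun l => sn l b + dgj A D r l + 2 * D) (fun l => sn l b + dgj A D r l + 2 * D - b)) =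
      (paQ m c r b (fun l => sn l b) (fun l => sn l b + dgj A D r l + 2 * D)
        (fun l => sn l b + dgj A D r l + 2 * D - b)) := by
    refine Qt_ext fun K e J F A u => ⟨fun h => ⟨fun i h0 hi j hj => ?_, h.2⟩,
      fun h => ⟨fun i h0 hi j hj => ?_, h.2⟩⟩
    · have h1 := h.1 i h0 hi j hj
      have h2 := hp i hi
      dsimp only at h1 h2 ⊢
      rw [h2] at h1
      exact h1
    · have h1 := h.1 i h0 hi j hj
      have h2 := hp i hi
      dsimp only at h1 h2 ⊢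
      rw [h2]
      exact h1
  constructor
  · have h1 := FmB.np (Ψ₀ := Ψ₀) (c := c) (r := r) (K := K) (e := e) (E := E) (b := b) (w := w)
      (rd := rd) (p := fun i => if i = r + 1 then sn (r + 1) b - γ else sn i b)
      (X := fun l (j : ℕ) => sn l b + dgj A D r l + 2 * D + j * (w - b))
      htm (hb0.trans hbw) hw1 (γ := 0) (e₁ := e) (δ₁ := δ)
      (nH := fun l => sn l b + dgj A D r l + 2 * D)
      (nV := fun l => sn l b + dgj A D r l + 2 * D - b) le_rfl hX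
      (fun l _ => by simp) (fun l _ => by
        push_cast
        linarith only []) le_rfl (by simpa using hδ)
    rw [eQ] at h1
    exact h1
  · refine FmB.ctx htm (hb0.trans hbw) le_rfl hw1 ptr_id (fun J F => ⟨id, fun _ => rfl⟩) hX
      (fun η' hη' l hl j _ => ?_) hδ
    have h1 := hA1 (η' / 2) (half_pos hη') l (Nat.zero_le l) hl j
    rw [show (if l = r + 1 then sn (r + 1) b - γ else sn l b) = sn l b from hp l hl]
    refine (f1_low htm ?_ (half_pos hη') h1).mono le_rfl (by linarith only [hη'])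
    exact le_of_eq (by ring)

/-- **The direction of the near path is free of the heights**, from `FreeAt`. The windows `v` of the
velocities lead from `b` to the early window `v n`; the windows `v'` of the heights lead from the late
window `v' 0` to `b`. -/
theorem fr2_cl (htm : TmC S C₀)
    (hpos : ∀ (τ : ℝ) (J : ℕ) (F : Fam m J) (A : F.Ω → Prop), S.St τ J F A → 0 < Pe F.p A)
    (hW : ChG S c (r + 1) sn G) {b w w₁ bb x₀ A D φn φ γ : ℝ}
    {v₀ : ℕ → ℝ} (NP : NpW S c r sn G b w A D φn v₀) (hφ0 : 0 ≤ φ) (hφ : φ ≤ D / 2)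
    {n n' : ℕ} {v v' : ℕ → ℝ} (V : VMs r sn G b D φ n v) (hbb : v n = bb)
    (Hm : HMs (r + 2) sn G D φ n' v') (h0 : v' 0 = w₁) (hn : v' n' = b)
    (sx : ∀ l < r, |sn l x₀ - sn l b - (x₀ - b)| ≤ φ)
    (hx : ∀ t ≤ n', ∀ N : ℝ, Exs S (qJet m ((range (r + 1)).image c) (c (r + 1)) 0 (v' t)
      (sn (r + 1) (v' t) - γ) N)) {CF k : ℕ} {κF : ℝ}
    (hF : FreeAt S (fun J F => ptr F J) (fun _ F => F.W) c r sn G x₀ CF 1 κF k)
    (hk1 : D / 4 ≤ (1 / 2) ^ k) (hk2 : (1 / 2) ^ k ≤ D / 2)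
    (hw₁ : dgj A D r 0 + (2 * r + 6) * D ≤ w₁ - b) (hCF : 4 * (dgj A D r 0 + 3 * D) ≤ CF * D)
    (f1 : x₀ - CF * (D / 4) ≤ bb) (f2 : bb + (CF + 7 * r + 13) * (D / 2) ≤ w)
    (f3 : w₁ ≤ x₀ + (2 * CF + 7 * r + 12) * (D / 4)) {P₁ P₂ : ℝ} (hP₁ : P₁ ≤ sn r b + A)
    (hP₂ : P₂ + γ ≤ sn (r + 1) b + A) {δ : ℝ} (hδ0 : 0 < δ) (hδ : κF * (1 / 2) ^ k < δ)
    {E rd : ℕ → ℝ} {μ : ℝ} (hμ : 0 < μ) (hE : ∀ l < r + 2, 0 ≤ E l)
    (hrd : ∀ l < r + 2, rd l + μ ≤ 1)
    (hX : ∀ l < r, sn l b + dgj A D r l + 2 * D + E l + 2 * μ ≤ 1) (hE1 : P₁ + E r + 2 * μ ≤ 1)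
    (hE2 : P₂ + E (r + 1) + 2 * μ ≤ 1) :
    ∃ e₀ : ℝ, 0 < e₀ ∧ ∃ k₀ : ℝ, 0 < k₀ ∧ ∀ (e k' : ℝ), 0 < e → e ≤ e₀ → 0 ≤ k' → k' ≤ k₀ →
      ∀ (Ψ₀ : Fm2 m) (K : ℕ) (I₀ : Finset (Fin m)), (∀ l < r, c l ∈ I₀) →
      Fr2 S (FmM (FmB Ψ₀ c r K e E b w rd
        (fun i => if i = r + 1 then sn (r + 1) b - γ else sn i b)
        (fun l j => sn l b + dgj A D r l + 2 * D + j * (w - b))) w k') I₀ (c r) (c (r + 1)) w
        P₁ P₂ ((4 * K + 23) ^ (r + 2)) δ := by
  have hA := NP.A0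
  have hD := NP.D0
  have hb1 := NP.b1
  have hbw := NP.bw
  have hwD := NP.wD
  have hWr := chg_take (Nat.le_succ r) hW
  have hbG := NP.bG
  obtain ⟨u₁, rdb, hrdb, hcb⟩ := hW.ch b hbG
  have hb0 : 0 ≤ b := hcb.w0
  have hw₁G : w₁ ∈ G := by
    rw [← h0]
    exact Hm.mem 0 (Nat.zero_le _)
  obtain ⟨u₂, rdw, hrdw, hcw⟩ := hW.ch w₁ hw₁G
  have hw₁1 : w₁ ≤ 1 := hcw.u0.le
  have hr0 : (0 : ℝ) ≤ r := Nat.cast_nonneg r
  have hrD : 0 ≤ r * D := mul_nonneg hr0 hD.le
  have hd00 : 4 * (A + 4 * D) ≤ dgj A D r 0 ∨ r = 0 := by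
    rcases Nat.eq_zero_or_pos r with h | h
    · exact Or.inr h
    · exact Or.inl (dgj_lt hA hD h)
  have hdA : A + 4 * D ≤ dgj A D r 0 := by
    rcases hd00 with h | h
    · linarith only [h, hA, hD]
    · subst h
      unfold dgj
      simp
  have hd0 : ∀ l, l < r → dgj A D r l ≤ dgj A D r 0 := fun l hl => by
    rcases Nat.eq_zero_or_pos l with rfl | h1
    · exact le_rfl
    · have h2 := dgj_st hA hD h1 hl
      have h3 := dgj_lt hA hD hl
      linarith only [h2, h3, hA, hD]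
  have hlt : ∀ l, l < r → 16 * D ≤ dgj A D r l := fun l hl => by
    have := dgj_lt hA hD hl
    linarith only [this, hA, hD]
  have hww : w ≤ w₁ := by
    linarith only [hw₁, hwD, hdA, hA, hD, hrD]
  have hw1 : w ≤ 1 := hww.trans hw₁1
  have hw0 : 0 ≤ w := hb0.trans hbw
  obtain ⟨H, hH⟩ : ∃ H : ℝ, H = (1 / 2) ^ k := ⟨_, rfl⟩
  rw [← hH] at hk1 hk2 hδ
  -- the digits of the velocities
  obtain ⟨η, hη⟩ : ∃ η : ℝ, η = min (D / 16) ((δ - κF * H) / (8 * (r + 1))) := ⟨_, rfl⟩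
  have hη0 : 0 < η := by
    rw [hη]
    refine lt_min (by linarith only [hD]) (div_pos (by linarith only [hδ]) (by positivity))
  have hη1 : η ≤ D / 16 := by
    rw [hη]
    exact min_le_left _ _
  have hη2 : η * (r + 1) ≤ (δ - κF * H) / 8 := by
    have h1 : η ≤ (δ - κF * H) / (8 * (r + 1)) := by
      rw [hη]
      exact min_le_right _ _
    rw [le_div_iff₀ (by positivity)] at h1
    linarith only [h1]
  have hPex : ∀ l : ℕ, ∃ P : ℚ, sn l b + dgj A D r l + 2 * D - b - η < P ∧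
      (P : ℝ) < sn l b + dgj A D r l + 2 * D - b := fun l =>
    exists_rat_btwn (by linarith only [hη0])
  choose P hPl hPu using hPex
  obtain ⟨N, hN⟩ : ∃ N : ℕ → ℝ, N = fun l => (P l : ℝ) := ⟨_, rfl⟩
  have hN1 : ∀ l < r, sn l b + dgj A D r l + 2 * D - b - D / 16 ≤ N l := fun l _ => by
    rw [hN]
    have := hPl l
    linarith only [this, hη1]
  have hN3 : ∀ l < r, N l ≤ sn l b + dgj A D r l + 2 * D - b := fun l _ => by
    rw [hN]
    exact (hPu l).le
  obtain ⟨s, hs⟩ : ∃ s : ℕ → ℝ → ℝ, s = fun i x => sn i x - ((1 : ℚ) : ℝ) / 20 * H := ⟨_, rfl⟩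
  have hH0 : 0 < H := by linarith only [hk1, hD]
  have hs1 : ∀ l < r, ∀ x, sn l x - D ≤ s l x := fun l _ x => by
    rw [hs]
    push_cast
    linarith only [hk2, hD]
  have hs2 : ∀ l < r, ∀ x, s l x ≤ sn l x := fun l _ x => by
    rw [hs]
    push_cast
    linarith only [hH0]
  have hupb : ∀ (J : ℕ) (F : Fam m J), ∃ φ : LnT F → LnT F, ∀ ω,
      vg b J F ω = φ (vg w J F ω) := fun J F => vg_mono hbw hw1 J F
  have hWT : ∀ (J : ℕ) (F : Fam m J), ∃ φ : ℕ × F.ζ → ℕ, ∀ ω, F.T ω = φ (F.W ω) :=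
    fun J F => ⟨fun x => x.1, fun ω => rfl⟩
  have hV := FewC.up (f' := fun (J : ℕ) (F : Fam m J) => ptr F J) (g' := vg w)
    (y' := fun (_ : ℕ) (F : Fam m _) => F.W) hpos ptr_id hupb hWT
    (vms_V htm hpos hWr hA hD hφ hb1 V hs1 hs2 hN1 hN3).fewC
  have hP := FewC.up (f' := fun (J : ℕ) (F : Fam m J) => ptr F J) (g' := vg w)
    (y' := fun (_ : ℕ) (F : Fam m _) => F.W) hpos ptr_id hupb hWT
    (vms_P htm hpos hWr hA hD hφ hb1 V hs1 hs2 hN1 hN3)
  rw [hbb] at hV hP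
  -- the heights at the late window
  have hupw : ∀ (J : ℕ) (F : Fam m J), ∃ φ : LnT F → LnT F, ∀ ω,
      vg w₁ J F ω = φ (vg w₁ J F ω) := fun J F => ⟨fun x => x, fun _ => rfl⟩
  have hHm := Hm.mono (d' := r + 1) (by omega)
  have hts : ∀ l < r + 1, ∀ N : ℝ, N + (2 * r + 3) * D ≤ sn l b + (w₁ - b) →
      Few0 S (fun J F => ptr F J) (vg w₁) (fun _ F => F.T)
        (qJet m ((range l).image c) (c l) 0 b (sn l b) N) := by
    intro l hl N hN'
    have h1 := hts_any htm hpos hW (h := D) (φ := φ) (σ₀ := D / 4) (ow := w₁) hD.le hφ0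
      (by linarith only [hD]) hHm h0.le hw₁1 l hl n' le_rfl N (by
        intro t' ht'
        have h2 := Hm.sl l (by omega) t' n' ht' le_rfl
        rw [hn] at h2
        rw [h0]
        have h3 : ((l : ℝ) + 1) * (D + φ + 2 * (D / 4)) ≤ (r + 1) * (2 * D) := by
          have h4 : (l : ℝ) + 1 ≤ r + 1 := by exact_mod_cast Nat.succ_le_succ (by omega : l ≤ r)
          exact mul_le_mul h4 (by linarith only [hφ, hD]) (by linarith only [hφ0, hD])
            (by linarith only [hr0])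
        linarith only [h2, h3, hN', hφ, hD])
    rw [hn] at h1
    exact h1
  have hT2 : Few0 S (fun J F => ptr F J) (vg w₁) (fun _ F => F.T)
      (qJet m ((range (r + 1)).image c) (c (r + 1)) 0 b (sn (r + 1) b - γ) P₂) := by
    have h1 := hts_one htm hpos hW (h := D) (φ := φ) (σ₀ := D / 4) (ow := w₁) hD.le hφ0
      (by linarith only [hD]) hHm h0.le hw₁1 (i := r + 1) le_rfl (k := c (r + 1))
      (sk := fun x => sn (r + 1) x - γ)
      (fun l hl => hts_any htm hpos hW hD.le hφ0 (by linarith only [hD]) hHm h0.le hw₁1 l hl)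
      hx n' le_rfl P₂ (by
        intro t' ht'
        have h2 := Hm.sl (r + 1) (by omega) t' n' ht' le_rfl
        rw [hn] at h2
        rw [h0]
        push_cast
        have h3 : ((r : ℝ) + 1 + 1) * (D + φ + 2 * (D / 4)) ≤ (r + 1 + 1) * (2 * D) :=
          mul_le_mul_of_nonneg_left (by linarith only [hφ, hD]) (by linarith only [hr0])
        linarith only [h2, h3, hP₂, hφ, hD, hw₁, hdA])
    rw [hn] at h1
    exact h1
  have hp1 : ∀ l < r + 1, (fun i => if i = r + 1 then sn (r + 1) b - γ else sn i b) l = sn l b :=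
    fun l hl => if_neg (by omega)
  have eH : htQ m c r b (fun i => if i = r + 1 then sn (r + 1) b - γ else sn i b)
      (fun l => (fun l (j : ℕ) => sn l b + dgj A D r l + 2 * D + j * (w - b)) l 0) =
      htQ m c r b (fun l => sn l b) (fun l => sn l b + dgj A D r l + 2 * D) :=
    htQ_eq (fun l hl => hp1 l (by omega)) (fun l _ => by
      push_cast
      ring)
  obtain ⟨P', hP'⟩ : ∃ P' : Fin r → ℚ, P' = fun i : Fin r => P i := ⟨_, rfl⟩
  have eN : (fun i : Fin r => N i) = fun i : Fin r => (P' i : ℝ) := by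
    rw [hN, hP']
  have hStG : StG r sn x₀ CF 1 k P' := by
    refine ⟨fun i => ?_, fun i => ?_, fun l i hli => ?_⟩
    · have e1 := (abs_le.1 (sx i i.2)).2
      have e2 := hPl i
      have e3 := hlt i i.2
      rw [hP']
      linarith only [e1, e2, e3, hη1, hφ, hD]
    · have e1 := (abs_le.1 (sx i i.2)).1
      have e2 := hPu i
      have e3 := hd0 i i.2
      have e4 : (CF : ℝ) * (D / 4) ≤ CF * H := mul_le_mul_of_nonneg_left hk1 (Nat.cast_nonneg _)
      rw [hP', ← hH]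
      linarith only [e1, e2, e3, e4, hCF, hφ, hD]
    · have e1 := (abs_le.1 (sx i i.2)).1
      have e2 := hPu i
      have e3 := (abs_le.1 (sx l l.2)).2
      have e4 := hPl l
      have e5 := dgj_st hA hD (r := r) (l := i) (l' := l) hli i.2
      have e6 := hlt i i.2
      rw [hP', ← hH]
      push_cast
      linarith only [e1, e2, e3, e4, e5, e6, hη1, hφ, hD, hk2]
  have hCF0 : (0 : ℝ) ≤ CF := Nat.cast_nonneg _
  have hfr := hF P' bb w w₁ hStG (by
      rw [← hbb]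
      exact V.mem n le_rfl) (by
      have e4 : (CF : ℝ) * (D / 4) ≤ CF * H := mul_le_mul_of_nonneg_left hk1 hCF0
      rw [← hH]
      linarith only [e4, f1]) (by
      unfold lagG
      have e4 : ((CF : ℝ) + 7 * r + 13) * H ≤ (CF + 7 * r + 13) * (D / 2) :=
        mul_le_mul_of_nonneg_left hk2 (by linarith only [hCF0, hr0])
      rw [← hH]
      linarith only [e4, f2]) hww (by
      unfold lstG
      have e4 : (2 * (CF : ℝ) + 7 * r + 12) * (D / 4) ≤ (2 * CF + 7 * r + 12) * H :=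
        mul_le_mul_of_nonneg_left hk1 (by linarith only [hCF0, hr0])
      rw [← hH]
      linarith only [e4, f3])
  rw [← hH, ← hs, ← eN] at hfr
  have key := fr2_ex (S := S) (c := c) (r := r) (b := b) (w := w) (w₁ := w₁)
    (p := fun i => if i = r + 1 then sn (r + 1) b - γ else sn i b)
    (X := fun l (j : ℕ) => sn l b + dgj A D r l + 2 * D + j * (w - b))
    (Qp := npQ m c r sn b A D) (QV := qG m c r s bb (fun i : Fin r => N i)) (P₁ := P₁) (P₂ := P₂)
    (κ := κF * H) (c₁ := 0)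
    (c₂ := ∑ i : Fin r, Real.log 2 * (sn i b + dgj A D r i + 2 * D - b - N i))
    (h := (δ - κF * H) / 8) htm hw0 hww hw₁1
    (fun l _ j _ => by
      have h1 : 0 ≤ (j : ℝ) * (w - b) := mul_nonneg (Nat.cast_nonneg j) (sub_nonneg.2 hbw)
      push_cast
      linarith only [h1]) hfr
    (exs_qG hWr (by
      rw [← hbb]
      exact V.mem n le_rfl) (fun l hl => hs2 l hl bb) _) hV
    (by
      rw [eH]
      exact hP)
    (by
      rw [eH]
      refine few0_up hpos ptr_id hupw hWT (few_tQt hpos (few_qjets hpos fun l _ hl j hj => ?_))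
      obtain rfl : j = 0 := by omega
      refine Few0.few hpos (hts l (by omega) _ ?_)
      have e1 := hd0 l hl
      linarith only [e1, hw₁, hD])
    (by
      rw [if_neg (by omega : ¬ r = r + 1)]
      refine few0_up hpos ptr_id hupw hWT (hts r (by omega) _ ?_)
      linarith only [hP₁, hw₁, hdA, hD])
    (by
      rw [if_pos rfl]
      exact few0_up hpos ptr_id hupw hWT hT2) (by linarith only [hδ])
  obtain ⟨e₀, he₀, k₀, hk₀, key⟩ := key
  refine ⟨min e₀ (min (D / 16) μ), lt_min he₀ (lt_min (by linarith only [hD]) hμ), k₀, hk₀,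
    fun e k' he hee hk hkk Ψ₀ K I₀ hI => ?_⟩
  have e1 : e ≤ e₀ := hee.trans (min_le_left _ _)
  have e2 : e ≤ D / 16 := hee.trans ((min_le_right _ _).trans (min_le_left _ _))
  have e3 : e ≤ μ := hee.trans ((min_le_right _ _).trans (min_le_right _ _))
  obtain ⟨q1, q2⟩ := np_ctx htm hWr NP hw1 (γ := γ) (Ψ₀ := Ψ₀) (K := K) e2 (E := E) (rd := rd)
    (δ := (δ - κF * H) / 8) (by linarith only [hδ])
  refine key e k' he e1 hk hkk Ψ₀ K E rd I₀ μ ((δ - κF * H) / 8) ((δ - κF * H) / 8) δ hμ hI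
    (fun l hl => by
      have := hE l hl
      linarith only [this, he]) (fun l hl => by
      have := hrd l hl
      linarith only [this, e3]) (fun l hl => by
      have := hX l hl
      push_cast
      linarith only [this, e3]) (by linarith only [hE1, e3]) (by linarith only [hE2, e3]) q1
    (fw2_W hpos q2) hδ0 ?_
  have e5 : ∑ i : Fin r, Real.log 2 * (sn i b + dgj A D r i + 2 * D - b - N i) ≤
      ∑ _i : Fin r, η := by
    refine Finset.sum_le_sum fun i _ => ?_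
    have h1 := hPl i
    have h2 := hPu i
    have h3 := Real.log_two_lt_d9
    have h4 := Real.log_two_gt_d9
    have h5 : 0 ≤ sn i b + dgj A D r i + 2 * D - b - N i := by
      rw [hN]
      linarith only [h2]
    have h6 : sn i b + dgj A D r i + 2 * D - b - N i ≤ η := by
      rw [hN]
      linarith only [h1]
    nlinarith only [h3, h4, h5, h6]
  rw [Finset.sum_const, Finset.card_univ, Fintype.card_fin, nsmul_eq_mul] at e5
  linarith only [e5, hη2, hη0, hδ]

end Pool.TE46
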