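import Pool.Agent.H46.TE.Frr
import Pool.Agent.H18.AB.Mvh

/-!
# The free labels of a pair at another centre and another scale

`frH_mv`: `FrH` at the centre `t + x q`, the unit `lam q`, from the windows and the numbers `FaW` at the
record.
-/

set_option autoImplicit false

namespace Pool.TE46

open Finset Real MvPolynomial
open Pool.Agent.H49.Ent Pool.Agent.H32.Dense Pool.STK Pool.KA Pool.KSAT Pool.K2S Pool.PB Pool.GEN
open Pool.S6C Pool.RCD Pool.LA91 Pool.OWN68 Pool.AJW Pool.AJX Pool.CHT Pool.PKG Pool.PN18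
open Pool.AB63 Pool.LPK12 Pool.ALT Pool.RWB12 Pool.AB18
open Pool.RJ28 (dgj dgj_lt dgj_st dgj_le)

variable {r D K kt : ℕ} {a h K₀ τM dM fM XG φ X kf ℓ Tn A₁ D₁ Xf K₁ Kc K' : ℝ}
  {fm Rm gm δm dm lm : ℝ} {L₀ n₀ : ℕ} {η ev γ₀ s₀ μ₀ e' ms el dl ε f τ R δ d x lam : ℝ}
  {S S₁ : PCl (r + 2)} {al : ℝ} {g₀ : ℝ → ℝ}
    {P : List (Fin (r + 2)) × Fin (r + 2) → ℝ → ℝ → ℝ} {θ : ℝ}
    {P₂ : ℕ → List (Fin (r + 2)) × Fin (r + 2) → ℝ → ℝ → ℝ} {θ₂ Eb e₂ : ℕ → ℝ}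
    {c : ℕ → Fin (r + 2)} {Pt : ℝ → ℝ → ℝ} {rt : ℝ → ℝ} {g : ℝ} {L T : ℕ → ℝ → ℝ → ℝ}
    {Sl : ℕ → ℝ} {κ : ℕ → Kg} {G : Set ℝ} {S₀ N : ℕ} {A V : ℕ → ℝ} {S₂ N' : ℕ} {V' : ℕ → ℝ}
    {q t e₀ ρ₀ π₀ μ : ℝ} {k₀ : ℕ}

/-- **The free labels of a pair** at the centre `t + x q`, the unit `lam q`. -/
theorem frH_mv (H : GrA r D S S₁ al g₀ P θ P₂ θ₂ Eb e₂ c Pt rt h K₀ g L T Sl κ G S₀ N A V S₂ N' V'
      K' ε q t a e₀ ρ₀ π₀ μ el dl k₀)
    (B : BigN r K a K₀ τM dM fM XG φ X kf ℓ Tn A₁ D₁ Xf K₁ Kc K')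
    (s : SmN r kt a h K₀ τM dM fM fm Rm gm δm dm φ lm L₀ n₀ η ev γ₀ s₀ μ₀ e' ms el dl ε)
    (Tk : TkB τM dM fM fm Rm gm δm dm f τ R δ d) (hx0 : 0 ≤ x) (hx1 : x ≤ 1)
    (hlm : lm ≤ lam) (hlf : lam ≤ f) {M : ℕ} {W : ℕ → ℝ}
    (w : WinT r N' V' K₀ τ Tn X ms x lam M W) (hb : ∃ j < N', V' j = -Tn)
    (hv : ∀ i < r, ∃ j < N', V' j = -(Tn + (A₁ + 4 * D₁) * 4 ^ (r - i) + 3 * D₁))
    {nF kF : ℕ} {κF x₀ : ℝ} (Fw : FaW r S₁ c L G N' V' K' q t Tn A₁ D₁ nF kF κF x₀) {i : ℕ}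
    (haR : a * R = (a - i) * τ + d) {δ₁ : ℝ} (hδ₁ : 0 < δ₁) (hκ0 : 0 < κF)
    (hκ : κF * D₁ ≤ δ₁ * (dm / a * lm)) :
    FrH K S₁ c L a e₀ ρ₀ μ (γ₀ * q) (s₀ * q) (A₁ * q) (D₁ * q) (t + -Tn * q)
      (t + (x - τ * lam) * q) (t + x * q) i d (lam * q) δ₁ := by
  have hq := H.rc.q0
  have hlam : 0 < lam := s.lm0.trans_le hlm
  have hlM : lam ≤ fM := hlf.trans Tk.f2
  have ha := B.ha
  have ha0 : 0 < a := by linarith only [ha]
  have n := prn_mv B s Tk hx0 hx1 hlm hlf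
  have hR := n.hR
  have hτ := n.hτ
  have hTn1 := n.hTn
  rw [le_div_iff₀ hlam] at hTn1
  have hτl : 0 < τ * lam := mul_pos (hR.trans hτ) hlam
  have hwG : t + (x - τ * lam) * q ∈ G := by
    obtain ⟨j, hj, h1⟩ := w.hWin (M + 1) (by omega)
    have h2 := H.rc.memG.2 j hj
    rw [h1, w.hW1] at h2
    have e1 : t + (x - τ * lam) * q = t + (x + lam * -τ) * q := by ring
    rw [e1]
    exact h2
  have hbw : t + -Tn * q ≤ t + (x - τ * lam) * q := by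
    have := mul_le_mul_of_nonneg_right (show -Tn ≤ x - τ * lam by linarith only [hTn1]) hq.le
    linarith only [this]
  have hw1 : t + (x - τ * lam) * q ≤ t + 1 * q := by
    have := mul_le_mul_of_nonneg_right (show x - τ * lam ≤ 1 by linarith only [hx1, hτl]) hq.le
    linarith only [this]
  have NP := npW_rec H B s hb hv rfl hwG hbw hw1
  have hTn0 : 0 < Tn := by
    have h1 := B.Tn2
    have h2 := B.XG0
    linarith only [h1, h2, ha]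
  have hD1 := B.D1
  have hA1 := B.A1
  have hXG := B.XG0
  have haT : 0 < a * (Tn + 1) := mul_pos ha0 (by linarith only [hTn0])
  have hA0 : 0 < A₁ := by linarith only [hA1, haT, hXG]
  have hs2 := s.s2
  have hγs := s.γs
  have hγ0 := s.γ0
  have haTx : a * (Tn + x) ≤ a * (Tn + 1) :=
    mul_le_mul_of_nonneg_left (by linarith only [hx1]) ha0.le
  have hτR : 0 ≤ a * ((τ - R) * lam) :=
    mul_nonneg ha0.le (mul_nonneg (by linarith only [hτ]) hlam.le)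
  have e1 : a * (d / a * (lam * q)) = d * lam * q := by
    field_simp
  have e2 : a * (t + (x - τ * lam) * q - (t + -Tn * q)) +
      (a - i) * (t + x * q - (t + (x - τ * lam) * q)) + d * lam * q =
      (a * (Tn + x) - a * ((τ - R) * lam)) * q := by
    have e3 : d = a * R - (a - i) * τ := by linarith only [haR]
    rw [e3]
    ring
  have hbig : (a * (Tn + x) - a * ((τ - R) * lam)) * q + s₀ * q + γ₀ * q ≤ A₁ * q := by
    have h1 : a * (Tn + x) - a * ((τ - R) * lam) + s₀ + γ₀ ≤ A₁ := by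
      linarith only [haTx, hτR, hA1, hXG, hs2, hγs]
    have h2 := mul_le_mul_of_nonneg_right h1 hq.le
    linarith only [h2]
  have hs0q : 0 < s₀ * q := mul_pos (hγ0.trans hγs) hq
  have hγ0q : 0 < γ₀ * q := mul_pos hγ0 hq
  have hD0 : 0 < D₁ := by linarith only [hD1, hTn0]
  have hdm := s.dm0
  have hlm0 := s.lm0
  have hdl : dm / a * lm ≤ d / a * lam :=
    mul_le_mul (div_le_div_of_nonneg_right Tk.d1 ha0.le) hlm hlm0.le
      (div_nonneg (hdm.le.trans Tk.d1) ha0.le)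
  have hd1 : dm / a * lm * δ₁ * q ≤ d / a * lam * δ₁ * q :=
    mul_le_mul_of_nonneg_right (mul_le_mul_of_nonneg_right hdl hδ₁.le) hq.le
  have hκq := mul_le_mul_of_nonneg_right hκ hq.le
  have hκD : 0 < κF * D₁ * q := mul_pos (mul_pos hκ0 hD0) hq
  intro S' Ψ₀ _ hs'
  obtain ⟨e₁, he₁, k₁, hk₁, key⟩ := fr2_rec H hTn0 hA0 hD1 (by
    have h1 := s.ε3
    have h2 := s.μ0
    linarith only [h1, h2, H.hε]) B.K'3 Fw rfl NP (γ := γ₀ * q) hγ0q.le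
    (Q₁ := L r (t + -Tn * q) (t + -Tn * q) + s₀ * q + a * (t + (x - τ * lam) * q - (t + -Tn * q)) +
      (a - i) * (t + x * q - (t + (x - τ * lam) * q)) + a * (d / a * (lam * q)))
    (Q₂ := L (r + 1) (t + -Tn * q) (t + -Tn * q) + a * (t + (x - τ * lam) * q - (t + -Tn * q)) +
      (a - i) * (t + x * q - (t + (x - τ * lam) * q)) + a * (d / a * (lam * q)))
    (δ := δ₁ * (d / a * (lam * q))) (by
      rw [e1]
      linarith only [e2, hbig, hγ0q]) (by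
      rw [e1]
      linarith only [e2, hbig, hs0q]) (by
      have h1 : 0 < d := hdm.trans_le Tk.d1
      positivity) hκ0.le (by linarith only [hκq, hd1, hκD]) hs'
  exact ⟨e₁, he₁, k₁, hk₁, fun e k he hee hk hkk => key e k he hee hk.le hkk Ψ₀ K⟩

end Pool.TE46
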