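import Pool.Agent.H46.TE.Frg
import Pool.Agent.H18.AB.Hor

/-!
# The direction of the near path is free of the heights, at a record

`FaW`: the numbers and the windows. `fr2_rec`: `Fr2` at a record, for the families over the labels of
the early window `t - Tn q`.
-/

set_option autoImplicit false

namespace Pool.TE46

open Finset Real MvPolynomial
open Pool.Agent.H49.Ent Pool.Agent.H32.Dense Pool.STK Pool.KA Pool.KSAT Pool.K2S Pool.PB Pool.GEN
open Pool.S6C Pool.RCD Pool.LA91 Pool.OWN68 Pool.AJW Pool.AJX Pool.CHT Pool.PKG Pool.PN18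
open Pool.AB63 Pool.LPK12 Pool.ALT Pool.RWB12 Pool.AB18
open Pool.LP30 (paQ htQ htO htO_P)
open Pool.RJ28 (dgj dgj_lt dgj_st dgj_le)

/-- A scale near a number. -/
theorem sc_k {q : ℝ} {k₀ : ℕ} (hq : 0 < q) (hq1 : q < (1 / 2) ^ k₀) :
    ∃ k ≥ k₀, q / 2 ≤ (1 / 2 : ℝ) ^ k ∧ (1 / 2 : ℝ) ^ k ≤ q := by
  have h1 : q ≤ 1 := hq1.le.trans (pow_le_one₀ (by norm_num) (by norm_num))
  obtain ⟨n, h2, h3⟩ := exists_nat_pow_near_of_lt_one hq h1 (show (0 : ℝ) < 1 / 2 by norm_num)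
    (by norm_num)
  refine ⟨n + 1, ?_, ?_, h2.le⟩
  · by_contra h
    have h4 : (1 / 2 : ℝ) ^ k₀ ≤ (1 / 2) ^ (n + 1) :=
      pow_le_pow_of_le_one (by norm_num) (by norm_num) (by omega)
    linarith only [h2, h4, hq1]
  · rw [pow_succ]
    linarith only [h3]

/-- **The numbers and the windows** of the free velocities at a record: `nF` steps `D₁ / 2` from the
early window `-Tn` to the late window, `2 nF + 14 r + 31` steps to the window of the velocities; `x₀`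
the point of `FreeAt`, `kF` its first scale. -/
structure FaW (r : ℕ) (S : PCl (r + 2)) (c : ℕ → Fin (r + 2)) (L : ℕ → ℝ → ℝ → ℝ) (G : Set ℝ)
    (N' : ℕ) (V' : ℕ → ℝ) (K' q t Tn A₁ D₁ : ℝ) (nF kF : ℕ) (κF x₀ : ℝ) : Prop where
  n1 : 2 * ((A₁ + 4 * D₁) * 4 ^ r + (2 * r + 6) * D₁) ≤ nF * D₁
  n2 : Tn + (nF + 7 * r + 16) * D₁ ≤ K'
  w1 : ∀ j ≤ 2 * nF + 14 * r + 31, ∃ k < N', V' k = -(Tn + j * (D₁ / 2))
  w2 : ∀ j ≤ nF, ∃ k < N', V' k = -Tn + j * (D₁ / 2)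
  fa : ∀ k ≥ kF, FreeAt S (fun J F => ptr F J) (fun _ F => F.W) c r (fun l w => L l w w) G x₀
    (2 * nF + 7 * r + 18) 1 κF k
  x1 : t + -(Tn + (nF / 2 + (21 * r + 48) / 4) * D₁) * q ≤ x₀
  x2 : x₀ ≤ t + -(Tn + (nF / 2 + (21 * r + 44) / 4) * D₁) * q
  k1 : D₁ * q < (1 / 2) ^ kF

section

variable {r D : ℕ} {S S₁ : PCl (r + 2)} {al : ℝ} {g₀ : ℝ → ℝ}
    {P : List (Fin (r + 2)) × Fin (r + 2) → ℝ → ℝ → ℝ} {θ : ℝ}
    {P₂ : ℕ → List (Fin (r + 2)) × Fin (r + 2) → ℝ → ℝ → ℝ} {θ₂ Eb e₂ : ℕ → ℝ}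
    {c : ℕ → Fin (r + 2)} {Pt : ℝ → ℝ → ℝ} {rt : ℝ → ℝ} {h K₀ g : ℝ} {L T : ℕ → ℝ → ℝ → ℝ}
    {Sl : ℕ → ℝ} {κ : ℕ → Kg} {G : Set ℝ} {S₀ N : ℕ} {A V : ℕ → ℝ} {S₂ N' : ℕ} {V' : ℕ → ℝ}
    {K' ε q t a e₀ ρ₀ π₀ μ el dl : ℝ} {k₀ : ℕ}

/-- **The direction of the near path is free of the heights**, at a record. -/
theorem fr2_rec (H : GrA r D S S₁ al g₀ P θ P₂ θ₂ Eb e₂ c Pt rt h K₀ g L T Sl κ G S₀ N A V S₂ N'
      V' K' ε q t a e₀ ρ₀ π₀ μ el dl k₀) {Tn A₁ D₁ κF x₀ : ℝ} {nF kF : ℕ} (hTn : 0 < Tn)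
    (hA₁ : 0 < A₁) (hD₁ : Tn + 2 ≤ D₁) (hε4 : 4 * ε ≤ 1)
    (hK3 : 3 * ((A₁ + 4 * D₁) * 4 ^ r) + 6 * D₁ + Tn + 2 ≤ K')
    (Fw : FaW r S₁ c L G N' V' K' q t Tn A₁ D₁ nF kF κF x₀) {b w φn γ : ℝ} {v₀ : ℕ → ℝ}
    (hb : b = t + -Tn * q)
    (NP : NpW S₁ c r (fun l x => L l x x) G b w (A₁ * q) (D₁ * q) φn v₀) (hγ : 0 ≤ γ)
    {Q₁ Q₂ δ : ℝ} (hQ₁ : Q₁ ≤ L r b b + A₁ * q) (hQ₂ : Q₂ + γ ≤ L (r + 1) b b + A₁ * q)
    (hδ0 : 0 < δ) (hκF : 0 ≤ κF) (hδ : κF * (D₁ * q / 2) < δ) {S' : PCl (r + 2)}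
    (hs' : ∀ (τ : ℝ) (J : ℕ) (F : Fam (r + 2) J) (A : F.Ω → Prop), S'.St τ J F A →
      S₁.St τ J F A) :
    ∃ e₁ : ℝ, 0 < e₁ ∧ ∃ k₁ : ℝ, 0 < k₁ ∧ ∀ e k : ℝ, 0 < e → e ≤ e₁ → 0 ≤ k → k ≤ k₁ →
      ∀ (Ψ₀ : Fm2 (r + 2)) (K : ℕ), Fr2 S' (FmM (FmB Ψ₀ c r K e
        (fun i => if i = r + 1 then e₀ - μ / 2 else max 0 (L r b b - L i b b)) b w
        (fun i => if i = r + 1 then ρ₀ - μ / 2 else L r b b)
        (fun i => if i = r + 1 then L (r + 1) b b - γ else L i b b)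
        (fun l j => L l b b + dgj (A₁ * q) (D₁ * q) r l + 2 * (D₁ * q) + j * (w - b))) w k)
        ((range r).image c) (c r) (c (r + 1)) w Q₁ Q₂ ((4 * K + 23) ^ (r + 2)) δ := by
  have Rc := H.rc
  have hq := Rc.q0
  have ha := H.ha
  have hε := H.hε
  have hμ := H.hμ
  have hr0 : (0 : ℝ) ≤ r := Nat.cast_nonneg r
  have hD0 : 0 < D₁ := by linarith only [hTn, hD₁]
  have hDq : 0 < D₁ * q := mul_pos hD0 hq
  have hεq : 0 < ε * q := mul_pos hε hq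
  have hεq4 : 4 * ε * q ≤ 1 * q := mul_le_mul_of_nonneg_right hε4 hq.le
  have hDq2 : (Tn + 2) * q ≤ D₁ * q := mul_le_mul_of_nonneg_right hD₁ hq.le
  have hTq0 : 0 < Tn * q := mul_pos hTn hq
  have hAD : 0 < A₁ + 4 * D₁ := by linarith only [hA₁, hD0]
  have hAr1 : 0 < (A₁ + 4 * D₁) * 4 ^ r := by positivity
  have h4r : (1 : ℝ) ≤ 4 ^ r := one_le_pow₀ (by norm_num)
  have hAr2 : A₁ + 4 * D₁ ≤ (A₁ + 4 * D₁) * 4 ^ r := le_mul_of_one_le_right hAD.le h4r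
  have htm : TmC S₁ 6 := Rc.tmc
  have htm' : TmC S' 6 := Pool.AB91.tmc_sub hs' htm
  have hpos' : ∀ (τ : ℝ) (J : ℕ) (F : Fam (r + 2) J) (A : F.Ω → Prop), S'.St τ J F A →
      0 < Pe F.p A := fun τ J F A h => Rc.pos τ J F A (hs' τ J F A h)
  have hW : ChG S' c (r + 1) (fun l x => L l x x) G := ⟨fun w hw => by
    obtain ⟨rd, h1, h2⟩ := H.hcu w hw
    exact ⟨_, rd, h1, (h2.sub H.hs).sub hs'⟩⟩
  -- the windows
  have hnF0 : (0 : ℝ) ≤ nF := Nat.cast_nonneg nF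
  have n1 := Fw.n1
  have n2 := Fw.n2
  have ht0 := Rc.t0
  have ht1 := Rc.t1
  have hin : ∀ z : ℝ, (∃ j < N', V' j = z) → t + z * q ∈ G := by
    rintro z ⟨j, hj, h⟩
    rw [← h]
    exact Rc.memG.2 j hj
  have n2q := mul_le_mul_of_nonneg_right n2 hq.le
  have hrD : 0 ≤ r * (D₁ * q) := mul_nonneg hr0 hDq.le
  have hnD : 0 ≤ nF * (D₁ * q) := mul_nonneg hnF0 hDq.le
  have near : ∀ z : ℝ, -(Tn + (nF + 7 * r + 16) * D₁) ≤ z → z ≤ nF * D₁ →
      |t + z * q - t| ≤ K' * q := by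
    intro z h1 h2
    have h3 := mul_le_mul_of_nonneg_right h1 hq.le
    have h4 := mul_le_mul_of_nonneg_right h2 hq.le
    rw [abs_le]
    exact ⟨by linarith only [h3, n2q], by linarith only [h4, n2q, hTq0, hrD, hDq]⟩
  have slo : ∀ l < r + 2, 1 ≤ Sl l := by
    intro l hl
    rcases Nat.lt_or_ge l r with h | h
    · have h0 := Rc.kd l (by omega)
      rw [H.hκ l h] at h0
      exact le_of_eq (Eq.symm h0)
    · rcases Nat.lt_or_ge l (r + 1) with h' | h'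
      · have : l = r := by omega
        rw [this, H.hSa]
        exact ha.le
      · have : l = r + 1 := by omega
        rw [this, H.hSn]
        exact ha.le
  have lin : ∀ i < r, ∀ x y : ℝ, |x - t| ≤ K' * q → |y - t| ≤ K' * q →
      |L i y y - L i x x - (y - x)| ≤ 2 * (ε * q) := by
    intro i hi x y hx hy
    have h0 := Rc.kd i (by omega)
    rw [H.hκ i hi] at h0
    have h3 : Sl i = 1 := h0
    have h1 := abs_le.1 (Rc.dL i (by omega) x hx)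
    have h2 := abs_le.1 (Rc.dL i (by omega) y hy)
    rw [h3] at h1 h2
    rw [abs_le]
    exact ⟨by linarith only [h1.2, h2.1], by linarith only [h1.1, h2.2]⟩
  have mon : ∀ i < r + 2, ∀ x y : ℝ, |x - t| ≤ K' * q → |y - t| ≤ K' * q → x ≤ y →
      L i x x - x ≤ L i y y - y + 2 * (ε * q) := by
    intro i hi x y hx hy hxy
    have h1 := abs_le.1 (Rc.dL i (by omega) x hx)
    have h2 := abs_le.1 (Rc.dL i (by omega) y hy)
    have h3 : 1 * (y - x) ≤ Sl i * (y - x) :=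
      mul_le_mul_of_nonneg_right (slo i hi) (sub_nonneg.2 hxy)
    linarith only [h1.2, h2.1, h3]
  obtain ⟨v, hv⟩ : ∃ v : ℕ → ℝ, ∀ j, v j = t + -(Tn + j * (D₁ / 2)) * q := ⟨_, fun _ => rfl⟩
  obtain ⟨v', hv'⟩ : ∃ v' : ℕ → ℝ, ∀ j, v' j = t + (-Tn + (nF - j : ℕ) * (D₁ / 2)) * q :=
    ⟨_, fun _ => rfl⟩
  have vnear : ∀ j ≤ 2 * nF + 14 * r + 31, |v j - t| ≤ K' * q := by
    intro j hj
    rw [hv]
    have h1 : (j : ℝ) ≤ 2 * nF + 14 * r + 31 := by exact_mod_cast hj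
    have h2 : (j : ℝ) * D₁ ≤ (2 * nF + 14 * r + 31) * D₁ := mul_le_mul_of_nonneg_right h1 hD0.le
    have h3 : (0 : ℝ) ≤ j * D₁ := by positivity
    have h4 : (0 : ℝ) ≤ nF * D₁ := by positivity
    exact near _ (by linarith only [h2, hD0]) (by linarith only [h3, h4, hTn])
  have vnear' : ∀ j : ℕ, |v' j - t| ≤ K' * q := by
    intro j
    rw [hv']
    have h1 : ((nF - j : ℕ) : ℝ) ≤ nF := by exact_mod_cast Nat.sub_le _ _
    have h2 : ((nF - j : ℕ) : ℝ) * D₁ ≤ nF * D₁ := mul_le_mul_of_nonneg_right h1 hD0.le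
    have h3 : (0 : ℝ) ≤ (nF - j : ℕ) * D₁ := by positivity
    have h4 : (0 : ℝ) ≤ nF * D₁ := by positivity
    have h5 : (0 : ℝ) ≤ r * D₁ := by positivity
    exact near _ (by linarith only [h3, h4, h5, hD0]) (by linarith only [h2, h4, hTn])
  have hbn : |b - t| ≤ K' * q := by
    have h1 := vnear 0 (Nat.zero_le _)
    rw [hv, Nat.cast_zero, zero_mul, add_zero, ← hb] at h1
    exact h1
  have hV : VMs r (fun l x => L l x x) G b (D₁ * q) (2 * (ε * q)) (2 * nF + 14 * r + 31) v := by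
    refine ⟨?_, fun j hj => ?_, fun j hj => ?_, fun l hl j hj => ?_⟩
    · rw [hv, hb, Nat.cast_zero, zero_mul, add_zero]
    · rw [hv]
      exact hin _ (Fw.w1 j hj)
    · rw [hv, hv]
      push_cast
      constructor <;> linarith only [hDq]
    · exact lin l hl b (v j) hbn (vnear j hj)
  have hM : HMs (r + 2) (fun l x => L l x x) G (D₁ * q) (2 * (ε * q)) nF v' := by
    refine ⟨fun j hj => ?_, fun j hj => ?_, fun l hl i j hij hj => ?_⟩
    · rw [hv']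
      exact hin _ (Fw.w2 (nF - j) (Nat.sub_le _ _))
    · rw [hv', hv']
      have h1 : ((nF - j : ℕ) : ℝ) = ((nF - (j + 1) : ℕ) : ℝ) + 1 := by
        rw [← Nat.cast_succ]
        congr 1
        omega
      rw [h1]
      constructor <;> linarith only [hDq]
    · refine mon l hl (v' j) (v' i) (vnear' j) (vnear' i) ?_
      rw [hv', hv']
      have h1 : ((nF - j : ℕ) : ℝ) ≤ (nF - i : ℕ) := by exact_mod_cast Nat.sub_le_sub_left hij nF
      have h2 := mul_le_mul_of_nonneg_right h1 hDq.le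
      linarith only [h2]
  -- the scale
  obtain ⟨k, hk, hk1, hk2⟩ := sc_k (q := D₁ * q / 2) (k₀ := kF) (by linarith only [hDq])
    (by linarith only [Fw.k1, hDq])
  have hfa := (Fw.fa k hk).sub hs'
  obtain ⟨b1, b2⟩ := abs_le.1 hbn
  have hL : ∀ l < r + 2, L l b b + 3 * K' * q < 1 := by
    intro l hl
    have RT := Rc.tg (r + 1) (by omega) (by omega)
    have h1 := RT.room l (by omega) b hbn
    have h2 := RT.Eb0
    linarith only [h1, h2]
  have hK3q := mul_le_mul_of_nonneg_right hK3 hq.le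
  have hd0 : dgj (A₁ * q) (D₁ * q) r 0 = (A₁ + 4 * D₁) * 4 ^ r * q := by
    unfold dgj
    rw [Nat.sub_zero]
    ring
  have hdl' : ∀ l < r, dgj (A₁ * q) (D₁ * q) r l ≤ (A₁ + 4 * D₁) * 4 ^ r * q := fun l hl => by
    have h1 := dgj_le (r := r) (l := l) (mul_pos hA₁ hq).le hDq
    have e1 : (A₁ * q + 4 * (D₁ * q)) * 4 ^ r = (A₁ + 4 * D₁) * 4 ^ r * q := by ring
    rw [e1] at h1
    exact h1
  have hArq : 0 < (A₁ + 4 * D₁) * 4 ^ r * q := mul_pos hAr1 hq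
  have hAr2q := mul_le_mul_of_nonneg_right hAr2 hq.le
  have n1q := mul_le_mul_of_nonneg_right n1 hq.le
  obtain ⟨rk₁, E₁, hrk1, hrk2, hE1, hEμ, hρμ, hEL⟩ : ∃ rk E : ℝ, 0 ≤ rk ∧ rk + μ ≤ ρ₀ ∧ 0 ≤ E ∧
      E + μ ≤ e₀ ∧ L r b b + μ ≤ ρ₀ ∧ e₀ + L (r + 1) b b + μ ≤ 1 := by
    obtain ⟨rk, E, a1, a2, a3, a4, a5, a6, a7, a8, a9, a10⟩ := H.halt b NP.bG (by
      have h1 := H.hnear (-Tn) (by
        rw [abs_neg, abs_of_pos hTn]
        linarith only [hK3, hAr1, hD0])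
      rw [← hb] at h1
      exact h1)
    exact ⟨rk, E, a1, a2, a3, a4, a6, a8⟩
  have hρ₀ := H.hρ₀
  have hKμ : K' * q ≤ μ := by
    have hK0 : 0 < K' := by linarith only [hK3, hAr1, hD0, hTn]
    have h1 := abs_le.1 (H.hnear K' (by rw [abs_of_pos hK0]))
    have h2 := abs_le.1 (H.hnear (-K') (by rw [abs_neg, abs_of_pos hK0]))
    linarith only [h1.2, h2.1]
  have hE0 : 0 ≤ e₀ - μ / 2 := by linarith only [hE1, hEμ, hμ]
  have h3K : 0 < K' * q := by linarith only [hK3q, hArq, hDq, hTq0, hq]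
  obtain ⟨cnt, hcnt⟩ : ∃ cnt : ℝ, cnt = min (μ / 8) (K' * q / 8) := ⟨_, rfl⟩
  have hcnt0 : 0 < cnt := by
    rw [hcnt]
    exact lt_min (by linarith only [hμ]) (by linarith only [h3K])
  have hcnt1 : cnt ≤ μ / 8 := by
    rw [hcnt]
    exact min_le_left _ _
  have hcnt2 : cnt ≤ K' * q / 8 := by
    rw [hcnt]
    exact min_le_right _ _
  have NP' : NpW S' c r (fun l x => L l x x) G b w (A₁ * q) (D₁ * q) φn v₀ :=
    { NP with ch := NP.ch.sub hs' }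
  have hx0n : |x₀ - t| ≤ K' * q := by
    have f1 := Fw.x1
    have f2 := Fw.x2
    rw [abs_le]
    constructor <;> linarith only [f1, f2, n2q, hrD, hnD, hDq, hTq0]
  have key := fr2_cl (S := S') (c := c) (r := r) (sn := fun l x => L l x x) (G := G) (b := b)
    (w := w) (w₁ := v' 0) (bb := v (2 * nF + 14 * r + 31)) (x₀ := x₀) (A := A₁ * q)
    (D := D₁ * q) (φ := 2 * (ε * q)) (γ := γ) htm' hpos' hW NP' (by linarith only [hεq])
    (by linarith only [hεq4, hDq2, hTq0, hq]) hV rfl hM rfl (by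
      rw [hv', hb, Nat.sub_self, Nat.cast_zero, zero_mul, add_zero])
    (fun l hl => lin l hl b x₀ hbn hx0n) (fun j hj N => by
      obtain ⟨rk, E, a1, a2, a3, a4, a5, a6, a7, a8, a9, a10⟩ := H.halt (v' j) (hM.mem j hj) (by
        have h1 := H.hnear (-Tn + (nF - j : ℕ) * (D₁ / 2)) (by
          have h2 := vnear' j
          rw [hv', add_sub_cancel_left, abs_mul, abs_of_pos hq] at h2
          exact le_of_mul_le_mul_right h2 hq)
        rw [← hv'] at h1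
        exact h1)
      exact exs_prec (by linarith only [hγ]) (exs_jetU a1 a3 ((a10.sub H.hs).sub hs')))
    (CF := 2 * nF + 7 * r + 18) (k := k) (κF := κF) hfa (by linarith only [hk1])
    (by linarith only [hk2]) (by
      rw [hd0, hv', hb, Nat.sub_zero]
      linarith only [n1q]) (by
      rw [hd0]
      push_cast
      linarith only [n1q, hDq, hrD, hArq]) (by
      rw [hv]
      push_cast
      linarith only [Fw.x2]) (by
      rw [hv]
      push_cast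
      have h1 := NP.bw
      rw [hb] at h1
      linarith only [h1]) (by
      rw [hv', Nat.sub_zero]
      push_cast
      linarith only [Fw.x1]) hQ₁ hQ₂ hδ0 (by
      have h1 : κF * (1 / 2) ^ k ≤ κF * (D₁ * q / 2) := mul_le_mul_of_nonneg_left hk2 hκF
      linarith only [h1, hδ])
    (E := fun i => if i = r + 1 then e₀ - μ / 2 else max 0 (L r b b - L i b b))
    (rd := fun i => if i = r + 1 then ρ₀ - μ / 2 else L r b b) hcnt0 (fun l _ => by
      show 0 ≤ if l = r + 1 then e₀ - μ / 2 else max 0 (L r b b - L l b b)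
      split_ifs
      · exact hE0
      · exact le_max_left _ _) (fun l _ => by
      show (if l = r + 1 then ρ₀ - μ / 2 else L r b b) + cnt ≤ 1
      split_ifs
      · linarith only [hρ₀, hcnt1, hμ]
      · linarith only [hρμ, hρ₀, hcnt1, hμ]) (fun l hl => by
      show L l b b + dgj (A₁ * q) (D₁ * q) r l + 2 * (D₁ * q) +
        (if l = r + 1 then e₀ - μ / 2 else max 0 (L r b b - L l b b)) + 2 * cnt ≤ 1
      rw [if_neg (by omega)]
      have h1 := hL l (by omega)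
      have h2 := hL r (by omega)
      have h3 := hdl' l hl
      rcases max_choice (0 : ℝ) (L r b b - L l b b) with h | h <;> rw [h] <;>
        linarith only [h1, h2, h3, hK3q, hcnt2, h3K, hDq, hArq, hTq0, hq]) (by
      show Q₁ + (if r = r + 1 then e₀ - μ / 2 else max 0 (L r b b - L r b b)) + 2 * cnt ≤ 1
      rw [if_neg (by omega), sub_self, max_self]
      have h2 := hL r (by omega)
      linarith only [h2, hQ₁, hAr2q, hK3q, hcnt2, h3K, hDq, hArq, hTq0, hq]) (by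
      show Q₂ + (if r + 1 = r + 1 then e₀ - μ / 2 else max 0 (L r b b - L (r + 1) b b)) +
        2 * cnt ≤ 1
      rw [if_pos rfl]
      linarith only [hEL, hQ₂, hγ, hAr2q, hK3q, hKμ, hcnt1, h3K, hDq, hArq, hTq0, hq, hμ])
  obtain ⟨e₁, he₁, k₁, hk₁, key⟩ := key
  exact ⟨e₁, he₁, k₁, hk₁, fun e k' he hee hk' hkk Ψ₀ K => key e k' he hee hk' hkk Ψ₀ K _
    fun l hl => Finset.mem_image_of_mem _ (Finset.mem_range.2 hl)⟩

end

end Pool.TE46
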