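import Pool.Agent.H46.TE.Frr
import Pool.Agent.H91.FR.QpG

/-!
# The numbers, the windows and the point of the free velocities

`faN_ex`: the number of the steps. `faL_ex`: the windows. `faK_ex`: the error. `faW_of`: `FaW` from the
property `FaQ` at a point.
-/

set_option autoImplicit false

namespace Pool.TE46

open Finset Real MvPolynomial
open Pool.Agent.H49.Ent Pool.Agent.H32.Dense Pool.STK Pool.KA Pool.KSAT Pool.K2S Pool.PB Pool.GEN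
open Pool.S6C Pool.RCD Pool.LA91 Pool.OWN68 Pool.AJW Pool.AJX Pool.CHT Pool.PKG Pool.PN18

/-- **The number of the steps.** -/
theorem faN_ex (r : ℕ) {A₁ D₁ : ℝ} (hD₁ : 0 < D₁) :
    ∃ nF : ℕ, 2 * ((A₁ + 4 * D₁) * 4 ^ r + (2 * r + 6) * D₁) ≤ nF * D₁ := by
  obtain ⟨n, hn⟩ := exists_nat_ge (2 * ((A₁ + 4 * D₁) * 4 ^ r + (2 * r + 6) * D₁) / D₁)
  rw [div_le_iff₀ hD₁] at hn
  exact ⟨n, hn⟩

/-- **The windows.** -/
theorem faL_ex (r nF : ℕ) {Tn D₁ : ℝ} (hTn : 0 ≤ Tn) (hD₁ : 0 ≤ D₁) :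
    ∃ s : Finset ℝ, (∀ w ∈ s, |w| ≤ Tn + (nF + 7 * r + 16) * D₁) ∧
      ∀ (N' : ℕ) (V' : ℕ → ℝ), (∀ w ∈ s, ∃ j < N', V' j = w) →
        (∀ j ≤ 2 * nF + 14 * r + 31, ∃ k < N', V' k = -(Tn + j * (D₁ / 2))) ∧
        ∀ j ≤ nF, ∃ k < N', V' k = -Tn + j * (D₁ / 2) := by
  classical
  have hr0 : (0 : ℝ) ≤ r * D₁ := by positivity
  refine ⟨(range (2 * nF + 14 * r + 32)).image (fun j : ℕ => -(Tn + j * (D₁ / 2))) ∪
    (range (nF + 1)).image (fun j : ℕ => -Tn + j * (D₁ / 2)), fun w hw => ?_,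
    fun N' V' h => ⟨fun j hj => ?_, fun j hj => ?_⟩⟩
  · rcases Finset.mem_union.1 hw with h | h
    · obtain ⟨j, hj, rfl⟩ := Finset.mem_image.1 h
      have h1 : (j : ℝ) + 1 ≤ 2 * nF + 14 * r + 32 := by exact_mod_cast Finset.mem_range.1 hj
      have h2 := mul_le_mul_of_nonneg_right h1 hD₁
      have h3 : (0 : ℝ) ≤ j * D₁ := by positivity
      rw [abs_neg, abs_le]
      constructor <;> linarith only [h2, h3, hTn, hr0, hD₁, (by positivity : (0:ℝ) ≤ nF * D₁)]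
    · obtain ⟨j, hj, rfl⟩ := Finset.mem_image.1 h
      have h1 : (j : ℝ) + 1 ≤ nF + 1 := by exact_mod_cast Finset.mem_range.1 hj
      have h2 := mul_le_mul_of_nonneg_right h1 hD₁
      have h3 : (0 : ℝ) ≤ j * D₁ := by positivity
      rw [abs_le]
      constructor <;> linarith only [h2, h3, hTn, hr0, hD₁, (by positivity : (0:ℝ) ≤ nF * D₁)]
  · exact h _ (Finset.mem_union_left _ (Finset.mem_image_of_mem _ (Finset.mem_range.2 (by omega))))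
  · exact h _ (Finset.mem_union_right _
      (Finset.mem_image_of_mem _ (Finset.mem_range.2 (by omega))))

/-- **The error.** -/
theorem faK_ex {D₁ b : ℝ} (hD₁ : 0 < D₁) (hb : 0 < b) : ∃ κF : ℚ, 0 < κF ∧ (κF : ℝ) * D₁ ≤ b := by
  obtain ⟨κF, h1, h2⟩ := exists_rat_btwn (show (0 : ℝ) < b / D₁ by positivity)
  rw [lt_div_iff₀ hD₁] at h2
  exact ⟨κF, by exact_mod_cast h1, h2.le⟩

/-- **The free velocities from the property** `FaQ` at a point. -/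
theorem faW_of {r : ℕ} {S S₁ : PCl (r + 2)}
    {P : List (Fin (r + 2)) × Fin (r + 2) → ℝ → ℝ → ℝ} {θ : ℝ} {c : ℕ → Fin (r + 2)}
    {Pt : ℝ → ℝ → ℝ} {rt : ℝ → ℝ} {L T : ℕ → ℝ → ℝ → ℝ} {κ : ℕ → Kg} {G : Set ℝ} {N' : ℕ}
    {V' : ℕ → ℝ} {K' q t Tn A₁ D₁ x₀ : ℝ} {nF kF : ℕ} {κF : ℚ} (hκ : ∀ l < r, κ l = .one)
    (hs : ∀ (τ : ℝ) (J : ℕ) (F : Fam (r + 2) J) (A : F.Ω → Prop), S₁.St τ J F A → S.St τ J F A)
    (hκF : 0 < κF) (hFa : FaQ (r, 2 * nF + 7 * r + 18, 1, κF) kF S P θ c Pt rt L T κ G x₀)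
    (n1 : 2 * ((A₁ + 4 * D₁) * 4 ^ r + (2 * r + 6) * D₁) ≤ nF * D₁)
    (n2 : Tn + (nF + 7 * r + 16) * D₁ ≤ K')
    (w1 : ∀ j ≤ 2 * nF + 14 * r + 31, ∃ k < N', V' k = -(Tn + j * (D₁ / 2)))
    (w2 : ∀ j ≤ nF, ∃ k < N', V' k = -Tn + j * (D₁ / 2))
    (x1 : t + -(Tn + (nF / 2 + (21 * r + 48) / 4) * D₁) * q ≤ x₀)
    (x2 : x₀ ≤ t + -(Tn + (nF / 2 + (21 * r + 44) / 4) * D₁) * q)
    (k1 : D₁ * q < (1 / 2) ^ kF) :
    FaW r S₁ c L G N' V' K' q t Tn A₁ D₁ nF kF κF x₀ :=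
  { n1 := n1
    n2 := n2
    w1 := w1
    w2 := w2
    fa := fun k hk => (hFa.free (by show r < r + 2; omega) (fun l hl => hκ l hl) one_pos le_rfl
      hκF k hk).sub hs
    x1 := x1
    x2 := x2
    k1 := k1 }

end Pool.TE46
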