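import Pool.Agent.H46.TE.Rcd

/-!
# Ties of own paths: the rows
-/

set_option autoImplicit false

namespace Pool.TE46

open Finset Real
open Pool.Agent.H49.Ent Pool.Agent.H32.Dense Pool.STK Pool.KA Pool.KSAT Pool.K2S Pool.PB Pool.GEN
open Pool.S6C Pool.LA91 Pool.OWN68 Pool.AJ18 Pool.PAIR76 Pool.PN18 Pool.LPK12 Pool.PR46 Pool.PS46
open Pool.BFL (Pb)

variable {m J : ℕ}

theorem Pb_Pe {Ω : Type} [Fintype Ω] (p : Ω → ℝ) (A : Ω → Prop) : Pb p A = Pe p A := by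
  classical
  rw [Pe_eq]
  unfold Pb
  refine Finset.sum_congr rfl fun ω _ => ?_
  congr

theorem fl_div_pow (x : ℝ) (k : ℕ) : ⌊x⌋ / (2 : ℤ) ^ k = ⌊x / 2 ^ k⌋ := by
  have h := Int.floor_div_natCast (x : ℝ) (2 ^ k)
  push_cast at h
  exact h.symm

/-- Few digits more. -/
theorem three_dig {Ω Δ : Type} [Fintype Ω] {q : Ω → ℝ} (hq : IsLaw q) (n : Ω → ℤ) {k₁ k : ℕ}
    (h1 : k₁ ≤ k) (h2 : k ≤ k₁ + 3) (Z : Ω → Δ) :
    CH q n (fun ω => (n ω / (2 : ℤ) ^ k, Z ω)) ≤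
      CH q n (fun ω => (n ω / (2 : ℤ) ^ k₁, Z ω)) + Real.log 19 := by
  have h0 := hq.nonneg
  have s1 := CH_le_add h0 n (fun ω => n ω / (2 : ℤ) ^ k₁) (fun ω => (n ω / (2 : ℤ) ^ k, Z ω))
  have s2 : CH q n (fun ω => (n ω / (2 : ℤ) ^ k₁, (n ω / (2 : ℤ) ^ k, Z ω))) ≤
      CH q n (fun ω => (n ω / (2 : ℤ) ^ k₁, Z ω)) := CH_mono_cond h0 fun ω ω' _ _ e => by
    simp only [Prod.mk.injEq] at e ⊢
    exact ⟨e.1, e.2.2⟩
  have s3 : CH q (fun ω => n ω / (2 : ℤ) ^ k₁) (fun ω => (n ω / (2 : ℤ) ^ k, Z ω)) ≤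
      Real.log (2 * ((9 : ℕ) : ℝ) + 1) := CH_pair hq _ _ fun ω ω' _ _ e => by
    have e1 : n ω / (2 : ℤ) ^ k = n ω' / (2 : ℤ) ^ k := (Prod.ext_iff.mp e).1
    obtain ⟨j, rfl⟩ := Nat.exists_eq_add_of_le h1
    have hj : j ≤ 3 := by omega
    have e2 : ∀ x : ℤ, x / (2 : ℤ) ^ (k₁ + j) = x / (2 : ℤ) ^ k₁ / (2 : ℤ) ^ j := fun x => by
      rw [pow_add, Int.ediv_ediv_of_nonneg (by positivity)]
    rw [e2, e2] at e1
    obtain ⟨a, ha⟩ : ∃ a, a = n ω / (2 : ℤ) ^ k₁ := ⟨_, rfl⟩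
    obtain ⟨b, hb⟩ : ∃ b, b = n ω' / (2 : ℤ) ^ k₁ := ⟨_, rfl⟩
    rw [← ha, ← hb] at e1 ⊢
    have hp : (2 : ℤ) ^ j ≤ 8 := by
      interval_cases j <;> norm_num
    have hp0 : (0 : ℤ) < (2 : ℤ) ^ j := by positivity
    have g1 := Int.emod_add_mul_ediv a ((2 : ℤ) ^ j)
    have g2 := Int.emod_add_mul_ediv b ((2 : ℤ) ^ j)
    have g3 := Int.emod_nonneg a hp0.ne'
    have g4 := Int.emod_nonneg b hp0.ne'
    have g5 := Int.emod_lt_of_pos a hp0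
    have g6 := Int.emod_lt_of_pos b hp0
    rw [e1] at g1
    rw [abs_le]
    push_cast
    constructor <;> linarith
  have s4 : Real.log (2 * ((9 : ℕ) : ℝ) + 1) = Real.log 19 := by norm_num
  rw [s4] at s3
  linarith

/-- **The rows of the events.** -/
theorem nfe_of {F : Fam m J} {A : F.Ω → Prop} (hA : 0 < Pe F.p A) {R₁ R₂ : LnT F → Polynomial ℝ}
    {𝒞 : Type} {c : LnT F → 𝒞} {W Q : ℕ} {a μ h e c₀ δ : ℝ} (hJ : 0 < J) (ha : 0 < a) (hμ : 0 < μ)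
    (hh : h ≤ a) (hc₀ : 0 < c₀) (hQ1 : 2 * (a * μ * J) ≤ 2 * Q) (hQ2 : (Q : ℝ) ≤ a * μ * J + 1)
    (H : NFo F A R₂ R₁ c W a a (2 * μ) h e c₀) (he : e * J + 4 * Real.log 19 ≤ δ * Q) :
    NfE (Pool.Agent.H49.Ent.cond F.p A True) Q δ c₀ (h / a) (slam F W) (tw F W) (cC c)
      (uR F R₁ W) (uR F R₂ W) := by
  have hJ0 : (0 : ℝ) < J := by exact_mod_cast hJ
  have hl2 : 0 < Real.log 2 := Real.log_pos one_lt_two
  have l19 : 0 ≤ Real.log 19 := Real.log_nonneg (by norm_num)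
  intro k hk S hS
  rw [Pb_Pe] at hS
  rw [cond_and S hA.ne']
  have hpos := part_pos hA hS
  have hPB : 0 < Pe F.p (fun ω => A ω ∧ S ω) := lt_of_lt_of_le (mul_pos hc₀ hA) hpos
  have hBl : IsLaw (Pool.Agent.H49.Ent.cond F.p (fun ω => A ω ∧ S ω) True) :=
    isLaw_cond F.isLaw hPB
  have h0 := hBl.nonneg
  obtain ⟨B, hB⟩ : ∃ B : F.Ω → Prop, B = fun ω => A ω ∧ S ω := ⟨_, rfl⟩
  rw [← hB] at hpos hPB hBl h0 ⊢
  -- the number of digits
  obtain ⟨k₁, hk1, hk3, hk2⟩ : ∃ k₁ : ℕ, k₁ ≤ k ∧ k ≤ k₁ + 3 ∧ (k₁ : ℝ) ≤ a * (2 * μ) * J := by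
    by_cases hc : (k : ℝ) ≤ a * (2 * μ) * J
    · exact ⟨k, le_rfl, by omega, hc⟩
    · push Not at hc
      have hx : 0 ≤ a * (2 * μ) * J := by positivity
      have g1 := Nat.floor_le hx
      have g2 := Nat.lt_floor_add_one (a * (2 * μ) * J)
      refine ⟨⌊a * (2 * μ) * J⌋₊, ?_, ?_, g1⟩
      · exact Nat.floor_le_of_le hc.le
      · have g3 : (k : ℝ) ≤ 2 * Q := by exact_mod_cast hk
        have g4 : (k : ℝ) < ((⌊a * (2 * μ) * J⌋₊ + 3 : ℕ) : ℝ) := by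
          push_cast
          linarith
        exact le_of_lt (by exact_mod_cast g4)
  have haJ : 0 < a * J := by positivity
  have h1 := H B (fun ω hω => by rw [hB] at hω; exact hω.1) hpos 0 ((k₁ : ℝ) / (a * J)) le_rfl
    (by positivity) (by
      rw [div_le_iff₀ haJ]
      linarith)
  have e1 : (a * ((k₁ : ℝ) / (a * J))) * J = (k₁ : ℝ) := by
    field_simp
  have e2 : ((a - h) * ((k₁ : ℝ) / (a * J) - 0) * Real.log 2 + e) * J =
      (1 - h / a) * k₁ * Real.log 2 + e * J := by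
    field_simp
    ring
  rw [e1, e2] at h1
  simp only [mul_zero, zero_mul, Real.rpow_zero, div_one, Real.rpow_natCast, ← fl_div_pow] at h1
  have h2 : CH (Pool.Agent.H49.Ent.cond F.p B True) (fun ω => uR F R₂ W (slam F W ω) (tw F W ω))
      (fun ω => ((uR F R₂ W (slam F W ω) (tw F W ω) / 2 ^ k₁,
        uR F R₁ W (slam F W ω) (tw F W ω)), (tw F W ω, cC c (slam F W ω)))) ≤
      (1 - h / a) * k₁ * Real.log 2 + e * J := by
    simp only [uR_tw]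
    refine (CH_mono_cond h0 fun ω ω' _ _ e => ?_).trans h1
    simp only [Prod.mk.injEq] at e ⊢
    obtain ⟨⟨a1, a2⟩, a3, a4⟩ := e
    have htm : tm F W ω = tm F W ω' := by
      unfold tw at a3
      unfold Pool.LPK12.tm
      linarith
    obtain ⟨b1, b2⟩ := cC_W htm a4
    exact ⟨a1, a2, b1, b2⟩
  have h3 := three_dig hBl (fun ω => uR F R₂ W (slam F W ω) (tw F W ω)) hk1 hk3
    (fun ω => (uR F R₁ W (slam F W ω) (tw F W ω), (tw F W ω, cC c (slam F W ω))))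
  have h4 : CH (Pool.Agent.H49.Ent.cond F.p B True) (fun ω => uR F R₂ W (slam F W ω) (tw F W ω))
      (fun ω => ((uR F R₂ W (slam F W ω) (tw F W ω) / 2 ^ k,
        uR F R₁ W (slam F W ω) (tw F W ω)), (tw F W ω, cC c (slam F W ω)))) ≤
      CH (Pool.Agent.H49.Ent.cond F.p B True) (fun ω => uR F R₂ W (slam F W ω) (tw F W ω))
      (fun ω => (uR F R₂ W (slam F W ω) (tw F W ω) / 2 ^ k,
        (uR F R₁ W (slam F W ω) (tw F W ω), (tw F W ω, cC c (slam F W ω))))) :=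
    CH_mono_cond h0 fun ω ω' _ _ e => by
      simp only [Prod.mk.injEq] at e ⊢
      exact ⟨e.1.1, e.1.2, e.2⟩
  have h5 : CH (Pool.Agent.H49.Ent.cond F.p B True) (fun ω => uR F R₂ W (slam F W ω) (tw F W ω))
      (fun ω => (uR F R₂ W (slam F W ω) (tw F W ω) / 2 ^ k₁,
        (uR F R₁ W (slam F W ω) (tw F W ω), (tw F W ω, cC c (slam F W ω))))) ≤
      CH (Pool.Agent.H49.Ent.cond F.p B True) (fun ω => uR F R₂ W (slam F W ω) (tw F W ω))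
      (fun ω => ((uR F R₂ W (slam F W ω) (tw F W ω) / 2 ^ k₁,
        uR F R₁ W (slam F W ω) (tw F W ω)), (tw F W ω, cC c (slam F W ω)))) :=
    CH_mono_cond h0 fun ω ω' _ _ e => by
      simp only [Prod.mk.injEq] at e ⊢
      exact ⟨⟨e.1, e.2.1⟩, e.2.2⟩
  have h6 : (1 - h / a) * k₁ * Real.log 2 ≤ (1 - h / a) * k * Real.log 2 := by
    refine mul_le_mul_of_nonneg_right (mul_le_mul_of_nonneg_left (by exact_mod_cast hk1) ?_) hl2.le
    rw [sub_nonneg, div_le_one ha]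
    exact hh
  linarith

end Pool.TE46
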