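import Pool.Agent.H46.PS.Ton
import Pool.Agent.H46.TE.Nfe

/-!
# One hop, one law: an alive path over a known one
-/

set_option autoImplicit false

namespace Pool.TE46

open Finset Real
open Pool.Agent.H49.Ent Pool.Agent.H32.Dense Pool.STK Pool.OWN68 Pool.PR46 Pool.PS46
open Pool.BFL (Pb)

/-- **One hop.** The path `v` is alive over the record, `u` is known, the row of `v` given `u` is
full up to small errors. -/
theorem hop_low (K : ℕ) : ∃ cK : ℝ, 1 ≤ cK ∧ ∀ {Q MT : ℕ} {σ : ℤ → ℤ → ℤ} {B e η h d : ℝ}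
    {Ω Λ Γ 𝒞 𝒟 𝒩 : Type} [Fintype Ω] {p : Ω → ℝ} (_ : IsLaw p) {L : Ω → Λ} {t : Ω → ℤ} {G : Ω → Γ}
    {C : Λ → 𝒞} {D : Λ → 𝒟} {N : Λ → 𝒩} {v u : Λ → ℤ → ℤ} {dv : 𝒟 → ℝ},
    2 * K + 1 ≤ 2 ^ Q → 0 < B → 1 ≤ Q → 0 ≤ e → 0 ≤ η → η ≤ 1 / 2 →
    Recs p (2 ^ Q) MT σ e L t G G C D N N →
    Disp p (2 ^ Q) MT K σ L t G D v u dv (fun _ => 0) →
    Pb (glue p p G G) (fun w => |dv (D (L w.2)) - dv (D (L w.1))| < B) ≤ η →
    CH p (fun ω => v (L ω) (t ω)) (fun ω => ((v (L ω) (t ω) / ((2 ^ Q : ℕ) : ℤ), u (L ω) (t ω)),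
      (t ω, C (L ω)))) ≤ (1 - h) * Q * Real.log 2 + d →
    h * Q * Real.log 2 ≤ 2 * η * Q + 6 * e + d + Real.log ((2 : ℝ) ^ Q / B + 1) + cK := by
  obtain ⟨C₀, hC₀⟩ : ∃ C₀ : ℝ, C₀ = 2 * Real.log 2 + Real.log (4 * K + 1) + Real.log (7 + 4 * K) +
    Real.log 105 + Real.log (2 * ((2 * K + 1 : ℕ) : ℝ) + 1) + 1 := ⟨_, rfl⟩
  have b1 : 0 ≤ Real.log 2 := Real.log_nonneg (by norm_num)
  have b2 : 0 ≤ Real.log (4 * (K : ℝ) + 1) :=
    Real.log_nonneg (by linarith [(Nat.cast_nonneg K : (0 : ℝ) ≤ K)])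
  have b3 : 0 ≤ Real.log (7 + 4 * (K : ℝ)) :=
    Real.log_nonneg (by linarith [(Nat.cast_nonneg K : (0 : ℝ) ≤ K)])
  have b4 : 0 ≤ Real.log 105 := Real.log_nonneg (by norm_num)
  have b5 : 0 ≤ Real.log (2 * ((2 * K + 1 : ℕ) : ℝ) + 1) :=
    Real.log_nonneg (by linarith [(Nat.cast_nonneg (2 * K + 1) : (0 : ℝ) ≤ ((2 * K + 1 : ℕ) : ℝ))])
  refine ⟨C₀, by linarith, ?_⟩
  intro Q MT σ B e η h d Ω Λ Γ 𝒞 𝒟 𝒩 _ p hp L t G C D N v u dv hKQ hB hQ he hη0 hη hrec hd hcl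
    hrow
  have h0 := hp.nonneg
  obtain ⟨r, hr⟩ : ∃ r : ℕ, r = 2 * K + 1 := ⟨_, rfl⟩
  have hr1 : 1 ≤ r := by omega
  have hr0 : (0 : ℝ) < r := by exact_mod_cast hr1
  have hK0 : (0 : ℝ) ≤ K := Nat.cast_nonneg K
  have hM1 : 1 ≤ 2 ^ Q := Nat.one_le_two_pow
  have hM0 : (0 : ℝ) < ((2 ^ Q : ℕ) : ℝ) := by exact_mod_cast hM1
  have hcast : (((2 ^ Q : ℕ)) : ℝ) = 2 ^ Q := by push_cast; rfl
  have hlf := leaf_full hp (M := 2 ^ Q) (MT := MT) (K := K) (r := r) hM1 hr1 (by omega) hrec hd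
    (ks := fun _ => 0) (κ := 0) (B := B) (η := η) hB (fun ω _ => by simp) (by
      rw [hr]
      push_cast
      linarith) (by
      refine (Pb_imp (P1_law hp G).nonneg fun w _ hw => ?_).trans hcl
      by_contra hcon
      push Not at hcon
      refine hw ⟨hcon, ?_, ?_⟩
      · simp only [sub_self, zero_mul, abs_zero]
        exact hr0.le
      · simp only [sub_self, abs_zero, zero_mul]
        exact hr0.le) (R := 1) le_rfl (by linarith) hp (fun ω => by rw [one_mul])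
  -- the leaf
  have e1 : (leaf (2 ^ Q) r L t v u (fun _ => 0)) = fun ω => ((0 : ℤ), ⌊(u (L ω) (t ω) : ℝ) / r⌋) := by
    funext ω
    unfold leaf
    have e2 : kq (2 ^ Q) r 0 = 0 := by
      unfold kq
      rw [zero_mul, zero_div, Int.floor_zero]
    rw [e2]
    unfold lc kr
    simp only [Int.cast_zero, zero_mul, zero_div, sub_zero]
  rw [e1] at hlf
  have h1 : CH p (fun ω => v (L ω) (t ω)) (fun ω => (v (L ω) (t ω) / ((2 ^ Q : ℕ) : ℤ),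
      (((0 : ℤ), ⌊(u (L ω) (t ω) : ℝ) / r⌋), (t ω, (C (L ω), N (L ω)))))) ≤
      CH p (fun ω => v (L ω) (t ω)) (fun ω => (⌊(u (L ω) (t ω) : ℝ) / r⌋,
        (v (L ω) (t ω) / ((2 ^ Q : ℕ) : ℤ), (t ω, C (L ω))))) :=
    CH_mono_cond h0 fun ω ω' _ _ e => by
      simp only [Prod.mk.injEq] at e ⊢
      exact ⟨e.2.1.2, e.1, e.2.2.1, e.2.2.2.1⟩
  have h2 := CH_le_add h0 (fun ω => v (L ω) (t ω)) (fun ω => u (L ω) (t ω))
    (fun ω => (⌊(u (L ω) (t ω) : ℝ) / r⌋, (v (L ω) (t ω) / ((2 ^ Q : ℕ) : ℤ), (t ω, C (L ω)))))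
  have h3 : CH p (fun ω => v (L ω) (t ω)) (fun ω => (u (L ω) (t ω), (⌊(u (L ω) (t ω) : ℝ) / r⌋,
      (v (L ω) (t ω) / ((2 ^ Q : ℕ) : ℤ), (t ω, C (L ω)))))) ≤
      CH p (fun ω => v (L ω) (t ω)) (fun ω => ((v (L ω) (t ω) / ((2 ^ Q : ℕ) : ℤ),
        u (L ω) (t ω)), (t ω, C (L ω)))) := CH_mono_cond h0 fun ω ω' _ _ e => by
    simp only [Prod.mk.injEq] at e ⊢
    exact ⟨⟨e.2.2.1, e.1⟩, e.2.2.2⟩
  have h4 : CH p (fun ω => u (L ω) (t ω)) (fun ω => (⌊(u (L ω) (t ω) : ℝ) / r⌋,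
      (v (L ω) (t ω) / ((2 ^ Q : ℕ) : ℤ), (t ω, C (L ω))))) ≤
      Real.log (2 * ((2 * K + 1 : ℕ) : ℝ) + 1) := CH_pair hp _ _ fun ω ω' _ _ e => by
    have e2 := (Prod.ext_iff.mp e).1
    dsimp only at e2
    have a1 := Int.floor_le ((u (L ω) (t ω) : ℝ) / r)
    have a2 := Int.lt_floor_add_one ((u (L ω) (t ω) : ℝ) / r)
    have a3 := Int.floor_le ((u (L ω') (t ω') : ℝ) / r)
    have a4 := Int.lt_floor_add_one ((u (L ω') (t ω') : ℝ) / r)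
    rw [e2] at a1 a2
    rw [le_div_iff₀ hr0] at a1 a3
    rw [div_lt_iff₀ hr0] at a2 a4
    have a5 : |((u (L ω) (t ω) : ℝ) - u (L ω') (t ω'))| ≤ (r : ℝ) := by
      rw [abs_le]
      constructor <;> linarith
    rw [← hr]
    have a6 : |(((u (L ω) (t ω) - u (L ω') (t ω')) : ℤ) : ℝ)| ≤ ((r : ℤ) : ℝ) := by
      push_cast
      exact a5
    exact_mod_cast a6
  -- the numbers
  have hQ0 : (1 : ℝ) ≤ Q := by exact_mod_cast hQ
  have g1 : (Q : ℝ) * Real.log 2 ≤ Real.log (2 * ((2 ^ Q : ℕ) : ℝ) + 1) := by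
    rw [hcast, ← Real.log_pow]
    exact Real.log_le_log (by positivity) (by linarith [show (0 : ℝ) < 2 ^ Q by positivity])
  have g2 : Real.log (2 * ((2 ^ Q : ℕ) : ℝ) + 1) ≤ 2 * Q + 1 := by
    have a1 : (2 * ((2 ^ Q : ℕ) : ℝ) + 1) ≤ 4 * 2 ^ Q := by
      rw [hcast]
      have : (1 : ℝ) ≤ 2 ^ Q := one_le_pow₀ (by norm_num)
      linarith
    have a2 := Real.log_le_log (by positivity) a1
    rw [Real.log_mul (by norm_num) (by positivity), Real.log_pow] at a2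
    have a3 : Real.log 4 ≤ 1.4 := by
      have : Real.log 4 = 2 * Real.log 2 := by
        rw [show (4 : ℝ) = 2 ^ 2 by norm_num, Real.log_pow]
        norm_num
      rw [this]
      have := Real.log_two_lt_d9
      linarith
    have a4 : Real.log 2 ≤ 0.7 := by
      have := Real.log_two_lt_d9
      linarith
    nlinarith
  have g3 : 1 * η * Real.log (2 * ((2 ^ Q : ℕ) : ℝ) + 1) ≤ 2 * η * Q + 1 / 2 := by
    have a1 := mul_le_mul_of_nonneg_left g2 hη0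
    linarith
  have g4 : Real.log (4 * K * ((2 ^ Q : ℕ) : ℝ) / B + 1) ≤
      Real.log (4 * K + 1) + Real.log ((2 : ℝ) ^ Q / B + 1) := by
    rw [← Real.log_mul (by positivity) (by positivity)]
    refine Real.log_le_log (by positivity) ?_
    rw [hcast]
    have a1 : 4 * (K : ℝ) * 2 ^ Q / B = 4 * K * (2 ^ Q / B) := by ring
    rw [a1]
    have a2 : 0 ≤ (2 : ℝ) ^ Q / B := by positivity
    nlinarith
  rw [hC₀]
  linarith

/-- **One hop.** -/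
theorem hop_one (K : ℕ) {h : ℝ} (hh : 0 < h) : ∃ ε' : ℝ, 0 < ε' ∧ ε' ≤ 1 ∧ ∃ δ : ℝ, 0 < δ ∧
    ∃ c₀ : ℝ, 0 < c₀ ∧ c₀ ≤ 1 ∧ ∀ α : ℝ, 0 < α → ∃ Q₀ : ℕ, ∀ Q ≥ Q₀, ∀ MT : ℕ, ∀ σ : ℤ → ℤ → ℤ,
    ∀ B : ℝ, 0 < B → (2 : ℝ) ^ Q ≤ B * (2 : ℝ) ^ (ε' * Q) →
    ∀ {Ω Λ Γ 𝒞 𝒟 𝒩 : Type} [Fintype Ω] {p : Ω → ℝ}, IsLaw p → ∀ {L : Ω → Λ} {t : Ω → ℤ}
    {G : Ω → Γ} {C : Λ → 𝒞} {D : Λ → 𝒟} {N : Λ → 𝒩} {v u : Λ → ℤ → ℤ} {dv : 𝒟 → ℝ},
    Recs p (2 ^ Q) MT σ (δ * Q) L t G G C D N N →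
    Disp p (2 ^ Q) MT K σ L t G D v u dv (fun _ => 0) →
    (∀ S : Ω → Prop, c₀ ≤ Pb p S → α * Q ≤ CH (cond p S True) (fun ω => ⌊dv (D (L ω)) / B⌋) G) →
    CH p (fun ω => v (L ω) (t ω)) (fun ω => ((v (L ω) (t ω) / ((2 ^ Q : ℕ) : ℤ), u (L ω) (t ω)),
      (t ω, C (L ω)))) ≤ (1 - h) * Q * Real.log 2 + δ * Q → False := by
  obtain ⟨C, hC, H⟩ := hop_low K
  have hl2 : 0 < Real.log 2 := Real.log_pos one_lt_two
  obtain ⟨s, hs⟩ : ∃ s : ℝ, s = min (h * Real.log 2) 1 := ⟨_, rfl⟩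
  have hs0 : 0 < s := by rw [hs]; exact lt_min (by positivity) one_pos
  have hs1 : s ≤ 1 := by rw [hs]; exact min_le_right _ _
  have hs2 : s ≤ h * Real.log 2 := by rw [hs]; exact min_le_left _ _
  refine ⟨s / 8, by positivity, by linarith, s / 56, by positivity, s / 32, by positivity,
    by linarith, ?_⟩
  intro α hα
  obtain ⟨Q₁, hQ₁⟩ := exists_nat_ge (8 * (C + Real.log 2) / s + (Real.log (6 / (s / 16)) + 1) / α)
  refine ⟨max (max Q₁ 1) (2 * K + 1), ?_⟩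
  intro Q hQ MT σ B hB hBM Ω Λ Γ 𝒞 𝒟 𝒩 _ p hp L t G Cc D N v u dv hrec hd hal hrow
  have hQ1 : (Q₁ : ℝ) ≤ Q := by exact_mod_cast (le_max_left _ _).trans ((le_max_left _ _).trans hQ)
  have hQ2 : 1 ≤ Q := (le_max_right _ _).trans ((le_max_left _ _).trans hQ)
  have hQ3 : 2 * K + 1 ≤ Q := (le_max_right _ _).trans hQ
  have hQ0 : (1 : ℝ) ≤ Q := by exact_mod_cast hQ2
  have lg : 0 ≤ Real.log (6 / (s / 16)) := by
    refine Real.log_nonneg ?_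
    rw [le_div_iff₀ (by positivity)]
    linarith
  have t1 : 0 ≤ 8 * (C + Real.log 2) / s := by positivity
  have t2 : 0 ≤ (Real.log (6 / (s / 16)) + 1) / α := by positivity
  have k1 : 8 * (C + Real.log 2) ≤ s * Q := by
    have h1 : 8 * (C + Real.log 2) / s ≤ Q := by linarith
    rw [div_le_iff₀ hs0] at h1
    linarith
  have k2 : Real.log (6 / (s / 16)) < α * Q := by
    have h1 : (Real.log (6 / (s / 16)) + 1) / α ≤ Q := by linarith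
    rw [div_le_iff₀ hα] at h1
    linarith
  have hcl := alive_Pb hp G (fun ω => dv (D (L ω))) hB (show 0 < s / 16 by positivity)
    (fun E hE => k2.trans_le (hal E (by linarith)))
  have h1 := H hp (e := s / 56 * Q) (η := s / 16) (h := h) (d := s / 56 * Q)
    (hQ3.trans Nat.lt_two_pow_self.le) hB hQ2 (by positivity) (by positivity) (by linarith) hrec hd
    hcl hrow
  have h2 : Real.log ((2 : ℝ) ^ Q / B + 1) ≤ s / 8 * Q + Real.log 2 := by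
    have a1 : (2 : ℝ) ^ Q / B ≤ 2 ^ (s / 8 * Q) := by
      rw [div_le_iff₀ hB]
      linarith
    have a2 : (1 : ℝ) ≤ 2 ^ (s / 8 * Q) := Real.one_le_rpow (by norm_num) (by positivity)
    have a3 := Real.log_le_log (by positivity) (show (2 : ℝ) ^ Q / B + 1 ≤ 2 * 2 ^ (s / 8 * Q) by
      linarith)
    rw [Real.log_mul (by norm_num) (by positivity), Real.log_rpow (by norm_num)] at a3
    have a4 : s / 8 * Q * Real.log 2 ≤ s / 8 * Q := by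
      have : Real.log 2 ≤ 1 := by
        have := Real.log_two_lt_d9
        linarith
      have : 0 ≤ s / 8 * Q := by positivity
      nlinarith
    linarith
  have h3 : s * Q ≤ h * Q * Real.log 2 := by
    have := mul_le_mul_of_nonneg_right hs2 (show (0 : ℝ) ≤ Q by linarith)
    linarith
  have h4 : 0 < s * Q := by positivity
  linarith

end Pool.TE46
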