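import Pool.Agent.H46.TE.Alv
import Pool.Agent.H46.TE.Hlw

/-!
# One hop: the record
-/

set_option autoImplicit false

namespace Pool.TE46

open Finset Real
open Pool.Agent.H49.Ent Pool.Agent.H32.Dense Pool.STK Pool.KA Pool.KSAT Pool.K2S Pool.PB Pool.GEN
open Pool.S6C Pool.LA91 Pool.OWN68 Pool.AJ18 Pool.PAIR76 Pool.PN18 Pool.LPK12 Pool.PR46 Pool.PS46
open Pool.BFL (Pb)

variable {m J : ℕ}

/-- **The hypotheses on the two paths**: the first one is known. -/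
structure TeH (F : Fam m J) (q : F.Ω → ℝ) (R₁ R₂ : LnT F → Polynomial ℝ) {𝒞 Γ : Type}
    (c : LnT F → 𝒞) (Y : F.Ω → Γ) (D i W : ℕ) (x g : ℝ) : Prop where
  deg1 : ∀ y, (R₁ y).natDegree ≤ D
  deg2 : ∀ y, (R₂ y).natDegree ≤ D
  tim : (J : ℝ) * Real.log 2 - g ≤ CH q F.T (fun ω => (F.l ω, F.Z ω))
  key : ∀ ω ω', 0 < q ω → 0 < q ω' → Y ω = Y ω' → F.T ω = F.T ω' ∧ F.Z ω = F.Z ω'
  ctx : CH q (fun ω => c (slam F W ω)) Y ≤ g
  kn1 : ∀ j ≤ D, CH q (fun ω => ⌊pj F R₁ W j ω⌋) Y ≤ g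
  kn2 : ∀ j ≤ D, j ≠ i → CH q (fun ω => ⌊pj F R₂ W j ω⌋) Y ≤ g
  nt2 : CH q (fun ω => ⌊pj F R₂ W i ω / 2 ^ x⌋) Y ≤ g
  hi2 : ∀ j, i < j → j ≤ D → CH q (fun ω => ⌊pj F R₂ W j ω⌋)
    (fun ω => (c (slam F W ω), F.W ω)) ≤ g
  ipp : CH q (fun ω => ⌊pj F R₂ W i ω⌋)
      (fun ω => (⌊pj F R₂ W i ω / 2 ^ x⌋, (c (slam F W ω), F.W ω))) ≤
    CH q (fun ω => ⌊pj F R₂ W i ω⌋) (fun ω => (c (slam F W ω), Y ω)) + g

/-- The code of the coefficient to `2 ^ Q` units. -/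
noncomputable def cH (F : Fam m J) (R : LnT F → Polynomial ℝ) (i Q : ℕ) (x : LnT F) : ℤ :=
  cd F R i x / ((2 ^ Q : ℕ) : ℤ)

/-- The record of the ball. -/
noncomputable def gH (F : Fam m J) (R₁ R₂ : LnT F → Polynomial ℝ) {𝒞 Γ : Type}
    (c : LnT F → 𝒞) (Y : F.Ω → Γ) (D i W Q : ℕ) (x : ℝ) (ω : F.Ω) :
    Γ × (𝒞 × (((Fin (D + 1) → ℤ) × (Fin (D + 1) → ℤ)) × (ℤ × ℤ))) :=
  (Y ω, (c (slam F W ω), ((jv F R₁ W D i 0 ω, jv F R₂ W D i x ω),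
    (cH F R₁ i 0 (slam F W ω), cH F R₂ i Q (slam F W ω)))))

section

variable {F : Fam m J} {q : F.Ω → ℝ} {R₁ R₂ : LnT F → Polynomial ℝ} {𝒞 Γ : Type}
  {c : LnT F → 𝒞} {Y : F.Ω → Γ} {D i W Q : ℕ} {x g : ℝ}

theorem gH_Y {ω ω' : F.Ω} (e : gH F R₁ R₂ c Y D i W Q x ω = gH F R₁ R₂ c Y D i W Q x ω') :
    Y ω = Y ω' := (Prod.ext_iff.mp e).1

theorem TeH.Ytm (H : TeH F q R₁ R₂ c Y D i W x g) : Det q Y (Pool.LPK12.tm F W) :=
  fun ω ω' a b e => by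
  unfold Pool.LPK12.tm
  rw [(H.key ω ω' a b e).1]

theorem TeH.gtm (H : TeH F q R₁ R₂ c Y D i W x g) :
    Det q (gH F R₁ R₂ c Y D i W Q x) (Pool.LPK12.tm F W) := fun ω ω' a b e =>
  H.Ytm ω ω' a b (gH_Y e)

theorem gH_j1 : Det q (gH F R₁ R₂ c Y D i W Q x) (jv F R₁ W D i 0) := fun ω ω' _ _ e => by
  unfold gH at e
  simp only [Prod.mk.injEq] at e
  exact e.2.2.1.1

theorem gH_j2 : Det q (gH F R₁ R₂ c Y D i W Q x) (jv F R₂ W D i x) := fun ω ω' _ _ e => by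
  unfold gH at e
  simp only [Prod.mk.injEq] at e
  exact e.2.2.1.2

theorem gH_N1 : Det q (gH F R₁ R₂ c Y D i W Q x) (fun ω => cH F R₁ i 0 (slam F W ω)) :=
  fun ω ω' _ _ e => by
  unfold gH at e
  simp only [Prod.mk.injEq] at e
  exact e.2.2.2.1

theorem gH_N2 : Det q (gH F R₁ R₂ c Y D i W Q x) (fun ω => cH F R₂ i Q (slam F W ω)) :=
  fun ω ω' _ _ e => by
  unfold gH at e
  simp only [Prod.mk.injEq] at e
  exact e.2.2.2.2

/-- The record determines the context. -/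
theorem TeH.gC (H : TeH F q R₁ R₂ c Y D i W x g) : Det q (gH F R₁ R₂ c Y D i W Q x)
    (fun ω => cC c (slam F W ω)) := fun ω ω' a b e => by
  have h1 := H.key ω ω' a b (gH_Y e)
  unfold gH at e
  simp only [Prod.mk.injEq] at e
  show (c (slam F W ω), (slam F W ω).2) = (c (slam F W ω'), (slam F W ω').2)
  refine Prod.ext e.2.1 ?_
  show (F.Z ω, F.T1 W ω) = (F.Z ω', F.T1 W ω')
  unfold Fam.T1
  rw [h1.1, h1.2]

end

/-- **The record of the ball** is few bits given the record, and given it the code is as free as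
given the context and the natural digits. -/
theorem rec_h (D : ℕ) : ∃ C : ℝ, 1 ≤ C ∧ ∀ {m J : ℕ} (F : Fam m J) {q : F.Ω → ℝ}
    {R₁ R₂ : LnT F → Polynomial ℝ} {𝒞 Γ : Type} {c : LnT F → 𝒞} {Y : F.Ω → Γ} {i W Q : ℕ}
    {x g : ℝ} (_ : IsLaw q), TeH F q R₁ R₂ c Y D i W x g → i ≤ D → 0 ≤ x → x ≤ Q →
    (Q : ℝ) ≤ x + 1 → W ≤ J → 1 ≤ g →
    CH q (gH F R₁ R₂ c Y D i W Q x) Y ≤ C * g ∧
    Real.log (2 * ((MT J W : ℕ) : ℝ) + 1) - C * g ≤ CH q (tw F W) (slam F W) ∧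
    CH q (fun ω => cd F R₂ i (slam F W ω))
        (fun ω => (cH F R₂ i Q (slam F W ω), cC c (slam F W ω))) - C * g ≤
      CH q (fun ω => cd F R₂ i (slam F W ω)) (gH F R₁ R₂ c Y D i W Q x) := by
  obtain ⟨K, hK1, hK2⟩ := cvt D
  have hK : Cvt D K := ⟨hK1, hK2⟩
  obtain ⟨C₁, hC₁, jn⟩ := jet_nat D
  obtain ⟨C₂, hC₂, cn⟩ := cod_nat D
  have lK := LK_nonneg K
  have l3 : 0 ≤ Real.log 3 := Real.log_nonneg (by norm_num)
  obtain ⟨Cc, hCc⟩ : ∃ Cc : ℝ, Cc = 1 + Real.log 3 + 4 * (D + 2) * LK K + 2 * C₁ + 2 * C₂ :=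
    ⟨_, rfl⟩
  have hCc1 : 1 ≤ Cc := by
    have : 0 ≤ 4 * ((D : ℝ) + 2) * LK K := by positivity
    linarith
  obtain ⟨Ca, hCa⟩ : ∃ Ca : ℝ, Ca = 4 * (D + 2) + Cc := ⟨_, rfl⟩
  refine ⟨2 * Ca + 4 * (D + 2) + 2 * Cc, by
    rw [hCa]
    have : (0 : ℝ) ≤ D := Nat.cast_nonneg D
    linarith, ?_⟩
  intro m J F q R₁ R₂ 𝒞 Γ c Y i W Q x g hq H hiD hx hxQ hQx hW hg
  have h0 := hq.nonneg
  have hD0 : (0 : ℝ) ≤ D := Nat.cast_nonneg D
  have hg0 : 0 ≤ g := by linarith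
  have hcg : ∀ y : ℝ, 0 ≤ y → y ≤ Cc → y ≤ Cc * g := fun y _ hy => by nlinarith
  have kg : Cc ≤ Cc * g := hcg Cc (by linarith) le_rfl
  -- the parts of the record
  have v1 : CH q (jv F R₁ W D i 0) Y ≤ (D + 1) * g := by
    refine (CH_pis h0 _ Y).trans ?_
    have h1 : ∀ k ∈ (univ : Finset (Fin (D + 1))), CH q (fun ω => jv F R₁ W D i 0 ω k) Y ≤ g := by
      intro k _
      have e1 : (fun ω => jv F R₁ W D i 0 ω k) = fun ω => ⌊pj F R₁ W k ω⌋ := by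
        funext ω
        unfold jv
        rw [Real.rpow_zero, div_one, ite_self]
      rw [e1]
      exact H.kn1 k (by omega)
    refine (Finset.sum_le_sum h1).trans (le_of_eq ?_)
    rw [Finset.sum_const, Finset.card_univ, Fintype.card_fin, nsmul_eq_mul]
    push_cast
    ring
  have v2 : CH q (jv F R₂ W D i x) Y ≤ (D + 1) * g := by
    refine (CH_pis h0 _ Y).trans ?_
    have h1 : ∀ k ∈ (univ : Finset (Fin (D + 1))), CH q (fun ω => jv F R₂ W D i x ω k) Y ≤ g := by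
      intro k _
      unfold jv
      by_cases hki : (k : ℕ) = i
      · simp only [hki, if_true]
        exact H.nt2
      · simp only [hki, if_false]
        exact H.kn2 k (by omega) hki
    refine (Finset.sum_le_sum h1).trans (le_of_eq ?_)
    rw [Finset.sum_const, Finset.card_univ, Fintype.card_fin, nsmul_eq_mul]
    push_cast
    ring
  -- the record
  have ha : CH q (gH F R₁ R₂ c Y D i W Q x) Y ≤ Ca * g := by
    have s1 := CH_subadd h0 Y (fun ω => (c (slam F W ω), ((jv F R₁ W D i 0 ω, jv F R₂ W D i x ω),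
      (cH F R₁ i 0 (slam F W ω), cH F R₂ i Q (slam F W ω))))) Y
    have s2 := CH_subadd h0 (fun ω => c (slam F W ω)) (fun ω => ((jv F R₁ W D i 0 ω,
      jv F R₂ W D i x ω), (cH F R₁ i 0 (slam F W ω), cH F R₂ i Q (slam F W ω)))) Y
    have s3 := CH_subadd h0 (fun ω => (jv F R₁ W D i 0 ω, jv F R₂ W D i x ω))
      (fun ω => (cH F R₁ i 0 (slam F W ω), cH F R₂ i Q (slam F W ω))) Y
    have s4 := CH_subadd h0 (jv F R₁ W D i 0) (jv F R₂ W D i x) Y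
    have s5 : CH q Y Y = 0 := CH_eq_zero h0 fun _ _ _ _ e => e
    have s6 := CH_le_add h0 (fun ω => (cH F R₁ i 0 (slam F W ω), cH F R₂ i Q (slam F W ω)))
      (fun ω => (jv F R₁ W D i 0 ω, jv F R₂ W D i x ω)) Y
    have s7 := CH_subadd h0 (fun ω => cH F R₁ i 0 (slam F W ω))
      (fun ω => cH F R₂ i Q (slam F W ω))
      (fun ω => ((jv F R₁ W D i 0 ω, jv F R₂ W D i x ω), Y ω))
    have s8 := cn F R₁ (Q := 0) (x := 0)
      (G := fun ω => ((jv F R₁ W D i 0 ω, jv F R₂ W D i x ω), Y ω)) hq H.deg1 le_rfl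
      (by simp) (fun ω ω' a b e => H.Ytm ω ω' a b (Prod.ext_iff.mp e).2)
      (fun ω ω' _ _ e => (Prod.ext_iff.mp (Prod.ext_iff.mp e).1).1)
    have s9 := cn F R₂ (G := fun ω => ((jv F R₁ W D i 0 ω, jv F R₂ W D i x ω), Y ω)) hq H.deg2 hx
      hxQ (fun ω ω' a b e => H.Ytm ω ω' a b (Prod.ext_iff.mp e).2)
      (fun ω ω' _ _ e => (Prod.ext_iff.mp (Prod.ext_iff.mp e).1).2)
    have e2 : gH F R₁ R₂ c Y D i W Q x = fun ω => (Y ω, (c (slam F W ω), ((jv F R₁ W D i 0 ω,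
      jv F R₂ W D i x ω), (cH F R₁ i 0 (slam F W ω), cH F R₂ i Q (slam F W ω))))) := rfl
    have s8' : CH q (fun ω => cH F R₁ i 0 (slam F W ω))
      (fun ω => ((jv F R₁ W D i 0 ω, jv F R₂ W D i x ω), Y ω)) ≤ C₂ := s8
    have s9' : CH q (fun ω => cH F R₂ i Q (slam F W ω))
      (fun ω => ((jv F R₁ W D i 0 ω, jv F R₂ W D i x ω), Y ω)) ≤ C₂ := s9
    rw [e2]
    have s10 : 2 * C₂ ≤ Cc * g := hcg _ (by linarith) (by
      have : 0 ≤ 4 * ((D : ℝ) + 2) * LK K := by positivity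
      linarith)
    have s11 := H.ctx
    have e3 : Ca * g = 4 * (D + 2) * g + Cc * g := by
      rw [hCa]
      ring
    have e4 : (D : ℝ) * g ≥ 0 := by positivity
    rw [e3]
    nlinarith
  obtain ⟨C, hC⟩ : ∃ C : ℝ, C = 2 * Ca + 4 * (D + 2) + 2 * Cc := ⟨_, rfl⟩
  rw [← hC]
  have hCag : 0 ≤ Ca * g := by
    have := CH_nonneg h0 (gH F R₁ R₂ c Y D i W Q x) Y
    linarith
  have hCg : C * g = 2 * (Ca * g) + 4 * (D + 2) * g + 2 * (Cc * g) := by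
    rw [hC]
    ring
  have hDg : 0 ≤ 4 * ((D : ℝ) + 2) * g := by positivity
  have htw := tw_full F hq hW H.tim
  have htm := tm_full F hq hW H.tim
  have hl3g : Real.log 3 ≤ Cc * g := hcg _ l3 (by
    have : 0 ≤ 4 * ((D : ℝ) + 2) * LK K := by positivity
    linarith)
  refine ⟨by linarith, ?_, ?_⟩
  · have e1 : Real.log (2 * ((MT J W : ℕ) : ℝ) + 1) =
        Real.log (2 * ((2 ^ (J - W) : ℕ) : ℝ) + 1) := rfl
    rw [e1]
    have e4 : (D : ℝ) * g ≥ 0 := by positivity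
    refine le_trans ?_ htw
    nlinarith
  -- the chain
  obtain ⟨cDs, hcDs⟩ : ∃ cDs : F.Ω → ℤ, cDs = fun ω => cd F R₂ i (slam F W ω) := ⟨_, rfl⟩
  obtain ⟨X₀, hX₀⟩ : ∃ X₀ : F.Ω → ℤ × (𝒞 × (F.ζ × ℕ)), X₀ = fun ω =>
    (cH F R₂ i Q (slam F W ω), cC c (slam F W ω)) := ⟨_, rfl⟩
  obtain ⟨hvv, hhvv⟩ : ∃ hvv : F.Ω → Fin (D + 1) → ℤ, hvv = fun ω =>
    hv F R₂ D i (slam F W ω) := ⟨_, rfl⟩
  obtain ⟨JJ, hJJ⟩ : ∃ JJ : F.Ω → ℤ, JJ = fun ω => ⌊pj F R₂ W i ω⌋ := ⟨_, rfl⟩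
  obtain ⟨Nt, hNt⟩ : ∃ Nt : F.Ω → ℤ, Nt = fun ω => ⌊pj F R₂ W i ω / 2 ^ x⌋ := ⟨_, rfl⟩
  obtain ⟨gg, hgg⟩ : ∃ gg, gg = gH F R₁ R₂ c Y D i W Q x := ⟨_, rfl⟩
  rw [← hcDs, ← hX₀, ← hgg]
  rw [← hgg] at ha
  have hipp : CH q JJ (fun ω => (Nt ω, (c (slam F W ω), F.W ω))) ≤
      CH q JJ (fun ω => (c (slam F W ω), Y ω)) + g := by
    rw [hJJ, hNt]
    exact H.ipp
  have both : ∀ {Δ : Type} (G : F.Ω → Δ), Det q G (Pool.LPK12.tm F W) → Det q G hvv →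
      CH q JJ (fun ω => (cDs ω, G ω)) ≤ LK K ∧ CH q cDs (fun ω => (JJ ω, G ω)) ≤ LK K := by
    intro Δ G g1 g2
    rw [hhvv] at g2
    have k2 := jet_cod (F := F) (W := W) hq hK H.deg2 g1 g2
    have k4 := cod_jet (F := F) (W := W) hq hK H.deg2 g1 g2
    rw [hJJ, hcDs]
    exact ⟨k2, k4⟩
  have a1 : CH q (Pool.LPK12.tm F W) X₀ ≤ ((J - W : ℕ) : ℝ) * Real.log 2 := by
    have h1 := CH_le_card h0 hq.sum_one (Pool.LPK12.tm F W) X₀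
      (fun _ => Finset.Ico 0 (2 ^ (J - W))) (fun ω _ => by
        rw [Finset.mem_Ico]
        exact tm_range F W ω)
    refine h1.trans (le_of_eq ?_)
    rw [Ex_const hq.sum_one, Int.card_Ico, sub_zero]
    have h2 : (((2 ^ (J - W) : ℤ).toNat : ℕ) : ℝ) = 2 ^ (J - W) := by
      have h3 : ((2 ^ (J - W) : ℤ).toNat : ℤ) = 2 ^ (J - W) :=
        Int.toNat_of_nonneg (by positivity)
      exact_mod_cast h3
    rw [h2, Real.log_pow]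
  have a2 : ((J - W : ℕ) : ℝ) * Real.log 2 - (g + Real.log 3) ≤
      CH q (Pool.LPK12.tm F W) (fun ω => (cDs ω, X₀ ω)) := by
    refine htm.trans (CH_mono_cond h0 fun ω ω' _ _ e => ?_)
    rw [hcDs, hX₀]
    simp only [e]
  have b1 := drop_time h0 cDs (Pool.LPK12.tm F W) X₀ a1 a2
  have b2 := CH_le_add h0 cDs hvv (fun ω => (Pool.LPK12.tm F W ω, X₀ ω))
  have htX : Det q (fun ω => (Pool.LPK12.tm F W ω, X₀ ω)) (Pool.LPK12.tm F W) :=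
    fun ω ω' _ _ e => (Prod.ext_iff.mp e).1
  have hcW : ∀ ω ω', (Pool.LPK12.tm F W ω, X₀ ω) = (Pool.LPK12.tm F W ω', X₀ ω') →
      c (slam F W ω) = c (slam F W ω') ∧ F.W ω = F.W ω' := fun ω ω' e => by
    obtain ⟨e1, e2⟩ := Prod.ext_iff.mp e
    rw [hX₀] at e2
    exact cC_W e1 (Prod.ext_iff.mp e2).2
  have b3 : CH q hvv (fun ω => (Pool.LPK12.tm F W ω, X₀ ω)) ≤
      (D + 1) * g + (D + 1) * LK K := by
    rw [hhvv]
    exact hv_hi (i := i) (e := g) hq hK H.deg2 htX hg0 (fun j h1 h2 =>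
      (CH_mono_cond h0 fun ω ω' _ _ e => by
        obtain ⟨e1, e2⟩ := hcW ω ω' e
        exact Prod.ext e1 e2).trans (H.hi2 j h1 h2))
  have b4 := CH_le_add h0 cDs JJ (fun ω => (hvv ω, (Pool.LPK12.tm F W ω, X₀ ω)))
  have b4' := (both (fun ω => (hvv ω, (Pool.LPK12.tm F W ω, X₀ ω)))
    (fun ω ω' _ _ e => (Prod.ext_iff.mp (Prod.ext_iff.mp e).2).1)
    (fun ω ω' _ _ e => (Prod.ext_iff.mp e).1)).2
  have b5 := CH_le_add h0 JJ Nt (fun ω => (hvv ω, (Pool.LPK12.tm F W ω, X₀ ω)))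
  have b5' : CH q Nt (fun ω => (hvv ω, (Pool.LPK12.tm F W ω, X₀ ω))) ≤ C₁ := by
    have h3 := jn F R₂ (Q := Q) (i := i) (G := fun ω => (hvv ω, (Pool.LPK12.tm F W ω, X₀ ω)))
      hq H.deg2 hx hQx (fun ω ω' _ _ e => (Prod.ext_iff.mp (Prod.ext_iff.mp e).2).1)
      (fun ω ω' a b e => by
        have := (Prod.ext_iff.mp e).1
        rw [hhvv] at this
        exact this)
      (fun ω ω' a b e => by
        have := (Prod.ext_iff.mp (Prod.ext_iff.mp e).2).2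
        rw [hX₀] at this
        exact (Prod.ext_iff.mp this).1)
    rw [hNt]
    exact h3
  have b5'' : CH q JJ (fun ω => (Nt ω, (hvv ω, (Pool.LPK12.tm F W ω, X₀ ω)))) ≤
      CH q JJ (fun ω => (Nt ω, (c (slam F W ω), F.W ω))) := CH_mono_cond h0 fun ω ω' _ _ e => by
    obtain ⟨e1, e2⟩ := Prod.ext_iff.mp e
    obtain ⟨e3, e4⟩ := hcW ω ω' (Prod.ext_iff.mp e2).2
    exact Prod.ext e1 (Prod.ext e3 e4)
  have b7 := CH_le_add h0 JJ gg (fun ω => (c (slam F W ω), Y ω))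
  have b7' : CH q gg (fun ω => (c (slam F W ω), Y ω)) ≤ CH q gg Y :=
    CH_mono_cond h0 fun ω ω' _ _ e => (Prod.ext_iff.mp e).2
  have b7'' : CH q JJ (fun ω => (gg ω, (c (slam F W ω), Y ω))) ≤ CH q JJ gg :=
    CH_mono_cond h0 fun ω ω' _ _ e => (Prod.ext_iff.mp e).1
  have b8 := CH_le_add h0 JJ cDs gg
  have b9 := CH_le_add h0 JJ hvv (fun ω => (cDs ω, gg ω))
  have hgt : Det q (fun ω => (cDs ω, gg ω)) (Pool.LPK12.tm F W) := fun ω ω' a b e => by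
    have := (Prod.ext_iff.mp e).2
    rw [hgg] at this
    exact H.gtm ω ω' a b this
  have b10 : CH q hvv (fun ω => (cDs ω, gg ω)) ≤ (D + 1) * LK K := by
    rw [hhvv]
    exact hv_few (G := fun ω => (cDs ω, gg ω)) (i₀ := i) (x := x) hq hK H.deg2 hx hgt
      (fun ω ω' a b e => by
        have := (Prod.ext_iff.mp e).2
        rw [hgg] at this
        exact gH_j2 ω ω' a b this)
  have b11 : CH q JJ (fun ω => (hvv ω, (cDs ω, gg ω))) ≤ LK K := by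
    have h1 := (both (fun ω => (hvv ω, gg ω)) (fun ω ω' a b e => by
      have := (Prod.ext_iff.mp e).2
      rw [hgg] at this
      exact H.gtm ω ω' a b this) (fun ω ω' _ _ e => (Prod.ext_iff.mp e).1)).1
    refine (CH_mono_cond h0 fun ω ω' _ _ e => ?_).trans h1
    simp only [Prod.mk.injEq] at e ⊢
    exact ⟨e.2.1, e.1, e.2.2⟩
  have c1 : 4 * (D + 2) * LK K + 2 * C₁ + Real.log 3 ≤ Cc * g := hcg _ (by
    have : 0 ≤ 4 * ((D : ℝ) + 2) * LK K := by positivity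
    linarith) (by linarith)
  have e4 : (0 : ℝ) ≤ D * g := by positivity
  have e4' : (0 : ℝ) ≤ D * LK K := by positivity
  have e5 : 4 * ((D : ℝ) + 2) * LK K = 4 * (D * LK K) + 8 * LK K := by ring
  have e6 : 4 * ((D : ℝ) + 2) * g = 4 * (D * g) + 8 * g := by ring
  have e7 : ((D : ℝ) + 1) * g + (D + 1) * LK K = D * g + g + D * LK K + LK K := by ring
  have e8 : ((D : ℝ) + 1) * LK K = D * LK K + LK K := by ring
  rw [e7] at b3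
  rw [e8] at b10
  rw [hCg, e6]
  rw [e5] at c1
  linarith

/-- **The alive code** on the large events. -/
theorem alv_h (D : ℕ) : ∃ C : ℝ, 1 ≤ C ∧ ∀ {m J : ℕ} (F : Fam m J) {A : F.Ω → Prop}
    {R₁ R₂ : LnT F → Polynomial ℝ} {𝒞 Γ : Type} {c : LnT F → 𝒞} {Y : F.Ω → Γ} {i W Q : ℕ}
    {x g y B c₀ β : ℝ} (_ : 0 < Pe F.p A),
    TeH F (Pool.Agent.H49.Ent.cond F.p A True) R₁ R₂ c Y D i W x g → i ≤ D → 0 ≤ x → x ≤ Q →
    (Q : ℝ) ≤ x + 1 → W ≤ J → 1 ≤ g → 0 ≤ y → 0 < B → B ≤ 2 ^ y → 0 < c₀ → c₀ ≤ 1 →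
    (∀ E : F.Ω → Prop, Sub E A → c₀ * Pe F.p A ≤ Pe F.p E →
      β ≤ CH (Pool.Agent.H49.Ent.cond F.p E True) (fun ω => ⌊pj F R₂ W i ω / 2 ^ y⌋) Y) →
    ∀ S : F.Ω → Prop, c₀ ≤ Pb (Pool.Agent.H49.Ent.cond F.p A True) S →
      β - C * g / c₀ ≤ CH (Pool.Agent.H49.Ent.cond (Pool.Agent.H49.Ent.cond F.p A True) S True)
        (fun ω => ⌊(cd F R₂ i (slam F W ω) : ℝ) / B⌋) (gH F R₁ R₂ c Y D i W Q x) := by
  obtain ⟨C₁, hC₁, rec⟩ := rec_h D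
  obtain ⟨C₂, hC₂, crs⟩ := jet_crs D
  refine ⟨C₁ + Real.log 2 + C₂, by
    have := Real.log_nonneg (show (1 : ℝ) ≤ 2 by norm_num)
    linarith, ?_⟩
  intro m J F A R₁ R₂ 𝒞 Γ c Y i W Q x g y B c₀ β hA H hiD hx hxQ hQx hW hg hy hB hBy hc₀ hc1 hal
    S hS
  have hq := isLaw_cond F.isLaw hA
  obtain ⟨r1, -, -⟩ := rec F hq H hiD hx hxQ hQx hW hg
  rw [Pb_Pe] at hS
  obtain ⟨p, hp⟩ : ∃ p, p = Pool.Agent.H49.Ent.cond F.p A True := ⟨_, rfl⟩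
  rw [← hp] at hq H r1 hS ⊢
  have hpS : 0 < Pe p S := by linarith
  have hqS : IsLaw (Pool.Agent.H49.Ent.cond p S True) := isLaw_cond hq hpS
  have h0 := hqS.nonneg
  obtain ⟨q, hqd⟩ : ∃ q, q = Pool.Agent.H49.Ent.cond p S True := ⟨_, rfl⟩
  have hcd := cond_dens hq hc₀ hS
  have hE := hal (fun ω => A ω ∧ S ω) (fun ω h => h.1) (by
    rw [hp] at hS
    exact part_pos hA hS)
  rw [← cond_and S hA.ne', ← hp] at hE
  have h1 := CH_dens hq hqS (R := 1 / c₀) (by positivity) hcd (gH F R₁ R₂ c Y D i W Q x) Y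
  rw [← hqd] at hqS h0 hcd hE h1 ⊢
  have h2 := CH_le_add h0 (fun ω => ⌊pj F R₂ W i ω / 2 ^ y⌋) (gH F R₁ R₂ c Y D i W Q x) Y
  have h3 : CH q (fun ω => ⌊pj F R₂ W i ω / 2 ^ y⌋)
      (fun ω => (gH F R₁ R₂ c Y D i W Q x ω, Y ω)) ≤
      CH q (fun ω => ⌊pj F R₂ W i ω / 2 ^ y⌋) (gH F R₁ R₂ c Y D i W Q x) :=
    CH_mono_cond h0 fun ω ω' _ _ e => (Prod.ext_iff.mp e).1
  have h4 := CH_le_add h0 (fun ω => ⌊pj F R₂ W i ω / 2 ^ y⌋)
    (fun ω => ⌊(cd F R₂ i (slam F W ω) : ℝ) / B⌋) (gH F R₁ R₂ c Y D i W Q x)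
  have hpos : ∀ ω, 0 < q ω → 0 < p ω := fun ω hω => by
    have := hcd ω
    by_contra hn
    push Not at hn
    have h5 : 1 / c₀ * p ω ≤ 0 := mul_nonpos_of_nonneg_of_nonpos (by positivity) hn
    linarith
  have h5 := crs F R₂ (i := i) (W := W) (G := gH F R₁ R₂ c Y D i W Q x) hqS H.deg2 hx hy hB hBy
    (fun ω ω' a b e => H.gtm ω ω' (hpos ω a) (hpos ω' b) e)
    (fun ω ω' a b e => gH_j2 (q := p) ω ω' (hpos ω a) (hpos ω' b) e)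
  have h7 : 1 / c₀ * (CH p (gH F R₁ R₂ c Y D i W Q x) Y + Real.log 2) ≤
      (C₁ + Real.log 2) * g / c₀ := by
    rw [one_div, ← div_eq_inv_mul]
    refine div_le_div_of_nonneg_right ?_ hc₀.le
    have := Real.log_nonneg (show (1 : ℝ) ≤ 2 by norm_num)
    nlinarith
  have h8 : C₂ ≤ C₂ * g / c₀ := by
    rw [le_div_iff₀ hc₀]
    nlinarith
  have h9 : (C₁ + Real.log 2 + C₂) * g / c₀ = (C₁ + Real.log 2) * g / c₀ + C₂ * g / c₀ := by ring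
  rw [h9]
  linarith

/-- **The displacement**: the alive path by its code, the known one not at all. -/
theorem dsp_h (D : ℕ) : ∃ K : ℕ, ∀ {m J : ℕ} (F : Fam m J) (R₁ R₂ : LnT F → Polynomial ℝ)
    {i W Q : ℕ} {x : ℝ} {p : F.Ω → ℝ} {Γ : Type} {G : F.Ω → Γ}, 1 ≤ i → i ≤ D → 0 ≤ x →
    (∀ y, (R₁ y).natDegree ≤ D) → (∀ y, (R₂ y).natDegree ≤ D) →
    Det p G (Pool.LPK12.tm F W) → Det p G (jv F R₁ W D i 0) → Det p G (jv F R₂ W D i x) →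
    Det p G (fun ω => cH F R₁ i 0 (slam F W ω)) → Det p G (fun ω => cH F R₂ i Q (slam F W ω)) →
    Disp p (2 ^ Q) (MT J W) K (sgm (2 ^ Q) (MT J W) (i - 1)) (slam F W) (tw F W) G
      (fun y => cd F R₂ i y) (uR F R₂ W) (uR F R₁ W) (fun d => (d : ℝ)) (fun _ => 0) := by
  obtain ⟨K, H⟩ := dsp_path D
  refine ⟨K, ?_⟩
  intro m J F R₁ R₂ i W Q x p Γ G hi hiD hx hd1 hd2 ht hj1 hj2 hN1 hN2
  refine ⟨fun ω ω' hω hω' e => ?_⟩
  have e1 := ht ω ω' hω hω' e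
  have e2 := hj1 ω ω' hω hω' e
  have e3 := hj2 ω ω' hω hω' e
  have e4 := hN1 ω ω' hω hω' e
  have e5 := hN2 ω ω' hω hω' e
  dsimp only at e4 e5
  unfold cH at e4 e5
  have e6 : cd F R₁ i (slam F W ω) = cd F R₁ i (slam F W ω') := by
    simpa using e4
  refine ⟨?_, ?_, fun τ hτ => ⟨?_, ?_⟩⟩
  · exact div_eq_lt (by positivity) e5
  · simp only [sub_self, abs_zero]
    positivity
  · exact H F R₂ i W Q x hi hiD hx hd2 ω ω' e1 e3 e5 τ hτ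
  · have h1 := H F R₁ i W 0 0 hi hiD le_rfl hd1 ω ω' e1 e2 e4 τ hτ
    rw [e6, sub_self, zero_mul, sub_zero] at h1
    simp only [sub_self, zero_mul, sub_zero]
    exact h1

end Pool.TE46
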