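import Pool.Agent.H46.TE.Nfe

/-!
# Ties of own paths: the freedom of the codes over the record
-/

set_option autoImplicit false

namespace Pool.TE46

open Finset Real
open Pool.Agent.H49.Ent Pool.Agent.H32.Dense Pool.STK Pool.KA Pool.KSAT Pool.K2S Pool.PB Pool.GEN
open Pool.S6C Pool.LA91 Pool.OWN68 Pool.AJ18 Pool.PAIR76 Pool.PN18 Pool.LPK12 Pool.PR46 Pool.PS46
open Pool.BFL (Pb)

variable {m J : ℕ}

/-- The higher codes are few given the higher jets. -/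
theorem hv_hi {F : Fam m J} {R : LnT F → Polynomial ℝ} {W D i : ℕ} {K e : ℝ} {q : F.Ω → ℝ}
    {Γ : Type} {G : F.Ω → Γ} (hq : IsLaw q) (hK : Cvt D K) (hdeg : ∀ y, (R y).natDegree ≤ D)
    (ht : Det q G (Pool.LPK12.tm F W)) (he : 0 ≤ e)
    (hj : ∀ j, i < j → j ≤ D → CH q (fun ω => ⌊pj F R W j ω⌋) G ≤ e) :
    CH q (fun ω => hv F R D i (slam F W ω)) G ≤ (D + 1) * e + (D + 1) * LK K := by
  have h0 := hq.nonneg
  obtain ⟨U, hU⟩ : ∃ U : F.Ω → Fin (D + 1) → ℤ, U = fun ω (j : Fin (D + 1)) =>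
    if i < (j : ℕ) then ⌊pj F R W j ω⌋ else 0 := ⟨_, rfl⟩
  have h1 : CH q U G ≤ (D + 1) * e := by
    refine (CH_pis h0 U G).trans ?_
    have h2 : ∀ j ∈ (univ : Finset (Fin (D + 1))), CH q (fun ω => U ω j) G ≤ e := by
      intro j _
      rw [hU]
      by_cases hji : i < (j : ℕ)
      · simp only [hji, if_true]
        exact hj j hji (by omega)
      · simp only [hji, if_false]
        have h3 : CH q (fun _ : F.Ω => (0 : ℤ)) G = 0 := CH_eq_zero h0 fun _ _ _ _ _ => rfl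
        rw [h3]
        exact he
    refine (Finset.sum_le_sum h2).trans (le_of_eq ?_)
    rw [Finset.sum_const, Finset.card_univ, Fintype.card_fin, nsmul_eq_mul]
    push_cast
    ring
  have h2 : CH q (fun ω => hv F R D i (slam F W ω)) (fun ω => (U ω, G ω)) ≤ (D + 1) * LK K := by
    refine (CH_pis h0 _ _).trans ?_
    have h3 : ∀ k ∈ (univ : Finset (Fin (D + 1))),
        CH q (fun ω => hv F R D i (slam F W ω) k) (fun ω => (U ω, G ω)) ≤ LK K := by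
      intro k _
      unfold hv
      by_cases hk : i < (k : ℕ)
      · simp only [hk, if_true]
        refine CH_near hq _ _ fun ω ω' a b e => ?_
        obtain ⟨e2, e3⟩ := Prod.ext_iff.mp e
        dsimp only at e2 e3
        have e1 := ht ω ω' a b e3
        have h2 := (hK.2 (R (slam F W ω)) (R (slam F W ω'))
          ((Pool.LPK12.tm F W ω : ℝ) / 2 ^ (J - W)) k
          (hdeg _) (hdeg _) (tm_unit F W ω).1 (tm_unit F W ω).2).2 1 (fun j hkj hjD => by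
            have h4 := congrFun e2 (⟨j, by omega⟩ : Fin (D + 1))
            rw [hU] at h4
            simp only [show i < j by omega, if_true] at h4
            have h5 := floor_eq_abs h4
            rw [pj_eq, pj_eq, ← e1] at h5
            exact h5) zero_le_one
        rw [mul_one] at h2
        exact h2
      · simp only [hk, if_false]
        have h4 : CH q (fun _ : F.Ω => (0 : ℤ)) (fun ω => (U ω, G ω)) = 0 :=
          CH_eq_zero h0 fun _ _ _ _ _ => rfl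
        rw [h4]
        exact LK_nonneg K
    refine (Finset.sum_le_sum h3).trans (le_of_eq ?_)
    rw [Finset.sum_const, Finset.card_univ, Fintype.card_fin, nsmul_eq_mul]
    push_cast
    ring
  have h3 := CH_le_add h0 (fun ω => hv F R D i (slam F W ω)) U G
  linarith

/-- **The record of the ball** is few bits given the record, and given it the codes are as free as
given the context and the natural digits. -/
theorem rec_of (D : ℕ) : ∃ C : ℝ, 1 ≤ C ∧ ∀ {m J : ℕ} (F : Fam m J) {q : F.Ω → ℝ}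
    {R₁ R₂ : LnT F → Polynomial ℝ} {𝒞 Γ : Type} {c : LnT F → 𝒞} {Y : F.Ω → Γ} {i W Q : ℕ}
    {x g : ℝ} (_ : IsLaw q), TeR F q R₁ R₂ c Y D i W x g → i ≤ D → 0 ≤ x → x ≤ Q →
    (Q : ℝ) ≤ x + 1 → W ≤ J → 1 ≤ g →
    CH q (gG F R₁ R₂ c Y D i W Q x) Y ≤ C * g ∧
    Real.log (2 * ((MT J W : ℕ) : ℝ) + 1) - C * g ≤ CH q (tw F W) (slam F W) ∧
    CH q (fun ω => cD F R₁ R₂ i (slam F W ω))
        (fun ω => (cN F R₁ R₂ i Q (slam F W ω), cC c (slam F W ω))) - C * g ≤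
      CH q (fun ω => cD F R₁ R₂ i (slam F W ω)) (gG F R₁ R₂ c Y D i W Q x) := by
  obtain ⟨K, hK1, hK2⟩ := cvt D
  have hK : Cvt D K := ⟨hK1, hK2⟩
  obtain ⟨C₁, hC₁, jn⟩ := jet_nat D
  obtain ⟨C₂, hC₂, cn⟩ := cod_nat D
  have lK := LK_nonneg K
  have l3 : 0 ≤ Real.log 3 := Real.log_nonneg (by norm_num)
  obtain ⟨Cc, hCc⟩ : ∃ Cc : ℝ, Cc = 1 + Real.log 3 + 4 * (D + 2) * LK K + 2 * C₁ + 2 * C₂ :=
    ⟨_, rfl⟩
  have hCc1 : 1 ≤ Cc := by
    have : 0 ≤ 4 * ((D : ℝ) + 2) * LK K := by positivity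
    linarith
  obtain ⟨Ca, hCa⟩ : ∃ Ca : ℝ, Ca = 4 * (D + 2) + Cc := ⟨_, rfl⟩
  refine ⟨2 * Ca + 4 * (D + 2) + 2 * Cc, by
    rw [hCa]
    have : (0 : ℝ) ≤ D := Nat.cast_nonneg D
    linarith, ?_⟩
  intro m J F q R₁ R₂ 𝒞 Γ c Y i W Q x g hq H hiD hx hxQ hQx hW hg
  have h0 := hq.nonneg
  have hD0 : (0 : ℝ) ≤ D := Nat.cast_nonneg D
  have hg0 : 0 ≤ g := by linarith
  have hcg : ∀ y : ℝ, 0 ≤ y → y ≤ Cc → y ≤ Cc * g := fun y _ hy => by nlinarith
  have kg : Cc ≤ Cc * g := hcg Cc (by linarith) le_rfl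
  -- the parts of the record
  have v1 : CH q (jv F R₁ W D i x) Y ≤ (D + 1) * g := by
    by_cases hi0 : i = 0
    · subst hi0
      refine (CH_pis h0 _ Y).trans ?_
      have h1 : ∀ k ∈ (univ : Finset (Fin (D + 1))), CH q (fun ω => jv F R₁ W D 0 x ω k) Y ≤ g := by
        intro k _
        unfold jv
        by_cases hki : (k : ℕ) = 0
        · simp only [hki, if_true]
          exact H.nt1
        · simp only [hki, if_false]
          exact H.kn1 k (by omega) hki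
      refine (Finset.sum_le_sum h1).trans (le_of_eq ?_)
      rw [Finset.sum_const, Finset.card_univ, Fintype.card_fin, nsmul_eq_mul]
      push_cast
      ring
    · exact jv_few h0 (H.kn1 0 (by omega) (by omega)) (fun j _ h2 h3 => H.kn1 j h2 h3) H.nt1
  have v2 : CH q (jv F R₂ W D i x) Y ≤ (D + 1) * g := by
    by_cases hi0 : i = 0
    · subst hi0
      refine (CH_pis h0 _ Y).trans ?_
      have h1 : ∀ k ∈ (univ : Finset (Fin (D + 1))), CH q (fun ω => jv F R₂ W D 0 x ω k) Y ≤ g := by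
        intro k _
        unfold jv
        by_cases hki : (k : ℕ) = 0
        · simp only [hki, if_true]
          exact H.nt2
        · simp only [hki, if_false]
          exact H.kn2 k (by omega) hki
      refine (Finset.sum_le_sum h1).trans (le_of_eq ?_)
      rw [Finset.sum_const, Finset.card_univ, Fintype.card_fin, nsmul_eq_mul]
      push_cast
      ring
    · exact jv_few h0 (H.kn2 0 (by omega) (by omega)) (fun j _ h2 h3 => H.kn2 j h2 h3) H.nt2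
  -- the record
  have ha : CH q (gG F R₁ R₂ c Y D i W Q x) Y ≤ Ca * g := by
    have s1 := CH_subadd h0 Y (fun ω => (c (slam F W ω), ((jv F R₁ W D i x ω, jv F R₂ W D i x ω),
      cN F R₁ R₂ i Q (slam F W ω)))) Y
    have s2 := CH_subadd h0 (fun ω => c (slam F W ω)) (fun ω => ((jv F R₁ W D i x ω,
      jv F R₂ W D i x ω), cN F R₁ R₂ i Q (slam F W ω))) Y
    have s3 := CH_subadd h0 (fun ω => (jv F R₁ W D i x ω, jv F R₂ W D i x ω))
      (fun ω => cN F R₁ R₂ i Q (slam F W ω)) Y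
    have s4 := CH_subadd h0 (jv F R₁ W D i x) (jv F R₂ W D i x) Y
    have s5 : CH q Y Y = 0 := CH_eq_zero h0 fun _ _ _ _ e => e
    have s6 := CH_le_add h0 (fun ω => cN F R₁ R₂ i Q (slam F W ω))
      (fun ω => (jv F R₁ W D i x ω, jv F R₂ W D i x ω)) Y
    have s7 := CH_subadd h0 (fun ω => cd F R₁ i (slam F W ω) / ((2 ^ Q : ℕ) : ℤ))
      (fun ω => cd F R₂ i (slam F W ω) / ((2 ^ Q : ℕ) : ℤ))
      (fun ω => ((jv F R₁ W D i x ω, jv F R₂ W D i x ω), Y ω))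
    have s8 := cn F R₁ (G := fun ω => ((jv F R₁ W D i x ω, jv F R₂ W D i x ω), Y ω)) hq H.deg1 hx
      hxQ (fun ω ω' a b e => H.Ytm ω ω' a b (Prod.ext_iff.mp e).2)
      (fun ω ω' _ _ e => (Prod.ext_iff.mp (Prod.ext_iff.mp e).1).1)
    have s9 := cn F R₂ (G := fun ω => ((jv F R₁ W D i x ω, jv F R₂ W D i x ω), Y ω)) hq H.deg2 hx
      hxQ (fun ω ω' a b e => H.Ytm ω ω' a b (Prod.ext_iff.mp e).2)
      (fun ω ω' _ _ e => (Prod.ext_iff.mp (Prod.ext_iff.mp e).1).2)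
    have e1 : (fun ω => cN F R₁ R₂ i Q (slam F W ω)) = fun ω =>
      (cd F R₁ i (slam F W ω) / ((2 ^ Q : ℕ) : ℤ), cd F R₂ i (slam F W ω) / ((2 ^ Q : ℕ) : ℤ)) := rfl
    have e2 : gG F R₁ R₂ c Y D i W Q x = fun ω => (Y ω, (c (slam F W ω), ((jv F R₁ W D i x ω,
      jv F R₂ W D i x ω), cN F R₁ R₂ i Q (slam F W ω)))) := rfl
    rw [e2]
    rw [← e1] at s7
    have s10 : 2 * C₂ ≤ Cc * g := hcg _ (by linarith) (by
      have : 0 ≤ 4 * ((D : ℝ) + 2) * LK K := by positivity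
      linarith)
    have s11 := H.ctx
    have e3 : Ca * g = 4 * (D + 2) * g + Cc * g := by
      rw [hCa]
      ring
    have e4 : (D : ℝ) * g ≥ 0 := by positivity
    rw [e3]
    nlinarith
  obtain ⟨C, hC⟩ : ∃ C : ℝ, C = 2 * Ca + 4 * (D + 2) + 2 * Cc := ⟨_, rfl⟩
  rw [← hC]
  have hCag : 0 ≤ Ca * g := by
    have := CH_nonneg h0 (gG F R₁ R₂ c Y D i W Q x) Y
    linarith
  have hCg : C * g = 2 * (Ca * g) + 4 * (D + 2) * g + 2 * (Cc * g) := by
    rw [hC]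
    ring
  have hDg : 0 ≤ 4 * ((D : ℝ) + 2) * g := by positivity
  have htw := tw_full F hq hW H.tim
  have htm := tm_full F hq hW H.tim
  have hl3g : Real.log 3 ≤ Cc * g := hcg _ l3 (by
    have : 0 ≤ 4 * ((D : ℝ) + 2) * LK K := by positivity
    linarith)
  refine ⟨by linarith, ?_, ?_⟩
  · have e1 : Real.log (2 * ((MT J W : ℕ) : ℝ) + 1) =
        Real.log (2 * ((2 ^ (J - W) : ℕ) : ℝ) + 1) := rfl
    rw [e1]
    have e4 : (D : ℝ) * g ≥ 0 := by positivity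
    refine le_trans ?_ htw
    nlinarith
  -- the chain
  obtain ⟨cDs, hcDs⟩ : ∃ cDs : F.Ω → ℤ × ℤ, cDs = fun ω => cD F R₁ R₂ i (slam F W ω) := ⟨_, rfl⟩
  obtain ⟨X₀, hX₀⟩ : ∃ X₀ : F.Ω → (ℤ × ℤ) × (𝒞 × (F.ζ × ℕ)), X₀ = fun ω =>
    (cN F R₁ R₂ i Q (slam F W ω), cC c (slam F W ω)) := ⟨_, rfl⟩
  obtain ⟨hvv, hhvv⟩ : ∃ hvv : F.Ω → (Fin (D + 1) → ℤ) × (Fin (D + 1) → ℤ), hvv = fun ω =>
    (hv F R₁ D i (slam F W ω), hv F R₂ D i (slam F W ω)) := ⟨_, rfl⟩
  obtain ⟨JJ, hJJ⟩ : ∃ JJ : F.Ω → ℤ × ℤ, JJ = fun ω => (⌊pj F R₁ W i ω⌋, ⌊pj F R₂ W i ω⌋) :=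
    ⟨_, rfl⟩
  obtain ⟨Nt, hNt⟩ : ∃ Nt : F.Ω → ℤ × ℤ, Nt = fun ω =>
    (⌊pj F R₁ W i ω / 2 ^ x⌋, ⌊pj F R₂ W i ω / 2 ^ x⌋) := ⟨_, rfl⟩
  obtain ⟨gg, hgg⟩ : ∃ gg, gg = gG F R₁ R₂ c Y D i W Q x := ⟨_, rfl⟩
  rw [← hcDs, ← hX₀, ← hgg]
  rw [← hgg] at ha
  have hipp : CH q JJ (fun ω => (Nt ω, (c (slam F W ω), F.W ω))) ≤
      CH q JJ (fun ω => (c (slam F W ω), Y ω)) + g := by
    rw [hJJ, hNt]
    exact H.ipp
  have both : ∀ {Δ : Type} (G : F.Ω → Δ), Det q G (Pool.LPK12.tm F W) → Det q G hvv →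
      CH q JJ (fun ω => (cDs ω, G ω)) ≤ 2 * LK K ∧ CH q cDs (fun ω => (JJ ω, G ω)) ≤ 2 * LK K := by
    intro Δ G g1 g2
    have g3 : Det q G (fun ω => hv F R₁ D i (slam F W ω)) := fun ω ω' a b e => by
      have := g2 ω ω' a b e
      rw [hhvv] at this
      exact (Prod.ext_iff.mp this).1
    have g4 : Det q G (fun ω => hv F R₂ D i (slam F W ω)) := fun ω ω' a b e => by
      have := g2 ω ω' a b e
      rw [hhvv] at this
      exact (Prod.ext_iff.mp this).2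
    have k1 := jet_cod (F := F) (W := W) hq hK H.deg1 g1 g3
    have k2 := jet_cod (F := F) (W := W) hq hK H.deg2 g1 g4
    have k3 := cod_jet (F := F) (W := W) hq hK H.deg1 g1 g3
    have k4 := cod_jet (F := F) (W := W) hq hK H.deg2 g1 g4
    constructor
    · have h1 := CH_subadd h0 (fun ω => ⌊pj F R₁ W i ω⌋) (fun ω => ⌊pj F R₂ W i ω⌋)
        (fun ω => (cDs ω, G ω))
      have h2 : CH q (fun ω => ⌊pj F R₁ W i ω⌋) (fun ω => (cDs ω, G ω)) ≤
          CH q (fun ω => ⌊pj F R₁ W i ω⌋) (fun ω => (cd F R₁ i (slam F W ω), G ω)) :=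
        CH_mono_cond h0 fun ω ω' _ _ e => by
          rw [hcDs] at e
          unfold cD at e
          simp only [Prod.mk.injEq] at e ⊢
          exact ⟨e.1.1, e.2⟩
      have h3 : CH q (fun ω => ⌊pj F R₂ W i ω⌋) (fun ω => (cDs ω, G ω)) ≤
          CH q (fun ω => ⌊pj F R₂ W i ω⌋) (fun ω => (cd F R₂ i (slam F W ω), G ω)) :=
        CH_mono_cond h0 fun ω ω' _ _ e => by
          rw [hcDs] at e
          unfold cD at e
          simp only [Prod.mk.injEq] at e ⊢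
          exact ⟨e.1.2, e.2⟩
      rw [hJJ]
      linarith
    · have h1 := CH_subadd h0 (fun ω => cd F R₁ i (slam F W ω))
        (fun ω => cd F R₂ i (slam F W ω)) (fun ω => (JJ ω, G ω))
      have h2 : CH q (fun ω => cd F R₁ i (slam F W ω)) (fun ω => (JJ ω, G ω)) ≤
          CH q (fun ω => cd F R₁ i (slam F W ω)) (fun ω => (⌊pj F R₁ W i ω⌋, G ω)) :=
        CH_mono_cond h0 fun ω ω' _ _ e => by
          rw [hJJ] at e
          simp only [Prod.mk.injEq] at e ⊢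
          exact ⟨e.1.1, e.2⟩
      have h3 : CH q (fun ω => cd F R₂ i (slam F W ω)) (fun ω => (JJ ω, G ω)) ≤
          CH q (fun ω => cd F R₂ i (slam F W ω)) (fun ω => (⌊pj F R₂ W i ω⌋, G ω)) :=
        CH_mono_cond h0 fun ω ω' _ _ e => by
          rw [hJJ] at e
          simp only [Prod.mk.injEq] at e ⊢
          exact ⟨e.1.2, e.2⟩
      have e1 : cDs = fun ω => (cd F R₁ i (slam F W ω), cd F R₂ i (slam F W ω)) := hcDs
      rw [← e1] at h1
      linarith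
  have a1 : CH q (Pool.LPK12.tm F W) X₀ ≤ ((J - W : ℕ) : ℝ) * Real.log 2 := by
    have h1 := CH_le_card h0 hq.sum_one (Pool.LPK12.tm F W) X₀
      (fun _ => Finset.Ico 0 (2 ^ (J - W))) (fun ω _ => by
        rw [Finset.mem_Ico]
        exact tm_range F W ω)
    refine h1.trans (le_of_eq ?_)
    rw [Ex_const hq.sum_one, Int.card_Ico, sub_zero]
    have h2 : (((2 ^ (J - W) : ℤ).toNat : ℕ) : ℝ) = 2 ^ (J - W) := by
      have h3 : ((2 ^ (J - W) : ℤ).toNat : ℤ) = 2 ^ (J - W) :=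
        Int.toNat_of_nonneg (by positivity)
      exact_mod_cast h3
    rw [h2, Real.log_pow]
  have a2 : ((J - W : ℕ) : ℝ) * Real.log 2 - (g + Real.log 3) ≤
      CH q (Pool.LPK12.tm F W) (fun ω => (cDs ω, X₀ ω)) := by
    refine htm.trans (CH_mono_cond h0 fun ω ω' _ _ e => ?_)
    rw [hcDs, hX₀]
    simp only [e]
  have b1 := drop_time h0 cDs (Pool.LPK12.tm F W) X₀ a1 a2
  have b2 := CH_le_add h0 cDs hvv (fun ω => (Pool.LPK12.tm F W ω, X₀ ω))
  have htX : Det q (fun ω => (Pool.LPK12.tm F W ω, X₀ ω)) (Pool.LPK12.tm F W) :=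
    fun ω ω' _ _ e => (Prod.ext_iff.mp e).1
  have hcW : ∀ ω ω', (Pool.LPK12.tm F W ω, X₀ ω) = (Pool.LPK12.tm F W ω', X₀ ω') →
      c (slam F W ω) = c (slam F W ω') ∧ F.W ω = F.W ω' := fun ω ω' e => by
    obtain ⟨e1, e2⟩ := Prod.ext_iff.mp e
    rw [hX₀] at e2
    exact cC_W e1 (Prod.ext_iff.mp e2).2
  have b3 : CH q hvv (fun ω => (Pool.LPK12.tm F W ω, X₀ ω)) ≤
      2 * ((D + 1) * g + (D + 1) * LK K) := by
    have h1 := CH_subadd h0 (fun ω => hv F R₁ D i (slam F W ω))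
      (fun ω => hv F R₂ D i (slam F W ω)) (fun ω => (Pool.LPK12.tm F W ω, X₀ ω))
    have h2 := hv_hi (i := i) (e := g) hq hK H.deg1 htX hg0 (fun j h1 h2 =>
      (CH_mono_cond h0 fun ω ω' _ _ e => by
        obtain ⟨e1, e2⟩ := hcW ω ω' e
        exact Prod.ext e1 e2).trans (H.hi1 j h1 h2))
    have h3 := hv_hi (i := i) (e := g) hq hK H.deg2 htX hg0 (fun j h1 h2 =>
      (CH_mono_cond h0 fun ω ω' _ _ e => by
        obtain ⟨e1, e2⟩ := hcW ω ω' e
        exact Prod.ext e1 e2).trans (H.hi2 j h1 h2))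
    rw [← hhvv] at h1
    linarith
  have b4 := CH_le_add h0 cDs JJ (fun ω => (hvv ω, (Pool.LPK12.tm F W ω, X₀ ω)))
  have b4' := (both (fun ω => (hvv ω, (Pool.LPK12.tm F W ω, X₀ ω)))
    (fun ω ω' _ _ e => (Prod.ext_iff.mp (Prod.ext_iff.mp e).2).1)
    (fun ω ω' _ _ e => (Prod.ext_iff.mp e).1)).2
  have b5 := CH_le_add h0 JJ Nt (fun ω => (hvv ω, (Pool.LPK12.tm F W ω, X₀ ω)))
  have b5' : CH q Nt (fun ω => (hvv ω, (Pool.LPK12.tm F W ω, X₀ ω))) ≤ 2 * C₁ := by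
    have h1 := CH_subadd h0 (fun ω => ⌊pj F R₁ W i ω / 2 ^ x⌋) (fun ω => ⌊pj F R₂ W i ω / 2 ^ x⌋)
      (fun ω => (hvv ω, (Pool.LPK12.tm F W ω, X₀ ω)))
    have g1 : Det q (fun ω => (hvv ω, (Pool.LPK12.tm F W ω, X₀ ω))) (Pool.LPK12.tm F W) :=
      fun ω ω' _ _ e => (Prod.ext_iff.mp (Prod.ext_iff.mp e).2).1
    have g2 : Det q (fun ω => (hvv ω, (Pool.LPK12.tm F W ω, X₀ ω)))
        (fun ω => cN F R₁ R₂ i Q (slam F W ω)) := fun ω ω' _ _ e => by
      have := (Prod.ext_iff.mp (Prod.ext_iff.mp e).2).2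
      rw [hX₀] at this
      exact (Prod.ext_iff.mp this).1
    have h2 := jn F R₁ (Q := Q) (i := i) (G := fun ω => (hvv ω, (Pool.LPK12.tm F W ω, X₀ ω)))
      hq H.deg1 hx hQx g1
      (fun ω ω' a b e => by
        have := (Prod.ext_iff.mp e).1
        rw [hhvv] at this
        exact (Prod.ext_iff.mp this).1)
      (fun ω ω' a b e => (Prod.ext_iff.mp (g2 ω ω' a b e)).1)
    have h3 := jn F R₂ (Q := Q) (i := i) (G := fun ω => (hvv ω, (Pool.LPK12.tm F W ω, X₀ ω)))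
      hq H.deg2 hx hQx g1
      (fun ω ω' a b e => by
        have := (Prod.ext_iff.mp e).1
        rw [hhvv] at this
        exact (Prod.ext_iff.mp this).2)
      (fun ω ω' a b e => (Prod.ext_iff.mp (g2 ω ω' a b e)).2)
    rw [← hNt] at h1
    linarith
  have b5'' : CH q JJ (fun ω => (Nt ω, (hvv ω, (Pool.LPK12.tm F W ω, X₀ ω)))) ≤
      CH q JJ (fun ω => (Nt ω, (c (slam F W ω), F.W ω))) := CH_mono_cond h0 fun ω ω' _ _ e => by
    obtain ⟨e1, e2⟩ := Prod.ext_iff.mp e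
    obtain ⟨e3, e4⟩ := hcW ω ω' (Prod.ext_iff.mp e2).2
    exact Prod.ext e1 (Prod.ext e3 e4)
  have b7 := CH_le_add h0 JJ gg (fun ω => (c (slam F W ω), Y ω))
  have b7' : CH q gg (fun ω => (c (slam F W ω), Y ω)) ≤ CH q gg Y :=
    CH_mono_cond h0 fun ω ω' _ _ e => (Prod.ext_iff.mp e).2
  have b7'' : CH q JJ (fun ω => (gg ω, (c (slam F W ω), Y ω))) ≤ CH q JJ gg :=
    CH_mono_cond h0 fun ω ω' _ _ e => (Prod.ext_iff.mp e).1
  have b8 := CH_le_add h0 JJ cDs gg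
  have b9 := CH_le_add h0 JJ hvv (fun ω => (cDs ω, gg ω))
  have hgt : Det q (fun ω => (cDs ω, gg ω)) (Pool.LPK12.tm F W) := fun ω ω' a b e => by
    have := (Prod.ext_iff.mp e).2
    rw [hgg] at this
    exact H.gtm ω ω' a b this
  have b10 : CH q hvv (fun ω => (cDs ω, gg ω)) ≤ 2 * ((D + 1) * LK K) := by
    have h1 := CH_subadd h0 (fun ω => hv F R₁ D i (slam F W ω))
      (fun ω => hv F R₂ D i (slam F W ω)) (fun ω => (cDs ω, gg ω))
    have h2 := hv_few (G := fun ω => (cDs ω, gg ω)) (i₀ := i) (x := x) hq hK H.deg1 hx hgt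
      (fun ω ω' a b e => by
        have := (Prod.ext_iff.mp e).2
        rw [hgg] at this
        exact gG_j1 ω ω' a b this)
    have h3 := hv_few (G := fun ω => (cDs ω, gg ω)) (i₀ := i) (x := x) hq hK H.deg2 hx hgt
      (fun ω ω' a b e => by
        have := (Prod.ext_iff.mp e).2
        rw [hgg] at this
        exact gG_j2 ω ω' a b this)
    rw [← hhvv] at h1
    linarith
  have b11 : CH q JJ (fun ω => (hvv ω, (cDs ω, gg ω))) ≤ 2 * LK K := by
    have h1 := (both (fun ω => (hvv ω, gg ω)) (fun ω ω' a b e => by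
      have := (Prod.ext_iff.mp e).2
      rw [hgg] at this
      exact H.gtm ω ω' a b this) (fun ω ω' _ _ e => (Prod.ext_iff.mp e).1)).1
    refine (CH_mono_cond h0 fun ω ω' _ _ e => ?_).trans h1
    simp only [Prod.mk.injEq] at e ⊢
    exact ⟨e.2.1, e.1, e.2.2⟩
  have c1 : 4 * (D + 2) * LK K + 2 * C₁ + Real.log 3 ≤ Cc * g := hcg _ (by
    have : 0 ≤ 4 * ((D : ℝ) + 2) * LK K := by positivity
    linarith) (by linarith)
  have e4 : (0 : ℝ) ≤ D * g := by positivity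
  have e5 : 4 * ((D : ℝ) + 2) * LK K = 4 * (D * LK K) + 8 * LK K := by ring
  have e6 : 4 * ((D : ℝ) + 2) * g = 4 * (D * g) + 8 * g := by ring
  have e7 : 2 * (((D : ℝ) + 1) * g + (D + 1) * LK K) = 2 * (D * g) + 2 * g + 2 * (D * LK K) +
      2 * LK K := by ring
  have e8 : 2 * (((D : ℝ) + 1) * LK K) = 2 * (D * LK K) + 2 * LK K := by ring
  rw [e7] at b3
  rw [e8] at b10
  rw [hCg, e6]
  rw [e5] at c1
  linarith

end Pool.TE46
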