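import Pool.Agent.H46.TE.Cls
import Pool.Agent.H60.ALT.Cmp
import Pool.Agent.H68.OWN.Ne

/-!
# The label of the leaf of a tie

`leaf_lab`: two labels of one window, the second over the coordinates of the first and the first
coordinate, and a slope code of the window: the combination is a label of the second coordinate.
-/

set_option autoImplicit false

namespace Pool.TE46

open Finset Real MvPolynomial
open Pool.Agent.H49.Ent Pool.Agent.H32.Dense Pool.STK Pool.KA Pool.KSAT Pool.K2S Pool.PB Pool.GEN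
open Pool.S6C Pool.RCD Pool.LA91 Pool.OWN68 Pool.AJW Pool.PN18 Pool.LPK12 Pool.PR46
open Pool.GRD (LbP)
open Pool.UNJ (ceI)

variable {m J : ℕ}

/-- The polynomial of the leaf. -/
noncomputable def lfG {V : Type} (κ₁ : Fin m) (f : ℤ → ℝ)
    (G₁ G₂ : V → MvPolynomial (Option (Fin m)) ℝ) (v : V × ℤ) :
    MvPolynomial (Option (Fin m)) ℝ :=
  G₂ v.1 + C (f v.2) * (X (some κ₁) - G₁ v.1)

/-- **The label of the leaf.** -/
theorem leaf_lab {F : Fam m J} {I I₂ : Finset (Fin m)} {κ₁ κ₂ : Fin m}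
    {K K₂ e₁ e₂ W ρ₁ ρ₂ P₁ P₂ : ℕ} {A : F.Ω → Prop} {V : Type} {z : PtT F → V} {z' : LnT F → V}
    {G₁ G₂ : V → MvPolynomial (Option (Fin m)) ℝ} (h₁ : LbOK F I κ₁ K e₁ J W ρ₁ P₁ A z z' G₁)
    (h₂ : LbOK F I₂ κ₂ K₂ e₂ J W ρ₂ P₂ A z z' G₂) (hI : I ⊆ I₂) (hκ : κ₁ ∈ I₂)
    {k₀ : PtT F → ℤ} {k : LnT F → ℤ} (hk : ∀ ω, A ω → k₀ (ptr F J ω) = k (slam F W ω))
    {f : ℤ → ℝ} {Bf : ℝ} (hf : ∀ ω, A ω → |f (k (slam F W ω))| ≤ Bf)
    {K' e ρ P : ℕ} (hK : K ≤ K') (hK2 : K₂ ≤ K') (hK1 : 1 ≤ K') (hρ₁ : ρ₁ ≤ ρ) (hρ₂ : ρ₂ ≤ ρ)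
    (hP : (1 : ℝ) / 2 ^ P₂ + Bf * (1 / 2 ^ P₁) ≤ 1 / 2 ^ P)
    (he : (2 : ℝ) ^ e₂ + Bf * (1 + 2 ^ e₁) ≤ 2 ^ e) :
    LbOK F I₂ κ₂ K' e J W ρ P A (fun p => (z p, k₀ p)) (fun s => (z' s, k s))
      (lfG κ₁ f G₁ G₂) := by
  refine ⟨fun v => ?_, fun v b b' hn hb => ?_, fun ω hω => Prod.ext (h₁.cls ω hω) (hk ω hω),
    fun ω hω => ?_, fun ω hω => ?_, fun ω hω b hb o => ?_⟩
  · unfold lfG
    refine (totalDegree_add _ _).trans (max_le ((h₂.deg v.1).trans hK2) ?_)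
    refine (totalDegree_mul _ _).trans ?_
    rw [totalDegree_C, zero_add]
    refine (totalDegree_sub _ _).trans (max_le ?_ ((h₁.deg v.1).trans hK))
    rw [totalDegree_X]
    exact hK1
  · unfold lfG
    simp only [map_add, map_mul, map_sub, eval_C, eval_X]
    rw [h₂.dep v.1 b b' hn hb, h₁.dep v.1 b b' hn fun i hi => hb i (hI hi), hb κ₁ hκ]
  · have a1 := h₁.pos ω hω
    have a2 := h₂.pos ω hω
    have a3 := hf ω hω
    have e1 : F.x ω κ₂ - eval (bt F ω) (lfG κ₁ f G₁ G₂ (z' (slam F W ω), k (slam F W ω))) =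
        (F.x ω κ₂ - eval (bt F ω) (G₂ (z' (slam F W ω)))) - f (k (slam F W ω)) *
          (F.x ω κ₁ - eval (bt F ω) (G₁ (z' (slam F W ω)))) := by
      unfold lfG
      simp only [map_add, map_mul, map_sub, eval_C, eval_X]
      show _ - (_ + _ * (F.x ω κ₁ - _)) = _
      ring
    show |F.x ω κ₂ - eval (bt F ω) (lfG κ₁ f G₁ G₂ (z' (slam F W ω), k (slam F W ω)))| ≤ _
    rw [e1]
    refine (abs_sub _ _).trans (le_trans (add_le_add a2 ?_) hP)
    rw [abs_mul]
    exact mul_le_mul a3 a1 (abs_nonneg _) ((abs_nonneg _).trans a3)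
  · have a1 := h₁.vel ω hω
    have a2 := h₂.vel ω hω
    have a3 := hf ω hω
    have e1 : F.d ω κ₂ - ∑ o, bd F ω o * eval (bt F ω)
          (pderiv o (lfG κ₁ f G₁ G₂ (z' (slam F W ω), k (slam F W ω)))) =
        (F.d ω κ₂ - ∑ o, bd F ω o * eval (bt F ω) (pderiv o (G₂ (z' (slam F W ω))))) -
          f (k (slam F W ω)) * (F.d ω κ₁ -
            ∑ o, bd F ω o * eval (bt F ω) (pderiv o (G₁ (z' (slam F W ω))))) := by
      have e2 : ∀ o, bd F ω o * eval (bt F ω)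
          (pderiv o (lfG κ₁ f G₁ G₂ (z' (slam F W ω), k (slam F W ω)))) =
          bd F ω o * eval (bt F ω) (pderiv o (G₂ (z' (slam F W ω)))) +
            (f (k (slam F W ω)) * (bd F ω o * (if o = some κ₁ then 1 else 0)) -
            f (k (slam F W ω)) * (bd F ω o *
              eval (bt F ω) (pderiv o (G₁ (z' (slam F W ω)))))) := by
        intro o
        have e3 : eval (bt F ω) (pderiv o (X (some κ₁) : MvPolynomial (Option (Fin m)) ℝ)) =
            if o = some κ₁ then 1 else 0 := by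
          by_cases ho : o = some κ₁
          · rw [if_pos ho, ho, pderiv_X_self, map_one]
          · rw [if_neg ho, pderiv_X_of_ne (Ne.symm ho), map_zero]
        unfold lfG
        rw [map_add, Derivation.leibniz, pderiv_C, map_sub]
        simp only [smul_eq_mul, mul_zero, add_zero, map_add, map_mul, map_sub, eval_C, e3]
        ring
      simp only [e2]
      rw [Finset.sum_add_distrib, Finset.sum_sub_distrib, ← Finset.mul_sum, ← Finset.mul_sum]
      have e4 : ∑ o, bd F ω o * (if o = some κ₁ then (1 : ℝ) else 0) = F.d ω κ₁ := by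
        simp only [mul_ite, mul_one, mul_zero]
        rw [Finset.sum_ite_eq' Finset.univ (some κ₁)]
        simp [bd]
      rw [e4]
      ring
    show |F.d ω κ₂ - ∑ o, bd F ω o * eval (bt F ω)
          (pderiv o (lfG κ₁ f G₁ G₂ (z' (slam F W ω), k (slam F W ω))))| ≤ _
    rw [e1]
    refine (abs_sub _ _).trans ?_
    rw [abs_mul]
    have a4 := mul_le_mul a3 a1 (abs_nonneg _) ((abs_nonneg _).trans a3)
    have a5 := mul_le_mul_of_nonneg_left hP (by positivity : (0 : ℝ) ≤ 2 ^ W)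
    have e6 : (2 : ℝ) ^ W * (1 / 2 ^ P₂ + Bf * (1 / 2 ^ P₁)) =
        2 ^ W / 2 ^ P₂ + Bf * (2 ^ W / 2 ^ P₁) := by ring
    have e7 : (2 : ℝ) ^ W * (1 / 2 ^ P) = 2 ^ W / 2 ^ P := by ring
    rw [e6, e7] at a5
    linarith
  · have b1 := h₁.lip ω hω b (fun o => (hb o).trans (inv_mono hρ₁)) o
    have b2 := h₂.lip ω hω b (fun o => (hb o).trans (inv_mono hρ₂)) o
    have a3 := hf ω hω
    have e3 : |eval b (pderiv o (X (some κ₁) : MvPolynomial (Option (Fin m)) ℝ))| ≤ 1 := by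
      by_cases ho : o = some κ₁
      · rw [ho, pderiv_X_self, map_one, abs_one]
      · rw [pderiv_X_of_ne (Ne.symm ho), map_zero, abs_zero]
        exact zero_le_one
    have e1 : eval b (pderiv o (lfG κ₁ f G₁ G₂ (z' (slam F W ω), k (slam F W ω)))) =
        eval b (pderiv o (G₂ (z' (slam F W ω)))) + f (k (slam F W ω)) *
          (eval b (pderiv o (X (some κ₁) : MvPolynomial (Option (Fin m)) ℝ)) -
            eval b (pderiv o (G₁ (z' (slam F W ω))))) := by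
      unfold lfG
      rw [map_add, Derivation.leibniz, pderiv_C, map_sub]
      simp only [smul_eq_mul, mul_zero, add_zero, map_add, map_mul, map_sub, eval_C]
    show |eval b (pderiv o (lfG κ₁ f G₁ G₂ (z' (slam F W ω), k (slam F W ω))))| ≤ _
    rw [e1]
    refine (abs_add_le _ _).trans (le_trans (add_le_add b2 ?_) he)
    rw [abs_mul]
    refine mul_le_mul a3 ?_ (abs_nonneg _) ((abs_nonneg _).trans a3)
    exact (abs_sub _ _).trans (add_le_add e3 b1)

/-- The own height over the label of the leaf. -/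
theorem leaf_hgt {F : Fam m J} {κ₁ κ₂ : Fin m} {W : ℕ} {V : Type} {z' : LnT F → V}
    {G₁ G₂ : V → MvPolynomial (Option (Fin m)) ℝ} {k : LnT F → ℤ} {f : ℤ → ℝ} (ω : F.Ω) :
    hgt F κ₂ (fun s => (z' s, k s)) W (lfG κ₁ f G₁ G₂) ω =
      hgt F κ₂ z' W G₂ ω - f (k (slam F W ω)) * hgt F κ₁ z' W G₁ ω := by
  rw [hgt_eq, hgt_eq, hgt_eq]
  unfold lfG
  simp only [map_add, map_mul, map_sub, eval_C, eval_X]
  show _ - (_ + _ * (F.x ω κ₁ - _)) = _
  ring

end Pool.TE46
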