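import Pool.Agent.H18.AB.Pln

/-!
# The constants

`plan_ex`: the constants of `Plan` exist. `HopC.eps`, `TieC.eps`: alive to fewer digits. `hops_ex`,
`ties_ex`: the hops, the ties of the orders `j ≤ kt`. `topC_ex`: the hops and the ties of the order
`kt + 1`. `lb_ex`: a positive lower bound. `scl_ex`: the numbers of the scales.
-/

set_option autoImplicit false

namespace Pool.AB18

open Finset Real
open Pool.PN18 Pool.AB63

/-- A positive lower bound of finitely many positive numbers. -/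
theorem lb_ex (n : ℕ) (f : ℕ → ℝ) (hf : ∀ j, 1 ≤ j → j ≤ n → 0 < f j) :
    ∃ δ : ℝ, 0 < δ ∧ δ ≤ 1 ∧ ∀ j, 1 ≤ j → j ≤ n → δ ≤ f j := by
  induction n with
  | zero => exact ⟨1, one_pos, le_rfl, fun j h1 h2 => absurd h1 (by omega)⟩
  | succ n ih =>
    obtain ⟨δ, h0, h1, h2⟩ := ih fun j h1 h2 => hf j h1 (by omega)
    refine ⟨min δ (f (n + 1)), lt_min h0 (hf _ (by omega) le_rfl), (min_le_left _ _).trans h1,
      fun j h3 h4 => ?_⟩
    rcases Nat.lt_or_ge j (n + 1) with h5 | h5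
    · exact (min_le_left _ _).trans (h2 j h3 (by omega))
    · obtain rfl : j = n + 1 := by omega
      exact min_le_right _ _

/-- Alive to fewer digits: a weaker hop. -/
theorem HopC.eps {r D K : ℕ} {a h : ℝ} {j : ℕ} {τ d R ε ε' δ al al' δ₁ : ℝ} (ha : 0 < a)
    (hd : 0 < d) (hε : ε' ≤ ε) (hal : al < al') (H : HopC r D K a h j τ d R ε δ al δ₁) :
    HopC r D K a h j τ d R ε' δ al' δ₁ := by
  intro S S₁ al₀ g₀ P θ P₂ θ₂ Eb e₂ c Pt rt K₀ g L T Sl κ G S₀ N A V S₂ N' V' K' e q t e₀ ρ₀ π₀ μ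
    el dl k₀ G' Tn X φ kf ℓ e' ms p M W w h1 h2 An Dn φn v₀ np hK γ s h3 h4 h5 h6 h7 h8
  have hq := G'.rc.q0
  exact HopB.eps G'.rc.tmc (by positivity) hε (mul_lt_mul_of_pos_right hal (by positivity))
    (H G' p w h1 h2 np hK h3 h4 h5 h6 h7 h8)

/-- Alive to fewer digits: a weaker tie. -/
theorem TieC.eps {r D K : ℕ} {a h : ℝ} {i : ℕ} {τ d R ε ε' δ al al' δ₁ : ℝ} (ha : 0 < a)
    (hd : 0 < d) (hε : ε' ≤ ε) (hal : al < al') (H : TieC r D K a h i τ d R ε δ al δ₁) :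
    TieC r D K a h i τ d R ε' δ al' δ₁ := by
  intro S S₁ al₀ g₀ P θ P₂ θ₂ Eb e₂ c Pt rt K₀ g L T Sl κ G S₀ N A V S₂ N' V' K' e q t e₀ ρ₀ π₀ μ
    el dl k₀ G' Tn X φ kf ℓ e' ms p M W w h1 h2 An Dn φn v₀ np hK γ s h3 h4 h5 h6 h7 h8 h9 h10 h11
    h12 h13 h14
  have hq := G'.rc.q0
  exact TieB.eps G'.rc.tmc (by positivity) hε (mul_lt_mul_of_pos_right hal (by positivity))
    (H G' p w h1 h2 np hK h3 h4 h5 h6 h7 h8 h9 h10 h11 h12 h13 h14)

/-- **The hops** of the orders `j ≤ kt`. -/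
theorem hops_ex {r D K : ℕ} (hr : 1 ≤ r) {a h : ℝ} (ha : 1 < a) (hh : 0 < h) (hh1 : h ≤ 1)
    {kt : ℕ} (hkt : (kt : ℝ) < a) (hkK : kt + 1 ≤ K) (m0 : ℕ) :
    ∃ (εh δh : ℕ → ℝ) (dh : ℕ → ℝ → ℝ), (∀ j, 1 ≤ j → j ≤ kt → 0 < εh j) ∧
      (∀ j, 1 ≤ j → j ≤ kt → 0 < δh j) ∧
      (∀ j, 1 ≤ j → j ≤ kt → ∀ al : ℝ, 0 < al → 0 < dh j al) ∧
      ∀ j, 1 ≤ j → j ≤ kt → ∀ al : ℝ, 0 < al →
        HopC r D K a h j m0 (a - j) ((a - j) * (m0 + 1) / a) (εh j) (δh j) al (dh j al) := by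
  have ha0 : 0 < a := by linarith
  have H : ∀ j, 1 ≤ j ∧ j ≤ kt → ∃ (ε δ : ℝ) (d : ℝ → ℝ), 0 < ε ∧ 0 < δ ∧
      (∀ al : ℝ, 0 < al → 0 < d al) ∧ ∀ al : ℝ, 0 < al →
        HopC r D K a h j m0 (a - j) ((a - j) * (m0 + 1) / a) ε δ al (d al) := by
    intro j hj
    have h1 : (j : ℝ) ≤ kt := by exact_mod_cast hj.2
    have h2 : 0 < a - j := by linarith only [h1, hkt]
    obtain ⟨ε, hε, δ, hδ, H⟩ := hopC_ex (D := D) (K := K) hr ha hh hh1 (j := j) ⟨hj.1, by omega⟩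
      (τ := (m0 : ℝ)) (d := a - j) (R := (a - j) * (m0 + 1) / a) h2 (by positivity)
      (by field_simp) (by linarith only [h1, hkt]) (Nat.cast_nonneg _) (NE := m0 + 1) (jE := 1)
      (by omega) (by omega) (by push_cast; field_simp)
    choose! d hd using H
    exact ⟨ε, δ, d, hε, hδ, fun al h => (hd al h).1, fun al h => (hd al h).2⟩
  choose! ε δ d h1 h2 h3 h4 using H
  exact ⟨ε, δ, d, fun j a b => h1 j ⟨a, b⟩, fun j a b => h2 j ⟨a, b⟩, fun j a b => h3 j ⟨a, b⟩,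
    fun j a b => h4 j ⟨a, b⟩⟩

/-- **The ties** of the orders `i ≤ kt`. -/
theorem ties_ex {r D K : ℕ} (hr : 1 ≤ r) {a h : ℝ} (ha : 1 < a) (hh : 0 < h) (hh1 : h ≤ 1)
    {kt : ℕ} (hkt : (kt : ℝ) < a) (hkK : kt + 1 ≤ K) {m0 : ℕ} (hm0 : 1 ≤ m0) :
    ∃ (εt δt : ℕ → ℝ) (dt : ℕ → ℝ → ℝ), (∀ i, 1 ≤ i → i ≤ kt → 0 < εt i) ∧
      (∀ i, 1 ≤ i → i ≤ kt → 0 < δt i) ∧
      (∀ i, 1 ≤ i → i ≤ kt → ∀ al : ℝ, 0 < al → 0 < dt i al) ∧
      ∀ i, 1 ≤ i → i ≤ kt → ∀ al : ℝ, 0 < al →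
        TieC r D K a h i m0 (a - i) ((a - i) * (m0 + 1) / a) (εt i) (δt i) al (dt i al) := by
  have ha0 : 0 < a := by linarith
  have H : ∀ j, 1 ≤ j ∧ j ≤ kt → ∃ (ε δ : ℝ) (d : ℝ → ℝ), 0 < ε ∧ 0 < δ ∧
      (∀ al : ℝ, 0 < al → 0 < d al) ∧ ∀ al : ℝ, 0 < al →
        TieC r D K a h j m0 (a - j) ((a - j) * (m0 + 1) / a) ε δ al (d al) := by
    intro j hj
    have h1 : (j : ℝ) ≤ kt := by exact_mod_cast hj.2
    have h2 : 0 < a - j := by linarith only [h1, hkt]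
    have h3 : (1 : ℝ) ≤ m0 := by exact_mod_cast hm0
    obtain ⟨ε, hε, δ, hδ, H⟩ := tieC_ex (D := D) (K := K) hr ha hh hh1 (i := j) ⟨hj.1, by omega⟩
      (τ := (m0 : ℝ)) (d := a - j) (R := (a - j) * (m0 + 1) / a) h2 (by positivity)
      (by field_simp) (by linarith only [h1, hkt]) (Nat.cast_nonneg _) (NE := m0 + 1) (jE := 1)
      (by omega) (by push_cast; field_simp) (fun _ => le_mul_of_one_le_right h2.le h3)
    choose! d hd using H
    exact ⟨ε, δ, d, hε, hδ, fun al h => (hd al h).1, fun al h => (hd al h).2⟩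
  choose! ε δ d h1 h2 h3 h4 using H
  exact ⟨ε, δ, d, fun j a b => h1 j ⟨a, b⟩, fun j a b => h2 j ⟨a, b⟩, fun j a b => h3 j ⟨a, b⟩,
    fun j a b => h4 j ⟨a, b⟩⟩

/-- **The hops and the ties of the order** `kt + 1`. -/
theorem topC_ex {r D K : ℕ} (hr : 1 ≤ r) {a h : ℝ} (ha : 1 < a) (hh : 0 < h) (hh1 : h ≤ 1)
    {kt : ℕ} (hkK : kt + 1 ≤ K) :
    ∃ (εT δT : ℝ) (dT : ℝ → ℝ) (εH δH : ℝ) (dH : ℝ → ℝ), 0 < εT ∧ εT ≤ 1 ∧ 0 < εH ∧ εH ≤ 1 ∧
      0 < δT ∧ 0 < δH ∧ (∀ al : ℝ, 0 < al → 0 < dT al) ∧ (∀ al : ℝ, 0 < al → 0 < dH al) ∧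
      (a = kt + 1 → ∀ al : ℝ, 0 < al → TieC r D K a h (kt + 1) 2 1 (1 / a) εT δT al (dT al)) ∧
      (a = kt + 1 → ∀ al : ℝ, 0 < al →
        HopC r D K a h (kt + 1) (2 / εT) 1 (1 / a) εH δH al (dH al)) := by
  have ha0 : 0 < a := by linarith
  by_cases hka : a = kt + 1
  · have e1 : a * (1 / a) = 1 := by field_simp
    have e2 : a - ((kt + 1 : ℕ) : ℝ) = 0 := by
      push_cast
      linarith only [hka]
    obtain ⟨ε, hε, δT, hδT, H⟩ := tieC_ex (D := D) (K := K) hr ha hh hh1 (i := kt + 1)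
      ⟨by omega, by omega⟩ (τ := 2) (d := 1) (R := 1 / a) one_pos (by positivity)
      (by rw [e1, e2, zero_mul, zero_add]) (by linarith only [e2]) (by norm_num) (NE := 1)
      (jE := 1) one_pos (by rw [e1]) (fun h1 => absurd h1 (by linarith only [e2]))
    choose! dT hdT using H
    have hT0 : 0 < min ε 1 := lt_min hε one_pos
    obtain ⟨ε', hε', δH, hδH, H'⟩ := hopC_ex (D := D) (K := K) hr ha hh hh1 (j := kt + 1)
      ⟨by omega, by omega⟩ (τ := 2 / min ε 1) (d := 1) (R := 1 / a) one_pos (by positivity)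
      (by rw [e1, e2, zero_mul, zero_add]) (by linarith only [e2]) (by positivity) (NE := 1)
      (jE := 1) one_pos le_rfl (by rw [e1])
    choose! dH hdH using H'
    refine ⟨min ε 1, δT, fun al => dT (al / 2), min ε' 1, δH, fun al => dH (al / 2), hT0,
      min_le_right _ _, lt_min hε' one_pos, min_le_right _ _, hδT, hδH,
      fun al h => (hdT _ (half_pos h)).1, fun al h => (hdH _ (half_pos h)).1, fun _ al h => ?_,
      fun _ al h => ?_⟩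
    · exact TieC.eps ha0 one_pos (min_le_left _ _) (half_lt_self h) (hdT _ (half_pos h)).2
    · exact HopC.eps ha0 one_pos (min_le_left _ _) (half_lt_self h) (hdH _ (half_pos h)).2
  · exact ⟨1, 1, fun _ => 1, 1, 1, fun _ => 1, one_pos, le_rfl, one_pos, le_rfl, one_pos, one_pos,
      fun _ _ => one_pos, fun _ _ => one_pos, fun h => absurd h hka, fun h => absurd h hka⟩

/-- **The numbers of the scales.** -/
theorem scl_ex {η B Y : ℝ} (hη : 0 < η) {L : ℕ} (hL : 2 ≤ L) :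
    ∃ n n' β : ℕ, 1 ≤ n' ∧ n' ≤ n ∧ 4 * β ≤ L ^ (n - n') ∧ B ≤ η * β ∧ Y ≤ η * n' := by
  obtain ⟨β, hβ⟩ := exists_nat_ge (B / η)
  obtain ⟨n', hn'⟩ := exists_nat_ge (Y / η)
  refine ⟨(n' + 1) + 4 * β, n' + 1, β, by omega, by omega, ?_, ?_, ?_⟩
  · rw [Nat.add_sub_cancel_left]
    exact (Nat.lt_pow_self (by omega)).le
  · rw [div_le_iff₀ hη] at hβ
    linarith only [hβ]
  · rw [div_le_iff₀ hη] at hn'
    push_cast
    linarith only [hn', hη]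

/-- **The constants exist.** -/
theorem plan_ex {r D K : ℕ} (hr : 1 ≤ r) {a h κ : ℝ} (ha : 1 < a) (hh : 0 < h) (hh1 : h ≤ 1)
    (hκ : 0 < κ) {kt : ℕ} (hk1 : 1 ≤ kt) (hkt : (kt : ℝ) < a) (hka : a ≤ kt + 1)
    (hkK : kt + 1 ≤ K) :
    ∃ (m0 E M CF L n n' β : ℕ) (εh δh : ℕ → ℝ) (dh : ℕ → ℝ → ℝ) (εt δt : ℕ → ℝ)
      (dt : ℕ → ℝ → ℝ) (εT δT εH δH : ℝ) (dH : ℝ → ℝ) (alf : ℕ → ℝ)
      (alm dtm tol tol' η τM dM fM fm Rm gm δm dm δF : ℝ),
      Plan r D K kt m0 E M CF L n n' β a h κ εh δh dh εt δt dt εT δT εH δH dH alf alm dtm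
        tol tol' η τM dM fM fm Rm gm δm dm ∧
      0 < τM ∧ 0 < dM ∧ 0 < fM ∧ 0 < fm ∧ 0 < Rm ∧ 0 < gm ∧ 0 < δm ∧ 0 < dm ∧
      0 < δF ∧ (∀ i, 1 ≤ i → i ≤ kt → δF ≤ dt i (alf i)) ∧ δF ≤ dtm := by
  have ha0 : 0 < a := by linarith
  have hak : 0 < a - kt := by linarith only [hkt]
  obtain ⟨m0, hm0⟩ : ∃ m0 : ℕ, m0 = ⌈a⌉₊ + 1 := ⟨_, rfl⟩
  have hm1 : a + 1 ≤ m0 := by
    have := Nat.le_ceil a
    rw [hm0]
    push_cast
    linarith only [this]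
  have hm2 : 1 ≤ m0 := by omega
  obtain ⟨εh, δh, dh, hεh, hδh, hdh, hopC⟩ := hops_ex (D := D) hr ha hh hh1 hkt hkK m0
  obtain ⟨εt, δt, dt, hεt, hδt, hdt, tieC⟩ := ties_ex (D := D) hr ha hh hh1 hkt hkK hm2
  obtain ⟨εT, δT, dT, εH, δH, dH, hεT, hεT1, hεH, hεH1, hδT, hδH, hdT, hdH, tieT, hopT⟩ :=
    topC_ex (r := r) (D := D) (K := K) hr ha hh hh1 hkK
  -- the step
  obtain ⟨y₁, hy₁, -, hy₁'⟩ := lb_ex kt εh hεh
  obtain ⟨y₂, hy₂, -, hy₂'⟩ := lb_ex kt εt hεt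
  obtain ⟨E', hE'⟩ := exists_nat_ge (1 / y₁ + 1 / y₂)
  obtain ⟨E, hE⟩ : ∃ E : ℕ, E = E' + 1 := ⟨_, rfl⟩
  have hE1 : 1 ≤ E := by omega
  have hE1r : (1 : ℝ) ≤ E := by exact_mod_cast hE1
  have hE0 : (0 : ℝ) < E := by linarith only [hE1r]
  have i1 : 0 < 1 / y₁ := by positivity
  have i2 : 0 < 1 / y₂ := by positivity
  have hEr : 1 / y₁ + 1 / y₂ ≤ E := by
    rw [hE]
    push_cast
    linarith only [hE']
  have hεE : ∀ j, 1 ≤ j → j ≤ kt → 1 ≤ εh j * E := fun j h1 h2 => by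
    have h3 : 1 / y₁ ≤ E := by linarith only [hEr, i2]
    rw [div_le_iff₀ hy₁] at h3
    have h4 := mul_le_mul_of_nonneg_right (hy₁' j h1 h2) hE0.le
    linarith only [h3, h4]
  have hεE' : ∀ j, 1 ≤ j → j ≤ kt → 1 ≤ εt j * E := fun j h1 h2 => by
    have h3 : 1 / y₂ ≤ E := by linarith only [hEr, i1]
    rw [div_le_iff₀ hy₂] at h3
    have h4 := mul_le_mul_of_nonneg_right (hy₂' j h1 h2) hE0.le
    linarith only [h3, h4]
  -- the top step
  obtain ⟨CF', hCF'⟩ := exists_nat_ge (a * (m0 + 1) / (εH * εT))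
  obtain ⟨CF, hCF⟩ : ∃ CF : ℕ, CF = CF' + 1 := ⟨_, rfl⟩
  have hCF1 : 1 ≤ CF := by omega
  have hCF1r : (1 : ℝ) ≤ CF := by exact_mod_cast hCF1
  have hCF0 : (0 : ℝ) < CF := by linarith only [hCF1r]
  have hm : a * (m0 + 1) ≤ εH * (εT * CF) := by
    have h1 : a * (m0 + 1) / (εH * εT) ≤ CF := by
      rw [hCF]
      push_cast
      linarith only [hCF']
    rw [div_le_iff₀ (by positivity)] at h1
    linarith only [h1]
  obtain ⟨M, hM⟩ := exists_nat_ge (a * (m0 + 1) * E / (a - kt))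
  rw [div_le_iff₀ hak] at hM
  -- the sub-boxes
  obtain ⟨alf, half, tol, htol, HB⟩ := box_main' (K := K) (kt := kt) (m0 := m0) (E := E) (M := M)
    (a := a) (εh := εh) (dh := dh) (εt := εt) (dt := dt) ha0 hkt hka (by omega) hm1 hE1 hεE
    (fun j al h1 h2 h3 => hdh j h1 h2 al h3) (by linarith only [hM]) hεE'
    (fun j al h1 h2 h3 => hdt j h1 h2 al h3) hk1 κ hκ
  have hBM : BoxM K kt m0 E M a εh dh εt dt alf tol κ := HB
  obtain ⟨alm, halm, tol', htol', HT⟩ : ∃ alm : ℝ, 0 < alm ∧ ∃ tol' : ℝ, 0 < tol' ∧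
      (a = kt + 1 → TopM K kt m0 E (2 * CF) a CF εT εH dH tol alm (dT alm) tol') := by
    by_cases h1 : a = kt + 1
    · obtain ⟨alm, halm, tol', htol', HT⟩ := top_dead' (K := K) (kt := kt) (m0 := m0) (E := E)
        (M0 := 2 * CF) (a := a) (CF := (CF : ℝ)) (εt := εT) (εh := εH) (dt := dT) (dh := dH) h1
        (by omega) hE1 hCF0 hεT hεT1 hεH1 (by push_cast; linarith only [hCF1r]) hm hdT hdH tol htol
      exact ⟨alm, halm, tol', htol', fun _ => HT⟩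
    · exact ⟨1, one_pos, 1, one_pos, fun h => absurd h h1⟩
  obtain ⟨η, hη⟩ : ∃ η : ℝ, η = min 1 (min tol tol') := ⟨_, rfl⟩
  have hη0 : 0 < η := by
    rw [hη]
    exact lt_min one_pos (lt_min htol htol')
  obtain ⟨L, hL⟩ : ∃ L : ℕ, L = (2 * kt + 1) * (m0 * E + M + E) + 2 * CF * E := ⟨_, rfl⟩
  have hL2 : 2 ≤ L := by
    have : 1 ≤ CF * E := Nat.one_le_iff_ne_zero.2 (by positivity)
    rw [hL]
    nlinarith [Nat.zero_le ((2 * kt + 1) * (m0 * E + M + E))]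
  obtain ⟨n, n', β, n1, n2, hβ, hBβ, hnum⟩ := scl_ex (η := η) (B := 2 * (2 * (CF * E) + 1))
    (Y := 8 * (kt * (2 * a * Real.log 2 + 1)) * L) hη0 hL2
  -- the bounds
  obtain ⟨z₁, hz₁, -, hz₁'⟩ := lb_ex kt δh hδh
  obtain ⟨z₂, hz₂, -, hz₂'⟩ := lb_ex kt δt hδt
  obtain ⟨z₃, hz₃, -, hz₃'⟩ := lb_ex kt (fun i => dt i (alf i))
    fun i h1 h2 => hdt i h1 h2 _ (half i h1 h2)
  obtain ⟨δm, hδm⟩ : ∃ δm : ℝ, δm = min (min z₁ z₂) (min δT δH) := ⟨_, rfl⟩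
  have hδm0 : 0 < δm := by
    rw [hδm]
    exact lt_min (lt_min hz₁ hz₂) (lt_min hδT hδH)
  have d1 : δm ≤ z₁ := hδm ▸ (min_le_left _ _).trans (min_le_left _ _)
  have d2 : δm ≤ z₂ := hδm ▸ (min_le_left _ _).trans (min_le_right _ _)
  have d3 : δm ≤ δT := hδm ▸ (min_le_right _ _).trans (min_le_left _ _)
  have d4 : δm ≤ δH := hδm ▸ (min_le_right _ _).trans (min_le_right _ _)
  have t2 : 2 ≤ 2 / εT := by
    rw [le_div_iff₀ hεT]
    linarith only [hεT1]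
  have hm0r : (0 : ℝ) ≤ m0 := Nat.cast_nonneg _
  have hCE : (1 : ℝ) ≤ CF * E := by nlinarith only [hCF1r, hE1r]
  have hTE : εT * E ≤ E := by nlinarith only [hεT1, hE0]
  have hTE0 : 0 < εT * E := by positivity
  have hTC : εT * CF * E ≤ CF * E := by nlinarith only [hεT1, hCE]
  have hTC' : εT * E ≤ εT * CF * E := by nlinarith only [hTE0, hCF1r]
  have hEC : (E : ℝ) ≤ CF * E := by nlinarith only [hE0, hCF1r]
  have ia : 1 / a ≤ 1 := by
    rw [div_le_iff₀ ha0]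
    linarith only [ha]
  have hmin1 : min (a - kt) 1 ≤ 1 := min_le_right _ _
  have hmin2 : min (a - kt) 1 ≤ a - kt := min_le_left _ _
  have hmin0 : 0 < min (a - kt) 1 := lt_min hak one_pos
  have hB : ∀ j, 1 ≤ j → j ≤ kt → ∀ δ, δm ≤ δ →
      TkB (m0 + 2 / εT) a (CF * E + E) (εT * E) (min (a - kt) 1 / a) (min (2 / a) 1) δm
        (min (a - kt) 1) E m0 ((a - j) * (m0 + 1) / a) δ (a - j) := by
    intro j h1 h2 δ hδ
    have h3 : (j : ℝ) ≤ kt := by exact_mod_cast h2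
    have h4 : (1 : ℝ) ≤ j := by exact_mod_cast h1
    have h5 : a - kt ≤ a - j := by linarith only [h3]
    refine ⟨hTE, by linarith only [hCE], by linarith only [t2], ?_, ?_, hδ,
      by linarith only [hmin2, h5], by linarith only [h4]⟩
    · rw [div_le_div_iff_of_pos_right ha0]
      nlinarith only [hmin2, h5, hm0r, hak]
    · refine (min_le_left _ _).trans ?_
      rw [le_sub_iff_add_le, ← add_div, div_le_iff₀ ha0]
      nlinarith only [h4, hm1, hm0r]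
  refine ⟨m0, E, M, CF, L, n, n', β, εh, δh, dh, εt, δt, dt, εT, δT, εH, δH, dH, alf, alm, dT alm,
    tol, tol', η, m0 + 2 / εT, a, CF * E + E, εT * E, min (a - kt) 1 / a, min (2 / a) 1, δm,
    min (a - kt) 1, min z₃ (dT alm), ?_, by positivity, ha0, by positivity, hTE0, by positivity,
    lt_min (by positivity) one_pos, hδm0, hmin0, lt_min hz₃ (hdT _ halm),
    fun i h1 h2 => (min_le_left _ _).trans (hz₃' i h1 h2), min_le_right _ _⟩
  exact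
    { kt1 := hk1
      hkt := hkt
      hka := hka
      hE := hE1
      hopC := hopC
      tieC := fun i h1 h2 => tieC i h1 h2 _ (half i h1 h2)
      tieT := fun h1 => tieT h1 _ halm
      hopT := hopT
      boxM := hBM
      topM := HT
      CF1 := hCF1
      εT0 := hεT
      εT1 := hεT1
      εH0 := hεH
      εH1 := hεH1
      tol0 := htol
      η0 := hη0
      η1 := hη ▸ min_le_left _ _
      ηt := hη ▸ (min_le_right _ _).trans (min_le_left _ _)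
      ηt' := hη ▸ (min_le_right _ _).trans (min_le_right _ _)
      hL := hL.ge
      n1 := n1
      n2 := n2
      hβ := hβ
      hBβ := hBβ
      hnum := hnum
      b0h := fun j h1 h2 => hB j h1 h2 _ (d1.trans (hz₁' j h1 h2))
      b0t := fun j h1 h2 => hB j h1 h2 _ (d2.trans (hz₂' j h1 h2))
      b1 := ⟨hTC'.trans hTC, by linarith only [hE0], by linarith only [t2, hm0r],
        by rw [div_le_div_iff_of_pos_right ha0]; exact hmin1,
        (min_le_right _ _).trans (by linarith only [ia]), d3, hmin1, ha.le⟩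
      b2 := ⟨hTC', by linarith only [hTC, hE0], by linarith only [hm0r],
        by rw [div_le_div_iff_of_pos_right ha0]; exact hmin1,
        (min_le_right _ _).trans (by linarith only [ia, t2]), d4, hmin1, ha.le⟩ }

end Pool.AB18
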