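import Pool.Agent.H46.TE.Alv

/-!
# Ties of own paths: the slope
-/

set_option autoImplicit false

namespace Pool.TE46

open Finset Real
open Pool.Agent.H49.Ent Pool.Agent.H32.Dense Pool.STK Pool.KA Pool.KSAT Pool.K2S Pool.PB Pool.GEN
open Pool.S6C Pool.LA91 Pool.OWN68 Pool.AJ18 Pool.PAIR76 Pool.PN18 Pool.LPK12 Pool.PR46 Pool.PS46
open Pool.BFL (Pb)

variable {m J : ℕ}

theorem of_cond_pos2 {Ω : Type} [Fintype Ω] {p : Ω → ℝ} {A : Ω → Prop} {ω : Ω}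
    (h : 0 < Pool.Agent.H49.Ent.cond p A True ω) : A ω := Pool.LA91.of_cond_pos h

/-- **The slope of a tie of own paths.** -/
theorem tie_path (D : ℕ) {i : ℕ} (hi : 1 ≤ i ∧ i ≤ D) {a h ε c₁ : ℝ} (ha : 0 < a) (hh : 0 < h)
    (hha : h ≤ a) (hε : 0 < ε) (hε1 : ε ≤ 1) (hc₁ : 0 < c₁) (hc₁1 : c₁ ≤ 1) :
    ∃ ε' : ℝ, 0 < ε' ∧ ∃ δ : ℝ, 0 < δ ∧ ∃ c₀ : ℝ, 0 < c₀ ∧ ∀ al : ℝ, 0 < al →
    ∃ δ₁ : ℝ, 0 < δ₁ ∧
    ∀ {w μ : ℝ} (_ : 0 ≤ w) (_ : 0 < μ) (_ : w + a * μ ≤ 1),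
    ∃ J₀ : ℕ, ∀ J ≥ J₀, ∀ {m : ℕ} (F : Fam m J) (A : F.Ω → Prop) (_ : 0 < Pe F.p A)
      (R₁ R₂ : LnT F → Polynomial ℝ) {𝒞 Γ 𝒜 ℰ : Type} (c : LnT F → 𝒞) (Y : F.Ω → Γ)
      (Ap : F.Ω → 𝒜) (Ep : F.Ω → ℰ),
    TeR F (Pool.Agent.H49.Ent.cond F.p A True) R₁ R₂ c Y D i ⌊w * J⌋₊ (a * μ * J)
      (δ₁ * μ * J) →
    (∀ E : F.Ω → Prop, Sub E A → c₀ * Pe F.p A ≤ Pe F.p E →
      al * μ * J ≤ CH (Pool.Agent.H49.Ent.cond F.p E True)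
        (fun ω => ⌊pj F R₁ ⌊w * J⌋₊ i ω / 2 ^ ((1 - ε') * (a * μ * J))⌋) Y) →
    NFo F A R₂ R₁ c ⌊w * J⌋₊ a a (2 * μ) h (δ * μ) c₀ →
    (∀ ω ω', A ω → A ω' → Ap ω = Ap ω' → Ep ω = Ep ω' →
      c (slam F ⌊w * J⌋₊ ω) = c (slam F ⌊w * J⌋₊ ω') ∧ F.W ω = F.W ω') →
    (∀ ω ω', A ω → A ω' → c (slam F ⌊w * J⌋₊ ω) = c (slam F ⌊w * J⌋₊ ω') → F.W ω = F.W ω' →
      Ap ω = Ap ω' ∧ Ep ω = Ep ω') →
    CH (Pool.Agent.H49.Ent.cond F.p A True) Ep Ap ≤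
      CH (Pool.Agent.H49.Ent.cond F.p A True) Ep (fun ω => (Ap ω,
        (⌊pj F R₁ ⌊w * J⌋₊ 0 ω⌋, ⌊pj F R₂ ⌊w * J⌋₊ 0 ω⌋))) + δ₁ * μ * J →
    ∃ (r : ℕ) (kc : LnT F → ℤ) (kz : 𝒜 × (ℤ × ℤ) → ℤ), 1 ≤ r ∧
      (r : ℝ) ≤ (2 : ℝ) ^ (ε * (⌈a * μ * J⌉₊ : ℕ)) ∧
      (∀ ω, 0 < Pool.Agent.H49.Ent.cond F.p A True ω →
        |(kc (slam F ⌊w * J⌋₊ ω) : ℝ)| * r ≤
          (2 : ℝ) ^ (ε * (⌈a * μ * J⌉₊ : ℕ)) * 2 ^ ⌈a * μ * J⌉₊) ∧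
      Pb (Pool.Agent.H49.Ent.cond F.p A True) (fun ω => kc (slam F ⌊w * J⌋₊ ω) ≠
        kz (Ap ω, (⌊pj F R₁ ⌊w * J⌋₊ 0 ω⌋, ⌊pj F R₂ ⌊w * J⌋₊ 0 ω⌋))) ≤ ε ∧
      ∀ S : F.Ω → Prop, c₁ ≤ Pb (Pool.Agent.H49.Ent.cond F.p A True) S →
        (∀ ω, S ω → kc (slam F ⌊w * J⌋₊ ω) =
          kz (Ap ω, (⌊pj F R₁ ⌊w * J⌋₊ 0 ω⌋, ⌊pj F R₂ ⌊w * J⌋₊ 0 ω⌋))) →
        CH (Pool.Agent.H49.Ent.cond (Pool.Agent.H49.Ent.cond F.p A True) S True)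
          (fun ω => lc (2 ^ ⌈a * μ * J⌉₊) r (kc (slam F ⌊w * J⌋₊ ω)) ⌊pj F R₁ ⌊w * J⌋₊ 0 ω⌋
            ⌊pj F R₂ ⌊w * J⌋₊ 0 ω⌋)
          (fun ω => ((⌊pj F R₁ ⌊w * J⌋₊ 0 ω⌋ / ((2 ^ ⌈a * μ * J⌉₊ : ℕ) : ℤ),
            ⌊pj F R₂ ⌊w * J⌋₊ 0 ω⌋ / ((2 ^ ⌈a * μ * J⌉₊ : ℕ) : ℤ)),
              (kc (slam F ⌊w * J⌋₊ ω), Ap ω))) ≤
          (1 - h / a) * (⌈a * μ * J⌉₊ : ℕ) * Real.log 2 + ε * (⌈a * μ * J⌉₊ : ℕ) := by
  obtain ⟨K, dsp⟩ := dsp_of D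
  obtain ⟨C₁, hC₁, rec⟩ := rec_of D
  obtain ⟨C₂, hC₂, alv⟩ := alv_of D
  obtain ⟨εt, hεt, δt, hδt, c₀, hc₀, H⟩ := tie_one K (h := h / a) (div_pos hh ha)
    ((div_le_one ha).mpr hha) hε hε1 hc₁ hc₁1
  obtain ⟨ε', hε'⟩ : ∃ ε' : ℝ, ε' = min εt 1 / 2 := ⟨_, rfl⟩
  have hε'0 : 0 < ε' := by rw [hε']; exact div_pos (lt_min hεt one_pos) two_pos
  have hε'1 : 2 * ε' ≤ εt := by rw [hε']; linarith [min_le_left εt 1]
  have hε'2 : 2 * ε' ≤ 1 := by rw [hε']; linarith [min_le_right εt 1]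
  obtain ⟨δ, hδ⟩ : ∃ δ : ℝ, δ = δt * a / 2 := ⟨_, rfl⟩
  have hδ0 : 0 < δ := by rw [hδ]; positivity
  obtain ⟨c₂, hc₂⟩ : ∃ c₂ : ℝ, c₂ = min c₀ 1 := ⟨_, rfl⟩
  have hc₂0 : 0 < c₂ := by rw [hc₂]; exact lt_min hc₀ one_pos
  have hc₂1 : c₂ ≤ 1 := by rw [hc₂]; exact min_le_right _ _
  have hc₂2 : c₂ ≤ c₀ := by rw [hc₂]; exact min_le_left _ _
  refine ⟨ε', hε'0, δ, hδ0, c₂, hc₂0, ?_⟩
  intro al hal
  obtain ⟨αt, hαt⟩ : ∃ αt : ℝ, αt = al / (4 * a) := ⟨_, rfl⟩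
  have hαt0 : 0 < αt := by rw [hαt]; positivity
  have hαt1 : αt * (2 * a) = al / 2 := by
    rw [hαt]
    field_simp
    norm_num
  obtain ⟨Q₀, H⟩ := H αt hαt0
  have hiR : (1 : ℝ) ≤ i := by exact_mod_cast hi.1
  obtain ⟨δ₁, hδ₁⟩ : ∃ δ₁ : ℝ, δ₁ = min (al * c₂ / (2 * C₂)) (δt * a / (2 * (2 * i + 1) * C₁ + 6)) :=
    ⟨_, rfl⟩
  have hδ₁0 : 0 < δ₁ := by
    rw [hδ₁]
    exact lt_min (by positivity) (by positivity)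
  have hd1 : C₂ * δ₁ ≤ al * c₂ / 2 := by
    have h1 : δ₁ ≤ al * c₂ / (2 * C₂) := by rw [hδ₁]; exact min_le_left _ _
    rw [le_div_iff₀ (by positivity)] at h1
    linarith
  have hd2 : δ₁ * (2 * (2 * i + 1) * C₁ + 6) ≤ δt * a := by
    rw [← le_div_iff₀ (by positivity), hδ₁]
    exact min_le_right _ _
  refine ⟨δ₁, hδ₁0, ?_⟩
  intro w μ hw hμ hwμ
  have haμ : 0 < a * μ := by positivity
  have hcS : 0 ≤ cS (i - 1) := by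
    unfold cS
    have := Real.log_nonneg (show (1 : ℝ) ≤ 300 by norm_num)
    have := Real.log_nonneg (show (1 : ℝ) ≤ 2 by norm_num)
    have := Real.log_nonneg (show (1 : ℝ) ≤ 40 by norm_num)
    positivity
  have l19 : 0 ≤ Real.log 19 := Real.log_nonneg (by norm_num)
  obtain ⟨J₁, hJ₁⟩ := exists_nat_ge (((Q₀ : ℝ) + 1 + 1 / ε') / (a * μ) +
    (2 * cS (i - 1) + 8 * Real.log 19) / (δt * (a * μ)) + 1 / (δ₁ * μ))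
  refine ⟨max J₁ 1, ?_⟩
  intro J hJ m F A hA R₁ R₂ 𝒞 Γ 𝒜 ℰ c Y Ap Ep HT hal2 hnf hac hca hfr
  have hJ1 : (J₁ : ℝ) ≤ J := by exact_mod_cast (le_max_left _ _).trans hJ
  have hJp : 0 < J := lt_of_lt_of_le one_pos ((le_max_right _ _).trans hJ)
  have hJ0 : (0 : ℝ) < J := by exact_mod_cast hJp
  have t1 : 0 ≤ ((Q₀ : ℝ) + 1 + 1 / ε') / (a * μ) := by positivity
  have t2 : 0 ≤ (2 * cS (i - 1) + 8 * Real.log 19) / (δt * (a * μ)) := by positivity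
  have t3 : 0 ≤ 1 / (δ₁ * μ) := by positivity
  have k1 : (Q₀ : ℝ) + 1 + 1 / ε' ≤ a * μ * J := by
    have h1 : ((Q₀ : ℝ) + 1 + 1 / ε') / (a * μ) ≤ J := by linarith
    rw [div_le_iff₀ haμ] at h1
    linarith
  have k2 : 2 * cS (i - 1) + 8 * Real.log 19 ≤ δt * (a * μ * J) := by
    have h1 : (2 * cS (i - 1) + 8 * Real.log 19) / (δt * (a * μ)) ≤ J := by linarith
    rw [div_le_iff₀ (by positivity)] at h1
    linarith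
  have k3 : 1 ≤ δ₁ * μ * J := by
    have h1 : 1 / (δ₁ * μ) ≤ J := by linarith
    rw [div_le_iff₀ (by positivity)] at h1
    linarith
  obtain ⟨g, hg⟩ : ∃ g : ℝ, g = δ₁ * μ * J := ⟨_, rfl⟩
  obtain ⟨x, hx⟩ : ∃ x : ℝ, x = a * μ * J := ⟨_, rfl⟩
  obtain ⟨W, hW⟩ : ∃ W : ℕ, W = ⌊w * J⌋₊ := ⟨_, rfl⟩
  obtain ⟨Q, hQ⟩ : ∃ Q : ℕ, Q = ⌈a * μ * J⌉₊ := ⟨_, rfl⟩
  have hx0 : 0 ≤ x := by rw [hx]; positivity
  have hxQ : x ≤ Q := by rw [hx, hQ]; exact Nat.le_ceil _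
  have hQx : (Q : ℝ) ≤ x + 1 := by
    rw [hQ, hx]
    exact (Nat.ceil_lt_add_one (by rw [← hx]; exact hx0)).le
  have hinv : 0 < 1 / ε' := by positivity
  have hQQ : Q₀ ≤ Q := by
    have h1 : (Q₀ : ℝ) ≤ Q := by linarith
    exact_mod_cast h1
  have hw1 : w ≤ 1 := by linarith
  have hWr : (W : ℝ) ≤ w * J := by
    rw [hW]
    exact Nat.floor_le (by positivity)
  have hWJ : W ≤ J := by
    have h1 : (W : ℝ) ≤ J := hWr.trans (by nlinarith)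
    exact_mod_cast h1
  have hQJ : Q ≤ J - W := by
    have h1 : (Q : ℝ) < ((J - W : ℕ) : ℝ) + 1 := by
      rw [Nat.cast_sub hWJ, hQ]
      refine (Nat.ceil_lt_add_one (by rw [← hx]; exact hx0)).trans_le ?_
      have : a * μ * J + w * J ≤ J := by nlinarith
      linarith
    have h2 : Q < J - W + 1 := by exact_mod_cast h1
    omega
  rw [← hW] at HT hal2 hnf hac hca hfr ⊢
  rw [← hQ]
  rw [← hx] at HT hal2 k1 k2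
  rw [← hg] at HT hfr k3
  obtain ⟨q, hq⟩ : ∃ q : F.Ω → ℝ, q = Pool.Agent.H49.Ent.cond F.p A True := ⟨_, rfl⟩
  have hql : IsLaw q := by
    rw [hq]
    exact isLaw_cond F.isLaw hA
  have h0 := hql.nonneg
  have hpos : ∀ ω, 0 < q ω → A ω := fun ω hω => by
    rw [hq] at hω
    exact Pool.LA91.of_cond_pos hω
  obtain ⟨r1, r2, r3⟩ := rec F (Q := Q) (by rw [← hq]; exact hql) HT hi.2 hx0 hxQ hQx hWJ k3
  have hal3 := alv F (Q := Q) (y := (1 - ε') * x) (B := 2 ^ ((1 - ε') * x)) (c₀ := c₂)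
    (β := al * μ * J) hA HT hi.2 hx0 hxQ hQx hWJ k3
    (mul_nonneg (by linarith) hx0) (Real.rpow_pos_of_pos (by norm_num) _) le_rfl hc₂0 hc₂1 hal2
  have hnfe := nfe_of hA (μ := μ) (Q := Q) (δ := δt) hJp ha hμ hha hc₂0
    (by rw [← hx]; linarith) (by rw [← hx]; exact hQx) hnf (by
      rw [hδ]
      have h1 : δt * x ≤ δt * Q := mul_le_mul_of_nonneg_left hxQ hδt.le
      have h2 : δt * a / 2 * μ * J = δt * x / 2 := by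
        rw [hx]
        ring
      rw [h2]
      linarith)
  rw [← hq] at HT r1 r2 r3 hal3 hnfe hfr ⊢
  have hgG := HT.gtm (Q := Q)
  have hdis := dsp F R₁ R₂ (Q := Q) (x := x) (p := q) (G := gG F R₁ R₂ c Y D i W Q x) hi.1 hi.2 hx0
    HT.deg1 HT.deg2 HT.gtm gG_j1 gG_j2 gG_N
  have hδtx : δt * x ≤ δt * Q := mul_le_mul_of_nonneg_left hxQ hδt.le
  have hgx : δt * a * μ * J = δt * x := by rw [hx]; ring
  have hgg : (2 * (2 * (i : ℝ) + 1) * C₁ + 6) * g ≤ δt * x := by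
    rw [hg, ← hgx]
    have := mul_le_mul_of_nonneg_right hd2 (show 0 ≤ μ * J by positivity)
    linarith
  have hg0 : 0 ≤ g := by linarith
  have hTie : TieP q (2 ^ Q) (MT J W) K Q (sgm (2 ^ Q) (MT J W) (i - 1)) δt c₂ (h / a) αt
      (2 ^ ((1 - ε') * x)) (slam F W) (tw F W) (gG F R₁ R₂ c Y D i W Q x)
      (gG F R₁ R₂ c Y D i W Q x) Ap Ep (cC c) (cD F R₁ R₂ i) (cN F R₁ R₂ i Q) (cN F R₁ R₂ i Q)
      (uR F R₁ W) (uR F R₂ W) (fun d => (d.1 : ℝ)) (fun d => (d.2 : ℝ)) := by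
    refine ⟨⟨C₁ * g, 2 * ((i - 1 : ℕ) : ℝ) + 3, cS (i - 1), by positivity,
      sgm_sig Nat.one_le_two_pow (Nat.pow_le_pow_right (by norm_num) hQJ) (i - 1), ?_,
      fun ω _ => tw_abs F W ω, ?_, ?_, ?_, r2, r3, r3⟩, hdis, hdis, ?_, hnfe, ?_, ?_, ?_⟩
    · have h1 : 2 * ((i - 1 : ℕ) : ℝ) + 3 = 2 * i + 1 := by
        rw [Nat.cast_sub hi.1]
        push_cast
        ring
      rw [h1]
      have h2 : (2 * (i : ℝ) + 1) * (C₁ * g) ≤ δt * x / 2 := by linarith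
      linarith
    · exact fun ω ω' a b e => ⟨HT.gC ω ω' a b e, gG_N ω ω' a b e⟩
    · exact fun ω ω' a b e => ⟨HT.gC ω ω' a b e, gG_N ω ω' a b e⟩
    · intro ω ω' _ _ e
      unfold cD at e
      rw [Prod.mk.injEq] at e
      unfold cN
      rw [e.1, e.2]
    · intro S hS
      refine le_trans ?_ (hal3 S hS)
      have h1 : αt * Q ≤ al * μ * J / 2 := by
        have h2 : (Q : ℝ) ≤ 2 * x := by linarith
        have h3 : αt * Q ≤ αt * (2 * x) := mul_le_mul_of_nonneg_left h2 hαt0.le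
        have h4 : αt * (2 * x) = αt * (2 * a) * (μ * J) := by
          rw [hx]
          ring
        rw [h4, hαt1] at h3
        linarith
      have h2 : C₂ * g / c₂ ≤ al * μ * J / 2 := by
        rw [div_le_iff₀ hc₂0, hg]
        have := mul_le_mul_of_nonneg_right hd1 (show 0 ≤ μ * J by positivity)
        linarith
      linarith
    · intro ω ω' p1 p2 e1 e2
      obtain ⟨b1, b2⟩ := hac ω ω' (hpos ω p1) (hpos ω' p2) e1 e2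
      obtain ⟨b3, b4⟩ := W_cC b1 b2
      refine ⟨?_, b4⟩
      unfold tw
      unfold Pool.LPK12.tm at b3
      rw [b3]
    · intro ω ω' p1 p2 e1 e2
      have e3 : Pool.LPK12.tm F W ω = Pool.LPK12.tm F W ω' := by
        unfold tw at e1
        unfold Pool.LPK12.tm
        linarith
      obtain ⟨b1, b2⟩ := cC_W e3 e2
      exact hca ω ω' (hpos ω p1) (hpos ω' p2) b1 b2
    · -- FREE
      have f0 : (FF (slam F W) (tw F W) Ap (uR F R₁ W) (uR F R₂ W)) = fun ω =>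
          (Ap ω, (⌊pj F R₁ W 0 ω⌋, ⌊pj F R₂ W 0 ω⌋)) := by
        funext ω
        unfold FF
        rw [uR_tw, uR_tw]
      rw [f0]
      have e2 : g ≤ δt * x := by
        have : 0 ≤ (2 * (2 * (i : ℝ) + 1) * C₁) * g := by positivity
        linarith
      linarith
  obtain ⟨r, kc, kz, a1, a2, a3, a4, a5⟩ := H Q hQQ (MT J W) (sgm (2 ^ Q) (MT J W) (i - 1))
    (2 ^ ((1 - ε') * x)) (Real.rpow_pos_of_pos (by norm_num) _) (by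
      rw [← Real.rpow_natCast, ← Real.rpow_add (by norm_num)]
      refine Real.rpow_le_rpow_of_exponent_le (by norm_num) ?_
      have hQ0 : (0 : ℝ) ≤ Q := Nat.cast_nonneg Q
      have h1 : 2 * ε' * Q ≤ εt * Q := mul_le_mul_of_nonneg_right hε'1 hQ0
      have h2 : (1 - 2 * ε') * Q ≤ (1 - 2 * ε') * (x + 1) :=
        mul_le_mul_of_nonneg_left hQx (by linarith)
      have h3 : 1 ≤ ε' * x := by
        have h4 : 1 / ε' ≤ x := by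
          have : (0 : ℝ) ≤ Q₀ := Nat.cast_nonneg Q₀
          linarith
        rw [div_le_iff₀ hε'0] at h4
        linarith
      nlinarith) hql (hTie.mono le_rfl hc₂2)
  refine ⟨r, kc, kz, a1, a2, a3, ?_, ?_⟩
  · refine le_trans (le_of_eq ?_) a4
    congr 1
  · intro S hS hSk
    have h1 := a5 S hS (fun ω hω => by
      unfold FF
      rw [uR_tw, uR_tw]
      exact hSk ω hω)
    simp only [uR_tw] at h1
    exact h1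

end Pool.TE46
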