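import Pool.Agent.H46.TE.Dsp

/-!
# Ties of own paths: the record

The record of the ball: the record, the context, the jets, the codes of the coefficients to `2 ^ Q`
units. Given the record the codes are as free as given the context and their natural digits.
-/

set_option autoImplicit false

namespace Pool.TE46

open Finset Real
open Pool.Agent.H49.Ent Pool.Agent.H32.Dense Pool.STK Pool.KA Pool.KSAT Pool.K2S Pool.PB Pool.GEN
open Pool.S6C Pool.LA91 Pool.OWN68 Pool.AJ18 Pool.PAIR76 Pool.PN18 Pool.LPK12 Pool.PR46 Pool.PS46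

variable {m J : ℕ}

/-- The jet from the code, natural digits. -/
theorem jet_nat (D : ℕ) : ∃ C : ℝ, 0 ≤ C ∧ ∀ {m J : ℕ} (F : Fam m J) (R : LnT F → Polynomial ℝ)
    {i W Q : ℕ} {x : ℝ} {q : F.Ω → ℝ} {Γ : Type} {G : F.Ω → Γ} (_ : IsLaw q),
    (∀ y, (R y).natDegree ≤ D) → 0 ≤ x → (Q : ℝ) ≤ x + 1 →
    Det q G (tm F W) → Det q G (fun ω => hv F R D i (slam F W ω)) →
    Det q G (fun ω => cd F R i (slam F W ω) / ((2 ^ Q : ℕ) : ℤ)) →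
    CH q (fun ω => ⌊pj F R W i ω / 2 ^ x⌋) G ≤ C := by
  obtain ⟨C₁, hC₁, hd⟩ := der_small D
  obtain ⟨K, hK⟩ : ∃ K : ℝ, K = C₁ * 3 := ⟨_, rfl⟩
  refine ⟨LK K, LK_nonneg K, ?_⟩
  intro m J F R i W Q x q Γ G hq hdeg hx hQ ht hh hN
  refine CH_near hq _ G fun ω ω' a b e => ?_
  have e1 := ht ω ω' a b e
  have e2 := hN ω ω' a b e
  have e3 := hv_coeff hdeg (hh ω ω' a b e)
  have hp1 : (1 : ℝ) ≤ 2 ^ x := Real.one_le_rpow (by norm_num) hx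
  have hQx : ((2 ^ Q : ℕ) : ℝ) ≤ 2 * 2 ^ x := by
    push_cast
    rw [← Real.rpow_natCast 2 Q]
    calc (2 : ℝ) ^ (Q : ℝ) ≤ 2 ^ (x + 1) := Real.rpow_le_rpow_of_exponent_le (by norm_num) hQ
      _ = 2 * 2 ^ x := by
        rw [Real.rpow_add (by norm_num), Real.rpow_one]
        ring
  have h1 := div_eq_lt (by positivity) e2
  obtain ⟨E, hE⟩ : ∃ E : Polynomial ℝ, E = Pq (R (slam F W ω)) - Pq (R (slam F W ω')) := ⟨_, rfl⟩
  have hEd : E.natDegree ≤ D := by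
    rw [hE, Pq_sub]
    exact Pq_deg ((Polynomial.natDegree_sub_le _ _).trans (max_le (hdeg _) (hdeg _)))
  have hco : ∀ j, i ≤ j → |E.coeff j| ≤ 3 * 2 ^ x := by
    intro j hj
    rw [hE, Polynomial.coeff_sub]
    rcases hj.eq_or_lt with h2 | h2
    · subst h2
      unfold cd at h1
      have a1 := Int.floor_le ((Pq (R (slam F W ω))).coeff i)
      have a2 := Int.lt_floor_add_one ((Pq (R (slam F W ω))).coeff i)
      have a3 := Int.floor_le ((Pq (R (slam F W ω'))).coeff i)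
      have a4 := Int.lt_floor_add_one ((Pq (R (slam F W ω'))).coeff i)
      rw [abs_le] at h1 ⊢
      constructor <;> linarith [h1.1, h1.2]
    · exact (e3 j h2).trans (by linarith)
  obtain ⟨s0, s1⟩ := tm_unit F W ω
  have h2 := hd E i ((tm F W ω : ℝ) / 2 ^ (J - W)) (3 * 2 ^ x) hEd (by
    rw [abs_of_nonneg s0]
    exact s1) hco
  have h3 : (Polynomial.derivative^[i] E).eval ((tm F W ω : ℝ) / 2 ^ (J - W)) =
      2 ^ i * (pj F R W i ω - pj F R W i ω') := by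
    rw [hE, Polynomial.iterate_derivative_sub, Polynomial.eval_sub, mul_sub, ← Pq_pj, ← Pq_pj,
      ← e1]
  have h4 : |pj F R W i ω - pj F R W i ω'| ≤ C₁ * (3 * 2 ^ x) := by
    rw [h3, abs_mul, abs_of_nonneg (by positivity : (0 : ℝ) ≤ 2 ^ i)] at h2
    exact (le_mul_of_one_le_left (abs_nonneg _) (one_le_pow₀ (by norm_num))).trans h2
  rw [← sub_div, abs_div, abs_of_pos (by linarith : (0 : ℝ) < 2 ^ x), div_le_iff₀ (by linarith),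
    hK]
  linarith

/-- The codes of the coefficients to natural digits are few given the jets of one time. -/
theorem cod_nat (D : ℕ) : ∃ C : ℝ, 0 ≤ C ∧ ∀ {m J : ℕ} (F : Fam m J) (R : LnT F → Polynomial ℝ)
    {i W Q : ℕ} {x : ℝ} {q : F.Ω → ℝ} {Γ : Type} {G : F.Ω → Γ} (_ : IsLaw q),
    (∀ y, (R y).natDegree ≤ D) → 0 ≤ x → x ≤ Q →
    Det q G (tm F W) → Det q G (jv F R W D i x) →
    CH q (fun ω => cd F R i (slam F W ω) / ((2 ^ Q : ℕ) : ℤ)) G ≤ C := by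
  obtain ⟨K, hK1, hK2⟩ := cvt D
  have hK : Cvt D K := ⟨hK1, hK2⟩
  refine ⟨LK K, LK_nonneg _, ?_⟩
  intro m J F R i W Q x q Γ G hq hdeg hx hQ ht hj
  have e0 : (fun ω => cd F R i (slam F W ω) / ((2 ^ Q : ℕ) : ℤ)) = fun ω =>
      ⌊(Pq (R (slam F W ω))).coeff i / ((2 ^ Q : ℕ) : ℝ)⌋ := by
    funext ω
    unfold cd
    exact (Int.floor_div_natCast _ _).symm
  rw [e0]
  refine CH_near hq _ G fun ω ω' a b e => ?_
  have e1 := ht ω ω' a b e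
  have hQx : (2 : ℝ) ^ x ≤ ((2 ^ Q : ℕ) : ℝ) := by
    push_cast
    rw [← Real.rpow_natCast 2 Q]
    exact Real.rpow_le_rpow_of_exponent_le (by norm_num) hQ
  have h1 := (hK.2 (R (slam F W ω)) (R (slam F W ω')) ((tm F W ω : ℝ) / 2 ^ (J - W)) i
      (hdeg _) (hdeg _) (tm_unit F W ω).1 (tm_unit F W ω).2).2 (2 ^ x) (fun j _ _ => by
        have h2 := (jv_jet hx hdeg (hj ω ω' a b e) j).1
        rw [pj_eq, pj_eq, ← e1] at h2
        exact h2) (Real.rpow_pos_of_pos (by norm_num) x).le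
  have hM : (0 : ℝ) < ((2 ^ Q : ℕ) : ℝ) := by positivity
  rw [← sub_div, abs_div, abs_of_pos hM, div_le_iff₀ hM]
  have h3 : K * 2 ^ x ≤ K * ((2 ^ Q : ℕ) : ℝ) := mul_le_mul_of_nonneg_left hQx (by linarith)
  linarith

/-- **The hypotheses on the two paths.** -/
structure TeR (F : Fam m J) (q : F.Ω → ℝ) (R₁ R₂ : LnT F → Polynomial ℝ) {𝒞 Γ : Type}
    (c : LnT F → 𝒞) (Y : F.Ω → Γ) (D i W : ℕ) (x g : ℝ) : Prop where
  deg1 : ∀ y, (R₁ y).natDegree ≤ D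
  deg2 : ∀ y, (R₂ y).natDegree ≤ D
  tim : (J : ℝ) * Real.log 2 - g ≤ CH q F.T (fun ω => (F.l ω, F.Z ω))
  key : ∀ ω ω', 0 < q ω → 0 < q ω' → Y ω = Y ω' → F.T ω = F.T ω' ∧ F.Z ω = F.Z ω'
  ctx : CH q (fun ω => c (slam F W ω)) Y ≤ g
  kn1 : ∀ j ≤ D, j ≠ i → CH q (fun ω => ⌊pj F R₁ W j ω⌋) Y ≤ g
  kn2 : ∀ j ≤ D, j ≠ i → CH q (fun ω => ⌊pj F R₂ W j ω⌋) Y ≤ g
  nt1 : CH q (fun ω => ⌊pj F R₁ W i ω / 2 ^ x⌋) Y ≤ g
  nt2 : CH q (fun ω => ⌊pj F R₂ W i ω / 2 ^ x⌋) Y ≤ g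
  hi1 : ∀ j, i < j → j ≤ D → CH q (fun ω => ⌊pj F R₁ W j ω⌋)
    (fun ω => (c (slam F W ω), F.W ω)) ≤ g
  hi2 : ∀ j, i < j → j ≤ D → CH q (fun ω => ⌊pj F R₂ W j ω⌋)
    (fun ω => (c (slam F W ω), F.W ω)) ≤ g
  ipp : CH q (fun ω => (⌊pj F R₁ W i ω⌋, ⌊pj F R₂ W i ω⌋))
      (fun ω => ((⌊pj F R₁ W i ω / 2 ^ x⌋, ⌊pj F R₂ W i ω / 2 ^ x⌋),
        (c (slam F W ω), F.W ω))) ≤
    CH q (fun ω => (⌊pj F R₁ W i ω⌋, ⌊pj F R₂ W i ω⌋)) (fun ω => (c (slam F W ω), Y ω)) + g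

/-- The record of the ball. -/
noncomputable def gG (F : Fam m J) (R₁ R₂ : LnT F → Polynomial ℝ) {𝒞 Γ : Type}
    (c : LnT F → 𝒞) (Y : F.Ω → Γ) (D i W Q : ℕ) (x : ℝ) (ω : F.Ω) :
    Γ × (𝒞 × (((Fin (D + 1) → ℤ) × (Fin (D + 1) → ℤ)) × (ℤ × ℤ))) :=
  (Y ω, (c (slam F W ω), ((jv F R₁ W D i x ω, jv F R₂ W D i x ω),
    cN F R₁ R₂ i Q (slam F W ω))))

/-- The context. -/
def cC {F : Fam m J} {𝒞 : Type} (c : LnT F → 𝒞) (x : LnT F) : 𝒞 × (F.ζ × ℕ) := (c x, x.2)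

section

variable {F : Fam m J} {q : F.Ω → ℝ} {R₁ R₂ : LnT F → Polynomial ℝ} {𝒞 Γ : Type}
  {c : LnT F → 𝒞} {Y : F.Ω → Γ} {D i W Q : ℕ} {x g : ℝ}

theorem TeR.mono (H : TeR F q R₁ R₂ c Y D i W x g) {g' : ℝ} (h : g ≤ g') :
    TeR F q R₁ R₂ c Y D i W x g' :=
  ⟨H.deg1, H.deg2, by linarith [H.tim], H.key, H.ctx.trans h, fun j h1 h2 => (H.kn1 j h1 h2).trans h,
    fun j h1 h2 => (H.kn2 j h1 h2).trans h, H.nt1.trans h, H.nt2.trans h,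
    fun j h1 h2 => (H.hi1 j h1 h2).trans h, fun j h1 h2 => (H.hi2 j h1 h2).trans h,
    by linarith [H.ipp]⟩

theorem gG_Y {ω ω' : F.Ω} (e : gG F R₁ R₂ c Y D i W Q x ω = gG F R₁ R₂ c Y D i W Q x ω') :
    Y ω = Y ω' := (Prod.ext_iff.mp e).1

theorem TeR.Ytm (H : TeR F q R₁ R₂ c Y D i W x g) : Det q Y (tm F W) := fun ω ω' a b e => by
  unfold Pool.LPK12.tm
  rw [(H.key ω ω' a b e).1]

theorem TeR.gtm (H : TeR F q R₁ R₂ c Y D i W x g) :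
    Det q (gG F R₁ R₂ c Y D i W Q x) (tm F W) := fun ω ω' a b e => H.Ytm ω ω' a b (gG_Y e)

theorem gG_j1 : Det q (gG F R₁ R₂ c Y D i W Q x) (jv F R₁ W D i x) := fun ω ω' _ _ e => by
  unfold gG at e
  simp only [Prod.mk.injEq] at e
  exact e.2.2.1.1

theorem gG_j2 : Det q (gG F R₁ R₂ c Y D i W Q x) (jv F R₂ W D i x) := fun ω ω' _ _ e => by
  unfold gG at e
  simp only [Prod.mk.injEq] at e
  exact e.2.2.1.2

theorem gG_N : Det q (gG F R₁ R₂ c Y D i W Q x) (fun ω => cN F R₁ R₂ i Q (slam F W ω)) :=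
  fun ω ω' _ _ e => by
  unfold gG at e
  simp only [Prod.mk.injEq] at e
  exact e.2.2.2

/-- The record determines the context. -/
theorem TeR.gC (H : TeR F q R₁ R₂ c Y D i W x g) : Det q (gG F R₁ R₂ c Y D i W Q x)
    (fun ω => cC c (slam F W ω)) := fun ω ω' a b e => by
  have h1 := H.key ω ω' a b (gG_Y e)
  unfold gG at e
  simp only [Prod.mk.injEq] at e
  show (c (slam F W ω), (slam F W ω).2) = (c (slam F W ω'), (slam F W ω').2)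
  refine Prod.ext e.2.1 ?_
  show (F.Z ω, F.T1 W ω) = (F.Z ω', F.T1 W ω')
  unfold Fam.T1
  rw [h1.1, h1.2]

/-- Time and context. -/
theorem cC_W {ω ω' : F.Ω} (ht : tm F W ω = tm F W ω')
    (hc : cC c (slam F W ω) = cC c (slam F W ω')) :
    c (slam F W ω) = c (slam F W ω') ∧ F.W ω = F.W ω' := by
  obtain ⟨e2, e3⟩ := Prod.ext_iff.mp hc
  have e4 : F.Z ω = F.Z ω' := (Prod.ext_iff.mp e3).1
  have e5 : F.T1 W ω = F.T1 W ω' := (Prod.ext_iff.mp e3).2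
  refine ⟨e2, ?_⟩
  unfold Fam.W
  rw [T_tm F W e5 ht, e4]

theorem W_cC {ω ω' : F.Ω} (hc : c (slam F W ω) = c (slam F W ω')) (hW : F.W ω = F.W ω') :
    tm F W ω = tm F W ω' ∧ cC c (slam F W ω) = cC c (slam F W ω') := by
  unfold Fam.W at hW
  obtain ⟨e1, e2⟩ := Prod.ext_iff.mp hW
  dsimp only at e1 e2
  refine ⟨?_, Prod.ext hc ?_⟩
  · unfold Pool.LPK12.tm
    rw [e1]
  · show (F.Z ω, F.T1 W ω) = (F.Z ω', F.T1 W ω')
    unfold Fam.T1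
    rw [e1, e2]

end

end Pool.TE46
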