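import Pool.Agent.H46.TE.Vms

/-!
# The near path and the velocities over the labels of an early window

`vms_V`: the velocities over the labels of an early window from the near path. `vms_P`: the near path
from its heights and the velocities over the labels of the early window.
-/

set_option autoImplicit false

namespace Pool.TE46

open Finset Real MvPolynomial
open Pool.Agent.H49.Ent Pool.Agent.H32.Dense Pool.STK Pool.KA Pool.KSAT Pool.K2S Pool.PB Pool.GEN
open Pool.S6C Pool.RCD Pool.LA91 Pool.OWN68 Pool.AJW Pool.AJX Pool.CHT Pool.PN18 Pool.AB63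
open Pool.RWB12
open Pool.GRD (LbP)
open Pool.LP30 (paQ htQ htO htO_P)
open Pool.RJ28 (dgj dgj_lt dgj_st dgj_le)

variable {m : ℕ} {S : PCl m} {C₀ : ℝ} {c : ℕ → Fin m} {d : ℕ} {sn : ℕ → ℝ → ℝ} {G : Set ℝ}

/-- The heights and the velocities of a near path. -/
theorem pa_hv {b : ℝ} {nH nV : ℕ → ℝ} {K : ℕ} {e : ℝ} {J : ℕ} {F : Fam m J} {A : F.Ω → Prop}
    {u : F.Ω → ℕ → ℕ → ℤ} (hu : (paQ m c d b (fun l => sn l b) nH nV).P K e J F A u) :
    ((htQ m c d b (fun l => sn l b) nH).prod (qG m c d sn b (fun i => nV i))).P K e J F A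
      (fun ω => (htO (u ω), fun i : Fin d => u ω i 1)) := by
  refine ⟨htO_P hu, fun i => ?_⟩
  have h1 := hu.1 i (Nat.zero_le _) i.2 1 le_rfl
  simp only [one_ne_zero, if_false] at h1
  exact h1

theorem pa_hv_inj {b : ℝ} {nH nV : ℕ → ℝ} {K : ℕ} {e : ℝ} {J : ℕ} {F : Fam m J}
    {A : F.Ω → Prop} {u : F.Ω → ℕ → ℕ → ℤ}
    (hu : (paQ m c d b (fun l => sn l b) nH nV).P K e J F A u) {ω ω' : F.Ω} (hω : A ω)
    (hω' : A ω') (h : (htO (u ω), fun i : Fin d => u ω i 1) =
      (htO (u ω'), fun i : Fin d => u ω' i 1)) : u ω = u ω' := by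
  obtain ⟨h1, h2⟩ := Prod.ext_iff.1 h
  funext l j
  by_cases hl : 0 ≤ l ∧ l < d ∧ j ≤ 1
  · rcases Nat.eq_zero_or_pos j with rfl | hj
    · have h3 := congrFun (congrFun h1 l) 0
      unfold htO at h3
      simpa using h3
    · obtain rfl : j = 1 := by omega
      exact congrFun h2 ⟨l, hl.2.1⟩
  · rw [hu.2 ω hω l j hl, hu.2 ω' hω' l j hl]

/-- **The velocities over the labels of an early window** from the near path. -/
theorem vms_V (htm : TmC S C₀)
    (hpos : ∀ (τ : ℝ) (J : ℕ) (F : Fam m J) (A : F.Ω → Prop), S.St τ J F A → 0 < Pe F.p A)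
    (hW : ChG S c d sn G) {A D φ b : ℝ} (hA : 0 ≤ A) (hD : 0 < D) (hφ : φ ≤ D / 2)
    (hb1 : 3 * dgj A D d 0 + 6 * D ≤ 1 - b) {n : ℕ} {v : ℕ → ℝ} (H : VMs d sn G b D φ n v)
    {s : ℕ → ℝ → ℝ} (hs : ∀ l < d, ∀ x, sn l x - D ≤ s l x) (hs1 : ∀ l < d, ∀ x, s l x ≤ sn l x)
    {N : ℕ → ℝ} (h1 : ∀ l < d, sn l b + dgj A D d l + 2 * D - b - D / 16 ≤ N l)
    (h3 : ∀ l < d, N l ≤ sn l b + dgj A D d l + 2 * D - b) :
    Few S (fun J F => ptr F J) (vg b) (fun _ F => F.T) (npQ m c d sn b A D)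
      (qG m c d s (v n) (fun i => N i)) := by
  have hb : b ∈ G := by
    rw [← H.v0]
    exact H.mem 0 (Nat.zero_le _)
  have s0 : ∀ l < d, |sn l b - sn l b - (b - b)| ≤ φ := fun l hl => by
    have h := H.sl l hl 0 (Nat.zero_le _)
    rw [H.v0] at h
    exact h
  have k1 := vel_st (s := sn) (s' := s) (N := fun l => sn l b + dgj A D d l + 2 * D - b) (N' := N)
    htm hpos hW hA hD hφ hb1 hb hb le_rfl le_rfl le_rfl (by linarith only [hD])
    (by linarith only [hD]) s0 s0 s0 (fun l _ => by linarith only [hD]) (fun l hl => hs l hl _)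
    (fun l _ => by linarith only [hD]) h3 h3
  have k2 := (vel_msh htm hpos hW hA hD hφ hb1 H hs hs1 h1 h3 (le_refl n)).1
  have k3 := few_via hpos (exs_qG hW hb (fun l hl => hs1 l hl b) _) k1 k2
  exact Few.pre hpos (fun u : ℕ → ℕ → ℤ => (htO u, fun i : Fin d => u i 1))
    (fun K e J F A u hu => pa_hv hu) k3

/-- **The near path** from its heights and the velocities over the labels of the early window. -/
theorem vms_P (htm : TmC S C₀)
    (hpos : ∀ (τ : ℝ) (J : ℕ) (F : Fam m J) (A : F.Ω → Prop), S.St τ J F A → 0 < Pe F.p A)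
    (hW : ChG S c d sn G) {A D φ b : ℝ} (hA : 0 ≤ A) (hD : 0 < D) (hφ : φ ≤ D / 2)
    (hb1 : 3 * dgj A D d 0 + 6 * D ≤ 1 - b) {n : ℕ} {v : ℕ → ℝ} (H : VMs d sn G b D φ n v)
    {s : ℕ → ℝ → ℝ} (hs : ∀ l < d, ∀ x, sn l x - D ≤ s l x) (hs1 : ∀ l < d, ∀ x, s l x ≤ sn l x)
    {N : ℕ → ℝ} (h1 : ∀ l < d, sn l b + dgj A D d l + 2 * D - b - D / 16 ≤ N l)
    (h3 : ∀ l < d, N l ≤ sn l b + dgj A D d l + 2 * D - b) :
    Pool.LA91.FewC S (fun J F => ptr F J) (vg b) (fun _ F => F.T)
      ((htQ m c d b (fun l => sn l b) (fun l => sn l b + dgj A D d l + 2 * D)).prod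
        (qG m c d s (v n) (fun i => N i))) (npQ m c d sn b A D)
      (∑ i : Fin d, Real.log 2 * (sn i b + dgj A D d i + 2 * D - b - N i)) := by
  have hb : b ∈ G := by
    rw [← H.v0]
    exact H.mem 0 (Nat.zero_le _)
  have s0 : ∀ l < d, |sn l b - sn l b - (b - b)| ≤ φ := fun l hl => by
    have h := H.sl l hl 0 (Nat.zero_le _)
    rw [H.v0] at h
    exact h
  have hd0 : ∀ l, l < d → dgj A D d l ≤ dgj A D d 0 := fun l hl => by
    rcases Nat.eq_zero_or_pos l with rfl | h1
    · exact le_rfl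
    · have h2 := dgj_st hA hD h1 hl
      have h3 := dgj_lt hA hD hl
      linarith only [h2, h3, hA, hD]
  have hlt : ∀ l, l < d → 16 * D ≤ dgj A D d l := fun l hl => by
    have := dgj_lt hA hD hl
    linarith only [this, hA, hD]
  have k1 := vel_st (s := s) (s' := sn) (N := N) (N' := N)
    htm hpos hW hA hD hφ hb1 hb hb le_rfl le_rfl le_rfl (by linarith only [hD])
    (by linarith only [hD]) s0 s0 s0 (fun l hl => hs l hl _) (fun l _ => by linarith only [hD])
    h1 (fun _ _ => le_rfl) h3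
  have k2 := (vel_msh htm hpos hW hA hD hφ hb1 H hs hs1 h1 h3 (le_refl n)).2
  have k3 := few_via hpos (exs_qG hW hb (fun l hl => hs1 l hl b) _) k2 k1
  obtain ⟨Q₀, hQ₀⟩ : ∃ Q₀, Q₀ = (htQ m c d b (fun l => sn l b)
      (fun l => sn l b + dgj A D d l + 2 * D)).prod (qG m c d s (v n) (fun i => N i)) := ⟨_, rfl⟩
  rw [← hQ₀] at k3 ⊢
  -- the digits of the velocities
  have k4 : Pool.LA91.FewC S (fun J F => ptr F J) (vg b) (fun _ F => F.T) Q₀
      (qG m c d sn b (fun i => sn i b + dgj A D d i + 2 * D - b))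
      (∑ i : Fin d, Real.log 2 * (sn i b + dgj A D d i + 2 * D - b - N i)) := by
    refine fewC_pi hpos fun i => few_more hpos (h3 i i.2) ?_
    -- one coordinate of the velocities
    intro a ha
    obtain ⟨e, he, K3⟩ := k3 a ha
    obtain ⟨K₁, M₁, hx⟩ := exs_qG hW hb (s := sn) (fun l _ => le_rfl) (fun i : Fin d => N i) e he
    refine ⟨e, he, fun K => Bas.mono 0 (((K3 (max K K₁)).and hx).and (pos_bas hpos)) ?_⟩
    rintro J - F A ⟨⟨K3, u₁, hu₁, -⟩, hA⟩ u u' hu hu'
    have hcl := isLaw_cond F.isLaw hA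
    obtain ⟨V, z, hz, q1⟩ := K3 u (fun ω => Function.update (u₁ ω) i (u' ω))
      (Q₀.mono (le_max_left _ _) le_rfl hu) (fun i' => by
        by_cases hi : i' = i
        · subst hi
          simp only [Function.update_self]
          exact (qJet m _ _ _ _ _ _).mono (le_max_left _ _) le_rfl hu'
        · simp only [Function.update_of_ne hi]
          exact (qJet m _ _ _ _ _ _).mono (le_max_right _ _) le_rfl (hu₁ i'))
    refine ⟨V, z, hz, le_trans (CH_mono_left hcl.nonneg fun ω ω' _ _ hh => ?_) q1⟩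
    have q2 := congrFun (Prod.ext_iff.1 hh).1 i
    simpa only [Function.update_self] using q2
  -- the heights
  have k5 : Few S (fun J F => ptr F J) (vg b) (fun _ F => F.T) Q₀
      (htQ m c d b (fun l => sn l b) (fun l => sn l b + dgj A D d l + 2 * D)) := by
    rw [hQ₀]
    refine Few.fst hpos ?_
    refine ht_tr (ρ := 0) (σ₀ := D / 8) (lv := fun l => dgj A D d l + 2 * D - D / 8) htm hpos hW
      hb le_rfl (by linarith only [hD]) le_rfl (fun l hl => ?_) (fun l hl => ?_)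
      (fun l hl => ?_) (fun l hl => ?_) (fun l' l hl' hl => ?_) (fun l hl => ?_) (fun l hl => ?_)
      (fun l' l hl' hl => ?_)
    · linarith only []
    · have e1 := hlt l hl
      show 0 < dgj A D d l + 2 * D - D / 8
      linarith only [e1, hD]
    · show sn l b + (dgj A D d l + 2 * D - D / 8) + D / 8 ≤ sn l b + dgj A D d l + 2 * D
      linarith only []
    · show dgj A D d l + 2 * D - D / 8 + D / 8 ≤ 1 - b
      have e1 := hd0 l hl
      have e2 := hlt 0 (by omega)
      linarith only [e1, e2, hb1, hD]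
    · show dgj A D d l + 2 * D - D / 8 + D / 8 ≤ dgj A D d l' + 2 * D - D / 8
      have e1 := dgj_st hA hD hl' hl
      have e2 := hlt l hl
      linarith only [e1, e2, hD]
    · exact le_rfl
    · have e1 := hd0 l hl
      have e2 := hlt 0 (by omega)
      linarith only [e1, e2, hb1, hD]
    · have e1 := dgj_st hA hD hl' hl
      have e2 := hlt l hl
      linarith only [e1, e2, hD]
  have k6 := FewC.seq hpos k5.fewC (FewC.pre hpos (Q := Q₀.prod (htQ m c d b (fun l => sn l b)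
    (fun l => sn l b + dgj A D d l + 2 * D))) (Q₂ := Q₀) (fun x => x.1)
    (fun _ _ _ _ _ _ h => h.1) k4)
  rw [zero_add] at k6
  exact FewC.post hpos (Q' := (htQ m c d b (fun l => sn l b)
    (fun l => sn l b + dgj A D d l + 2 * D)).prod
      (qG m c d sn b (fun i => sn i b + dgj A D d i + 2 * D - b)))
    (fun u : ℕ → ℕ → ℤ => (htO u, fun i : Fin d => u i 1))
    (fun K e J F A u hu => ⟨pa_hv hu, fun ω ω' hω hω' h => pa_hv_inj hu hω hω' h⟩) k6

end Pool.TE46
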