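import Pool.Agent.H63.AB.Sto
import Pool.Agent.H12.AB.Rwb
import Pool.Agent.H91.V0F.Lp

/-!
# Velocities over the labels of several windows

`vel_tr`: the velocities of the chain over the labels of another window, the heights over the labels of
the later window given. `ht_tr`: the heights over the labels of an earlier window. `vel_msh`: a sequence
of windows.
-/

set_option autoImplicit false

namespace Pool.TE46

open Finset Real MvPolynomial
open Pool.Agent.H49.Ent Pool.Agent.H32.Dense Pool.STK Pool.KA Pool.KSAT Pool.K2S Pool.PB Pool.GEN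
open Pool.S6C Pool.RCD Pool.LA91 Pool.OWN68 Pool.AJW Pool.AJX Pool.CHT Pool.PN18 Pool.AB63
open Pool.GRD (LbP)
open Pool.LP30 (paQ htQ htO htO_P)
open Pool.RJ28 (dgj dgj_lt dgj_st dgj_le)

variable {m : ℕ} {S : PCl m} {C₀ : ℝ} {U₀ U₁ U₂ U₃ : Type}
  {α β γ : ∀ J : ℕ, Fam m J → Type} {f : ∀ (J : ℕ) (F : Fam m J), F.Ω → α J F}
  {g : ∀ (J : ℕ) (F : Fam m J), F.Ω → β J F} {y : ∀ (J : ℕ) (F : Fam m J), F.Ω → γ J F}

/-- Through a third quantity, a common one given. -/
theorem fewC_via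
    (hpos : ∀ (τ : ℝ) (J : ℕ) (F : Fam m J) (A : F.Ω → Prop), S.St τ J F A → 0 < Pe F.p A)
    {A : Qt m U₀} {B : Qt m U₁} {C : Qt m U₂} {D : Qt m U₃} {c₁ c₂ : ℝ} (xC : Exs S C)
    (h1 : Pool.LA91.FewC S f g y (A.prod B) C c₁)
    (h2 : Pool.LA91.FewC S f g y (A.prod C) D c₂) :
    Pool.LA91.FewC S f g y (A.prod B) D (c₁ + c₂) :=
  FewC.cut hpos xC h1 (FewC.pre hpos (Q₂ := A.prod C) (fun x : (U₀ × U₁) × U₂ => (x.1.1, x.2))
    (fun _ _ _ _ _ _ h => ⟨h.1.1, h.2⟩) h2)

theorem few_via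
    (hpos : ∀ (τ : ℝ) (J : ℕ) (F : Fam m J) (A : F.Ω → Prop), S.St τ J F A → 0 < Pe F.p A)
    {A : Qt m U₀} {B : Qt m U₁} {C : Qt m U₂} {D : Qt m U₃} (xC : Exs S C)
    (h1 : Few S f g y (A.prod B) C) (h2 : Few S f g y (A.prod C) D) :
    Few S f g y (A.prod B) D := by
  have h3 := fewC_via hpos xC h1.fewC h2.fewC
  rw [add_zero] at h3
  exact h3.few

/-- Another quantity instead of the given one. -/
theorem few_base
    (hpos : ∀ (τ : ℝ) (J : ℕ) (F : Fam m J) (A : F.Ω → Prop), S.St τ J F A → 0 < Pe F.p A)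
    {A : Qt m U₀} {B : Qt m U₁} {C : Qt m U₂} {D : Qt m U₃} (xC : Exs S C)
    (h1 : Few S f g y A C) (h2 : Few S f g y (C.prod B) D) :
    Few S f g y (A.prod B) D := by
  have h3 : Pool.LA91.FewC S f g y ((A.prod B).prod C) D 0 :=
    FewC.pre hpos (Q₂ := C.prod B) (fun x : (U₀ × U₁) × U₂ => (x.2, x.1.2))
      (fun _ _ _ _ _ _ h => ⟨h.2, h.1.2⟩) h2.fewC
  have h4 := FewC.cut hpos xC (Few.fst hpos h1 : Few S f g y (A.prod B) C).fewC h3
  rw [add_zero] at h4
  exact h4.few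

/-- Labels of a smaller precision. -/
theorem exs_prec {I : Finset (Fin m)} {k : Fin m} {j : ℕ} {w p p' N : ℝ} (hp : p' ≤ p)
    (h : Exs S (qJet m I k j w p N)) : Exs S (qJet m I k j w p' N) := by
  intro e he
  obtain ⟨K, M, H⟩ := h e he
  refine ⟨K, M, Bas.mono 0 H ?_⟩
  rintro J - F A ⟨u, hu, hc⟩
  exact ⟨u, qJet_prec hp hu, hc⟩

section

variable {c : ℕ → Fin m} {d : ℕ} {sn : ℕ → ℝ → ℝ} {G : Set ℝ}

/-- **The heights over the labels of an earlier window.** -/
theorem ht_tr (htm : TmC S C₀)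
    (hpos : ∀ (τ : ℝ) (J : ℕ) (F : Fam m J) (A : F.Ω → Prop), S.St τ J F A → 0 < Pe F.p A)
    (hW : ChG S c d sn G) {b W ρ σ₀ : ℝ} (hb : b ∈ G) (hWb : W ≤ b) (hσ : 0 < σ₀)
    (hρ : 0 ≤ ρ) (r1 : ∀ l < d, sn l W ≤ sn l b + ρ) {nH nW lv : ℕ → ℝ} (hlv : ∀ l < d, 0 < lv l)
    (n1 : ∀ l < d, sn l b + lv l + σ₀ ≤ nH l) (n3 : ∀ l < d, lv l + σ₀ ≤ 1 - b)
    (n4 : ∀ l' l, l' < l → l < d → lv l + σ₀ ≤ lv l') (hN : ∀ l < d, nW l ≤ nH l)
    (n5 : ∀ l < d, nW l + ρ + σ₀ ≤ sn l W + (1 - b))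
    (n6 : ∀ l' l, l' < l → l < d → nW l + ρ + σ₀ ≤ sn l W + lv l') :
    Few S (fun J F => ptr F J) (vg b) (fun _ F => F.T) (htQ m c d b (fun l => sn l b) nH)
      (htQ m c d W (fun l => sn l W) nW) := by
  obtain ⟨u₁, rd, hrd, hch⟩ := hW.ch b hb
  have hb0 := hch.w0
  have hb1 := hch.u0
  have hmin : min (1 : ℝ) (1 - b) = 1 - b := min_eq_right (by linarith only [hb0])
  refine few_jets (lv := lv) (p₀ := 1) (lam := 1) (σ₀ := σ₀) htm hpos hch
    (fun _ _ _ _ _ => le_rfl) (fun _ _ _ _ _ => hWb) hb1 le_rfl one_pos hσ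
    (fun l _ hl => hlv l hl) (fun l _ hl j hj => ?_) (fun l _ hl j hj => ?_)
    (fun l _ hl j hj l' _ hl' => ?_) (fun l _ hl j hj => hN l hl) (fun l _ hl j hj => ?_)
    (fun l _ hl j hj l' _ hl' => ?_) ptr_id (kn_T c 1 1)
  · obtain rfl : j = 0 := by omega
    have := n1 l hl
    push_cast
    linarith only [this]
  · rw [hmin, min_self]
    have := n3 l hl
    linarith only [this]
  · rw [min_self]
    have := n4 l' l hl' hl
    linarith only [this]
  · obtain rfl : j = 0 := by omega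
    rw [hmin]
    push_cast
    have h1 := n5 l hl
    have h2 := r1 l hl
    rcases min_choice (sn l b) (sn l W) with h | h <;> rw [h] <;> linarith only [h1, h2, hρ]
  · obtain rfl : j = 0 := by omega
    push_cast
    have h1 := n6 l' l hl' hl
    have h2 := r1 l hl
    rcases min_choice (sn l b) (sn l W) with h | h <;> rw [h] <;> linarith only [h1, h2, hρ]

/-- **The velocities over the labels of another window**, the heights given. -/
theorem vel_tr (htm : TmC S C₀)
    (hpos : ∀ (τ : ℝ) (J : ℕ) (F : Fam m J) (A : F.Ω → Prop), S.St τ J F A → 0 < Pe F.p A)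
    (hW : ChG S c d sn G) {v v' W ρ σ₀ : ℝ} (aW : W ∈ G) (b1 : v ≤ W) (b2 : v' ≤ W)
    (hρ : 0 ≤ ρ) (hσ : 0 < σ₀) {s s' : ℕ → ℝ → ℝ} (r1 : ∀ l < d, sn l W - ρ ≤ s l v)
    (r2 : ∀ l < d, sn l W - ρ ≤ s' l v') {nW N N' lv : ℕ → ℝ} (hlv : ∀ l < d, 0 < lv l)
    (n1 : ∀ l < d, sn l W + lv l + σ₀ ≤ nW l) (n2 : ∀ l < d, sn l W + lv l + σ₀ ≤ N l + W)
    (n3 : ∀ l < d, lv l + ρ + σ₀ ≤ 1 - W)
    (n4 : ∀ l' l, l' < l → l < d → lv l + ρ + σ₀ ≤ lv l') (hN : ∀ l < d, N' l ≤ N l)
    (n5 : ∀ l < d, N' l + W + ρ + σ₀ ≤ sn l W + (1 - W))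
    (n6 : ∀ l' l, l' < l → l < d → N' l + W + ρ + σ₀ ≤ sn l W + lv l') :
    Few S (fun J F => ptr F J) (vg W) (fun _ F => F.T)
      ((htQ m c d W (fun l => sn l W) nW).prod (qG m c d s v (fun i => N i)))
      (qG m c d s' v' (fun i => N' i)) := by
  obtain ⟨u₁, rd, hrd, hch⟩ := hW.ch W aW
  have hW0 := hch.w0
  have hW1 := hch.u0
  have hmin : min (1 : ℝ) (1 - W) = 1 - W := min_eq_right (by linarith only [hW0])
  refine few_pi hpos fun i => ?_
  have hi := i.2
  have key := few_jetN (f := fun (J : ℕ) (F : Fam m J) => ptr F J)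
    (y := fun (_ : ℕ) (F : Fam m _) => F.T) htm (hch.take (Nat.zero_le (i : ℕ)) hi.le) (k := c i)
    (j := 1) (wv := fun _ j' => if j' = 0 then W else v)
    (pv := fun l j' => if j' = 0 then sn l W else s l v)
    (Nv := fun l j' => if j' = 0 then nW l else N l)
    (lv := lv) (w₁ := v) (w₂ := v') (p₁ := s i v) (p₂ := s' i v')
    (N₁ := N i) (N₂ := N' i) (p₀ := 1) (lam := 1) (σ₀ := σ₀)
    (fun l _ _ j' _ => by
      by_cases h : j' = 0
      · simp only [h, if_true]
        exact le_rfl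
      · simp only [h, if_false]
        exact b1)
    b1 b2 hW1 le_rfl one_pos hσ (fun l _ hl => hlv l (by omega)) (by
      intro l _ hl j' hj'
      rcases Nat.eq_zero_or_pos j' with rfl | hj
      · simp only [if_pos]
        push_cast
        have := n1 l (by omega)
        linarith only [this]
      · obtain rfl : j' = 1 := by omega
        simp only [one_ne_zero, if_false]
        push_cast
        have := n2 l (by omega)
        linarith only [this]) (by
      intro l _ hl j' hj'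
      rw [hmin]
      have l1 := r1 l (by omega)
      have l2 := n3 l (by omega)
      rcases Nat.eq_zero_or_pos j' with rfl | hj
      · simp only [if_pos]
        rw [min_self]
        linarith only [l2, hρ]
      · obtain rfl : j' = 1 := by omega
        simp only [one_ne_zero, if_false]
        rcases min_choice (s l v) (sn l W) with h | h <;> rw [h] <;>
          linarith only [l1, l2, hρ]) (by
      intro l _ hl j' hj' l' _ hl'
      have l1 := r1 l (by omega)
      have l2 := n4 l' l hl' (by omega)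
      rcases Nat.eq_zero_or_pos j' with rfl | hj
      · simp only [if_pos]
        rw [min_self]
        linarith only [l2, hρ]
      · obtain rfl : j' = 1 := by omega
        simp only [one_ne_zero, if_false]
        rcases min_choice (s l v) (sn l W) with h | h <;> rw [h] <;>
          linarith only [l1, l2, hρ]) (hN i hi) (by
      rw [hmin]
      push_cast
      have l1 := r1 i hi
      have l2 := r2 i hi
      have l3 := n5 i hi
      rcases min_choice (s i v) (s' i v') with h | h <;> rw [h] <;> linarith only [l1, l2, l3]) (by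
      intro l _ hl
      push_cast
      have l1 := r1 i hi
      have l2 := r2 i hi
      have l3 := n6 l i hl hi
      rcases min_choice (s i v) (s' i v') with h | h <;> rw [h] <;> linarith only [l1, l2, l3])
    ptr_id (kn_T c 1 1)
  refine Few.pre hpos (fun q : (ℕ → ℕ → ℤ) × (Fin d → ℤ) =>
    ((fun (l j' : ℕ) => if hl : l < (i : ℕ) ∧ j' ≤ 1 then
      (if j' = 0 then q.1 l 0 else q.2 ⟨l, hl.1.trans hi⟩) else 0), q.2 i)) ?_ key
  rintro K e J F A u ⟨hu1, hu2⟩
  refine ⟨⟨fun l _ hl j' hj' => ?_, fun ω _ l j' hn => ?_⟩, hu2 i⟩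
  · have hlj : l < (i : ℕ) ∧ j' ≤ 1 := ⟨hl, hj'⟩
    simp only [dif_pos hlj]
    rcases Nat.eq_zero_or_pos j' with rfl | hj
    · simp only [if_pos]
      exact hu1.1 l (Nat.zero_le _) (by omega) 0 le_rfl
    · obtain rfl : j' = 1 := by omega
      simp only [one_ne_zero, if_false]
      exact hu2 ⟨l, hl.trans hi⟩
  · exact dif_neg fun h => hn ⟨Nat.zero_le _, h.1, h.2⟩

/-- The velocities over labels of a smaller precision exist. -/
theorem exs_qG (hW : ChG S c d sn G) {v : ℝ} (hv : v ∈ G) {s : ℕ → ℝ → ℝ}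
    (hs : ∀ l < d, s l v ≤ sn l v) (N : Fin d → ℝ) : Exs S (qG m c d s v N) := by
  obtain ⟨u₁, rd, hrd, hch⟩ := hW.ch v hv
  exact exs_pi fun i => exs_prec (hs i i.2) (exs_jet (hrd i i.2) (hch.att i (Nat.zero_le _) i.2))

theorem exs_ht (hW : ChG S c d sn G) {v : ℝ} (hv : v ∈ G) (nH : ℕ → ℝ) :
    Exs S (htQ m c d v (fun l => sn l v) nH) := by
  obtain ⟨u₁, rd, hrd, hch⟩ := hW.ch v hv
  exact exs_qjets fun l l0 l1 j' _ => exs_jet (hrd l (by omega)) (hch.att l l0 l1)

/-- **One step between two windows**, the heights over the labels of a later window given. -/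
theorem vel_st (htm : TmC S C₀)
    (hpos : ∀ (τ : ℝ) (J : ℕ) (F : Fam m J) (A : F.Ω → Prop), S.St τ J F A → 0 < Pe F.p A)
    (hW : ChG S c d sn G) {A D φ b : ℝ} (hA : 0 ≤ A) (hD : 0 < D) (hφ : φ ≤ D / 2)
    (hb1 : 3 * dgj A D d 0 + 6 * D ≤ 1 - b) (hb : b ∈ G) {W x x' : ℝ} (aW : W ∈ G) (hWb : W ≤ b)
    (x1 : x ≤ W) (x2 : x' ≤ W) (x3 : W ≤ x + D) (x4 : W ≤ x' + D)
    (sW : ∀ l < d, |sn l W - sn l b - (W - b)| ≤ φ)
    (sx : ∀ l < d, |sn l x - sn l b - (x - b)| ≤ φ)
    (sx' : ∀ l < d, |sn l x' - sn l b - (x' - b)| ≤ φ) {s s' : ℕ → ℝ → ℝ}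
    (hs : ∀ l < d, sn l x - D ≤ s l x) (hs' : ∀ l < d, sn l x' - D ≤ s' l x') {N N' : ℕ → ℝ}
    (h1 : ∀ l < d, sn l b + dgj A D d l + 2 * D - b - D / 16 ≤ N l)
    (h2 : ∀ l < d, N' l ≤ N l) (h3 : ∀ l < d, N' l ≤ sn l b + dgj A D d l + 2 * D - b) :
    Few S (fun J F => ptr F J) (vg b) (fun _ F => F.T)
      ((htQ m c d b (fun l => sn l b) (fun l => sn l b + dgj A D d l + 2 * D)).prod
        (qG m c d s x (fun i => N i))) (qG m c d s' x' (fun i => N' i)) := by
  obtain ⟨u₁, rd, hrd, hch⟩ := hW.ch b hb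
  have hb1' := hch.u0
  have hd0 : ∀ l, l < d → dgj A D d l ≤ dgj A D d 0 := fun l hl => by
    rcases Nat.eq_zero_or_pos l with rfl | h1
    · exact le_rfl
    · have h2 := dgj_st hA hD h1 hl
      have h3 := dgj_lt hA hD hl
      linarith only [h2, h3, hA, hD]
  have hlt : ∀ l, l < d → 16 * D ≤ dgj A D d l := fun l hl => by
    have := dgj_lt hA hD hl
    linarith only [this, hA, hD]
  have hst : ∀ l' l, l' < l → l < d → dgj A D d l + 48 * D ≤ dgj A D d l' := fun l' l h hl => by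
    have h4 := dgj_st hA hD h hl
    have h5 := hlt l hl
    linarith only [h4, h5]
  refine few_base hpos (C := htQ m c d W (fun l => sn l W)
    (fun l => sn l W + (dgj A D d l + D + D / 8))) (exs_ht hW aW _) ?_ ?_
  · refine ht_tr (ρ := D / 2) (σ₀ := D / 8) (lv := fun l => dgj A D d l + 2 * D - D / 8) htm hpos hW
      hb hWb (by linarith only [hD]) (by linarith only [hD]) (fun l hl => ?_) (fun l hl => ?_)
      (fun l hl => ?_) (fun l hl => ?_) (fun l' l hl' hl => ?_) (fun l hl => ?_) (fun l hl => ?_)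
      (fun l' l hl' hl => ?_)
    · have e1 := (abs_le.1 (sW l hl)).2
      linarith only [e1, hWb, hφ]
    · have e1 := hlt l hl
      show 0 < dgj A D d l + 2 * D - D / 8
      linarith only [e1, hD]
    · show sn l b + (dgj A D d l + 2 * D - D / 8) + D / 8 ≤ sn l b + dgj A D d l + 2 * D
      linarith only []
    · show dgj A D d l + 2 * D - D / 8 + D / 8 ≤ 1 - b
      have e1 := hd0 l hl
      have e2 := hlt 0 (by omega)
      linarith only [e1, e2, hb1, hD]
    · show dgj A D d l + 2 * D - D / 8 + D / 8 ≤ dgj A D d l' + 2 * D - D / 8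
      have e1 := hst l' l hl' hl
      linarith only [e1, hD]
    · show sn l W + (dgj A D d l + D + D / 8) ≤ sn l b + dgj A D d l + 2 * D
      have e1 := (abs_le.1 (sW l hl)).2
      linarith only [e1, hWb, hφ, hD]
    · have e1 := hd0 l hl
      have e2 := hlt 0 (by omega)
      linarith only [e1, e2, hb1, hD]
    · have e1 := hst l' l hl' hl
      linarith only [e1, hD]
  · have hup : ∀ (J : ℕ) (F : Fam m J), ∃ φ : LnT F → LnT F, ∀ ω,
        vg W J F ω = φ (vg b J F ω) := fun J F => vg_mono hWb hb1'.le J F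
    refine Few.up (f' := fun J F => ptr F J) (y' := fun _ F => F.T) hpos
      (fun J F => ⟨fun x => x, fun _ => rfl⟩) hup (fun J F => ⟨fun x => x, fun _ => rfl⟩) ?_
    refine vel_tr (ρ := 3 * D) (σ₀ := D / 8) (lv := fun l => dgj A D d l + D) htm hpos hW aW x1 x2
      (by linarith only [hD]) (by linarith only [hD]) (fun l hl => ?_) (fun l hl => ?_)
      (fun l hl => ?_) (fun l hl => ?_) (fun l hl => ?_) (fun l hl => ?_) (fun l' l hl' hl => ?_)
      h2 (fun l hl => ?_) (fun l' l hl' hl => ?_)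
    · have e1 := (abs_le.1 (sW l hl)).2
      have e2 := (abs_le.1 (sx l hl)).1
      have e3 := hs l hl
      linarith only [e1, e2, e3, x3, hφ]
    · have e1 := (abs_le.1 (sW l hl)).2
      have e2 := (abs_le.1 (sx' l hl)).1
      have e3 := hs' l hl
      linarith only [e1, e2, e3, x4, hφ]
    · have e1 := hlt l hl
      show 0 < dgj A D d l + D
      linarith only [e1, hD]
    · show sn l W + (dgj A D d l + D) + D / 8 ≤ sn l W + (dgj A D d l + D + D / 8)
      linarith only []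
    · show sn l W + (dgj A D d l + D) + D / 8 ≤ N l + W
      have e1 := (abs_le.1 (sW l hl)).2
      have e2 := h1 l hl
      linarith only [e1, e2, hφ, hD]
    · show dgj A D d l + D + 3 * D + D / 8 ≤ 1 - W
      have e1 := hd0 l hl
      have e2 := hlt 0 (by omega)
      linarith only [e1, e2, hb1, hD, hWb]
    · show dgj A D d l + D + 3 * D + D / 8 ≤ dgj A D d l' + D
      have e1 := hst l' l hl' hl
      linarith only [e1, hD]
    · have e1 := (abs_le.1 (sW l hl)).1
      have e2 := h3 l hl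
      have e3 := hd0 l hl
      have e4 := hlt 0 (by omega)
      linarith only [e1, e2, e3, e4, hφ, hD, hb1, hWb]
    · show N' l + W + 3 * D + D / 8 ≤ sn l W + (dgj A D d l' + D)
      have e1 := (abs_le.1 (sW l hl)).1
      have e2 := h3 l hl
      have e3 := hst l' l hl' hl
      linarith only [e1, e2, e3, hφ, hD]

/-- **A sequence of windows** `v 0 = b ≥ v 1 ≥ …`. -/
structure VMs (d : ℕ) (sn : ℕ → ℝ → ℝ) (G : Set ℝ) (b D φ : ℝ) (n : ℕ) (v : ℕ → ℝ) : Prop where
  v0 : v 0 = b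
  mem : ∀ j ≤ n, v j ∈ G
  st : ∀ j < n, v (j + 1) ≤ v j ∧ v j ≤ v (j + 1) + D
  sl : ∀ l < d, ∀ j ≤ n, |sn l (v j) - sn l b - (v j - b)| ≤ φ

theorem VMs.le {b D φ : ℝ} {n : ℕ} {v : ℕ → ℝ} (H : VMs d sn G b D φ n v) {j : ℕ} (hj : j ≤ n) :
    v j ≤ b := by
  induction j with
  | zero => exact H.v0.le
  | succ j ih => exact (H.st j (by omega)).1.trans (ih (by omega))

/-- **The velocities over the labels of the windows of a sequence.** -/
theorem vel_msh (htm : TmC S C₀)
    (hpos : ∀ (τ : ℝ) (J : ℕ) (F : Fam m J) (A : F.Ω → Prop), S.St τ J F A → 0 < Pe F.p A)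
    (hW : ChG S c d sn G) {A D φ b : ℝ} (hA : 0 ≤ A) (hD : 0 < D) (hφ : φ ≤ D / 2)
    (hb1 : 3 * dgj A D d 0 + 6 * D ≤ 1 - b) {n : ℕ} {v : ℕ → ℝ} (H : VMs d sn G b D φ n v)
    {s : ℕ → ℝ → ℝ} (hs : ∀ l < d, ∀ x, sn l x - D ≤ s l x) (hs1 : ∀ l < d, ∀ x, s l x ≤ sn l x)
    {N : ℕ → ℝ} (h1 : ∀ l < d, sn l b + dgj A D d l + 2 * D - b - D / 16 ≤ N l)
    (h3 : ∀ l < d, N l ≤ sn l b + dgj A D d l + 2 * D - b) {j : ℕ} (hj : j ≤ n) :
    Few S (fun J F => ptr F J) (vg b) (fun _ F => F.T)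
      ((htQ m c d b (fun l => sn l b) (fun l => sn l b + dgj A D d l + 2 * D)).prod
        (qG m c d s b (fun i => N i))) (qG m c d s (v j) (fun i => N i)) ∧
    Few S (fun J F => ptr F J) (vg b) (fun _ F => F.T)
      ((htQ m c d b (fun l => sn l b) (fun l => sn l b + dgj A D d l + 2 * D)).prod
        (qG m c d s (v j) (fun i => N i))) (qG m c d s b (fun i => N i)) := by
  have hb : b ∈ G := by
    rw [← H.v0]
    exact H.mem 0 (Nat.zero_le _)
  have key : ∀ i ≤ n, ∀ k ≤ n, ∀ W ∈ G, W ≤ b → (∀ l < d, |sn l W - sn l b - (W - b)| ≤ φ) →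
      v i ≤ W → v k ≤ W → W ≤ v i + D → W ≤ v k + D → Few S (fun J F => ptr F J) (vg b)
        (fun _ F => F.T)
        ((htQ m c d b (fun l => sn l b) (fun l => sn l b + dgj A D d l + 2 * D)).prod
          (qG m c d s (v i) (fun i => N i))) (qG m c d s (v k) (fun i => N i)) :=
    fun i hi k hk W hWG hWb sW x1 x2 x3 x4 => vel_st htm hpos hW hA hD hφ hb1 hb hWG hWb x1 x2 x3 x4
      sW (fun l hl => H.sl l hl i hi) (fun l hl => H.sl l hl k hk) (fun l hl => hs l hl _)
      (fun l hl => hs l hl _) h1 (fun _ _ => le_rfl) h3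
  induction j with
  | zero =>
    have h := key 0 hj 0 hj b hb le_rfl (fun l hl => by
      have := H.sl l hl 0 hj
      rw [H.v0] at this
      exact this) (H.v0.le) (H.v0.le) (by
        rw [H.v0]
        linarith only [hD]) (by
        rw [H.v0]
        linarith only [hD])
    rw [H.v0] at h ⊢
    exact ⟨h, h⟩
  | succ j ih =>
    obtain ⟨i1, i2⟩ := ih (by omega)
    obtain ⟨s1, s2⟩ := H.st j (by omega)
    have hm := H.mem j (by omega)
    have k1 := key j (by omega) (j + 1) hj (v j) hm (H.le (by omega))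
      (fun l hl => H.sl l hl j (by omega)) le_rfl s1 (by linarith only [hD]) s2
    have k2 := key (j + 1) hj j (by omega) (v j) hm (H.le (by omega))
      (fun l hl => H.sl l hl j (by omega)) s1 le_rfl s2 (by linarith only [hD])
    have x1 := exs_qG hW hm (s := s) (fun l hl => hs1 l hl (v j)) (fun i : Fin d => N i)
    exact ⟨few_via hpos x1 i1 k1, few_via hpos x1 k2 i2⟩

end

end Pool.TE46
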